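import Mathlib

set_option autoImplicit false

namespace Pool.Agent.MP_cdfc49_an.BZ

/-- The coefficient of `(z/2)^(2m)` in `G_{ν,n}`. -/
noncomputable def cf (ν : ℝ) (n m : ℕ) : ℝ :=
  (-1) ^ m * (∏ j ∈ Finset.range n, (ν + 2 * (m : ℝ) - (j : ℝ))) /
    ((m.factorial : ℝ) * Real.Gamma (ν + (m : ℝ) + 1))

/-- The entire function `G_{ν,n}` whose zeros are the non-zero zeros of the `n`-th derivative
of the Bessel function `J_ν`. -/
noncomputable def G (ν : ℝ) (n : ℕ) (z : ℂ) : ℂ :=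
  ∑' m : ℕ, (cf ν n m : ℂ) * (z / 2) ^ (2 * m)

/-- The number of zeros of `f` in `U`, counted with multiplicity: a zero `z` of order `k`
contributes the `k` pairs `(z, 0), …, (z, k - 1)`. -/
noncomputable def zeroCount (U : Set ℂ) (f : ℂ → ℂ) : ℕ∞ :=
  Set.encard {p : ℂ × ℕ | p.1 ∈ U ∧ (p.2 : ℕ∞) < analyticOrderAt f p.1}

/-- The conclusion of Q1 for `n, s, ν`: exactly `4 s` non-real zeros, none purely imaginary. -/
def Good (n s : ℕ) (ν : ℝ) : Prop :=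
  zeroCount {z : ℂ | z.im ≠ 0} (G ν n) = ((4 * s : ℕ) : ℕ∞) ∧
    ∀ y : ℝ, y ≠ 0 → G ν n ((y : ℂ) * Complex.I) ≠ 0

end Pool.Agent.MP_cdfc49_an.BZ
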