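import Mathlib
import Pool.Agent.MP_cdfc49_an.BZ.Defs

set_option autoImplicit false

namespace Pool.Agent.MP_cdfc49_an.BZ

open Polynomial Filter Topology

/-- Power series with real coefficients, complex argument. -/
noncomputable def S (c : ℕ → ℝ) (w : ℂ) : ℂ := ∑' m : ℕ, (c m : ℂ) * w ^ m

/-- Power series with real coefficients, real argument. -/
noncomputable def Sr (c : ℕ → ℝ) (x : ℝ) : ℝ := ∑' m : ℕ, c m * x ^ m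

/-- Infinite radius of convergence. -/
def Adm (c : ℕ → ℝ) : Prop := ∀ R : ℝ, 0 ≤ R → Summable fun m : ℕ => |c m| * R ^ m

/-- Coefficients of the derivative. -/
noncomputable def dc (c : ℕ → ℝ) (m : ℕ) : ℝ := ((m : ℝ) + 1) * c (m + 1)

/-- Coefficients after the operator `b * x * d/dx + a`. -/
noncomputable def mc (b a : ℝ) (c : ℕ → ℝ) (m : ℕ) : ℝ := (b * (m : ℝ) + a) * c m

/-- Jensen type polynomial of degree at most `N`. -/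
noncomputable def tr (c : ℕ → ℝ) (N : ℕ) : ℝ[X] :=
  ∑ m ∈ Finset.range (N + 1), C (c m * ((N.descFactorial m : ℝ) / (N : ℝ) ^ m)) * X ^ m

/-- The operator `b * x * d/dx + a` on polynomials. -/
noncomputable def op (b a : ℝ) (p : ℝ[X]) : ℝ[X] := C b * (X * derivative p) + C a * p

/-- A real polynomial as a function on the complex plane. -/
noncomputable def ev (p : ℝ[X]) (w : ℂ) : ℂ := aeval w p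

/-- Number of distinct positive roots. -/
noncomputable def pc (p : ℝ[X]) : ℕ := (p.roots.toFinset.filter fun x => 0 < x).card

/-- Number of distinct roots in `(0, R]`. -/
noncomputable def pcI (p : ℝ[X]) (R : ℝ) : ℕ :=
  (p.roots.toFinset.filter fun x => 0 < x ∧ x ≤ R).card

/-- The plane without the ray `[0, ∞)`. -/
def U0 : Set ℂ := {w : ℂ | w.im ≠ 0 ∨ w.re < 0}

/-- Uniform convergence on every disc along the filter `l`. -/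
def Conv (l : Filter ℕ) (f : ℕ → ℂ → ℂ) (g : ℂ → ℂ) : Prop :=
  ∀ R ε : ℝ, 0 < ε → ∀ᶠ N in l, ∀ w : ℂ, ‖w‖ ≤ R → ‖f N w - g w‖ ≤ ε

/-- `F_n` on the real line. -/
noncomputable def Fr (ν : ℝ) (n : ℕ) (x : ℝ) : ℝ := Sr (cf ν n) x

/-- The derivative of `F_n` on the real line. -/
noncomputable def Dr (ν : ℝ) (n : ℕ) (x : ℝ) : ℝ := Sr (dc (cf ν n)) x

/-- Not an integer. -/
def NI (ν : ℝ) : Prop := ∀ k : ℤ, ν ≠ (k : ℝ)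

/-- Some `F_j` changes sign before the first zero of an earlier `F_i`. -/
def Gain (ν : ℝ) (n : ℕ) : Prop :=
  ∃ (i j : ℕ) (w : ℝ), ν < (i : ℝ) ∧ i < j ∧ j ≤ n ∧ 0 < w ∧
    (∀ x ∈ Set.Icc (0 : ℝ) w, Fr ν i x ≠ 0) ∧ Fr ν j 0 * Fr ν j w < 0

/-- The invariant of the exact count. -/
def Inv (c : ℕ → ℝ) (P : ℕ) : Prop :=
  (∀ m, c m ≠ 0) ∧ Adm c ∧
  (∃ R : ℝ, 0 ≤ R ∧ ∀ᶠ N in atTop, ∀ w ∈ U0, ev (tr c N) w = 0 → ‖w‖ ≤ R) ∧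
  (∀ᶠ N in atTop, (∀ x : ℝ, 0 < x → (tr c N).eval x = 0 → (derivative (tr c N)).eval x ≠ 0) ∧
    pc (tr c N) + P = N) ∧
  (∀ M : ℕ, ∃ R : ℝ, 0 ≤ R ∧ ∀ᶠ N in atTop, M ≤ pcI (tr c N) R)

/-! ### Series -/

def SUM : Prop := ∀ (ν : ℝ) (n : ℕ), Adm (cf ν n)

def GEN1 : Prop := ∀ c : ℕ → ℝ, Adm c →
  Adm (dc c) ∧ (∀ b a : ℝ, Adm (mc b a c)) ∧ Differentiable ℂ (S c) ∧
  (∀ w : ℂ, HasDerivAt (S c) (S (dc c) w) w) ∧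
  (∀ x : ℝ, S c (x : ℂ) = (Sr c x : ℂ)) ∧
  (∀ w : ℂ, S c (starRingEnd ℂ w) = starRingEnd ℂ (S c w)) ∧
  (∀ x : ℝ, HasDerivAt (Sr c) (Sr (dc c) x) x) ∧
  (∀ x : ℝ, HasSum (fun m : ℕ => c m * x ^ m) (Sr c x)) ∧
  Sr c 0 = c 0 ∧
  (∀ b a x : ℝ, Sr (mc b a c) x = b * x * Sr (dc c) x + a * Sr c x)

def GEN2 : Prop := ∀ c : ℕ → ℝ, Adm c →
  Conv atTop (fun N => ev (tr c N)) (S c) ∧
  Conv atTop (fun N => ev (derivative (tr c N))) (S (dc c))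

def GEN3 : Prop :=
  (∀ (c : ℕ → ℝ) (N : ℕ),
    (∀ b a : ℝ, tr (mc b a c) N = op b a (tr c N)) ∧ (tr c N).natDegree ≤ N ∧
    (tr c N).eval 0 = c 0 ∧ (c N ≠ 0 → (tr c N).natDegree = N)) ∧
  (∀ p : ℝ[X], Differentiable ℂ (ev p) ∧ (∀ x : ℝ, ev p (x : ℂ) = ((p.eval x : ℝ) : ℂ)) ∧
    ∀ w : ℂ, ev p (starRingEnd ℂ w) = starRingEnd ℂ (ev p w)) ∧
  (∀ (ν : ℝ) (n : ℕ), cf ν (n + 1) = mc 2 (ν - (n : ℝ)) (cf ν n)) ∧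
  (∀ ν : ℝ, cf (ν - 1) 0 = mc 1 ν (cf ν 0)) ∧
  (∀ (ν : ℝ) (m : ℕ), dc (cf (ν - 1) 0) m = -cf ν 0 m) ∧
  (∀ (ν : ℝ) (n m : ℕ), NI ν → cf ν n m ≠ 0)

/-- Real convergence of the Jensen polynomials and their derivatives on bounded sets. -/
def GEN4 : Prop := ∀ c : ℕ → ℝ, Adm c → ∀ R ε : ℝ, 0 < ε → ∀ᶠ N in atTop, ∀ x : ℝ, |x| ≤ R →
  |(tr c N).eval x - Sr c x| ≤ ε ∧ |(derivative (tr c N)).eval x - Sr (dc c) x| ≤ ε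

def REL : Prop := ∀ ν x : ℝ,
  (∀ n : ℕ, HasDerivAt (Fr ν n) (Dr ν n x) x ∧
    2 * x * Dr ν n x = Fr ν (n + 1) x - (ν - (n : ℝ)) * Fr ν n x) ∧
  (∀ n : ℕ, Fr ν n 0 = cf ν n 0) ∧
  Fr (ν - 1) 0 x = x * Dr ν 0 x + ν * Fr ν 0 x ∧
  Dr (ν - 1) 0 x = -Fr ν 0 x ∧
  Fr ν 2 x = -Fr ν 1 x - (4 * x - ν ^ 2) * Fr ν 0 x ∧
  Fr ν 3 x = (2 - (4 * x - ν ^ 2)) * Fr ν 1 x + ((4 * x - ν ^ 2) - 2 * ν ^ 2) * Fr ν 0 x ∧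
  Fr ν 4 x = (2 * (4 * x - ν ^ 2) - 4 * ν ^ 2 - 6) * Fr ν 1 x +
    ((4 * x - ν ^ 2) ^ 2 - 3 * (4 * x - ν ^ 2) + 8 * ν ^ 2) * Fr ν 0 x

/-- Ratio of consecutive coefficients. -/
def RAT : Prop := ∀ (ν : ℝ) (n m : ℕ),
  cf ν n (m + 1) * (((m : ℝ) + 1) * (ν + (m : ℝ) + 1) * (ν + 2 * (m : ℝ) + 2 - (n : ℝ)) *
    (ν + 2 * (m : ℝ) + 1 - (n : ℝ))) =
  -((ν + 2 * (m : ℝ) + 2) * (ν + 2 * (m : ℝ) + 1)) * cf ν n m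

/-- The tail of an alternating series with decreasing terms has the sign of its first term. -/
def ALT : Prop := ∀ (a : ℕ → ℝ) (s : ℝ) (k : ℕ), HasSum a s →
  (∀ m, k ≤ m → a (m + 1) * a m ≤ 0 ∧ |a (m + 1)| ≤ |a m|) →
  0 ≤ a k * (s - ∑ m ∈ Finset.range k, a m)

/-- Weighted derivatives on the positive and on the negative axis. -/
def WD : Prop := ∀ ν x : ℝ, 0 < x →
  (∀ n : ℕ, HasDerivAt (fun t : ℝ => t ^ ((ν - (n : ℝ)) / 2) * Fr ν n t)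
    (x ^ ((ν - (n : ℝ)) / 2) * Fr ν (n + 1) x / (2 * x)) x) ∧
  HasDerivAt (fun t : ℝ => t ^ (ν / 2) * Fr ν 1 t)
    (-(4 * x - ν ^ 2) * (x ^ (ν / 2) * Fr ν 0 x) / (2 * x)) x ∧
  (∀ n : ℕ, HasDerivAt (fun t : ℝ => t ^ ((ν - (n : ℝ)) / 2) * Fr ν n (-t))
    (x ^ ((ν - (n : ℝ)) / 2) * Fr ν (n + 1) (-x) / (2 * x)) x) ∧
  HasDerivAt (fun t : ℝ => t ^ (ν / 2) * Fr ν 1 (-t))
    ((4 * x + ν ^ 2) * (x ^ (ν / 2) * Fr ν 0 (-x)) / (2 * x)) x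

/-! ### Real polynomials -/

def ROL : Prop := ∀ (b a : ℝ) (p : ℝ[X]), 0 < b → op b a p ≠ 0 →
  pc p ≤ pc (op b a p) + 1 ∧
  (0 < a → pc p ≤ pc (op b a p)) ∧
  (∀ w : ℝ, (∀ x ∈ Set.Ioc (0 : ℝ) w, p.eval x ≠ 0) →
    (∃ x ∈ Set.Ioc (0 : ℝ) w, (op b a p).eval x = 0) → pc p ≤ pc (op b a p)) ∧
  (∀ R : ℝ, pcI p R ≤ pcI (op b a p) R + 1)

def CNT : Prop := ∀ (b a : ℝ) (p : ℝ[X]), 0 < b → a < 0 → p.eval 0 ≠ 0 →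
  0 < b * (p.natDegree : ℝ) + a →
  (∀ x : ℝ, 0 < x → (op b a p).eval x = 0 → p.eval x * (derivative (op b a p)).eval x < 0) →
  pc (op b a p) + 1 ≤ pc p

def FAR : Prop := ∀ (b a R T : ℝ) (P M : ℕ) (p : ℝ[X]), 0 < b → 0 ≤ R → 0 ≤ T → p ≠ 0 →
  (∀ x : ℝ, 0 < x → p.eval x = 0 → (derivative p).eval x ≠ 0) →
  pc p + P = p.natDegree → (∀ w ∈ U0, ev p w = 0 → ‖w‖ ≤ R) → M ≤ pcI p T →
  16 * b * (P : ℝ) + 4 * |a| < b * (M : ℝ) →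
  (∀ w ∈ U0, 2 * (R + T) < ‖w‖ → ev (op b a p) w ≠ 0) ∧
  (∀ x : ℝ, 2 * (R + T) < x → (op b a p).eval x = 0 →
    p.eval x * (derivative (op b a p)).eval x < 0)

def LAG : Prop := ∀ (α : ℝ) (N : ℕ), -1 < α → N ≤ pc (tr (cf α 0) N)

/-! ### Counting zeros -/

def ZC : Prop :=
  (∀ (U : Set ℂ) (g : ℂ → ℂ) (z : ℂ), Differentiable ℂ g →
    (z ∈ U → zeroCount U (fun w => (w - z) * g w) = zeroCount U g + 1) ∧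
    (z ∉ U → zeroCount U (fun w => (w - z) * g w) = zeroCount U g)) ∧
  (∀ (U : Set ℂ) (f : ℂ → ℂ), Differentiable ℂ f → (zeroCount U f = 0 ↔ ∀ z ∈ U, f z ≠ 0)) ∧
  (∀ (U V : Set ℂ) (f : ℂ → ℂ), Differentiable ℂ f → (∀ z ∈ U, f z = 0 → z ∈ V) →
    zeroCount U f ≤ zeroCount V f) ∧
  (∀ (U : Set ℂ) (f : ℂ → ℂ) (z w : ℂ), Differentiable ℂ f → z ∈ U → w ∈ U → z ≠ w →
    f z = 0 → f w = 0 → 2 ≤ zeroCount U f)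

def ZCP : Prop := ∀ p : ℝ[X], p ≠ 0 →
  zeroCount U0 (ev p) + (pc p : ℕ∞) ≤ (p.natDegree : ℕ∞) ∧
  (p.eval 0 ≠ 0 → (∀ x : ℝ, 0 < x → p.eval x = 0 → (derivative p).eval x ≠ 0) →
    (p.natDegree : ℕ∞) ≤ zeroCount U0 (ev p) + (pc p : ℕ∞))

def MM : Prop := ∀ (f : ℂ → ℂ) (c : ℂ) (r : ℝ), Differentiable ℂ f → 0 < r →
  (∀ z ∈ Metric.sphere c r, ‖f c‖ < ‖f z‖) → ∃ z ∈ Metric.ball c r, f z = 0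

def DS : Prop := ∀ (l : Filter ℕ) (f : ℕ → ℂ → ℂ) (g : ℂ → ℂ) (z : ℕ → ℂ) (z0 : ℂ),
  (∀ N, Differentiable ℂ (f N)) → Differentiable ℂ g → Conv l f g → Tendsto z l (𝓝 z0) →
  Conv l (fun N => dslope (f N) (z N)) (dslope g z0)

def HB : Prop := ∀ (l : Filter ℕ) (f : ℕ → ℂ → ℂ) (g : ℂ → ℂ) (z0 : ℂ),
  (∀ N, Differentiable ℂ (f N)) → Differentiable ℂ g → Conv l f g → (∃ w, g w ≠ 0) → g z0 = 0 →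
  ∃ z : ℕ → ℂ, Tendsto z l (𝓝 z0) ∧ ∀ᶠ N in l, f N (z N) = 0

def HU : Prop := ∀ (U : Set ℂ) (d : ℕ) (l : Filter ℕ) (f : ℕ → ℂ → ℂ) (g : ℂ → ℂ),
  IsOpen U → l.NeBot → (∀ N, Differentiable ℂ (f N)) → Differentiable ℂ g → Conv l f g →
  (∃ w, g w ≠ 0) → (∀ᶠ N in l, zeroCount U (f N) ≤ (d : ℕ∞)) → zeroCount U g ≤ (d : ℕ∞)

def HL : Prop := ∀ (K : Set ℂ) (d : ℕ) (l : Filter ℕ) (f : ℕ → ℂ → ℂ) (g : ℂ → ℂ),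
  IsCompact K → l.NeBot → (∀ N, Differentiable ℂ (f N)) → Differentiable ℂ g → Conv l f g →
  (∀ᶠ N in l, (d : ℕ∞) ≤ zeroCount K (f N)) → (d : ℕ∞) ≤ zeroCount K g

def NA : Prop := ∀ (f : ℕ → ℂ → ℂ) (g : ℂ → ℂ) (R : ℝ),
  (∀ N, Differentiable ℂ (f N)) → Differentiable ℂ g → Conv atTop f g →
  (∀ N w, f N (starRingEnd ℂ w) = starRingEnd ℂ (f N w)) → g 0 ≠ 0 →
  (∀ x : ℝ, 0 < x → g (x : ℂ) = 0 → deriv g (x : ℂ) ≠ 0) →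
  ∃ δ : ℝ, 0 < δ ∧ ∀ᶠ N in atTop, ∀ w ∈ U0, ‖w‖ ≤ R → f N w = 0 → δ ≤ |w.im| ∨ w.re ≤ -δ

def TR : Prop := ∀ f : ℂ → ℂ, Differentiable ℂ f →
  zeroCount {z : ℂ | z.im ≠ 0} (fun z => f ((z / 2) ^ 2)) = 2 * zeroCount U0 f

/-! ### The chain -/

def SIM : Prop := ∀ ν x : ℝ, x ≠ 0 → Fr ν 0 x = 0 → Fr ν 1 x ≠ 0

def OSC : Prop := ∀ ν T : ℝ, (∃ x, T < x ∧ 0 < Fr ν 0 x) ∧ (∃ x, T < x ∧ Fr ν 0 x < 0)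

def BASE : Prop := ∀ α : ℝ, -1 < α → Inv (cf α 0) 0

def STEP : Prop := ∀ (c : ℕ → ℝ) (P : ℕ) (b a : ℝ), Inv c P → 0 < b → a < 0 →
  (∀ m : ℕ, b * (m : ℝ) + a ≠ 0) →
  (∀ x : ℝ, 0 < x → Sr (mc b a c) x = 0 → Sr c x * Sr (dc (mc b a c)) x < 0) →
  Inv (mc b a c) (P + 1)

def FIN : Prop := ∀ (c : ℕ → ℝ) (P : ℕ), Inv c P →
  (∀ x : ℝ, 0 < x → Sr c x = 0 → Sr (dc c) x ≠ 0) → zeroCount U0 (S c) = (P : ℕ∞)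

/-- Rolle count along the chain of polynomials. -/
def UPP : Prop := ∀ (ν : ℝ) (n K : ℕ), NI ν → (n : ℝ) - (K : ℝ) - 1 < ν →
  ∀ N : ℕ, N ≤ pc (tr (cf ν n) N) + K

def UPG : Prop := ∀ (ν : ℝ) (n K : ℕ), NI ν → (n : ℝ) - (K : ℝ) - 1 < ν → Gain ν n →
  ∀ᶠ N in atTop, N + 1 ≤ pc (tr (cf ν n) N) + K

def UP : Prop := ∀ (ν : ℝ) (n K : ℕ), NI ν → (n : ℝ) - (K : ℝ) - 1 < ν →
  zeroCount U0 (S (cf ν n)) ≤ (K : ℕ∞) ∧ (Gain ν n → zeroCount U0 (S (cf ν n)) < (K : ℕ∞))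

def G3 : Prop := ∀ ν : ℝ, NI ν → ν < -1 → Gain ν 3

def G4 : Prop := ∀ ν : ℝ, NI ν → ν < 1 → Gain ν 4

def GS : Prop := ∀ (m : ℕ) (ν : ℝ), 2 ≤ m → (m : ℝ) - 1 < ν → ν < (m : ℝ) → Gain ν (m + 3)

def CONT : Prop := Continuous fun p : ℝ × ℝ => Fr p.1 0 p.2

def POSK : Prop := ∀ k : ℕ, 0 < Fr (k : ℝ) 0 ((k : ℝ) ^ 2 / 4) ∧
  ∀ x : ℝ, Fr (-(k : ℝ)) 0 x = (-x) ^ k * Fr (k : ℝ) 0 x

def SPC : Prop := ∀ k : ℕ, ∃ ν : ℝ, -(k : ℝ) - 1 < ν ∧ ν < -(k : ℝ) ∧ Fr ν 0 (ν ^ 2 / 4) = 0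

def RT0 : Prop := ∀ ν : ℝ, ν ≠ 0 → Fr ν 0 (ν ^ 2 / 4) = 0 → ∀ x : ℝ, 0 < x → x < ν ^ 2 / 4 →
  Fr ν 0 x * Fr ν 1 (ν ^ 2 / 4) < 0 ∧ 0 < Fr ν 1 x * Fr ν 1 (ν ^ 2 / 4)

def RT : Prop := ∀ ν : ℝ, ν ≠ 0 → Fr ν 0 (ν ^ 2 / 4) = 0 →
  (∀ x : ℝ, 0 < x → Fr ν 1 x = 0 → Fr ν 0 x * Dr ν 1 x < 0) ∧
  (∀ x : ℝ, 0 < x → Fr ν 2 x = 0 → Fr ν 1 x * Dr ν 2 x < 0)

def EXA : Prop := ∀ (k n : ℕ) (ν : ℝ), n ≤ 2 → -(k : ℝ) - 1 < ν → ν < -(k : ℝ) →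
  Fr ν 0 (ν ^ 2 / 4) = 0 → zeroCount U0 (S (cf ν n)) = ((k + n : ℕ) : ℕ∞)

def PINF : Prop :=
  (∀ ν T : ℝ, ∃ t, T < t ∧ 0 < Fr ν 0 (-t)) ∧
  (∀ (k : ℕ) (ν : ℝ), -(k : ℝ) - 1 < ν → ν < -(k : ℝ) → 0 < (-1) ^ k * cf ν 0 0)

def NEG : Prop := ∀ (k n : ℕ) (ν : ℝ), n ≤ 2 → 1 ≤ k → Even (k + n) → -(k : ℝ) - 1 < ν →
  ν < -(k : ℝ) → ∀ t : ℝ, 0 < t → Fr ν n (-t) ≠ 0

def NEG1 : Prop := ∀ (n : ℕ) (ν : ℝ), 2 ≤ n → (n : ℝ) - 3 < ν → ν < (n : ℝ) - 2 →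
  ∀ t : ℝ, 0 < t → 0 < Fr ν n (-t)

def LOC : Prop := ∀ n : ℕ, 3 ≤ n → ∃ ν : ℝ, (n : ℝ) - 3 < ν ∧ ν < (n : ℝ) - 2 ∧
  ∃ w : ℂ, w.im ≠ 0 ∧ S (cf ν n) w = 0

def MAIN : Prop := ∀ n s : ℕ, 1 ≤ s →
  ((∃ ν : ℝ, (n : ℝ) - 2 * (s : ℝ) - 1 < ν ∧ ν < (n : ℝ) - 2 * (s : ℝ) ∧ Good n s ν) ↔
    (n ≤ 2 ∨ s = 1))

end Pool.Agent.MP_cdfc49_an.BZ
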