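import Mathlib
import Pool.Agent.MP_cdfc49_an.BZ.Spec

set_option autoImplicit false

namespace Pool.Agent.MP_cdfc49_an.BZ

open Filter Topology Set Polynomial

theorem zc_order {g : ℂ → ℂ} (hg : Differentiable ℂ g) (z w : ℂ) :
    analyticOrderAt (fun w => (w - z) * g w) w =
      (if w = z then 1 else 0) + analyticOrderAt g w := by
  have a : AnalyticAt ℂ (fun w : ℂ => w - z) w := by fun_prop
  have := analyticOrderAt_mul a (hg.analyticAt w)
  rw [show (fun w => (w - z) * g w) = (fun w : ℂ => w - z) * g from rfl, this]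
  congr 1
  split_ifs with h
  · exact a.analyticOrderAt_eq_one_of_zero_deriv_ne_zero (sub_eq_zero.2 h) (by simp)
  · exact a.analyticOrderAt_eq_zero.2 (sub_ne_zero.2 h)

theorem zc_lt (k : ℕ) (a : ℕ∞) : ((k + 1 : ℕ) : ℕ∞) < 1 + a ↔ (k : ℕ∞) < a := by
  induction a using ENat.recTopCoe with
  | top => simp
  | coe a =>
    rw [show (1 : ℕ∞) + (a : ℕ∞) = ((1 + a : ℕ) : ℕ∞) by push_cast; rfl, Nat.cast_lt, Nat.cast_lt]
    omega

theorem zc_mem {f : ℂ → ℂ} (hf : Differentiable ℂ f) (z : ℂ) :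
    ((0 : ℕ) : ℕ∞) < analyticOrderAt f z ↔ f z = 0 := by
  rw [Nat.cast_zero, pos_iff_ne_zero, (hf.analyticAt z).analyticOrderAt_ne_zero]

theorem zc : ZC := by
  refine ⟨fun U g z hg => ⟨fun hz => ?_, fun hz => ?_⟩, fun U f hf => ?_, fun U V f hf h => ?_,
    fun U f z w hf hz hw hzw e1 e2 => ?_⟩
  · classical
    set φ : ℂ × ℕ → ℂ × ℕ := fun p => if p.1 = z then (p.1, p.2 + 1) else p with hφ
    have inj : Function.Injective φ := by
      rintro ⟨a, i⟩ ⟨b, j⟩ h
      simp only [hφ] at h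
      split_ifs at h with h1 h2 h2
      · simp only [Prod.mk.injEq] at h ⊢; exact ⟨h.1, by omega⟩
      · simp only [Prod.mk.injEq] at h; exact absurd (h.1 ▸ h1) h2
      · simp only [Prod.mk.injEq] at h; exact absurd (h.1 ▸ h2) h1
      · exact h
    have nm : (z, 0) ∉ φ '' {p : ℂ × ℕ | p.1 ∈ U ∧ (p.2 : ℕ∞) < analyticOrderAt g p.1} := by
      rintro ⟨⟨a, i⟩, -, h⟩
      simp only [hφ] at h
      split_ifs at h with h1
      · simp at h
      · simp only [Prod.mk.injEq] at h; exact h1 h.1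
    rw [zeroCount, zeroCount, ← inj.encard_image
      {p : ℂ × ℕ | p.1 ∈ U ∧ (p.2 : ℕ∞) < analyticOrderAt g p.1}, ← encard_insert_of_notMem nm]
    congr 1
    ext ⟨a, i⟩
    simp only [mem_ofPred_eq, zc_order hg, mem_insert_iff, mem_image]
    constructor
    · rintro ⟨h1, h2⟩
      by_cases c : a = z
      · subst c
        rcases i with _ | i
        · exact Or.inl rfl
        · rw [if_pos rfl, zc_lt] at h2
          exact Or.inr ⟨(a, i), ⟨h1, h2⟩, by simp [hφ]⟩
      · rw [if_neg c, zero_add] at h2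
        exact Or.inr ⟨(a, i), ⟨h1, h2⟩, by simp [hφ, c]⟩
    · rintro (h | ⟨⟨b, j⟩, ⟨h1, h2⟩, h⟩)
      · simp only [Prod.mk.injEq] at h
        obtain ⟨rfl, rfl⟩ := h
        refine ⟨hz, ?_⟩
        rw [if_pos rfl, Nat.cast_zero]
        exact lt_of_lt_of_le zero_lt_one le_self_add
      · simp only [hφ] at h
        split_ifs at h with c
        · simp only [Prod.mk.injEq] at h
          obtain ⟨rfl, rfl⟩ := h
          exact ⟨h1, by rw [if_pos c, zc_lt]; exact h2⟩
        · simp only [Prod.mk.injEq] at h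
          obtain ⟨rfl, rfl⟩ := h
          exact ⟨h1, by rw [if_neg c, zero_add]; exact h2⟩
  · rw [zeroCount, zeroCount]
    congr 1
    ext ⟨a, i⟩
    simp only [mem_ofPred_eq, zc_order hg]
    refine and_congr_right fun h => ?_
    rw [if_neg (fun c : a = z => hz (c ▸ h)), zero_add]
  · rw [zeroCount, encard_eq_zero, eq_empty_iff_forall_notMem]
    constructor
    · intro h z hz e
      exact h (z, 0) ⟨hz, (zc_mem hf z).2 e⟩
    · rintro h ⟨z, i⟩ ⟨h1, h2⟩
      exact h z h1 ((zc_mem hf z).1 (lt_of_le_of_lt (by simp) h2))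
  · refine encard_le_encard ?_
    rintro ⟨z, i⟩ ⟨h1, h2⟩
    exact ⟨h z h1 ((zc_mem hf z).1 (lt_of_le_of_lt (by simp) h2)), h2⟩
  · rw [← encard_pair (show ((z, 0) : ℂ × ℕ) ≠ (w, 0) from fun h => hzw (congrArg Prod.fst h))]
    refine encard_le_encard ?_
    rintro p (rfl | rfl)
    · exact ⟨hz, (zc_mem hf z).2 e1⟩
    · exact ⟨hw, (zc_mem hf w).2 e2⟩

theorem tr' : TR := by
  intro f _
  have ord : ∀ z : ℂ, z.im ≠ 0 →
      analyticOrderAt (fun z => f ((z / 2) ^ 2)) z = analyticOrderAt f ((z / 2) ^ 2) := by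
    intro z hz
    have z0 : z ≠ 0 := fun h => hz (by simp [h])
    refine analyticOrderAt_comp_of_deriv_ne_zero (f := f) (g := fun z : ℂ => (z / 2) ^ 2)
      (by fun_prop) ?_
    rw [(((hasDerivAt_id' z).div_const 2).fun_pow 2).deriv]
    simp [z0]
  have half : ∀ σ : ℝ, σ ≠ 0 → encard {p : ℂ × ℕ | 0 < σ * p.1.im ∧
      (p.2 : ℕ∞) < analyticOrderAt (fun z => f ((z / 2) ^ 2)) p.1} = zeroCount U0 f := by
    intro σ hσ
    have nz : ∀ z : ℂ, 0 < σ * z.im → z.im ≠ 0 := fun z h => right_ne_zero_of_mul h.ne'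
    rw [zeroCount, ← InjOn.encard_image (f := fun p : ℂ × ℕ => ((p.1 / 2) ^ 2, p.2))]
    · congr 1
      ext ⟨w, i⟩
      simp only [mem_image, mem_ofPred_eq, Prod.mk.injEq]
      constructor
      · rintro ⟨⟨z, j⟩, ⟨h1, h2⟩, rfl, rfl⟩
        refine ⟨?_, by rwa [ord z (nz z h1)] at h2⟩
        have := nz z h1
        by_cases c : z.re = 0
        · right
          simpa [sq, c] using this
        · left
          simp [sq]
          intro h
          exact mul_ne_zero c this (by linarith)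
      · rintro ⟨h1, h2⟩
        obtain ⟨u, hu⟩ := IsAlgClosed.exists_pow_nat_eq w (n := 2) (by norm_num)
        have ui : u.im ≠ 0 := by
          intro h
          rw [← hu] at h1
          rcases h1 with c | c
          · exact c (by simp [sq, h])
          · simp [sq, h] at c
            linarith [mul_self_nonneg u.re]
        rcases lt_or_gt_of_ne (mul_ne_zero hσ ui) with c | c
        · have e : (-(2 * u) / 2) ^ 2 = w := by rw [← hu]; ring
          have p : 0 < σ * (-(2 * u)).im := by simp; linarith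
          exact ⟨(-(2 * u), i), ⟨p, by rw [ord _ (nz _ p), e]; exact h2⟩, e, rfl⟩
        · have e : (2 * u / 2) ^ 2 = w := by rw [← hu]; ring
          have p : 0 < σ * (2 * u).im := by simp; linarith
          exact ⟨(2 * u, i), ⟨p, by rw [ord _ (nz _ p), e]; exact h2⟩, e, rfl⟩
    · rintro ⟨a, i⟩ ⟨a1, -⟩ ⟨b, j⟩ ⟨b1, -⟩ h
      simp only [Prod.mk.injEq] at h ⊢
      refine ⟨?_, h.2⟩
      rcases sq_eq_sq_iff_eq_or_eq_neg.1 h.1 with c | c
      · linear_combination 2 * c
      · have : a = -b := by linear_combination 2 * c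
        simp only [this, Complex.neg_im] at a1 b1
        linarith
  rw [two_mul]
  nth_rewrite 1 [← half 1 one_ne_zero]
  rw [← half (-1) (by norm_num), ← encard_union_eq, zeroCount]
  · congr 1
    ext ⟨z, i⟩
    simp only [mem_ofPred_eq, mem_union, ← or_and_right]
    refine and_congr_left fun _ => ⟨fun h => ?_, fun h c => ?_⟩
    · rcases lt_or_gt_of_ne h with c | c
      · right; linarith
      · left; linarith
    · rw [c] at h
      simp at h
  · rw [disjoint_left]
    rintro p ⟨a, -⟩ ⟨b, -⟩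
    linarith

theorem mm : MM := by
  intro f c r hf hr h
  by_contra hc
  push Not at hc
  have ne : ∀ z ∈ closure (Metric.ball c r), f z ≠ 0 := by
    intro z hz
    rw [closure_ball c hr.ne'] at hz
    rcases (Metric.mem_closedBall.1 hz).lt_or_eq with d | d
    · exact hc z d
    · exact norm_pos_iff.1 ((norm_nonneg _).trans_lt (h z d))
  obtain ⟨z, z1, z2⟩ := Complex.exists_mem_frontier_isMaxOn_norm (f := fun z => (f z)⁻¹)
    Metric.isBounded_ball ⟨c, Metric.mem_ball_self hr⟩
    (DifferentiableOn.diffContOnCl (hf.differentiableOn.inv ne))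
  rw [frontier_ball c hr.ne'] at z1
  have k := z2 (subset_closure (Metric.mem_ball_self hr))
  simp only [mem_ofPred_eq, Function.comp, norm_inv] at k
  have p := norm_pos_iff.2 (hc c (Metric.mem_ball_self hr))
  have := (inv_le_inv₀ p (p.trans (h z z1))).1 k
  linarith [h z z1]

theorem ds_diff {f : ℂ → ℂ} (hf : Differentiable ℂ f) (a : ℂ) : Differentiable ℂ (dslope f a) :=
  differentiableOn_univ.1 ((Complex.differentiableOn_dslope univ_mem).2 hf.differentiableOn)

theorem conv_tendsto {l : Filter ℕ} {f : ℕ → ℂ → ℂ} {g : ℂ → ℂ} {z : ℕ → ℂ} {z0 : ℂ}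
    (hg : Differentiable ℂ g) (h : Conv l f g) (hz : Tendsto z l (𝓝 z0)) :
    Tendsto (fun N => f N (z N)) l (𝓝 (g z0)) := by
  have a : Tendsto (fun N => f N (z N) - g (z N)) l (𝓝 0) := by
    rw [tendsto_zero_iff_norm_tendsto_zero]
    refine tendsto_order.2 ⟨fun ε hε => Eventually.of_forall fun N => hε.trans_le (norm_nonneg _),
      fun ε hε => ?_⟩
    filter_upwards [h (‖z0‖ + 1) (ε / 2) (by linarith),
      hz.norm.eventually (ge_mem_nhds (show ‖z0‖ < ‖z0‖ + 1 by linarith))] with N a b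
    linarith [a _ b]
  simpa using a.add ((hg.continuous.tendsto z0).comp hz)

theorem ds : DS := by
  intro l f g z z0 hf hg h hz R ε hε
  set T := max R (‖z0‖ + 2) with hT
  have T1 : ‖z0‖ + 2 ≤ T := le_max_right _ _
  have T0 : 0 < T := by linarith [norm_nonneg z0]
  obtain ⟨B, hB⟩ := (isCompact_sphere (0 : ℂ) T).exists_bound_of_continuousOn
    (ds_diff hg z0).continuous.continuousOn
  have t1 : Tendsto (fun N => ‖f N (z N) - g z0‖ + ‖z N - z0‖ * B) l (𝓝 0) := by
    have a := (tendsto_iff_norm_sub_tendsto_zero.1 (conv_tendsto hg h hz)).add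
      ((tendsto_iff_norm_sub_tendsto_zero.1 hz).mul_const B)
    simpa using a
  filter_upwards [h T (ε / 2) (by linarith), t1.eventually (ge_mem_nhds (half_pos hε)),
    hz.norm.eventually (ge_mem_nhds (show ‖z0‖ < ‖z0‖ + 1 by linarith))] with N a b c w hw
  refine Complex.norm_le_of_forall_mem_frontier_norm_le (U := Metric.ball 0 T)
    (f := fun w => dslope (f N) (z N) w - dslope g z0 w) Metric.isBounded_ball
    ((ds_diff (hf N) _).sub (ds_diff hg _)).diffContOnCl (fun u hu => ?_)
    (by rw [closure_ball _ T0.ne']; exact mem_closedBall_zero_iff.2 (hw.trans (le_max_left _ _)))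
  rw [frontier_ball _ T0.ne'] at hu
  have u1 : ‖u‖ = T := by simpa using hu
  have u2 : 1 ≤ ‖u - z N‖ := by linarith [norm_sub_norm_le u (z N)]
  have e1 := sub_smul_dslope (f N) (z N) u
  have e2 := sub_smul_dslope g z0 u
  rw [smul_eq_mul] at e1 e2
  have e : (u - z N) * (dslope (f N) (z N) u - dslope g z0 u) =
      (f N u - g u) - (f N (z N) - g z0) + (z N - z0) * dslope g z0 u := by
    linear_combination e1 - e2
  have n1 : ‖u - z N‖ * ‖dslope (f N) (z N) u - dslope g z0 u‖ ≤ ε := by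
    rw [← norm_mul, e]
    refine (norm_add_le _ _).trans ?_
    have := norm_sub_le (f N u - g u) (f N (z N) - g z0)
    have := mul_le_mul_of_nonneg_left (hB u hu) (norm_nonneg (z N - z0))
    rw [norm_mul]
    linarith [a u u1.le]
  exact (le_mul_of_one_le_left (norm_nonneg _) u2).trans n1

theorem hb : HB := by
  intro l f g z0 hf hg h ⟨w, hw⟩ e0
  have iso : ∀ᶠ z in 𝓝[≠] z0, g z ≠ 0 := by
    refine ((hg.analyticAt z0).eventually_eq_zero_or_eventually_ne_zero).resolve_left fun c => ?_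
    exact hw ((hg.differentiableOn.analyticOnNhd isOpen_univ).eqOn_zero_of_preconnected_of_eventuallyEq_zero
      isPreconnected_univ (mem_univ z0) c (mem_univ w))
  obtain ⟨δ, hδ, hd⟩ := Metric.eventually_nhds_iff.1 (eventually_nhdsWithin_iff.1 iso)
  have near : ∀ r, 0 < r → ∀ᶠ N in l, ∃ z ∈ Metric.ball z0 r, f N z = 0 := by
    intro r hr
    have ρ0 : 0 < min r (δ / 2) := lt_min hr (half_pos hδ)
    obtain ⟨u, u1, u2⟩ := (isCompact_sphere z0 (min r (δ / 2))).exists_isMinOn
      (NormedSpace.sphere_nonempty.2 ρ0.le) hg.continuous.norm.continuousOn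
    have m0 : 0 < ‖g u‖ := by
      have := Metric.mem_sphere.1 u1
      refine norm_pos_iff.2 (hd (by linarith [min_le_right r (δ / 2)]) fun c => ?_)
      rw [mem_singleton_iff.1 c, dist_self] at this
      linarith
    filter_upwards [h (‖z0‖ + min r (δ / 2)) (‖g u‖ / 3) (by linarith)] with N hN
    obtain ⟨z, z1, z2⟩ := mm (f N) z0 _ (hf N) ρ0 fun z hz => by
      have a := hN z0 (by linarith)
      have b := hN z (by
        have := norm_sub_norm_le z z0
        rw [mem_sphere_iff_norm] at hz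
        linarith)
      have c : ‖g u‖ ≤ ‖g z‖ := u2 hz
      have d := norm_sub_norm_le (g z) (f N z)
      rw [e0, sub_zero] at a
      rw [norm_sub_rev] at b
      linarith
    exact ⟨z, Metric.ball_subset_ball (min_le_left _ _) z1, z2⟩
  have ch : ∀ N, ∃ z, (∀ u, f N u = 0 → f N z = 0 ∧ dist z0 z ≤ dist z0 u) := by
    intro N
    by_cases c : (f N ⁻¹' {0}).Nonempty
    · obtain ⟨z, z1, z2⟩ := (isClosed_singleton.preimage (hf N).continuous).exists_infDist_eq_dist
        c z0
      exact ⟨z, fun u hu => ⟨z1, z2 ▸ Metric.infDist_le_dist_of_mem hu⟩⟩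
    · exact ⟨0, fun u hu => absurd ⟨u, hu⟩ c⟩
  choose z hz using ch
  refine ⟨z, Metric.tendsto_nhds.2 fun r hr => ?_, ?_⟩
  · filter_upwards [near r hr] with N ⟨u, u1, u2⟩
    rw [dist_comm]
    exact (hz N u u2).2.trans_lt (Metric.mem_ball'.1 u1)
  · filter_upwards [near 1 one_pos] with N ⟨u, _, u2⟩
    exact (hz N u u2).1

theorem ds_fac {f : ℂ → ℂ} {a : ℂ} (h : f a = 0) : f = fun w => (w - a) * dslope f a w := by
  funext w
  rw [← smul_eq_mul, sub_smul_dslope, h, sub_zero]

theorem zc_fac {f : ℂ → ℂ} (hf : Differentiable ℂ f) {U : Set ℂ} {a : ℂ} (ha : a ∈ U)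
    (h : f a = 0) : zeroCount U f = zeroCount U (dslope f a) + 1 := by
  rw [← (zc.1 U _ a (ds_diff hf a)).1 ha, ← ds_fac h]

theorem hu : HU := by
  intro U d l
  induction d with
  | zero =>
    intro f g hU hl hf hg h hw hc
    rw [Nat.cast_zero, nonpos_iff_eq_zero, zc.2.1 U g hg]
    intro z0 hz e
    obtain ⟨z, z1, z2⟩ := hb l f g z0 hf hg h hw e
    obtain ⟨N, ⟨a, b⟩, c⟩ := ((z2.and hc).and (z1.eventually (hU.mem_nhds hz))).exists
    rw [Nat.cast_zero, nonpos_iff_eq_zero, zc.2.1 U _ (hf N)] at b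
    exact b _ c a
  | succ d ih =>
    intro f g hU hl hf hg h hw hc
    by_cases c : zeroCount U g = 0
    · rw [c]; exact zero_le
    · rw [zc.2.1 U g hg] at c
      push Not at c
      obtain ⟨z0, hz, e⟩ := c
      obtain ⟨z, z1, z2⟩ := hb l f g z0 hf hg h hw e
      obtain ⟨w, hw⟩ := hw
      have := ih (fun N => dslope (f N) (z N)) (dslope g z0) hU hl (fun N => ds_diff (hf N) _)
        (ds_diff hg _) (ds l f g z z0 hf hg h z1)
        ⟨w, fun c => hw (by rw [ds_fac e]; simp [c])⟩ (by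
          filter_upwards [z2, hc, z1.eventually (hU.mem_nhds hz)] with N a b c
          rw [zc_fac (hf N) c a, Nat.cast_succ] at b
          exact (ENat.add_le_add_iff_right (by simp)).1 b)
      rw [zc_fac hg hz e, Nat.cast_succ]
      gcongr

theorem hl : HL := by
  intro K d
  induction d with
  | zero => intro l f g _ _ _ _ _ _; simp
  | succ d ih =>
    intro l f g hK hl hf hg h hc
    have ch : ∀ N, ∃ z, ((d + 1 : ℕ) : ℕ∞) ≤ zeroCount K (f N) → z ∈ K ∧ f N z = 0 := by
      intro N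
      by_cases c : zeroCount K (f N) = 0
      · exact ⟨0, fun h => by rw [c] at h; simp at h⟩
      · rw [zc.2.1 K _ (hf N)] at c
        push Not at c
        obtain ⟨z, z1, z2⟩ := c
        exact ⟨z, fun _ => ⟨z1, z2⟩⟩
    choose z hz using ch
    have le : (Ultrafilter.of l : Filter ℕ) ≤ l := Ultrafilter.of_le l
    have hc' := le hc
    have h' : Conv (Ultrafilter.of l) f g := fun R ε hε => le (h R ε hε)
    obtain ⟨z0, k1, k2⟩ := hK.ultrafilter_le_nhds ((Ultrafilter.of l).map z) (by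
      rw [Ultrafilter.coe_map, le_principal_iff, mem_map]
      exact mem_of_superset hc' fun N hN => (hz N hN).1)
    have t : Tendsto z (Ultrafilter.of l) (𝓝 z0) := k2
    have e : g z0 = 0 := tendsto_nhds_unique (conv_tendsto hg h' t)
      (tendsto_const_nhds.congr' (mem_of_superset hc' fun N hN => (hz N hN).2.symm))
    have := ih _ (fun N => dslope (f N) (z N)) (dslope g z0) hK inferInstance
      (fun N => ds_diff (hf N) _) (ds_diff hg _) (ds _ f g z z0 hf hg h' t)
      (mem_of_superset hc' fun N hN => by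
        have b : ((d + 1 : ℕ) : ℕ∞) ≤ zeroCount K (f N) := hN
        rw [zc_fac (hf N) (hz N hN).1 (hz N hN).2, Nat.cast_succ] at b
        exact (ENat.add_le_add_iff_right (by simp)).1 b)
    rw [zc_fac hg k1 e, Nat.cast_succ]
    gcongr

theorem na : NA := by
  intro f g R hf hg h hcj g0 hs
  by_contra hc
  push Not at hc
  have ch : ∀ j : ℕ, ∃ N, j ≤ N ∧ ∃ w ∈ U0, ‖w‖ ≤ R ∧ f N w = 0 ∧
      |w.im| < 1 / ((j : ℝ) + 1) ∧ -(1 / ((j : ℝ) + 1)) < w.re := by
    intro j
    obtain ⟨N, a, b⟩ := ((hc (1 / ((j : ℝ) + 1)) (by positivity)).and_eventually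
      (eventually_ge_atTop j)).exists
    exact ⟨N, b, a⟩
  choose N hN w w1 w2 w3 w4 w5 using ch
  obtain ⟨x, -, φ, hφ, t⟩ := (isCompact_closedBall (0 : ℂ) R).tendsto_subseq (x := w)
    fun j => by simpa using w2 j
  have tN : Tendsto (fun j => N (φ j)) atTop atTop :=
    tendsto_atTop_mono (fun j => hN (φ j)) hφ.tendsto_atTop
  have h' : Conv atTop (fun j => f (N (φ j))) g := fun R ε hε => tN.eventually (h R ε hε)
  have t0 : Tendsto (fun j => 1 / ((φ j : ℝ) + 1)) atTop (𝓝 0) :=
    tendsto_one_div_add_atTop_nhds_zero_nat.comp hφ.tendsto_atTop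
  have xi : x.im = 0 := by
    have := le_of_tendsto_of_tendsto' ((Complex.continuous_im.tendsto x).comp t).abs t0
      fun j => (w4 (φ j)).le
    exact abs_nonpos_iff.1 this
  have xr : 0 ≤ x.re := by
    have := le_of_tendsto_of_tendsto' t0.neg ((Complex.continuous_re.tendsto x).comp t)
      fun j => (w5 (φ j)).le
    simpa using this
  have ex : (x.re : ℂ) = x := Complex.ext (by simp) (by simp [xi])
  have e : g x = 0 := tendsto_nhds_unique (conv_tendsto hg h' t)
    (tendsto_const_nhds.congr fun j => (w3 (φ j)).symm)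
  have xp : 0 < x.re := lt_of_le_of_ne xr fun c => g0 (by
    have x0 : x = 0 := Complex.ext (by simpa using c.symm) (by simpa using xi)
    rwa [x0] at e)
  have t2 : Tendsto (fun j => starRingEnd ℂ (w (φ j))) atTop (𝓝 x) := by
    have := (Complex.continuous_conj.tendsto x).comp t
    rwa [Complex.conj_eq_iff_im.2 xi] at this
  have k := conv_tendsto (ds_diff hg x) (ds atTop _ g _ x (fun j => hf _) hg h' t) t2
  have z : dslope g x x = 0 := by
    refine tendsto_nhds_unique k (tendsto_const_nhds.congr' ?_)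
    filter_upwards [((Complex.continuous_re.tendsto x).comp t).eventually (lt_mem_nhds xp)]
      with j hj
    have i0 : (w (φ j)).im ≠ 0 := (w1 (φ j)).resolve_right (not_lt.2 (le_of_lt hj))
    have := sub_smul_dslope (f (N (φ j))) (w (φ j)) (starRingEnd ℂ (w (φ j)))
    rw [hcj, w3, map_zero, sub_zero, smul_eq_mul] at this
    refine ((mul_eq_zero.1 this).resolve_left fun c => i0 ?_).symm
    exact Complex.conj_eq_iff_im.1 (sub_eq_zero.1 c)
  rw [dslope_same] at z
  exact hs x.re xp (by rw [ex, e]) (by rw [ex, z])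

end Pool.Agent.MP_cdfc49_an.BZ
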