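import Mathlib
import Pool.Agent.MP_cdfc49_an.BZ.Spec

set_option autoImplicit false

namespace Pool.Agent.MP_cdfc49_an.BZ

open Filter Topology Set

theorem aux_pos {f : ℝ → ℝ} (hf : Continuous f) {a b : ℝ} (h : ∀ x ∈ Icc a b, f x ≠ 0)
    (ha : 0 < f a) : ∀ x ∈ Icc a b, 0 < f x := by
  intro x hx
  by_contra hc
  have hc' : f x ≤ 0 := not_lt.1 hc
  obtain ⟨t, ht, e⟩ := intermediate_value_Icc' hx.1 hf.continuousOn ⟨hc', ha.le⟩
  exact h t ⟨ht.1, ht.2.trans hx.2⟩ e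

/-- The first zero of a function which is positive at the left end. -/
theorem aux_first {f : ℝ → ℝ} (hf : Continuous f) {a b : ℝ} (ha : 0 < f a)
    (h : ∃ x ∈ Icc a b, f x = 0) :
    ∃ z, a < z ∧ z ≤ b ∧ f z = 0 ∧ ∀ x ∈ Ico a z, 0 < f x := by
  have hc : IsCompact (Icc a b ∩ f ⁻¹' {0}) :=
    isCompact_Icc.inter_right (isClosed_singleton.preimage hf)
  obtain ⟨x, hx, e⟩ := h
  obtain ⟨z, hz, hmin⟩ := hc.exists_isLeast ⟨x, hx, e⟩
  have hz0 : f z = 0 := hz.2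
  refine ⟨z, lt_of_le_of_ne hz.1.1 (fun hh => by rw [← hh] at hz0; linarith), hz.1.2, hz0,
    fun t ht => ?_⟩
  refine aux_pos hf (a := a) (b := t) (fun u hu e => ?_) ha t ⟨ht.1, le_rfl⟩
  have := hmin (show u ∈ Icc a b ∩ f ⁻¹' {0} from
    ⟨⟨hu.1, by linarith [hu.2, ht.2, hz.1.2]⟩, e⟩)
  linarith [hu.2, ht.2]

theorem aux_closure {f : ℝ → ℝ} (hf : Continuous f) {a z : ℝ} (haz : a < z)
    (h : ∀ x ∈ Ioo a z, f x ≤ 0) : f z ≤ 0 := by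
  have h1 : Tendsto f (𝓝[<] z) (𝓝 (f z)) := hf.continuousAt.tendsto.mono_left nhdsWithin_le_nhds
  exact le_of_tendsto h1 (mem_of_superset (Ioo_mem_nhdsLT haz) h)

theorem aux_deriv {g : ℝ → ℝ} {z d : ℝ} (h : HasDerivAt g d z) (hz : g z = 0) (hd : 0 < d) :
    (∀ᶠ x in 𝓝[>] z, 0 < g x) ∧ (∀ᶠ x in 𝓝[<] z, g x < 0) := by
  have h1 := (hasDerivAt_iff_tendsto_slope.1 h).eventually (lt_mem_nhds hd)
  constructor
  · have h2 := (nhdsGT_le_nhdsNE z) h1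
    filter_upwards [h2, self_mem_nhdsWithin] with x hx hx'
    have hx2 : (0 : ℝ) < slope g z x := hx
    rw [slope_def_field, hz, sub_zero] at hx2
    exact (div_pos_iff_of_pos_right (sub_pos.2 hx')).1 hx2
  · have h2 := (nhdsLT_le_nhdsNE z) h1
    filter_upwards [h2, self_mem_nhdsWithin] with x hx hx'
    have hx2 : (0 : ℝ) < slope g z x := hx
    rw [slope_def_field, hz, sub_zero] at hx2
    have : x - z < 0 := sub_neg.2 hx'
    by_contra hc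
    have := div_nonpos_of_nonneg_of_nonpos (not_lt.1 hc) this.le
    linarith

/-- The differential system satisfied by the functions `F_n` and their multiples. -/
structure Sys (ν : ℝ) (φ : ℕ → ℝ → ℝ) : Prop where
  cont : ∀ n, Continuous (φ n)
  der : ∀ (n : ℕ) (x : ℝ), 0 < x → HasDerivAt (fun t : ℝ => t ^ ((ν - (n : ℝ)) / 2) * φ n t)
    (x ^ ((ν - (n : ℝ)) / 2) * φ (n + 1) x / (2 * x)) x
  zero : ∀ n : ℕ, φ (n + 1) 0 = (ν - (n : ℝ)) * φ n 0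
  two : ∀ x, φ 2 x = -φ 1 x - (4 * x - ν ^ 2) * φ 0 x
  three : ∀ x, φ 3 x = (2 - (4 * x - ν ^ 2)) * φ 1 x + ((4 * x - ν ^ 2) - 2 * ν ^ 2) * φ 0 x
  four : ∀ x, φ 4 x = (2 * (4 * x - ν ^ 2) - 4 * ν ^ 2 - 6) * φ 1 x +
    ((4 * x - ν ^ 2) ^ 2 - 3 * (4 * x - ν ^ 2) + 8 * ν ^ 2) * φ 0 x
  sim : ∀ x, x ≠ 0 → φ 0 x = 0 → φ 1 x ≠ 0

theorem Sys.smul {ν : ℝ} {φ : ℕ → ℝ → ℝ} (h : Sys ν φ) {σ : ℝ} (hσ : σ ≠ 0) :
    Sys ν fun n x => σ * φ n x where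
  cont n := continuous_const.mul (h.cont n)
  der n x hx := by
    have := (h.der n x hx).const_mul σ
    have e1 : (fun t : ℝ => t ^ ((ν - (n : ℝ)) / 2) * (σ * φ n t)) =
        fun y : ℝ => σ * (y ^ ((ν - (n : ℝ)) / 2) * φ n y) := by funext t; ring
    rw [e1]
    exact this.congr_deriv (by ring)
  zero n := by rw [h.zero]; ring
  two x := by rw [h.two]; ring
  three x := by rw [h.three]; ring
  four x := by rw [h.four]; ring
  sim x hx e := mul_ne_zero hσ (h.sim x hx ((mul_eq_zero.1 e).resolve_left hσ))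

theorem sys_Fr (h : REL) (hw : WD) (hs : SIM) (ν : ℝ) : Sys ν (Fr ν) where
  cont n := continuous_iff_continuousAt.2 fun x => ((h ν x).1 n).1.continuousAt
  der n x hx := (hw ν x hx).1 n
  zero n := by have := ((h ν 0).1 n).2; linarith
  two x := (h ν x).2.2.2.2.1
  three x := (h ν x).2.2.2.2.2.1
  four x := (h ν x).2.2.2.2.2.2
  sim x hx := hs ν x hx

theorem Sys.up {ν : ℝ} {φ : ℕ → ℝ → ℝ} (h : Sys ν φ) {n : ℕ} {z : ℝ} (hz : 0 < z)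
    (h0 : φ n z = 0) (h1 : 0 < φ (n + 1) z) :
    (∀ᶠ x in 𝓝[>] z, 0 < φ n x) ∧ (∀ᶠ x in 𝓝[<] z, φ n x < 0) := by
  have hp : 0 < z ^ ((ν - (n : ℝ)) / 2) := Real.rpow_pos_of_pos hz _
  obtain ⟨a, b⟩ := aux_deriv (h.der n z hz) (by simp [h0]) (by positivity)
  have e : ∀ᶠ x in 𝓝 z, 0 < x := lt_mem_nhds hz
  constructor
  · filter_upwards [a, mem_nhdsWithin_of_mem_nhds e] with x hx hx0
    exact (mul_pos_iff_of_pos_left (Real.rpow_pos_of_pos hx0 _)).1 hx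
  · filter_upwards [b, mem_nhdsWithin_of_mem_nhds e] with x hx hx0
    by_contra hc
    have := mul_nonneg (Real.rpow_pos_of_pos hx0 ((ν - (n : ℝ)) / 2)).le (not_lt.1 hc)
    linarith

theorem Sys.down {ν : ℝ} {φ : ℕ → ℝ → ℝ} (h : Sys ν φ) {n : ℕ} {z : ℝ} (hz : 0 < z)
    (h0 : φ n z = 0) (h1 : φ (n + 1) z < 0) :
    (∀ᶠ x in 𝓝[>] z, φ n x < 0) ∧ (∀ᶠ x in 𝓝[<] z, 0 < φ n x) := by
  obtain ⟨a, b⟩ := (h.smul (σ := -1) (by norm_num)).up (n := n) hz (by simp [h0])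
    (by simpa using h1)
  exact ⟨a.mono fun x hx => by linarith, b.mono fun x hx => by linarith⟩

/-- Weighted monotonicity. -/
theorem Sys.mono {ν : ℝ} {φ : ℕ → ℝ → ℝ} (h : Sys ν φ) {n : ℕ} {a b : ℝ} (ha : 0 < a)
    (hab : a ≤ b) (h1 : ∀ x ∈ Ioo a b, 0 ≤ φ (n + 1) x) :
    a ^ ((ν - (n : ℝ)) / 2) * φ n a ≤ b ^ ((ν - (n : ℝ)) / 2) * φ n b := by
  have := monotoneOn_of_hasDerivWithinAt_nonneg (D := Icc a b) (convex_Icc a b)
    (f := fun t : ℝ => t ^ ((ν - (n : ℝ)) / 2) * φ n t)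
    (f' := fun x => x ^ ((ν - (n : ℝ)) / 2) * φ (n + 1) x / (2 * x))
    (fun x hx => (h.der n x (ha.trans_le hx.1)).continuousAt.continuousWithinAt)
    (fun x hx => by
      rw [interior_Icc] at hx
      exact (h.der n x (ha.trans hx.1)).hasDerivWithinAt)
    (fun x hx => by
      rw [interior_Icc] at hx
      have h2 := h1 x hx
      have h3 : 0 < x := ha.trans hx.1
      have h4 := Real.rpow_pos_of_pos h3 ((ν - (n : ℝ)) / 2)
      positivity)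
  exact this ⟨le_rfl, hab⟩ ⟨hab, le_rfl⟩ hab

theorem Sys.smono {ν : ℝ} {φ : ℕ → ℝ → ℝ} (h : Sys ν φ) {n : ℕ} {a b : ℝ} (ha : 0 < a)
    (hab : a < b) (h1 : ∀ x ∈ Ioo a b, 0 < φ (n + 1) x) :
    a ^ ((ν - (n : ℝ)) / 2) * φ n a < b ^ ((ν - (n : ℝ)) / 2) * φ n b := by
  have := strictMonoOn_of_hasDerivWithinAt_pos (D := Icc a b) (convex_Icc a b)
    (f := fun t : ℝ => t ^ ((ν - (n : ℝ)) / 2) * φ n t)
    (f' := fun x => x ^ ((ν - (n : ℝ)) / 2) * φ (n + 1) x / (2 * x))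
    (fun x hx => (h.der n x (ha.trans_le hx.1)).continuousAt.continuousWithinAt)
    (fun x hx => by
      rw [interior_Icc] at hx
      exact (h.der n x (ha.trans hx.1)).hasDerivWithinAt)
    (fun x hx => by
      rw [interior_Icc] at hx
      have h2 := h1 x hx
      have h3 : 0 < x := ha.trans hx.1
      have h4 := Real.rpow_pos_of_pos h3 ((ν - (n : ℝ)) / 2)
      positivity)
  exact this ⟨le_rfl, hab.le⟩ ⟨hab.le, le_rfl⟩ hab

/-- If `φ (n+1) ≥ 0` on `(a, b)`: positive at `a` gives positive at `b`. -/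
theorem Sys.pos_of {ν : ℝ} {φ : ℕ → ℝ → ℝ} (h : Sys ν φ) {n : ℕ} {a b : ℝ} (ha : 0 < a)
    (hab : a ≤ b) (h1 : ∀ x ∈ Ioo a b, 0 ≤ φ (n + 1) x) :
    (0 < φ n a → 0 < φ n b) ∧ (0 ≤ φ n a → 0 ≤ φ n b) := by
  have h2 := h.mono ha hab h1
  have h3 := Real.rpow_pos_of_pos ha ((ν - (n : ℝ)) / 2)
  have h4 := Real.rpow_pos_of_pos (ha.trans_le hab) ((ν - (n : ℝ)) / 2)
  exact ⟨fun e => (mul_pos_iff_of_pos_left h4).1 ((mul_pos h3 e).trans_le h2),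
    fun e => (mul_nonneg_iff_of_pos_left h4).1 ((mul_nonneg h3.le e).trans h2)⟩

theorem Sys.spos_of {ν : ℝ} {φ : ℕ → ℝ → ℝ} (h : Sys ν φ) {n : ℕ} {a b : ℝ} (ha : 0 < a)
    (hab : a < b) (h1 : ∀ x ∈ Ioo a b, 0 < φ (n + 1) x) (e : 0 ≤ φ n a) : 0 < φ n b := by
  have h2 := h.smono ha hab h1
  have h3 := Real.rpow_pos_of_pos ha ((ν - (n : ℝ)) / 2)
  have h4 := Real.rpow_pos_of_pos (ha.trans hab) ((ν - (n : ℝ)) / 2)
  exact (mul_pos_iff_of_pos_left h4).1 ((mul_nonneg h3.le e).trans_lt h2)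

/-- If `φ (n+1) ≤ 0` on `(a, b)`: negative at `a` gives negative at `b`. -/
theorem Sys.neg_of {ν : ℝ} {φ : ℕ → ℝ → ℝ} (h : Sys ν φ) {n : ℕ} {a b : ℝ} (ha : 0 < a)
    (hab : a ≤ b) (h1 : ∀ x ∈ Ioo a b, φ (n + 1) x ≤ 0) :
    (φ n a < 0 → φ n b < 0) ∧ (φ n a ≤ 0 → φ n b ≤ 0) := by
  have := (h.smul (σ := -1) (by norm_num)).pos_of (n := n) ha hab
    (fun x hx => by have := h1 x hx; linarith)
  exact ⟨fun e => by have := this.1 (by linarith); linarith,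
    fun e => by have := this.2 (by linarith); linarith⟩

theorem Sys.sneg_of {ν : ℝ} {φ : ℕ → ℝ → ℝ} (h : Sys ν φ) {n : ℕ} {a b : ℝ} (ha : 0 < a)
    (hab : a < b) (h1 : ∀ x ∈ Ioo a b, φ (n + 1) x < 0) (e : φ n a ≤ 0) : φ n b < 0 := by
  have := (h.smul (σ := -1) (by norm_num)).spos_of (n := n) ha hab
    (fun x hx => by have := h1 x hx; linarith) (by linarith)
  linarith

/-- No gain, for a multiple of the system. -/
def NoGain (ν : ℝ) (φ : ℕ → ℝ → ℝ) (n : ℕ) : Prop :=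
  ∀ (i j : ℕ) (w : ℝ), ν < (i : ℝ) → i < j → j ≤ n → 0 < w →
    (∀ x ∈ Icc (0 : ℝ) w, φ i x ≠ 0) → 0 ≤ φ j 0 * φ j w

theorem noGain_of {ν σ : ℝ} {n : ℕ} (hσ : σ ≠ 0) (h : ¬ Gain ν n) :
    NoGain ν (fun n x => σ * Fr ν n x) n := by
  intro i j w h1 h2 h3 h4 h5
  by_contra hc
  refine h ⟨i, j, w, h1, h2, h3, h4, fun x hx e => h5 x hx (by simp [e]), ?_⟩
  have h6 : 0 < σ ^ 2 := by positivity
  have h7 : σ ^ 2 * (Fr ν j 0 * Fr ν j w) < 0 := by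
    have := not_le.1 hc
    simp only at this
    linarith
  by_contra h8
  have := mul_nonneg h6.le (not_lt.1 h8)
  linarith

/-- A positive function on `[0, z]` stays positive a little further. -/
theorem aux_extend {f : ℝ → ℝ} (hf : Continuous f) {z : ℝ} (h : ∀ x ∈ Icc (0 : ℝ) z, f x ≠ 0)
    (hz : 0 ≤ z) : ∀ᶠ w in 𝓝[>] z, ∀ x ∈ Icc (0 : ℝ) w, f x ≠ 0 := by
  have h1 : ∀ᶠ x in 𝓝 z, f x ≠ 0 := hf.continuousAt.eventually_ne (h z ⟨hz, le_rfl⟩)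
  obtain ⟨δ, hδ, h2⟩ := Metric.eventually_nhds_iff.1 h1
  filter_upwards [Ioo_mem_nhdsGT (show z < z + δ by linarith)] with w hw x hx
  by_cases c : x ≤ z
  · exact h x ⟨hx.1, c⟩
  · apply h2
    rw [Real.dist_eq, abs_lt]
    constructor <;> linarith [hx.2, hw.2, not_le.1 c]

end Pool.Agent.MP_cdfc49_an.BZ
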