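import Mathlib
import Pool.Agent.MP_cdfc49_an.BZ.Spec

set_option autoImplicit false

namespace Pool.Agent.MP_cdfc49_an.BZ

open Filter Topology Set Polynomial

theorem cf_bound {ν A : ℝ} (n m : ℕ) (hA : |ν| ≤ A) (hm : A + 1 ≤ (m : ℝ)) :
    |cf ν n m| ≤ (n.factorial : ℝ) * Real.exp (A + n) * (Real.exp 2 ^ m / m.factorial) := by
  have A0 : 0 ≤ A := (abs_nonneg ν).trans hA
  have hν := abs_le.1 hA
  have g1 : 1 ≤ Real.Gamma (ν + (m : ℝ) + 1) := by
    refine Real.Gamma_two.symm.trans_le ?_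
    exact Real.Gamma_strictMonoOn_Ici.monotoneOn (by simp)
      (by simp only [mem_Ici]; linarith [hν.1]) (by linarith [hν.1])
  have p1 : |∏ j ∈ Finset.range n, (ν + 2 * (m : ℝ) - (j : ℝ))| ≤ (A + n + 2 * m) ^ n := by
    rw [Finset.abs_prod]
    refine (Finset.prod_le_prod (fun j _ => abs_nonneg _) (g := fun _ => A + n + 2 * m)
      fun j hj => ?_).trans (by simp)
    have hj' : (j : ℝ) ≤ n := by exact_mod_cast (Finset.mem_range.1 hj).le
    have j0 : (0 : ℝ) ≤ j := Nat.cast_nonneg j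
    have m0 : (0 : ℝ) ≤ m := Nat.cast_nonneg m
    rw [abs_le]
    constructor <;> linarith
  have p2 : (A + n + 2 * m) ^ n ≤ (n.factorial : ℝ) * (Real.exp (A + n) * Real.exp 2 ^ m) := by
    have := Real.pow_div_factorial_le_exp (A + n + 2 * m) (by positivity) n
    have e : Real.exp (2 * (m : ℝ)) = Real.exp 2 ^ m := by rw [mul_comm, Real.exp_nat_mul]
    rw [div_le_iff₀ (by positivity), Real.exp_add, e] at this
    linarith
  have f0 : (0 : ℝ) < m.factorial := by positivity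
  rw [cf, abs_div, abs_mul, abs_pow, abs_neg, abs_one, one_pow, one_mul,
    abs_of_pos (by positivity : (0 : ℝ) < m.factorial * Real.Gamma (ν + (m : ℝ) + 1)),
    div_le_iff₀ (by positivity)]
  refine (p1.trans p2).trans ?_
  have : (n.factorial : ℝ) * Real.exp (A + n) * (Real.exp 2 ^ m / m.factorial) *
      (m.factorial * Real.Gamma (ν + (m : ℝ) + 1)) =
      (n.factorial : ℝ) * (Real.exp (A + n) * Real.exp 2 ^ m) * Real.Gamma (ν + (m : ℝ) + 1) := by
    field_simp
  rw [this]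
  exact le_mul_of_one_le_right (by positivity) g1

theorem sum' : SUM := by
  intro ν n R hR
  refine Summable.of_norm_bounded_eventually_nat
    (g := fun m => (n.factorial : ℝ) * Real.exp (|ν| + n) * ((Real.exp 2 * R) ^ m / m.factorial))
    ((Real.summable_pow_div_factorial _).mul_left _) ?_
  filter_upwards [tendsto_natCast_atTop_atTop.eventually_ge_atTop (|ν| + 1)] with m hm
  rw [Real.norm_of_nonneg (by positivity)]
  refine (mul_le_mul_of_nonneg_right (cf_bound n m le_rfl hm) (by positivity)).trans_eq ?_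
  rw [mul_pow]
  ring

theorem adm_dc {c : ℕ → ℝ} (h : Adm c) : Adm (dc c) := by
  intro R hR
  refine Summable.of_nonneg_of_le (fun m => by positivity) (fun m => ?_)
    ((summable_nat_add_iff 1).2 (h (2 * (R + 1)) (by positivity)))
  have h1 : ((m : ℝ) + 1) ≤ 2 ^ (m + 1) := by
    exact_mod_cast (Nat.lt_two_pow_self (n := m + 1)).le
  have h2 : R ^ m ≤ (R + 1) ^ (m + 1) :=
    (pow_le_pow_left₀ hR (by linarith) m).trans (pow_le_pow_right₀ (by linarith) (by omega))
  rw [dc, abs_mul, abs_of_pos (by positivity : (0 : ℝ) < (m : ℝ) + 1), mul_pow]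
  calc ((m : ℝ) + 1) * |c (m + 1)| * R ^ m = |c (m + 1)| * (((m : ℝ) + 1) * R ^ m) := by ring
    _ ≤ _ := by gcongr

theorem adm_mc {c : ℕ → ℝ} (h : Adm c) (b a : ℝ) : Adm (mc b a c) := by
  intro R hR
  refine Summable.of_nonneg_of_le (fun m => by positivity) (fun m => ?_)
    ((h (2 * R) (by positivity)).mul_left (|b| + |a|))
  have h1 : (m : ℝ) ≤ 2 ^ m := by exact_mod_cast (Nat.lt_two_pow_self (n := m)).le
  have h2 : (1 : ℝ) ≤ 2 ^ m := one_le_pow₀ (by norm_num)
  have h3 : |b * (m : ℝ) + a| ≤ (|b| + |a|) * 2 ^ m := by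
    refine (abs_add_le _ _).trans ?_
    rw [abs_mul, Nat.abs_cast]
    nlinarith [abs_nonneg a, abs_nonneg b]
  rw [mc, abs_mul, mul_pow]
  calc |b * (m : ℝ) + a| * |c m| * R ^ m ≤ (|b| + |a|) * 2 ^ m * |c m| * R ^ m := by gcongr
    _ = _ := by ring

theorem adm_sumC {c : ℕ → ℝ} (h : Adm c) (w : ℂ) : Summable fun m : ℕ => (c m : ℂ) * w ^ m :=
  Summable.of_norm (by simpa using h ‖w‖ (norm_nonneg w))

theorem adm_sumR {c : ℕ → ℝ} (h : Adm c) (x : ℝ) : Summable fun m : ℕ => c m * x ^ m :=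
  Summable.of_norm (by simpa using h |x| (abs_nonneg x))

theorem adm_deriv {c : ℕ → ℝ} (h : Adm c) (w : ℂ) : HasDerivAt (S c) (S (dc c) w) w := by
  have hu : Summable fun m : ℕ => |c m| * ((m : ℝ) * (‖w‖ + 1) ^ (m - 1)) := by
    rw [← summable_nat_add_iff 1]
    refine (adm_dc h (‖w‖ + 1) (by positivity)).congr fun m => ?_
    rw [dc, abs_mul, abs_of_pos (by positivity : (0 : ℝ) < (m : ℝ) + 1)]
    simp only [Nat.add_sub_cancel]
    push_cast
    ring
  have hb : ∀ (m : ℕ) (y : ℂ), y ∈ Metric.ball (0 : ℂ) (‖w‖ + 1) →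
      ‖(c m : ℂ) * ((m : ℂ) * y ^ (m - 1))‖ ≤ |c m| * ((m : ℝ) * (‖w‖ + 1) ^ (m - 1)) := by
    intro m y hy
    have : ‖y‖ ≤ ‖w‖ + 1 := (mem_ball_zero_iff.1 hy).le
    simp only [norm_mul, norm_pow, Complex.norm_real, Real.norm_eq_abs, Complex.norm_natCast]
    gcongr
  have hw : w ∈ Metric.ball (0 : ℂ) (‖w‖ + 1) := mem_ball_zero_iff.2 (by linarith)
  have key := hasDerivAt_tsum_of_isPreconnected hu Metric.isOpen_ball
    (convex_ball (0 : ℂ) (‖w‖ + 1)).isPreconnected
    (g := fun (m : ℕ) (z : ℂ) => (c m : ℂ) * z ^ m)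
    (g' := fun (m : ℕ) (y : ℂ) => (c m : ℂ) * ((m : ℂ) * y ^ (m - 1)))
    (fun m y _ => (hasDerivAt_pow m y).const_mul _) hb hw (adm_sumC h w) hw
  refine key.congr_deriv ?_
  rw [(Summable.of_norm_bounded hu fun m => hb m w hw).tsum_eq_zero_add]
  simp only [Nat.cast_zero, zero_mul, mul_zero, zero_add, Nat.add_sub_cancel, S, dc]
  refine tsum_congr fun m => ?_
  push_cast
  ring

theorem S_real (c : ℕ → ℝ) (x : ℝ) : S c (x : ℂ) = (Sr c x : ℂ) := by
  simp only [S, Sr, Complex.ofReal_tsum]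
  push_cast
  rfl

theorem gen1 : GEN1 := by
  intro c h
  refine ⟨adm_dc h, adm_mc h, fun w => (adm_deriv h w).differentiableAt, adm_deriv h, S_real c,
    fun w => ?_, fun x => ?_, fun x => (adm_sumR h x).hasSum, ?_, fun b a x => ?_⟩
  · simp only [S, Complex.conj_tsum, map_mul, map_pow, Complex.conj_ofReal]
  · have := (adm_deriv h (x : ℂ)).real_of_complex
    simpa only [S_real, Complex.ofReal_re] using this
  · rw [Sr, tsum_eq_single 0 fun m hm => by simp [hm]]
    simp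
  · have h1 : HasSum (fun m : ℕ => (m : ℝ) * c m * x ^ m) (x * Sr (dc c) x) := by
      rw [← hasSum_nat_add_iff' 1]
      simp only [Finset.range_one, Finset.sum_singleton, Nat.cast_zero, zero_mul, sub_zero]
      have := (adm_sumR (adm_dc h) x).hasSum.mul_left x
      rw [show (fun m : ℕ => ((m + 1 : ℕ) : ℝ) * c (m + 1) * x ^ (m + 1)) =
        fun m : ℕ => x * (dc c m * x ^ m) from funext fun m => by rw [dc]; push_cast; ring]
      exact this
    have h0 : HasSum (fun m : ℕ => c m * x ^ m) (Sr c x) := (adm_sumR h x).hasSum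
    have h2 := (h1.mul_left b).add (h0.mul_left a)
    rw [mul_assoc, ← h2.tsum_eq, Sr]
    refine tsum_congr fun m => ?_
    rw [mc]
    ring

theorem alt : ALT := by
  intro a s k hs h
  have sg : ∀ i, 0 ≤ a k * a (k + 2 * i) := by
    intro i
    induction i with
    | zero => exact mul_self_nonneg _
    | succ i ih =>
      obtain ⟨a1, a2⟩ := h (k + 2 * i) (by omega)
      obtain ⟨b1, b2⟩ := h (k + 2 * i + 1) (by omega)
      rw [show k + 2 * (i + 1) = k + 2 * i + 1 + 1 by ring]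
      by_cases c : a (k + 2 * i + 1) = 0
      · rw [c, abs_zero, abs_nonpos_iff] at b2
        rw [b2, mul_zero]
      · by_cases c0 : a (k + 2 * i) = 0
        · rw [c0, abs_zero, abs_nonpos_iff] at a2
          exact absurd a2 c
        · by_contra hc
          have e1 := mul_nonneg ih (mul_nonneg (neg_nonneg.2 a1) (neg_nonneg.2 b1))
          have e2 := mul_pos (neg_pos.2 (not_le.1 hc))
            (mul_pos (mul_self_pos.2 c) (mul_self_pos.2 c0))
          linarith
  have st : ∀ i, 0 ≤ a k * (∑ m ∈ Finset.range (k + 2 * i), a m - ∑ m ∈ Finset.range k, a m) := by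
    intro i
    induction i with
    | zero => simp
    | succ i ih =>
      rw [show k + 2 * (i + 1) = k + 2 * i + 1 + 1 by ring, Finset.sum_range_succ,
        Finset.sum_range_succ]
      obtain ⟨-, a2⟩ := h (k + 2 * i) (by omega)
      have e1 : |a k * a (k + 2 * i + 1)| ≤ a k * a (k + 2 * i) := by
        rw [← abs_of_nonneg (sg i), abs_mul, abs_mul]
        exact mul_le_mul_of_nonneg_left a2 (abs_nonneg _)
      have := neg_abs_le (a k * a (k + 2 * i + 1))
      linarith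
  have t1 : Tendsto (fun i : ℕ => k + 2 * i) atTop atTop :=
    tendsto_atTop_mono (f := id) (fun i => by simp only [id]; omega) tendsto_id
  have t2 := ((hs.tendsto_sum_nat.comp t1).sub_const (∑ m ∈ Finset.range k, a m)).const_mul (a k)
  exact ge_of_tendsto' t2 st

theorem gamma_inv (t : ℝ) : (Real.Gamma t)⁻¹ = t * (Real.Gamma (t + 1))⁻¹ := by
  by_cases h : t = 0
  · simp [h]
  · rw [Real.Gamma_add_one h, mul_inv, ← mul_assoc, mul_inv_cancel₀ h, one_mul]

theorem rat' : RAT := by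
  intro ν n m
  have p : ∀ (x : ℝ) (n : ℕ), (∏ j ∈ Finset.range n, (x + 2 - (j : ℝ))) *
      ((x + 2 - n) * (x + 1 - n)) = (x + 2) * (x + 1) * ∏ j ∈ Finset.range n, (x - (j : ℝ)) := by
    intro x n
    induction n with
    | zero => simp
    | succ n ih =>
      rw [Finset.prod_range_succ, Finset.prod_range_succ]
      push_cast
      linear_combination (x - n) * ih
  have q := p (ν + 2 * m) n
  have g := gamma_inv (ν + m + 1)
  have f0 : (m.factorial : ℝ) ≠ 0 := by positivity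
  have m0 : (m : ℝ) + 1 ≠ 0 := by positivity
  simp only [cf, div_eq_mul_inv, mul_inv, Nat.factorial_succ]
  push_cast
  rw [show ν + ((m : ℝ) + 1) + 1 = ν + m + 1 + 1 by ring, g,
    show (∏ j ∈ Finset.range n, (ν + 2 * ((m : ℝ) + 1) - (j : ℝ))) =
      ∏ j ∈ Finset.range n, (ν + 2 * (m : ℝ) + 2 - (j : ℝ)) from
      Finset.prod_congr rfl fun j _ => by ring, mul_inv]
  have i1 : ((m : ℝ) + 1)⁻¹ * ((m : ℝ) + 1) = 1 := inv_mul_cancel₀ m0
  linear_combination (-(-1) ^ m * (m.factorial : ℝ)⁻¹ * (Real.Gamma (ν + m + 1 + 1))⁻¹ *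
    (ν + m + 1)) * q + (-(-1) ^ m * (m.factorial : ℝ)⁻¹ * (Real.Gamma (ν + m + 1 + 1))⁻¹ *
    (ν + m + 1) * (∏ j ∈ Finset.range n, (ν + 2 * (m : ℝ) + 2 - (j : ℝ))) *
    ((ν + 2 * m + 2 - n) * (ν + 2 * m + 1 - n))) * i1

theorem gen3 : GEN3 := by
  refine ⟨fun c N => ⟨fun b a => ?_, ?_, ?_, fun hc => ?_⟩, fun p => ⟨?_, fun x => ?_, fun w => ?_⟩,
    fun ν n => ?_, fun ν => ?_, fun ν m => ?_, fun ν n m hν => ?_⟩
  · simp only [tr, op, derivative_sum, Finset.mul_sum, ← Finset.sum_add_distrib]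
    refine Finset.sum_congr rfl fun m _ => ?_
    have e : X * derivative ((X : ℝ[X]) ^ m) = C (m : ℝ) * X ^ m := by
      rcases m with _ | m
      · simp
      · rw [derivative_X_pow_succ]; push_cast; ring
    rw [derivative_C_mul, mul_left_comm X, e, mc]
    simp only [map_mul, map_add]
    ring
  · refine natDegree_sum_le_of_forall_le _ _ fun m hm => ?_
    exact (natDegree_C_mul_X_pow_le _ _).trans (Nat.lt_succ_iff.1 (Finset.mem_range.1 hm))
  · rw [tr, eval_finsetSum, Finset.sum_eq_single 0 (fun m _ hm => by simp [hm]) (by simp)]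
    simp
  · refine le_antisymm (natDegree_sum_le_of_forall_le _ _ fun m hm =>
      (natDegree_C_mul_X_pow_le _ _).trans (Nat.lt_succ_iff.1 (Finset.mem_range.1 hm))) ?_
    refine le_natDegree_of_ne_zero ?_
    rw [tr, finsetSum_coeff, Finset.sum_eq_single N
      (fun m _ hm => by rw [coeff_C_mul_X_pow, if_neg hm.symm]) (by simp), coeff_C_mul_X_pow,
      if_pos rfl, Nat.descFactorial_self]
    refine mul_ne_zero hc (div_ne_zero (by positivity) ?_)
    rcases N with _ | N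
    · simp
    · positivity
  · exact fun w => (p.differentiable_aeval w)
  · rw [ev, ← Complex.coe_algebraMap, aeval_algebraMap_apply]
    simp
  · simp only [ev]
    exact aeval_algHom_apply Complex.conjAe.toAlgHom w p
  · funext m
    simp only [cf, mc, Finset.prod_range_succ]
    ring
  · funext m
    simp only [cf, mc, Finset.range_zero, Finset.prod_empty, div_eq_mul_inv, mul_inv]
    rw [show ν - 1 + (m : ℝ) + 1 = ν + m by ring, gamma_inv (ν + m)]
    ring
  · have m0 : (m : ℝ) + 1 ≠ 0 := by positivity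
    simp only [cf, dc, Finset.range_zero, Finset.prod_empty, div_eq_mul_inv, mul_inv,
      Nat.factorial_succ]
    push_cast
    rw [show ν - 1 + ((m : ℝ) + 1) + 1 = ν + m + 1 by ring, mul_inv]
    have i1 : ((m : ℝ) + 1)⁻¹ * ((m : ℝ) + 1) = 1 := inv_mul_cancel₀ m0
    linear_combination (-(-1) ^ m * (m.factorial : ℝ)⁻¹ * (Real.Gamma (ν + m + 1))⁻¹) * i1
  · refine div_ne_zero (mul_ne_zero (by positivity) (Finset.prod_ne_zero_iff.2 fun j _ e => ?_))
      (mul_ne_zero (by positivity) (Real.Gamma_ne_zero fun k e => ?_))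
    · exact hν (j - 2 * m) (by push_cast; linarith)
    · exact hν (-k - m - 1) (by push_cast; linarith)

theorem rel (hs : SUM) (h1 : GEN1) (h3 : GEN3) : REL := by
  have d : ∀ (ν : ℝ) (n : ℕ) (x : ℝ), HasDerivAt (Fr ν n) (Dr ν n x) x := fun ν n x =>
    (h1 _ (hs ν n)).2.2.2.2.2.2.1 x
  have r1 : ∀ (ν : ℝ) (n : ℕ) (x : ℝ),
      2 * x * Dr ν n x = Fr ν (n + 1) x - (ν - (n : ℝ)) * Fr ν n x := by
    intro ν n x
    have := (h1 _ (hs ν n)).2.2.2.2.2.2.2.2.2 2 (ν - n) x
    rw [← h3.2.2.1] at this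
    simp only [Fr, Dr]
    linarith
  have r2 : ∀ ν x : ℝ, Fr (ν - 1) 0 x = x * Dr ν 0 x + ν * Fr ν 0 x := by
    intro ν x
    have := (h1 _ (hs ν 0)).2.2.2.2.2.2.2.2.2 1 ν x
    rw [← h3.2.2.2.1] at this
    simp only [Fr, Dr]
    linarith
  have r3 : ∀ ν x : ℝ, Dr (ν - 1) 0 x = -Fr ν 0 x := by
    intro ν x
    simp only [Fr, Dr, Sr, h3.2.2.2.2.1, neg_mul, tsum_neg]
  have r4 : ∀ ν x : ℝ, Fr ν 2 x = -Fr ν 1 x - (4 * x - ν ^ 2) * Fr ν 0 x := by
    intro ν x
    have e : Fr ν 1 = fun t => 2 * Fr (ν - 1) 0 t - ν * Fr ν 0 t := by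
      funext t
      have a := r1 ν 0 t
      have b := r2 ν t
      simp only [Nat.cast_zero, sub_zero, zero_add] at a
      linarith
    have k := ((d (ν - 1) 0 x).const_mul 2).sub ((d ν 0 x).const_mul ν)
    have k2 := (d ν 1 x).unique (k.congr_of_eventuallyEq (Eventually.of_forall (congrFun e)))
    have a := r1 ν 0 x
    have b := r1 ν 1 x
    simp only [Nat.cast_zero, sub_zero, zero_add, Nat.cast_one] at a b
    rw [r3] at k2
    linear_combination -b + 2 * x * k2 - ν * a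
  have dy : ∀ ν x : ℝ, HasDerivAt (fun t : ℝ => 4 * t - ν ^ 2) 4 x := fun ν x => by
    simpa using ((hasDerivAt_id x).const_mul 4).sub_const (ν ^ 2)
  have r5 : ∀ ν x : ℝ, Fr ν 3 x = (2 - (4 * x - ν ^ 2)) * Fr ν 1 x +
      ((4 * x - ν ^ 2) - 2 * ν ^ 2) * Fr ν 0 x := by
    intro ν x
    have e : Fr ν 2 = fun t => -Fr ν 1 t - (4 * t - ν ^ 2) * Fr ν 0 t := funext (r4 ν)
    have k := (d ν 1 x).neg.sub ((dy ν x).mul (d ν 0 x))
    have k2 := (d ν 2 x).unique (k.congr_of_eventuallyEq (Eventually.of_forall (congrFun e)))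
    have a := r1 ν 0 x
    have b := r1 ν 1 x
    have c := r1 ν 2 x
    have f := r4 ν x
    simp only [Nat.cast_zero, sub_zero, zero_add, Nat.cast_one, Nat.cast_ofNat] at a b c
    linear_combination -c + 2 * x * k2 - b - (4 * x - ν ^ 2) * a + (ν - 3) * f
  have r6 : ∀ ν x : ℝ, Fr ν 4 x = (2 * (4 * x - ν ^ 2) - 4 * ν ^ 2 - 6) * Fr ν 1 x +
      ((4 * x - ν ^ 2) ^ 2 - 3 * (4 * x - ν ^ 2) + 8 * ν ^ 2) * Fr ν 0 x := by
    intro ν x
    have e : Fr ν 3 = fun t => (2 - (4 * t - ν ^ 2)) * Fr ν 1 t +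
      ((4 * t - ν ^ 2) - 2 * ν ^ 2) * Fr ν 0 t := funext (r5 ν)
    have k := (((dy ν x).const_sub 2).mul (d ν 1 x)).add
      (((dy ν x).sub_const (2 * ν ^ 2)).mul (d ν 0 x))
    have k2 := (d ν 3 x).unique (k.congr_of_eventuallyEq (Eventually.of_forall (congrFun e)))
    have a := r1 ν 0 x
    have b := r1 ν 1 x
    have c := r1 ν 3 x
    have f := r4 ν x
    have g := r5 ν x
    simp only [Nat.cast_zero, sub_zero, zero_add, Nat.cast_one, Nat.cast_ofNat] at a b c
    linear_combination -c + 2 * x * k2 + (2 - (4 * x - ν ^ 2)) * b +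
      ((4 * x - ν ^ 2) - 2 * ν ^ 2) * a + (2 - (4 * x - ν ^ 2)) * f + (ν - 3) * g
  intro ν x
  exact ⟨fun n => ⟨d ν n x, r1 ν n x⟩, fun n => (h1 _ (hs ν n)).2.2.2.2.2.2.2.2.1, r2 ν x, r3 ν x,
    r4 ν x, r5 ν x, r6 ν x⟩

theorem wd (h : REL) : WD := by
  intro ν x hx
  have p : ∀ e : ℝ, HasDerivAt (fun t : ℝ => t ^ e) (e * (x ^ e / x)) x := fun e => by
    have := Real.hasDerivAt_rpow_const (x := x) (p := e) (Or.inl hx.ne')
    rwa [Real.rpow_sub_one hx.ne'] at this
  have q : ∀ n : ℕ, HasDerivAt (fun t : ℝ => Fr ν n (-t)) (-Dr ν n (-x)) x := fun n => by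
    exact (((h ν (-x)).1 n).1.comp x (hasDerivAt_neg x)).congr_deriv (by ring)
  refine ⟨fun n => ?_, ?_, fun n => ?_, ?_⟩
  · refine ((p _).mul ((h ν x).1 n).1).congr_deriv ?_
    have := ((h ν x).1 n).2
    field_simp
    linear_combination this
  · refine ((p _).mul ((h ν x).1 1).1).congr_deriv ?_
    have a := ((h ν x).1 1).2
    have b := (h ν x).2.2.2.2.1
    push_cast at a
    field_simp
    linear_combination a + b
  · refine ((p _).mul (q n)).congr_deriv ?_
    have := ((h ν (-x)).1 n).2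
    field_simp
    linear_combination this
  · refine ((p _).mul (q 1)).congr_deriv ?_
    have a := ((h ν (-x)).1 1).2
    have b := (h ν (-x)).2.2.2.2.1
    push_cast at a
    field_simp
    linear_combination a + b

end Pool.Agent.MP_cdfc49_an.BZ
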