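import Mathlib
import Pool.Agent.MP_cdfc49_an.BZ.Ser
import Pool.Agent.MP_cdfc49_an.BZ.Ode

set_option autoImplicit false

namespace Pool.Agent.MP_cdfc49_an.BZ

open Filter Topology Set Polynomial

theorem op_eval (b a : ℝ) (p : ℝ[X]) (x : ℝ) :
    (op b a p).eval x = b * (x * (derivative p).eval x) + a * p.eval x := by
  simp [op]

theorem op_coeff (b a : ℝ) (p : ℝ[X]) (m : ℕ) :
    (op b a p).coeff m = (b * (m : ℝ) + a) * p.coeff m := by
  rcases m with _ | m
  · simp [op]
  · simp only [op, coeff_add, coeff_C_mul, coeff_X_mul, coeff_derivative]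
    push_cast
    ring

theorem op_ne {b a : ℝ} {p : ℝ[X]} (h : op b a p ≠ 0) : p ≠ 0 := by
  rintro rfl
  exact h (by simp [op])

theorem mem_rt {p : ℝ[X]} (hp : p ≠ 0) (Q : ℝ → Prop) [DecidablePred Q] (x : ℝ) :
    x ∈ p.roots.toFinset.filter Q ↔ p.eval x = 0 ∧ Q x := by
  rw [Finset.mem_filter, Multiset.mem_toFinset, mem_roots hp, IsRoot.def]

theorem rol_deriv {b : ℝ} (a : ℝ) (p : ℝ[X]) (hb : 0 < b) {x : ℝ} (hx : 0 < x) :
    HasDerivAt (fun t : ℝ => t ^ (a / b) * p.eval t)
      (x ^ (a / b) / (b * x) * (op b a p).eval x) x := by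
  have := Real.hasDerivAt_rpow_const (x := x) (p := a / b) (Or.inl hx.ne')
  rw [Real.rpow_sub_one hx.ne'] at this
  refine (this.mul (p.hasDerivAt x)).congr_deriv ?_
  rw [op_eval]
  field_simp
  ring

theorem rol_step {b a u v : ℝ} {p : ℝ[X]} (hb : 0 < b) (huv : u < v) (hv : p.eval v = 0)
    (hu : (0 < u ∧ p.eval u = 0) ∨ (u = 0 ∧ 0 < a)) :
    ∃ z, (op b a p).eval z = 0 ∧ 0 < z ∧ u < z ∧ z < v := by
  have u0 : 0 ≤ u := hu.elim (fun h => h.1.le) fun h => h.1.ge
  obtain ⟨z, z1, z2⟩ := exists_hasDerivAt_eq_zero huv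
    (f := fun t : ℝ => t ^ (a / b) * p.eval t)
    (fun x hx => (ContinuousAt.mul (Real.continuousAt_rpow_const x _ (hu.elim
      (fun h => Or.inl (h.1.trans_le hx.1).ne') fun h => Or.inr (div_pos h.2 hb).le))
      p.continuousAt).continuousWithinAt)
    (by
      rcases hu with h | h
      · simp [h.2, hv]
      · simp [h.1, hv, Real.zero_rpow (div_pos h.2 hb).ne'])
    fun x hx => rol_deriv a p hb (u0.trans_lt hx.1)
  have z0 : 0 < z := u0.trans_lt z1.1
  have := Real.rpow_pos_of_pos z0 (a / b)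
  exact ⟨z, (mul_eq_zero.1 z2).resolve_left (by positivity), z0, z1.1, z1.2⟩

theorem pc_insert (p : ℝ[X]) :
    (insert 0 (p.roots.toFinset.filter fun x => 0 < x)).card = pc p + 1 :=
  Finset.card_insert_of_notMem (by simp)

theorem rol : ROL := by
  intro b a p hb hr
  have hp := op_ne hr
  refine ⟨?_, fun ha => ?_, fun w h1 ⟨x0, h2, h3⟩ => ?_, fun R => ?_⟩
  · refine Finset.card_le_of_interleaved fun x hx y hy hxy _ => ?_
    rw [mem_rt hp] at hx hy
    obtain ⟨z, z1, z2, z3⟩ := rol_step (a := a) hb hxy hy.1 (Or.inl ⟨hx.2, hx.1⟩)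
    exact ⟨z, (mem_rt hr _ z).2 ⟨z1, z2⟩, z3⟩
  · rw [← Nat.add_le_add_iff_right (n := 1), ← pc_insert]
    refine Finset.card_le_of_interleaved fun x hx y hy hxy _ => ?_
    rw [Finset.mem_insert, mem_rt hp] at hx hy
    have hx' : (0 < x ∧ p.eval x = 0) ∨ (x = 0 ∧ 0 < a) :=
      hx.elim (fun h => Or.inr ⟨h, ha⟩) fun h => Or.inl ⟨h.2, h.1⟩
    have x0 : 0 ≤ x := hx.elim (fun h => h.ge) fun h => h.2.le
    obtain ⟨z, z1, z2, z3⟩ := rol_step hb hxy (hy.resolve_left (x0.trans_lt hxy).ne').1 hx'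
    exact ⟨z, (mem_rt hr _ z).2 ⟨z1, z2⟩, z3⟩
  · rw [← Nat.add_le_add_iff_right (n := 1), ← pc_insert]
    refine Finset.card_le_of_interleaved fun x hx y hy hxy _ => ?_
    rw [Finset.mem_insert, mem_rt hp] at hx hy
    have x0' : 0 ≤ x := hx.elim (fun h => h.ge) fun h => h.2.le
    have hy' := hy.resolve_left (x0'.trans_lt hxy).ne'
    rcases hx with c | c
    · refine ⟨x0, (mem_rt hr _ x0).2 ⟨h3, h2.1⟩, c ▸ h2.1, ?_⟩
      by_contra hc
      exact h1 y ⟨hy'.2, (not_lt.1 hc).trans h2.2⟩ hy'.1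
    · obtain ⟨z, z1, z2, z3⟩ := rol_step (a := a) hb hxy hy'.1 (Or.inl ⟨c.2, c.1⟩)
      exact ⟨z, (mem_rt hr _ z).2 ⟨z1, z2⟩, z3⟩
  · refine Finset.card_le_of_interleaved fun x hx y hy hxy _ => ?_
    rw [mem_rt hp] at hx hy
    obtain ⟨z, z1, z2, z3⟩ := rol_step (a := a) hb hxy hy.1 (Or.inl ⟨hx.2.1, hx.1⟩)
    exact ⟨z, (mem_rt hr _ z).2 ⟨z1, z2, z3.2.le.trans hy.2.2⟩, z3⟩

theorem cnt : CNT := by
  intro b a p hb ha p0 hd h
  have hp : p ≠ 0 := by rintro rfl; simp at p0
  set r := op b a p with hr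
  have r0 : r.eval 0 = a * p.eval 0 := by rw [hr, op_eval]; ring
  have hr0 : r ≠ 0 := by
    intro e
    rw [e, eval_zero] at r0
    exact mul_ne_zero ha.ne p0 r0.symm
  have lc : r.coeff p.natDegree = (b * p.natDegree + a) * p.leadingCoeff := op_coeff _ _ _ _
  have l0 := leadingCoeff_ne_zero.2 hp
  have dg : r.natDegree = p.natDegree := le_antisymm
    (natDegree_le_iff_coeff_eq_zero.2 fun m hm => by
      rw [hr, op_coeff, coeff_eq_zero_of_natDegree_lt hm, mul_zero])
    (le_natDegree_of_ne_zero (lc ▸ mul_ne_zero hd.ne' l0))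
  have d0 : 0 < p.natDegree := by
    by_contra hc
    rw [show p.natDegree = 0 by omega] at hd
    simp at hd
    linarith
  have t := (p * r).tendsto_atTop_of_leadingCoeff_nonneg
    (natDegree_pos_iff_degree_pos.1 (by rw [natDegree_mul hp hr0]; omega)) (by
      rw [leadingCoeff_mul, show r.leadingCoeff = r.coeff p.natDegree by rw [← dg]; rfl, lc]
      nlinarith [mul_self_nonneg p.leadingCoeff])
  set s := insert 0 (r.roots.toFinset.filter fun x => 0 < x) with hs
  obtain ⟨M, hM⟩ := s.finite_toSet.bddAbove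
  obtain ⟨B, B1, B2⟩ := ((t.eventually_gt_atTop 0).and (eventually_gt_atTop M)).exists
  rw [eval_mul] at B1
  have Bs : ∀ x ∈ s, x < B := fun x hx => (hM hx).trans_lt B2
  have B0 : 0 < B := Bs 0 (by simp [hs])
  have key : (insert B s).card ≤ pc p + 1 := by
    refine Finset.card_le_of_interleaved fun x hx y hy hxy hz => ?_
    have xs : x ∈ s := (Finset.mem_insert.1 hx).resolve_left fun e => by
      rcases Finset.mem_insert.1 hy with c | c
      · linarith
      · linarith [Bs y c]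
    rw [hs, Finset.mem_insert, mem_rt hr0] at xs
    have x0 : 0 ≤ x := xs.elim (fun h => h.ge) fun h => h.2.le
    have nz : ∀ u ∈ Ioo x y, r.eval u ≠ 0 := fun u hu e => hz u (Finset.mem_insert_of_mem
      (Finset.mem_insert_of_mem ((mem_rt hr0 _ u).2 ⟨e, x0.trans_lt hu.1⟩))) hu
    have same : ∀ u ∈ Ioo x y, ∀ v ∈ Ioo x y, 0 < r.eval u * r.eval v := by
      have k : ∀ u ∈ Ioo x y, ∀ v ∈ Ioo x y, u ≤ v → 0 < r.eval u * r.eval v :=
        fun u hu v hv huv => aux_pos (f := fun t => r.eval u * r.eval t)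
          (continuous_const.mul r.continuous) (a := u) (b := v)
          (fun t ht => mul_ne_zero (nz u hu) (nz t ⟨hu.1.trans_le ht.1, ht.2.trans_lt hv.2⟩))
          (mul_self_pos.2 (nz u hu)) v ⟨huv, le_rfl⟩
      intro u hu v hv
      rcases le_total u v with c | c
      · exact k u hu v hv c
      · rw [mul_comm]; exact k v hv u hu c
    have dv : ∀ z, r.eval z = 0 → p.eval z * (derivative r).eval z < 0 →
        (∀ᶠ u in 𝓝[>] z, 0 < -p.eval z * r.eval u) ∧ ∀ᶠ u in 𝓝[<] z, -p.eval z * r.eval u < 0 :=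
      fun z e k => aux_deriv ((r.hasDerivAt z).const_mul (-p.eval z)) (by simp [e]) (by linarith)
    obtain ⟨u, u1, u2⟩ : ∃ u, 0 < -p.eval x * r.eval u ∧ u ∈ Ioo x y := by
      refine (Eventually.and ?_ (Ioo_mem_nhdsGT hxy)).exists
      rcases xs with c | c
      · refine mem_nhdsWithin_of_mem_nhds
          ((continuous_const.mul r.continuous).continuousAt.eventually (lt_mem_nhds ?_))
        change 0 < -p.eval x * r.eval x
        rw [c, r0]
        nlinarith [mul_self_pos.2 p0]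
      · exact (dv x c.1 (h x c.2 c.1)).1
    obtain ⟨v, v1, v2⟩ : ∃ v, -p.eval y * r.eval v < 0 ∧ v ∈ Ioo x y := by
      refine (Eventually.and ?_ (Ioo_mem_nhdsLT hxy)).exists
      rcases Finset.mem_insert.1 hy with c | c
      · refine mem_nhdsWithin_of_mem_nhds
          ((continuous_const.mul r.continuous).continuousAt.eventually (gt_mem_nhds ?_))
        change -p.eval y * r.eval y < 0
        rw [c]
        linarith
      · rw [hs, Finset.mem_insert, mem_rt hr0] at c
        have c' := c.resolve_left (x0.trans_lt hxy).ne'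
        exact (dv y c'.1 (h y c'.2 c'.1)).2
    have pxy : p.eval x * p.eval y < 0 := by
      by_contra hc
      have k1 := mul_nonneg (not_lt.1 hc) (same u u2 v v2).le
      have k2 := mul_pos u1 (neg_pos.2 v1)
      linarith
    have px : p.eval x ≠ 0 := left_ne_zero_of_mul pxy.ne
    obtain ⟨z, z1, z2⟩ := intermediate_value_Ioo' hxy.le
      (f := fun t => p.eval x * p.eval t) (continuous_const.mul p.continuous).continuousOn
      (show (0 : ℝ) ∈ Ioo _ _ from ⟨pxy, mul_self_pos.2 px⟩)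
    exact ⟨z, (mem_rt hp _ z).2 ⟨(mul_eq_zero.1 z2).resolve_left px, x0.trans_lt z1.1⟩, z1⟩
  rw [Finset.card_insert_of_notMem fun c => lt_irrefl _ (Bs B c), hs, pc_insert] at key
  omega

/-- Laguerre polynomials, regularised. -/
noncomputable def lagP (N : ℕ) (α : ℝ) : ℝ[X] :=
  ∑ m ∈ Finset.range (N + 1),
    C ((-1) ^ m * (N.choose m : ℝ) * (Real.Gamma (α + m + 1))⁻¹) * X ^ m

theorem lag_coeff (N : ℕ) (α : ℝ) (m : ℕ) :
    (lagP N α).coeff m = (-1) ^ m * (N.choose m : ℝ) * (Real.Gamma (α + m + 1))⁻¹ := by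
  simp only [lagP, finsetSum_coeff, coeff_C_mul_X_pow, Finset.sum_ite_eq, Finset.mem_range]
  split_ifs with h
  · rfl
  · rw [Nat.choose_eq_zero_of_lt (by omega)]; simp

theorem lag_succ (N : ℕ) (α : ℝ) :
    lagP (N + 1) α = op 1 (α + 1) (lagP N (α + 1)) - X * lagP N (α + 1) := by
  ext m
  rw [coeff_sub, op_coeff, lag_coeff, lag_coeff, gamma_inv (α + m + 1),
    show α + 1 + (m : ℝ) + 1 = α + m + 1 + 1 by ring]
  rcases m with _ | m
  · simp
  · rw [coeff_X_mul, lag_coeff, gamma_inv (α + 1 + m + 1), Nat.choose_succ_succ']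
    push_cast
    rw [show α + 1 + (m : ℝ) + 1 + 1 = α + (m + 1) + 1 + 1 by ring]
    ring

theorem lag_ne (N : ℕ) {α : ℝ} (h : -1 < α) : lagP N α ≠ 0 := by
  intro e
  have := lag_coeff N α 0
  have g := Real.Gamma_pos_of_pos (s := α + 1) (by linarith)
  simp [e] at this
  exact g.ne this

theorem rolle_inf {f f' : ℝ → ℝ} {z : ℝ} (hc : ContinuousOn f (Ici z))
    (hd : ∀ x, z < x → HasDerivAt f (f' x) x) (hz : f z = 0) (ht : Tendsto f atTop (𝓝 0)) :
    ∃ c, z < c ∧ f' c = 0 := by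
  obtain ⟨a, b, a1, ab, e⟩ : ∃ a b, z ≤ a ∧ a < b ∧ f a = f b := by
    by_cases c : f (z + 1) = 0
    · exact ⟨z, z + 1, le_rfl, by linarith, by rw [hz, c]⟩
    · have g : ContinuousOn (fun t => f t / f (z + 1)) (Ici z) := hc.div_const _
      obtain ⟨a, a1, a2⟩ := intermediate_value_Ioo (show z ≤ z + 1 by linarith)
        (g.mono Icc_subset_Ici_self) (show (1 / 2 : ℝ) ∈ Ioo _ _ from
          ⟨by simp [hz], by rw [div_self c]; norm_num⟩)
      have t2 := ht.div_const (f (z + 1))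
      rw [zero_div] at t2
      obtain ⟨T, T1, T2⟩ := ((t2.eventually (gt_mem_nhds (show (0 : ℝ) < 1 / 2 by norm_num))).and
        (eventually_ge_atTop (z + 1))).exists
      obtain ⟨b, b1, b2⟩ := intermediate_value_Ioo' T2
        (g.mono fun t ht => le_trans (by linarith) ht.1) (show (1 / 2 : ℝ) ∈ Ioo _ _ from
          ⟨T1, by rw [div_self c]; norm_num⟩)
      exact ⟨a, b, a1.1.le, a1.2.trans b1.1, (div_left_inj' c).1 (a2.trans b2.symm)⟩
  obtain ⟨c, c1, c2⟩ := exists_hasDerivAt_eq_zero ab (hc.mono fun t ht => a1.trans ht.1) e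
    fun x hx => hd x (a1.trans_lt hx.1)
  exact ⟨c, a1.trans_lt c1.1, c2⟩

theorem lag_lim (β : ℝ) (p : ℝ[X]) :
    Tendsto (fun t : ℝ => Real.exp (-t) * (t ^ β * p.eval t)) atTop (𝓝 0) := by
  induction p using Polynomial.induction_on' with
  | add p q hp hq => simpa [mul_add] using hp.add hq
  | monomial n a =>
    have := (tendsto_rpow_mul_exp_neg_mul_atTop_nhds_zero (β + n) 1 one_pos).const_mul a
    rw [mul_zero] at this
    refine this.congr' ?_
    filter_upwards [eventually_gt_atTop 0] with t ht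
    rw [Real.rpow_add ht, Real.rpow_natCast, eval_monomial, neg_mul, one_mul]
    ring

theorem lag_count (N : ℕ) : ∀ α : ℝ, -1 < α → N ≤ pc (lagP N α) := by
  induction N with
  | zero => intro _ _; exact Nat.zero_le _
  | succ N ih =>
    intro α hα
    have hl := lag_ne N (show -1 < α + 1 by linarith)
    have hL := lag_ne (N + 1) hα
    set l := lagP N (α + 1) with hl'
    set ψ : ℝ → ℝ := fun t => Real.exp (-t) * (t ^ ((α + 1) / 1) * l.eval t) with hψ
    have hd : ∀ x, 0 < x → HasDerivAt ψ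
        (Real.exp (-x) * (x ^ ((α + 1) / 1) / x) * (lagP (N + 1) α).eval x) x := by
      intro x hx
      refine ((hasDerivAt_neg x).exp.mul (rol_deriv (α + 1) l one_pos hx)).congr_deriv ?_
      rw [lag_succ, eval_sub, eval_mul, eval_X]
      field_simp
      ring
    have hc : Continuous ψ := continuous_iff_continuousAt.2 fun x =>
      ContinuousAt.mul (by fun_prop) (ContinuousAt.mul
        (Real.continuousAt_rpow_const x _ (Or.inr (by linarith))) l.continuousAt)
    have rt : ∀ x, 0 < x → Real.exp (-x) * (x ^ ((α + 1) / 1) / x) * (lagP (N + 1) α).eval x = 0 →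
        x ∈ (lagP (N + 1) α).roots.toFinset.filter fun x => 0 < x := fun x hx e => by
      have := Real.rpow_pos_of_pos hx ((α + 1) / 1)
      exact (mem_rt hL _ x).2 ⟨(mul_eq_zero.1 e).resolve_left (by positivity), hx⟩
    set s := insert 0 (l.roots.toFinset.filter fun x => 0 < x) with hs
    have sz : ∀ x ∈ s, 0 ≤ x ∧ ψ x = 0 := by
      intro x hx
      rw [hs, Finset.mem_insert, mem_rt hl] at hx
      rcases hx with c | c
      · exact ⟨c.ge, by simp [hψ, c, Real.zero_rpow (show α + 1 ≠ 0 by linarith)]⟩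
      · exact ⟨c.2.le, by simp [hψ, c.1]⟩
    have ne : s.Nonempty := ⟨0, by simp [hs]⟩
    obtain ⟨z0, z1⟩ := sz _ (s.max'_mem ne)
    obtain ⟨c, c1, c2⟩ := rolle_inf hc.continuousOn (fun x hx => hd x (z0.trans_lt hx)) z1
      (lag_lim _ l)
    have cm := rt c (z0.trans_lt c1) c2
    have key : s.card ≤ (((lagP (N + 1) α).roots.toFinset.filter fun x => 0 < x).erase c).card
        + 1 := by
      refine Finset.card_le_of_interleaved fun x hx y hy hxy _ => ?_
      obtain ⟨u, u1, u2⟩ := exists_hasDerivAt_eq_zero hxy hc.continuousOn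
        ((sz x hx).2.trans (sz y hy).2.symm) fun t ht => hd t ((sz x hx).1.trans_lt ht.1)
      exact ⟨u, Finset.mem_erase.2 ⟨(u1.2.trans ((s.le_max' y hy).trans_lt c1)).ne,
        rt u ((sz x hx).1.trans_lt u1.1) u2⟩, u1⟩
    rw [Finset.card_erase_add_one cm, hs, pc_insert] at key
    exact (Nat.succ_le_succ (ih (α + 1) (by linarith))).trans key

theorem lag : LAG := by
  intro α N hα
  rcases Nat.eq_zero_or_pos N with c | c
  · omega
  have N0 : (0 : ℝ) < N := by exact_mod_cast c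
  have e : ∀ x : ℝ, (tr (cf α 0) N).eval (N * x) = (lagP N α).eval x := by
    intro x
    simp only [tr, lagP, eval_finsetSum, eval_mul, eval_C, eval_pow, eval_X]
    refine Finset.sum_congr rfl fun m _ => ?_
    simp only [cf, Finset.range_zero, Finset.prod_empty, mul_one,
      Nat.descFactorial_eq_factorial_mul_choose, mul_pow, div_eq_mul_inv, mul_inv]
    push_cast
    field_simp
  have ht : tr (cf α 0) N ≠ 0 := by
    intro h
    have := e 0
    rw [h, eval_zero, ← coeff_zero_eq_eval_zero, lag_coeff] at this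
    have g := Real.Gamma_pos_of_pos (s := α + 1) (by linarith)
    simp at this
    exact g.ne this
  refine (lag_count N α hα).trans (Finset.card_le_card_of_injOn (fun x => N * x) (fun x hx => ?_)
    fun x _ y _ h => mul_left_cancel₀ N0.ne' h)
  rw [Finset.mem_coe, mem_rt (lag_ne N hα)] at hx
  exact Finset.mem_coe.2 ((mem_rt ht _ _).2 ⟨by rw [e, hx.1], mul_pos N0 hx.2⟩)

end Pool.Agent.MP_cdfc49_an.BZ
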