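import Mathlib
import Pool.Agent.MP_cdfc49_an.BZ.Pol
import Pool.Agent.MP_cdfc49_an.BZ.Cx

set_option autoImplicit false

namespace Pool.Agent.MP_cdfc49_an.BZ

open Filter Topology Set Polynomial

/-- The complex roots of a real polynomial. -/
noncomputable def cr (p : ℝ[X]) : Multiset ℂ := (p.map (algebraMap ℝ ℂ)).roots

theorem ev_map (p : ℝ[X]) (w : ℂ) : ev p w = (p.map (algebraMap ℝ ℂ)).eval w :=
  (eval_map_algebraMap p w).symm

theorem cr_card (p : ℝ[X]) : (cr p).card = p.natDegree :=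
  IsAlgClosed.card_roots_map_eq_natDegree_of_injective p (algebraMap ℝ ℂ).injective

theorem cr_mem {p : ℝ[X]} (hp : p ≠ 0) (w : ℂ) : w ∈ cr p ↔ ev p w = 0 := by
  rw [cr, mem_roots (Polynomial.map_ne_zero hp), IsRoot.def, ev_map]

theorem cr_fac (p : ℝ[X]) : p.map (algebraMap ℝ ℂ) =
    C (p.map (algebraMap ℝ ℂ)).leadingCoeff * ((cr p).map fun a => X - C a).prod :=
  (C_leadingCoeff_mul_prod_multiset_X_sub_C IsAlgClosed.card_roots_eq_natDegree).symm

theorem ev_real (p : ℝ[X]) (x : ℝ) : ev p (x : ℂ) = ((p.eval x : ℝ) : ℂ) := (gen3.2.1 p).2.1 x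

theorem cr_le {p : ℝ[X]} (hp : p ≠ 0) (Q : ℝ → Prop) [DecidablePred Q] (S : ℂ → Prop)
    [DecidablePred S] (h : ∀ x : ℝ, Q x → S (x : ℂ)) :
    (p.roots.toFinset.filter Q).card ≤ ((cr p).filter S).card := by
  refine le_trans (Finset.card_le_card_of_injOn (fun x : ℝ => (x : ℂ)) (fun x hx => ?_)
    fun x _ y _ e => Complex.ofReal_injective e) (Multiset.toFinset_card_le _)
  rw [Finset.mem_coe, mem_rt hp] at hx
  rw [Finset.mem_coe, Multiset.mem_toFinset, Multiset.mem_filter, cr_mem hp, ev_real, hx.1]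
  exact ⟨by simp, h x hx.2⟩

theorem zcp_prod (U : Set ℂ) [DecidablePred (· ∈ U)] {a : ℂ} (ha : a ≠ 0) (s : Multiset ℂ) :
    zeroCount U (fun w => (C a * (s.map fun ρ => X - C ρ).prod).eval w) =
      ((s.filter (· ∈ U)).card : ℕ∞) := by
  induction s using Multiset.induction_on with
  | empty => simpa using (zc.2.1 U (fun _ => a) (by fun_prop)).2 fun _ _ => ha
  | cons ρ s ih =>
    have e : (fun w => (C a * ((ρ ::ₘ s).map fun ρ => X - C ρ).prod).eval w) =
        fun w => (w - ρ) * (C a * (s.map fun ρ => X - C ρ).prod).eval w := by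
      funext w
      simp only [Multiset.map_cons, Multiset.prod_cons, eval_mul, eval_sub, eval_X, eval_C]
      ring
    have := zc.1 U (fun w => (C a * (s.map fun ρ => X - C ρ).prod).eval w) ρ
      (Polynomial.differentiable _)
    rw [e]
    by_cases c : ρ ∈ U
    · rw [this.1 c, ih, Multiset.filter_cons_of_pos _ c, Multiset.card_cons, Nat.cast_succ]
    · rw [this.2 c, ih, Multiset.filter_cons_of_neg _ c]

theorem zcp : ZCP := by
  intro p hp
  classical
  have e : zeroCount U0 (ev p) = (((cr p).filter (· ∈ U0)).card : ℕ∞) := by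
    rw [← zcp_prod U0 (leadingCoeff_ne_zero.2 (Polynomial.map_ne_zero (f := algebraMap ℝ ℂ) hp)),
      ← cr_fac]
    exact congrArg _ (funext (ev_map p))
  have t : ((cr p).filter (· ∈ U0)).card + ((cr p).filter fun w => ¬ w ∈ U0).card =
      p.natDegree := by rw [← Multiset.card_add, Multiset.filter_add_not, cr_card]
  rw [e, ← t]
  refine ⟨?_, fun p0 hs => ?_⟩
  · have := cr_le hp (fun x => 0 < x) (fun w => ¬ w ∈ U0) fun x hx => by simp [U0, hx.le]
    exact_mod_cast Nat.add_le_add_left this _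
  · have re : ∀ w ∈ (cr p).filter fun w => ¬ w ∈ U0, ((w.re : ℝ) : ℂ) = w ∧ p.eval w.re = 0 ∧
        0 < w.re := by
      intro w hw
      rw [Multiset.mem_filter, cr_mem hp] at hw
      obtain ⟨a, b⟩ := hw
      simp only [U0, mem_ofPred_eq, not_or, not_not, not_lt] at b
      have c : ((w.re : ℝ) : ℂ) = w := Complex.ext (by simp) (by simp [b.1])
      rw [← c, ev_real, Complex.ofReal_eq_zero] at a
      exact ⟨c, a, lt_of_le_of_ne b.2 fun d => p0 (by rwa [← d] at a)⟩
    have nd : ((cr p).filter fun w => ¬ w ∈ U0).Nodup := by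
      refine Multiset.nodup_iff_count_le_one.2 fun w => ?_
      by_cases c : w ∈ (cr p).filter fun w => ¬ w ∈ U0
      · obtain ⟨a, b, d⟩ := re w c
        refine (Multiset.count_le_of_le w (Multiset.filter_le _ _)).trans ?_
        rw [cr, count_roots]
        by_contra hc
        have := ((one_lt_rootMultiplicity_iff_isRoot (Polynomial.map_ne_zero hp)).1
          (not_le.1 hc)).2
        rw [derivative_map, IsRoot.def, ← ev_map, ← a, ev_real, Complex.ofReal_eq_zero] at this
        exact hs _ d b this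
      · rw [Multiset.count_eq_zero_of_notMem c]; exact zero_le_one
    have : ((cr p).filter fun w => ¬ w ∈ U0).card ≤ pc p := by
      rw [← Multiset.toFinset_card_of_nodup nd]
      refine Finset.card_le_card_of_injOn Complex.re (fun w hw => ?_) fun w hw u hu h => ?_
      · rw [Finset.mem_coe, Multiset.mem_toFinset] at hw
        exact Finset.mem_coe.2 ((mem_rt hp _ _).2 (re w hw).2)
      · rw [Finset.mem_coe, Multiset.mem_toFinset] at hw hu
        rw [← (re w hw).1, ← (re u hu).1, h]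
    exact_mod_cast Nat.add_le_add_left this _

theorem far_log (a w : ℂ) (s : Multiset ℂ) (hw : w ∉ s) :
    (derivative (C a * (s.map fun ρ => X - C ρ).prod)).eval w =
      (C a * (s.map fun ρ => X - C ρ).prod).eval w * (s.map fun ρ => (w - ρ)⁻¹).sum ∧
    (derivative (derivative (C a * (s.map fun ρ => X - C ρ).prod))).eval w =
      (C a * (s.map fun ρ => X - C ρ).prod).eval w * ((s.map fun ρ => (w - ρ)⁻¹).sum ^ 2 -
        (s.map fun ρ => (w - ρ)⁻¹ * (w - ρ)⁻¹).sum) := by
  induction s using Multiset.induction_on with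
  | empty => simp
  | cons ρ s ih =>
    rw [Multiset.mem_cons, not_or] at hw
    obtain ⟨i1, i2⟩ := ih hw.2
    have n : (w - ρ) * (w - ρ)⁻¹ = 1 := mul_inv_cancel₀ (sub_ne_zero.2 hw.1)
    simp only [Multiset.map_cons, Multiset.prod_cons, Multiset.sum_cons]
    rw [mul_left_comm]
    set q := C a * (s.map fun ρ => X - C ρ).prod
    simp only [derivative_mul, derivative_sub, derivative_X, derivative_C, sub_zero, one_mul,
      derivative_add, eval_add, eval_mul, eval_sub, eval_X, eval_C, i1, i2]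
    constructor
    · linear_combination (-q.eval w) * n
    · linear_combination (-2 * q.eval w * (s.map fun ρ => (w - ρ)⁻¹).sum) * n

theorem far_sum (S1 S2 : ℂ → Prop) [DecidablePred S1] [DecidablePred S2] (h : ℂ → ℂ) (α β : ℝ)
    (s : Multiset ℂ) (H : ∀ ρ ∈ s, (S1 ρ → S2 ρ ∧ α ≤ (h ρ).re) ∧ (S2 ρ → 0 ≤ (h ρ).re) ∧
      (¬ S2 ρ → -β ≤ (h ρ).re)) :
    α * (s.filter S1).card - β * (s.filter fun ρ => ¬ S2 ρ).card ≤ ((s.map h).sum).re := by
  induction s using Multiset.induction_on with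
  | empty => simp
  | cons ρ s ih =>
    have i := ih fun u hu => H u (Multiset.mem_cons_of_mem hu)
    obtain ⟨a, b, c⟩ := H ρ (Multiset.mem_cons_self _ _)
    rw [Multiset.map_cons, Multiset.sum_cons, Complex.add_re]
    by_cases c1 : S1 ρ
    · rw [Multiset.filter_cons_of_pos _ c1,
        Multiset.filter_cons_of_neg (p := fun ρ => ¬ S2 ρ) _ (not_not.2 (a c1).1),
        Multiset.card_cons]
      push_cast
      linarith [(a c1).2]
    · rw [Multiset.filter_cons_of_neg _ c1]
      by_cases c2 : S2 ρ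
      · rw [Multiset.filter_cons_of_neg (p := fun ρ => ¬ S2 ρ) _ (not_not.2 c2)]
        linarith [b c2]
      · rw [Multiset.filter_cons_of_pos (p := fun ρ => ¬ S2 ρ) _ c2, Multiset.card_cons]
        push_cast
        linarith [c c2]

theorem far_diff (w v : ℂ) (s : Multiset ℂ) (hw : w ∉ s) (hv : v ∉ s) :
    (s.map fun ρ => (w - ρ)⁻¹).sum - (s.map fun ρ => (v - ρ)⁻¹).sum =
      (v - w) * (s.map fun ρ => (w - ρ)⁻¹ * (v - ρ)⁻¹).sum := by
  induction s using Multiset.induction_on with
  | empty => simp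
  | cons ρ s ih =>
    rw [Multiset.mem_cons, not_or] at hw hv
    have n : (w - ρ) * (w - ρ)⁻¹ = 1 := mul_inv_cancel₀ (sub_ne_zero.2 hw.1)
    have m : (v - ρ) * (v - ρ)⁻¹ = 1 := mul_inv_cancel₀ (sub_ne_zero.2 hv.1)
    simp only [Multiset.map_cons, Multiset.sum_cons]
    linear_combination ih hw.2 hv.2 - (w - ρ)⁻¹ * m + (v - ρ)⁻¹ * n

theorem far : FAR := by
  intro b a R T P M p hb hR hT hp hs hP hU hM hbig
  classical
  set S2 : ℂ → Prop := fun ρ => ρ.im = 0 ∧ 0 < ρ.re with hS2
  set S1 : ℂ → Prop := fun ρ => ρ.im = 0 ∧ 0 < ρ.re ∧ ρ.re ≤ T with hS1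
  have c1 : (M : ℝ) ≤ ((cr p).filter S1).card := by
    exact_mod_cast hM.trans (cr_le hp _ S1 fun x hx => by simpa [hS1] using hx)
  have c2 : (((cr p).filter fun ρ => ¬ S2 ρ).card : ℝ) ≤ P := by
    have t : ((cr p).filter S2).card + ((cr p).filter fun w => ¬ S2 w).card = p.natDegree := by
      rw [← Multiset.card_add, Multiset.filter_add_not, cr_card]
    have := cr_le hp (fun x => 0 < x) S2 fun x hx => by simpa [hS2] using hx
    have u : pc p ≤ ((cr p).filter S2).card := this
    exact_mod_cast (show ((cr p).filter fun w => ¬ S2 w).card ≤ P by omega)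
  have oth : ∀ ρ ∈ cr p, ¬ S2 ρ → ‖ρ‖ ≤ R := by
    intro ρ h1 h2
    by_cases c : ρ ∈ U0
    · exact hU ρ c ((cr_mem hp ρ).1 h1)
    · simp only [U0, mem_ofPred_eq, not_or, not_not, not_lt] at c
      have : ρ = 0 := Complex.ext (le_antisymm (not_lt.1 fun d => h2 ⟨c.1, d⟩) c.2) c.1
      simpa [this] using hR
  have bP : 0 ≤ b * P := by positivity
  have a0 := abs_nonneg a
  have a1 := neg_abs_le a
  have inv2 : ∀ w ρ : ℂ, 2 * (R + T) < ‖w‖ → ‖ρ‖ ≤ R → ‖w‖ * ‖(w - ρ)⁻¹‖ ≤ 2 := by
    intro w ρ h1 h2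
    have := norm_sub_norm_le w ρ
    rw [norm_inv, ← div_eq_mul_inv, div_le_iff₀ (by linarith)]
    linarith
  have D : ∀ w : ℂ, 2 * (R + T) < ‖w‖ → w ∉ cr p → 0 < b * (((‖w‖ ^ 2 : ℝ) : ℂ) *
      ((cr p).map fun ρ => (w - ρ)⁻¹ * (starRingEnd ℂ w - ρ)⁻¹).sum).re + a := by
    intro w h1 h2
    have := far_sum S1 S2
      (fun ρ => ((‖w‖ ^ 2 : ℝ) : ℂ) * ((w - ρ)⁻¹ * (starRingEnd ℂ w - ρ)⁻¹)) (4 / 9) 4 (cr p)
      fun ρ hρ => by
        have k : ρ.im = 0 → (((‖w‖ ^ 2 : ℝ) : ℂ) * ((w - ρ)⁻¹ * (starRingEnd ℂ w - ρ)⁻¹)).re =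
            ‖w‖ ^ 2 / ‖w - ρ‖ ^ 2 := by
          intro i
          rw [← Complex.conj_eq_iff_im] at i
          rw [show starRingEnd ℂ w - ρ = starRingEnd ℂ (w - ρ) by rw [map_sub, i], ← mul_inv,
            Complex.mul_conj, Complex.normSq_eq_norm_sq, ← Complex.ofReal_inv,
            ← Complex.ofReal_mul, Complex.ofReal_re, div_eq_mul_inv]
        refine ⟨fun s => ⟨⟨s.1, s.2.1⟩, ?_⟩, fun s => by rw [k s.1]; positivity, fun s => ?_⟩
        · have n0 : 0 < ‖w - ρ‖ := norm_pos_iff.2 (sub_ne_zero.2 fun e => h2 (e ▸ hρ))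
          have n1 : ‖ρ‖ ≤ T := by
            rw [← Complex.abs_re_eq_norm.2 s.1, abs_of_pos s.2.1]; exact s.2.2
          have n2 := norm_sub_le w ρ
          rw [k s.1, le_div_iff₀ (by positivity)]
          nlinarith
        · refine le_trans ?_ (neg_abs_le _)
          refine neg_le_neg ((Complex.abs_re_le_norm _).trans ?_)
          have k1 := inv2 w ρ h1 (oth ρ hρ s)
          have k2 := inv2 (starRingEnd ℂ w) ρ (by simpa using h1) (oth ρ hρ s)
          rw [Complex.norm_conj] at k2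
          rw [norm_mul, norm_mul, Complex.norm_real, Real.norm_of_nonneg (by positivity)]
          have := mul_le_mul k1 k2 (by positivity) (by norm_num)
          linarith
    rw [Multiset.sum_map_mul_left] at this
    nlinarith [mul_le_mul_of_nonneg_left this hb.le, mul_le_mul_of_nonneg_left c1 hb.le,
      mul_le_mul_of_nonneg_left c2 hb.le]
  have L : ∀ w : ℂ, w ∉ cr p →
      ev (derivative p) w = ev p w * ((cr p).map fun ρ => (w - ρ)⁻¹).sum ∧
      ev (derivative (derivative p)) w = ev p w * (((cr p).map fun ρ => (w - ρ)⁻¹).sum ^ 2 -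
        ((cr p).map fun ρ => (w - ρ)⁻¹ * (w - ρ)⁻¹).sum) := by
    intro w hw
    have := far_log (p.map (algebraMap ℝ ℂ)).leadingCoeff w (cr p) hw
    rw [← cr_fac] at this
    simpa only [ev_map, ← derivative_map] using this
  have Z : ∀ w : ℂ, w ∉ cr p → ev (op b a p) w = 0 →
      b * (w * ((cr p).map fun ρ => (w - ρ)⁻¹).sum) + a = 0 := by
    intro w hw e
    have e2 : ev (op b a p) w = b * (w * ev (derivative p) w) + a * ev p w := by simp [ev, op]
    rw [e2, (L w hw).1] at e
    refine (mul_eq_zero.1 (show ev p w * _ = 0 by linear_combination e)).resolve_left ?_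
    exact fun c => hw ((cr_mem hp w).2 c)
  constructor
  · intro w w1 w2 e
    have nm : w ∉ cr p := fun c => by linarith [hU w w1 ((cr_mem hp w).1 c)]
    by_cases c : w.im = 0
    · have x0 : w.re < 0 := w1.resolve_left (not_not.2 c)
      have nw : ‖w‖ = -w.re := by rw [← Complex.abs_re_eq_norm.2 c, abs_of_neg x0]
      have := far_sum S1 S2 (fun ρ => w * (w - ρ)⁻¹) (2 / 3) 2 (cr p) fun ρ hρ => by
        have k : ρ.im = 0 → (w * (w - ρ)⁻¹).re = -w.re / (-w.re + ρ.re) := by
          intro i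
          have e1 : w = (w.re : ℂ) := Complex.ext (by simp) (by simp [c])
          have e2 : ρ = (ρ.re : ℂ) := Complex.ext (by simp) (by simp [i])
          rw [show w * (w - ρ)⁻¹ = ((w.re * (w.re - ρ.re)⁻¹ : ℝ) : ℂ) by
            push_cast; rw [← e1, ← e2], Complex.ofReal_re,
            show -w.re + ρ.re = -(w.re - ρ.re) by ring, neg_div_neg_eq, div_eq_mul_inv]
        refine ⟨fun s => ⟨⟨s.1, s.2.1⟩, ?_⟩, fun s => ?_, fun s => ?_⟩
        · rw [k s.1, le_div_iff₀ (by linarith [s.2.1])]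
          linarith [s.2.2]
        · rw [k s.1]
          exact div_nonneg (by linarith) (by linarith [s.2])
        · refine le_trans ?_ (neg_abs_le _)
          refine neg_le_neg ((Complex.abs_re_le_norm _).trans ?_)
          rw [norm_mul]
          exact inv2 w ρ w2 (oth ρ hρ s)
      rw [Multiset.sum_map_mul_left] at this
      have z := congrArg Complex.re (Z w nm e)
      rw [Complex.add_re, Complex.re_ofReal_mul, Complex.ofReal_re, Complex.zero_re] at z
      nlinarith [mul_le_mul_of_nonneg_left this hb.le, mul_le_mul_of_nonneg_left c1 hb.le,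
        mul_le_mul_of_nonneg_left c2 hb.le]
    · have nm2 : starRingEnd ℂ w ∉ cr p := fun d => nm (by
        rw [cr_mem hp] at d ⊢
        rwa [(gen3.2.1 p).2.2, map_eq_zero] at d)
      have z1 := Z w nm e
      have z2 := Z _ nm2 (by rw [(gen3.2.1 _).2.2, e, map_zero])
      have df := far_diff w _ (cr p) nm nm2
      have ne : starRingEnd ℂ w - w ≠ 0 := fun d => c (Complex.conj_eq_iff_im.1 (sub_eq_zero.1 d))
      have nn : ((‖w‖ ^ 2 : ℝ) : ℂ) = w * starRingEnd ℂ w := by
        rw [Complex.mul_conj, Complex.normSq_eq_norm_sq]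
      have z : (b : ℂ) * (((‖w‖ ^ 2 : ℝ) : ℂ) *
          ((cr p).map fun ρ => (w - ρ)⁻¹ * (starRingEnd ℂ w - ρ)⁻¹).sum) + a = 0 := by
        refine (mul_eq_zero.1 ?_).resolve_left ne
        rw [nn]
        linear_combination starRingEnd ℂ w * z1 - w * z2 - b * w * starRingEnd ℂ w * df
      have z' := congrArg Complex.re z
      rw [Complex.add_re, Complex.re_ofReal_mul, Complex.ofReal_re, Complex.zero_re] at z'
      linarith [D w w2 nm]
  · intro x x1 e
    have x0 : 0 < x := by linarith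
    have px : p.eval x ≠ 0 := by
      intro c
      rw [op_eval, c, mul_zero, add_zero] at e
      exact mul_ne_zero hb.ne' (mul_ne_zero x0.ne' (hs x x0 c)) e
    have nm : (x : ℂ) ∉ cr p := by
      rw [cr_mem hp, ev_real, Complex.ofReal_eq_zero]; exact px
    have nx : ‖(x : ℂ)‖ = x := by rw [Complex.norm_real, Real.norm_of_nonneg x0.le]
    have d := D x (by rwa [nx]) nm
    rw [Complex.conj_ofReal, nx] at d
    have z := Z x nm (by rw [ev_real, e, Complex.ofReal_zero])
    obtain ⟨l1, l2⟩ := L x nm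
    have e2 : ev (derivative (op b a p)) x = b * (ev (derivative p) x +
        x * ev (derivative (derivative p)) x) + a * ev (derivative p) x := by simp [ev, op]
    have k : (x : ℂ) * (ev p x * ev (derivative (op b a p)) x) = -(ev p x) ^ 2 *
        (b * (((x ^ 2 : ℝ) : ℂ) * 
          ((cr p).map fun ρ : ℂ => ((x : ℂ) - ρ)⁻¹ * ((x : ℂ) - ρ)⁻¹).sum) + a) := by
      rw [e2, l1, l2]
      push_cast
      linear_combination (ev p x ^ 2 * (1 + x * ((cr p).map fun ρ => ((x : ℂ) - ρ)⁻¹).sum)) * z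
    rw [ev_real, ev_real] at k
    have k2 := congrArg Complex.re k
    rw [← Complex.ofReal_mul, ← Complex.ofReal_mul, Complex.ofReal_re, ← Complex.ofReal_pow,
      ← Complex.ofReal_neg, Complex.re_ofReal_mul, Complex.add_re, Complex.re_ofReal_mul,
      Complex.ofReal_re] at k2
    have k3 := mul_pos (show 0 < p.eval x ^ 2 by positivity) d
    by_contra hc
    have := mul_nonneg x0.le (not_lt.1 hc)
    linarith

end Pool.Agent.MP_cdfc49_an.BZ
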