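import Mathlib
import Pool.Agent.MP_cdfc49_an.BZ.Ode

set_option autoImplicit false

namespace Pool.Agent.MP_cdfc49_an.BZ

open Filter Topology Set

theorem rt_prod (hw : WD) (hs : SIM) (ν : ℝ) :
    StrictMonoOn (fun t : ℝ => (t ^ (ν / 2) * Fr ν 0 t) * (t ^ (ν / 2) * Fr ν 1 t))
      (Ioc 0 (ν ^ 2 / 4)) := by
  have hd : ∀ x : ℝ, 0 < x → HasDerivAt
      (fun t : ℝ => (t ^ (ν / 2) * Fr ν 0 t) * (t ^ (ν / 2) * Fr ν 1 t))
      ((x ^ (ν / 2)) ^ 2 * (Fr ν 1 x ^ 2 + (ν ^ 2 - 4 * x) * Fr ν 0 x ^ 2) / (2 * x)) x := by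
    intro x hx
    have a := (hw ν x hx).1 0
    have b := (hw ν x hx).2.1
    simp only [Nat.cast_zero, sub_zero, zero_add] at a
    exact (a.mul b).congr_deriv (by ring)
  refine strictMonoOn_of_hasDerivWithinAt_pos (convex_Ioc _ _)
    (fun x hx => (hd x hx.1).continuousAt.continuousWithinAt)
    (fun x hx => by
      rw [interior_Ioc] at hx
      exact (hd x hx.1).hasDerivWithinAt) (fun x hx => ?_)
  rw [interior_Ioc] at hx
  have h1 := Real.rpow_pos_of_pos hx.1 (ν / 2)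
  have h2 : 0 < ν ^ 2 - 4 * x := by linarith [hx.2]
  have h3 : 0 < Fr ν 1 x ^ 2 + (ν ^ 2 - 4 * x) * Fr ν 0 x ^ 2 := by
    by_cases c : Fr ν 0 x = 0
    · have := hs ν x hx.1.ne' c
      positivity
    · positivity
  have := hx.1
  positivity

theorem rt0 (h : REL) (hw : WD) (hs : SIM) : RT0 := by
  intro ν hν h0 x hx0 hx1
  have S := sys_Fr h hw hs ν
  have hq : 0 < ν ^ 2 / 4 := by positivity
  have key : ∀ t, 0 < t → t < ν ^ 2 / 4 → Fr ν 0 t * Fr ν 1 t < 0 := by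
    intro t t0 t1
    have := rt_prod hw hs ν ⟨t0, t1.le⟩ ⟨hq, le_rfl⟩ t1
    simp only [h0, mul_zero, zero_mul] at this
    have h1 := Real.rpow_pos_of_pos t0 (ν / 2)
    by_contra hc
    have h2 := mul_nonneg (mul_pos h1 h1).le (not_lt.1 hc)
    linarith
  have ne : ∀ t ∈ Icc x (ν ^ 2 / 4), Fr ν 1 t ≠ 0 := by
    intro t ht e
    rcases ht.2.lt_or_eq with c | c
    · have := key t (hx0.trans_le ht.1) c
      rw [e, mul_zero] at this
      exact lt_irrefl _ this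
    · rw [c] at e
      exact hs ν _ hq.ne' h0 e
  have n1 := ne x ⟨le_rfl, hx1.le⟩
  have p := aux_pos (f := fun t => Fr ν 1 x * Fr ν 1 t) (continuous_const.mul (S.cont 1))
    (fun t ht => mul_ne_zero n1 (ne t ht)) (mul_self_pos.2 n1) _ ⟨hx1.le, le_rfl⟩
  refine ⟨?_, p⟩
  have k := key x hx0 hx1
  by_contra hc
  have k2 := mul_nonneg (not_lt.1 hc) (mul_self_pos.2 n1).le
  have k3 := mul_pos (neg_pos.2 k) p
  linarith

theorem rt_core {ν : ℝ} {φ : ℕ → ℝ → ℝ} (h : Sys ν φ) (hν : ν ≠ 0) (h0 : φ 0 (ν ^ 2 / 4) = 0)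
    (h1 : φ 1 (ν ^ 2 / 4) < 0) {x : ℝ} (hx : ν ^ 2 / 4 ≤ x) (e : φ 2 x = 0) :
    0 < (4 * x - ν ^ 2) ^ 2 - (4 * x - ν ^ 2) - 2 * ν ^ 2 := by
  by_contra hc
  have hq : 0 < ν ^ 2 := by positivity
  have hq4 : 0 < ν ^ 2 / 4 := by positivity
  have s2 : 0 < φ 2 (ν ^ 2 / 4) := by rw [h.two, h0]; linarith
  obtain ⟨z, z0, z1, z2, z3⟩ := aux_first (h.cont 2) (b := x) s2 ⟨x, ⟨hx, le_rfl⟩, e⟩
  have zp : 0 < z := hq4.trans z0
  have y0 : 0 < 4 * z - ν ^ 2 := by linarith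
  have y1 : (4 * z - ν ^ 2) ^ 2 - (4 * z - ν ^ 2) - 2 * ν ^ 2 ≤ 0 := by
    by_contra hd
    have a1 : 1 < 4 * z - ν ^ 2 := by
      by_contra he
      nlinarith [mul_nonneg y0.le (sub_nonneg.2 (not_lt.1 he))]
    nlinarith [mul_nonneg (sub_nonneg.2 z1) (show 0 ≤ (4 * z - ν ^ 2) + (4 * x - ν ^ 2) - 1 by
      linarith)]
  have f2 := h.two z
  have f3 := h.three z
  have f4 := h.four z
  have f1 : φ 1 z = -(4 * z - ν ^ 2) * φ 0 z := by linarith
  have k0 : φ 0 z < 0 := by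
    by_contra hd
    have a1 : φ 1 z ≤ 0 := by nlinarith [mul_nonneg y0.le (not_lt.1 hd)]
    have a2 : ∀ t ∈ Ioo (ν ^ 2 / 4) z, φ 1 t < 0 := by
      intro t ht
      by_contra he
      have := h.spos_of (n := 1) (hq4.trans ht.1) ht.2
        (fun u hu => z3 u ⟨by linarith [hu.1, ht.1], hu.2⟩) (not_lt.1 he)
      linarith
    exact hd (h.sneg_of (n := 0) hq4 z0 a2 h0.le)
  rw [f1] at f3 f4
  have k3 : φ 3 z = ((4 * z - ν ^ 2) ^ 2 - (4 * z - ν ^ 2) - 2 * ν ^ 2) * φ 0 z := by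
    rw [f3]; ring
  have left : ∀ᶠ t in 𝓝[<] z, t ∈ Ioo (ν ^ 2 / 4) z := Ioo_mem_nhdsLT z0
  rcases y1.lt_or_eq with c | c
  · have : 0 < φ 3 z := by rw [k3]; exact mul_pos_of_neg_of_neg c k0
    obtain ⟨t, t1, t2⟩ := ((h.up (n := 2) zp z2 this).2.and left).exists
    linarith [z3 t ⟨t2.1.le, t2.2⟩]
  · have a3 : φ 3 z = 0 := by rw [k3, c, zero_mul]
    have a4 : φ 4 z < 0 := by
      have : φ 4 z = ((4 * ν ^ 2 + 2) * (4 * z - ν ^ 2) + 6 * ν ^ 2) * φ 0 z := by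
        rw [f4]
        linear_combination (-φ 0 z) * c
      rw [this]
      exact mul_neg_of_pos_of_neg (by positivity) k0
    have a5 := ((h.down (n := 3) zp a3 a4).2.and left)
    obtain ⟨l, l1, l2⟩ := mem_nhdsLT_iff_exists_Ioo_subset.1 a5
    have l3 : l < z := l1
    have m := l2 (show (l + z) / 2 ∈ Ioo l z from ⟨by linarith, by linarith⟩)
    have m2 : (l + z) / 2 ∈ Ioo (ν ^ 2 / 4) z := m.2
    have := (h.pos_of (n := 2) (hq4.trans m2.1) m2.2.le
      fun u hu => (l2 (show u ∈ Ioo l z from ⟨by linarith [hu.1], hu.2⟩)).1.le).1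
      (z3 _ ⟨m2.1.le, m2.2⟩)
    linarith

theorem rt (h : REL) (hw : WD) (hs : SIM) (h0 : RT0) : RT := by
  intro ν hν e0
  have S := sys_Fr h hw hs ν
  have hq4 : 0 < ν ^ 2 / 4 := by positivity
  have n1 := hs ν _ hq4.ne' e0
  constructor
  · intro x hx e
    have y0 : ν ^ 2 / 4 < x := by
      by_contra hc
      rcases (not_lt.1 hc).lt_or_eq with c | c
      · have := (h0 ν hν e0 x hx c).2
        rw [e, zero_mul] at this
        exact lt_irrefl _ this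
      · exact n1 (c ▸ e)
    have n0 : Fr ν 0 x ≠ 0 := fun c => hs ν x hx.ne' c e
    have d := ((h ν x).1 1).2
    have f2 := S.two x
    rw [e] at d f2
    have k : 2 * x * (Fr ν 0 x * Dr ν 1 x) = -((4 * x - ν ^ 2) * Fr ν 0 x ^ 2) := by
      linear_combination Fr ν 0 x * d + Fr ν 0 x * f2
    have k2 : 0 < (4 * x - ν ^ 2) * Fr ν 0 x ^ 2 := mul_pos (by linarith) (by positivity)
    by_contra hc
    have := mul_nonneg (show 0 ≤ 2 * x by linarith) (not_lt.1 hc)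
    linarith
  · intro x hx e
    have f2 := S.two x
    have f3 := S.three x
    rw [e] at f2
    have y0 : ν ^ 2 / 4 ≤ x := by
      by_contra hc
      obtain ⟨a, b⟩ := h0 ν hν e0 x hx (not_le.1 hc)
      have c1 := mul_pos (show 0 < ν ^ 2 - 4 * x by linarith [not_le.1 hc]) (neg_pos.2 a)
      have c2 : Fr ν 1 x * Fr ν 1 (ν ^ 2 / 4) =
          (ν ^ 2 - 4 * x) * (Fr ν 0 x * Fr ν 1 (ν ^ 2 / 4)) := by
        linear_combination Fr ν 1 (ν ^ 2 / 4) * f2
      linarith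
    have y1 := rt_core (S.smul (neg_ne_zero.2 n1)) hν (by simp [e0])
      (by have := mul_self_pos.2 n1; linarith) y0 (by simp [e])
    have f1 : Fr ν 1 x = -(4 * x - ν ^ 2) * Fr ν 0 x := by linarith
    have n0 : Fr ν 0 x ≠ 0 := fun c => hs ν x hx.ne' c (by rw [f1, c, mul_zero])
    have y2 : 0 < 4 * x - ν ^ 2 := by
      rcases y0.lt_or_eq with c | c
      · linarith
      · exact absurd (c ▸ e0) n0
    have d := ((h ν x).1 2).2
    rw [e] at d
    have k : 2 * x * (Fr ν 1 x * Dr ν 2 x) = -((4 * x - ν ^ 2) *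
        ((4 * x - ν ^ 2) ^ 2 - (4 * x - ν ^ 2) - 2 * ν ^ 2) * Fr ν 0 x ^ 2) := by
      have d' : 2 * x * Dr ν 2 x = Fr ν 3 x := by linarith
      rw [f1] at f3
      rw [show 2 * x * (Fr ν 1 x * Dr ν 2 x) = Fr ν 1 x * (2 * x * Dr ν 2 x) by ring, d', f3, f1]
      ring
    have k2 := mul_pos (mul_pos y2 y1) (show 0 < Fr ν 0 x ^ 2 by positivity)
    by_contra hc
    have := mul_nonneg (show 0 ≤ 2 * x by linarith) (not_lt.1 hc)
    linarith

theorem neg_prod (hw : WD) (hs : SIM) (ν : ℝ) :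
    StrictMonoOn (fun t : ℝ => (t ^ (ν / 2) * Fr ν 0 (-t)) * (t ^ (ν / 2) * Fr ν 1 (-t)))
      (Ioi 0) := by
  have hd : ∀ x : ℝ, 0 < x → HasDerivAt
      (fun t : ℝ => (t ^ (ν / 2) * Fr ν 0 (-t)) * (t ^ (ν / 2) * Fr ν 1 (-t)))
      ((x ^ (ν / 2)) ^ 2 * (Fr ν 1 (-x) ^ 2 + (4 * x + ν ^ 2) * Fr ν 0 (-x) ^ 2) / (2 * x)) x := by
    intro x hx
    have a := (hw ν x hx).2.2.1 0
    have b := (hw ν x hx).2.2.2
    simp only [Nat.cast_zero, sub_zero, zero_add] at a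
    exact (a.mul b).congr_deriv (by ring)
  refine strictMonoOn_of_hasDerivWithinAt_pos (convex_Ioi _)
    (fun x hx => (hd x hx).continuousAt.continuousWithinAt)
    (fun x hx => by
      rw [interior_Ioi] at hx
      exact (hd x hx).hasDerivWithinAt) (fun x hx => ?_)
  rw [interior_Ioi] at hx
  have hx0 : 0 < x := hx
  have h1 := Real.rpow_pos_of_pos hx0 (ν / 2)
  have h3 : 0 < Fr ν 1 (-x) ^ 2 + (4 * x + ν ^ 2) * Fr ν 0 (-x) ^ 2 := by
    by_cases c : Fr ν 0 (-x) = 0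
    · have := hs ν (-x) (by linarith) c
      positivity
    · positivity
  positivity

/-- Signs before and after a zero of `F_0 F_1` on the negative axis. -/
theorem neg_signs (h : REL) (hw : WD) (hs : SIM) (hp : PINF) {ν z : ℝ} (hz : 0 < z)
    (n0 : Fr ν 0 0 ≠ 0) (n1 : Fr ν 1 0 ≠ 0) (e : Fr ν 0 (-z) * Fr ν 1 (-z) = 0) :
    0 ≤ Fr ν 0 (-z) ∧ 0 ≤ Fr ν 1 (-z) ∧ 0 ≤ Fr ν 0 0 * Fr ν 0 (-z) ∧
      0 ≤ Fr ν 1 0 * Fr ν 1 (-z) := by
  have S := sys_Fr h hw hs ν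
  have c0 : Continuous fun t : ℝ => Fr ν 0 (-t) := (S.cont 0).comp continuous_neg
  have c1 : Continuous fun t : ℝ => Fr ν 1 (-t) := (S.cont 1).comp continuous_neg
  have m := neg_prod hw hs ν
  have ez : (z ^ (ν / 2) * Fr ν 0 (-z)) * (z ^ (ν / 2) * Fr ν 1 (-z)) = 0 := by
    linear_combination (z ^ (ν / 2)) ^ 2 * e
  have aft : ∀ t, z < t → 0 < Fr ν 0 (-t) * Fr ν 1 (-t) := by
    intro t ht
    have := m hz (hz.trans ht) ht
    simp only [ez] at this
    have h1 := Real.rpow_pos_of_pos (hz.trans ht) (ν / 2)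
    by_contra hc
    have h2 := mul_nonneg (mul_pos h1 h1).le (neg_nonneg.2 (not_lt.1 hc))
    linarith
  have bef : ∀ t, 0 < t → t < z → Fr ν 0 (-t) * Fr ν 1 (-t) ≠ 0 := by
    intro t t0 ht e'
    have := m t0 hz ht
    simp only [ez] at this
    have h2 : (t ^ (ν / 2) * Fr ν 0 (-t)) * (t ^ (ν / 2) * Fr ν 1 (-t)) = 0 := by
      linear_combination (t ^ (ν / 2)) ^ 2 * e'
    linarith
  have pos0 : ∀ t, z < t → 0 < Fr ν 0 (-t) := by
    intro t ht
    obtain ⟨T, T1, T2⟩ := hp.1 ν t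
    have ne : ∀ u ∈ Icc t T, Fr ν 0 (-u) ≠ 0 := fun u hu e' => by
      have := aft u (ht.trans_le hu.1)
      rw [e', zero_mul] at this
      exact lt_irrefl _ this
    by_contra hc
    have hc' : Fr ν 0 (-t) < 0 := lt_of_le_of_ne (not_lt.1 hc) (ne t ⟨le_rfl, T1.le⟩)
    have := aux_pos (f := fun u => -Fr ν 0 (-u)) c0.neg (fun u hu => neg_ne_zero.2 (ne u hu))
      (by linarith) T ⟨T1.le, le_rfl⟩
    linarith
  have right : ∀ f : ℝ → ℝ, Continuous f → (∀ t, z < t → 0 < f t) → 0 ≤ f z := by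
    intro f hf hh
    have h1 : Tendsto f (𝓝[>] z) (𝓝 (f z)) :=
      hf.continuousAt.tendsto.mono_left nhdsWithin_le_nhds
    exact ge_of_tendsto h1 (mem_of_superset self_mem_nhdsWithin fun t ht => (hh t ht).le)
  have left : ∀ f : ℝ → ℝ, Continuous f → f 0 ≠ 0 → (∀ t, 0 < t → t < z → f t ≠ 0) →
      0 ≤ f 0 * f z := by
    intro f hf f0 hh
    have := aux_closure (f := fun t => -(f 0 * f t)) (continuous_const.mul hf).neg hz
      fun x hx => by
        have := aux_pos (f := fun t => f 0 * f t) (continuous_const.mul hf) (a := 0) (b := x)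
          (fun u hu => mul_ne_zero f0 (by
            rcases hu.1.lt_or_eq with c | c
            · exact hh u c (hu.2.trans_lt hx.2)
            · exact c ▸ f0)) (mul_self_pos.2 f0) x ⟨hx.1.le, le_rfl⟩
        linarith
    linarith
  refine ⟨right _ c0 pos0, right _ c1 fun t ht => (mul_pos_iff_of_pos_left (pos0 t ht)).1
    (aft t ht), ?_, ?_⟩
  · simpa using left _ c0 (by simpa using n0) fun t a b => left_ne_zero_of_mul (bef t a b)
  · simpa using left _ c1 (by simpa using n1) fun t a b => right_ne_zero_of_mul (bef t a b)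

theorem neg' (h : REL) (hw : WD) (hs : SIM) (hp : PINF) : NEG := by
  intro k n ν hn hk hev a1 a2
  have S := sys_Fr h hw hs ν
  have hk' : (1 : ℝ) ≤ k := by exact_mod_cast hk
  have hν : ν < -1 := by linarith
  have sg := hp.2 k ν a1 a2
  rw [← (h ν 0).2.1 0] at sg
  have z1 : Fr ν 1 0 = ν * Fr ν 0 0 := by simpa using S.zero 0
  have n0 : Fr ν 0 0 ≠ 0 := right_ne_zero_of_mul sg.ne'
  have n1 : Fr ν 1 0 ≠ 0 := by rw [z1]; exact mul_ne_zero (by linarith) n0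
  have case0 : Even k → ∀ t : ℝ, 0 < t → Fr ν 0 (-t) ≠ 0 := by
    intro ek t ht e
    rw [ek.neg_one_pow, one_mul] at sg
    obtain ⟨-, b, -, d⟩ := neg_signs h hw hs hp ht n0 n1 (by rw [e, zero_mul])
    have c : Fr ν 1 0 < 0 := by rw [z1]; exact mul_neg_of_neg_of_pos (by linarith) sg
    have := hs ν (-t) (by linarith) e
    have b' := lt_of_le_of_ne b this.symm
    linarith [mul_pos (neg_pos.2 c) b']
  intro t ht e
  interval_cases n
  · exact case0 (by simpa using hev) t ht e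
  · have ok : Odd k := by simpa [Nat.even_add_one, Nat.not_even_iff_odd] using hev
    rw [ok.neg_one_pow] at sg
    obtain ⟨b, -, d, -⟩ := neg_signs h hw hs hp ht n0 n1 (by rw [e, mul_zero])
    have : Fr ν 0 (-t) ≠ 0 := fun c => hs ν (-t) (by linarith) c e
    have b' := lt_of_le_of_ne b this.symm
    linarith [mul_pos sg b']
  · have ek : Even k := by simpa [Nat.even_add] using hev
    have p0 := case0 ek
    rw [ek.neg_one_pow, one_mul] at sg
    have c0 : Continuous fun t : ℝ => Fr ν 0 (-t) := (S.cont 0).comp continuous_neg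
    have c2 : Continuous fun t : ℝ => Fr ν 2 (-t) := (S.cont 2).comp continuous_neg
    have s2 : 0 < Fr ν 2 (-0) := by
      have := S.zero 1
      push_cast at this
      rw [neg_zero, this, z1]
      exact mul_pos_of_neg_of_neg (by linarith) (mul_neg_of_neg_of_pos (by linarith) sg)
    obtain ⟨z, z0, -, z2, z3⟩ := aux_first c2 (a := 0) (b := t) s2 ⟨t, ⟨ht.le, le_rfl⟩, e⟩
    have q0 : 0 < Fr ν 0 (-z) := aux_pos c0 (a := 0) (b := z) (fun u hu => by
      rcases hu.1.lt_or_eq with c | c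
      · exact p0 u c
      · rw [← c, neg_zero]; exact n0) (by simpa using sg) z ⟨z0.le, le_rfl⟩
    have f2 := S.two (-z)
    have f3 := S.three (-z)
    rw [z2] at f2
    have f1 : Fr ν 1 (-z) = (4 * z + ν ^ 2) * Fr ν 0 (-z) := by linarith
    have hq : 1 < ν ^ 2 := by nlinarith
    have k3 : 0 < Fr ν 3 (-z) := by
      have : Fr ν 3 (-z) = ((4 * z + ν ^ 2) ^ 2 + (4 * z + ν ^ 2) - 2 * ν ^ 2) * Fr ν 0 (-z) := by
        rw [f3, f1]; ring
      rw [this]
      exact mul_pos (by nlinarith) q0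
    have hr := Real.rpow_pos_of_pos z0 ((ν - ((2 : ℕ) : ℝ)) / 2)
    have := (aux_deriv ((hw ν z z0).2.2.1 2) (by simp [z2]) (by positivity)).2
    obtain ⟨u, u1, u2⟩ := (this.and (Ioo_mem_nhdsLT z0)).exists
    have := mul_pos (Real.rpow_pos_of_pos u2.1 ((ν - ((2 : ℕ) : ℝ)) / 2)) (z3 u ⟨u2.1.le, u2.2⟩)
    linarith

end Pool.Agent.MP_cdfc49_an.BZ
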