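import Mathlib
import Pool.Agent.MP_cdfc49_an.BZ.Ser
import Pool.Agent.MP_cdfc49_an.BZ.Rt

set_option autoImplicit false

namespace Pool.Agent.MP_cdfc49_an.BZ

open Filter Topology Set Polynomial

theorem adm_weight {c e : ℕ → ℝ} (h : Adm c) (he : ∀ m, 0 ≤ e m ∧ e m ≤ 1) :
    Adm fun m => c m * e m := by
  intro R hR
  refine Summable.of_nonneg_of_le (fun m => by positivity) (fun m => ?_) (h R hR)
  rw [abs_mul, abs_of_nonneg (he m).1]
  exact mul_le_mul_of_nonneg_right (mul_le_of_le_one_right (abs_nonneg _) (he m).2)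
    (by positivity)

theorem conv_weight {c : ℕ → ℝ} {e : ℕ → ℕ → ℝ} (h : Adm c) (he : ∀ N m, 0 ≤ e N m ∧ e N m ≤ 1)
    (hl : ∀ m, Tendsto (fun N => e N m) atTop (𝓝 1)) :
    Conv atTop (fun N => S fun m => c m * e N m) (S c) := by
  intro R ε hε
  have hb : ∀ N m, ‖|c m| * |R| ^ m * (1 - e N m)‖ ≤ |c m| * |R| ^ m := by
    intro N m
    rw [Real.norm_of_nonneg (mul_nonneg (by positivity) (by linarith [(he N m).2]))]
    exact mul_le_of_le_one_right (by positivity) (by linarith [(he N m).1])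
  have t := tendsto_tsum_of_dominated_convergence (𝓕 := atTop)
    (f := fun N m => |c m| * |R| ^ m * (1 - e N m)) (g := fun _ => (0 : ℝ))
    (h |R| (abs_nonneg R)) (fun m => by
      simpa using ((hl m).const_sub 1).const_mul (|c m| * |R| ^ m)) (Eventually.of_forall hb)
  rw [tsum_zero] at t
  filter_upwards [t.eventually (ge_mem_nhds hε)] with N hN w hw
  refine le_trans ?_ hN
  simp only [S]
  rw [← (adm_sumC (adm_weight h (he N)) w).tsum_sub (adm_sumC h w)]
  refine tsum_of_norm_bounded (Summable.of_norm_bounded (h |R| (abs_nonneg R)) (hb N)).hasSum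
    fun m => ?_
  have e1 : ((c m * e N m : ℝ) : ℂ) * w ^ m - (c m : ℂ) * w ^ m =
      ((c m * (e N m - 1) : ℝ) : ℂ) * w ^ m := by push_cast; ring
  have e2 : ‖w‖ ^ m ≤ |R| ^ m := pow_le_pow_left₀ (norm_nonneg w) (hw.trans (le_abs_self R)) m
  have e3 : 0 ≤ 1 - e N m := by linarith [(he N m).2]
  rw [e1, norm_mul, norm_pow, Complex.norm_real, Real.norm_eq_abs, abs_mul, abs_sub_comm,
    abs_of_nonneg e3, mul_right_comm]
  gcongr

theorem desc_mem (N m : ℕ) : 0 ≤ (N.descFactorial m : ℝ) / (N : ℝ) ^ m ∧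
    (N.descFactorial m : ℝ) / (N : ℝ) ^ m ≤ 1 :=
  ⟨by positivity, div_le_one_of_le₀ (by exact_mod_cast Nat.descFactorial_le_pow N m)
    (by positivity)⟩

theorem desc_lim (m : ℕ) :
    Tendsto (fun N : ℕ => (N.descFactorial m : ℝ) / (N : ℝ) ^ m) atTop (𝓝 1) := by
  refine (Asymptotics.isEquivalent_iff_tendsto_one ?_).1 (isEquivalent_descFactorial m)
  filter_upwards [eventually_gt_atTop 0] with N hN
  positivity

theorem ev_tr (c : ℕ → ℝ) (N : ℕ) :
    ev (tr c N) = S fun m => c m * ((N.descFactorial m : ℝ) / (N : ℝ) ^ m) := by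
  funext w
  rw [S, tsum_eq_sum (s := Finset.range (N + 1)) fun m hm => by
    rw [Nat.descFactorial_eq_zero_iff_lt.2 (by simpa using hm)]; simp]
  simp only [ev, tr, map_sum, map_mul, map_pow, aeval_C, aeval_X, Complex.coe_algebraMap,
    Complex.ofReal_mul]

theorem gen2 : GEN2 := by
  intro c h
  constructor
  · simp only [ev_tr]
    exact conv_weight h desc_mem desc_lim
  · have e : ∀ N, ev (derivative (tr c N)) =
        S fun m => dc c m * ((N.descFactorial (m + 1) : ℝ) / (N : ℝ) ^ (m + 1)) := by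
      intro N
      funext w
      have a := adm_deriv (adm_weight h (desc_mem N)) w
      rw [← ev_tr] at a
      rw [show ev (derivative (tr c N)) w = _ from ((tr c N).hasDerivAt_aeval w).unique a]
      congr 1
      funext m
      simp only [dc]
      ring
    simp only [e]
    exact conv_weight (adm_dc h) (fun N m => desc_mem N (m + 1)) fun m => desc_lim (m + 1)

theorem gen4 : GEN4 := by
  intro c h R ε hε
  filter_upwards [(gen2 c h).1 R ε hε, (gen2 c h).2 R ε hε] with N a b x hx
  have a' := a x (by simpa using hx)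
  have b' := b x (by simpa using hx)
  rw [(gen3.2.1 _).2.1, S_real, ← Complex.ofReal_sub, Complex.norm_real] at a' b'
  exact ⟨a', b'⟩

theorem cf0_succ (t : ℝ) (m : ℕ) :
    cf t 0 (m + 1) * (((m : ℝ) + 1) * (t + m + 1)) = -cf t 0 m := by
  have a := gen3.2.2.2.2.1 t m
  have b := congrFun (gen3.2.2.2.1 t) (m + 1)
  rw [dc, b, mc] at a
  push_cast at a
  linear_combination a

theorem cf0_sign {t : ℝ} (m : ℕ) (h : 0 < t + m + 1) : 0 < (-1) ^ m * cf t 0 m := by
  have := Real.Gamma_pos_of_pos h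
  simp only [cf, Finset.range_zero, Finset.prod_empty, mul_one]
  rw [← mul_div_assoc, ← mul_pow]
  simp only [mul_neg, mul_one, neg_neg, one_pow]
  positivity

/-- Alternating series given by ratios in `[0, 1]`. -/
theorem alt_ratio {a r : ℕ → ℝ} {s : ℝ} (k : ℕ) (hs : HasSum a s)
    (h : ∀ m, k ≤ m → a (m + 1) = -r m * a m ∧ 0 ≤ r m ∧ r m ≤ 1) :
    0 ≤ a k * (s - ∑ m ∈ Finset.range k, a m) := by
  refine alt a s k hs fun m hm => ?_
  obtain ⟨e, r0, r1⟩ := h m hm
  rw [e]
  refine ⟨by nlinarith [mul_self_nonneg (a m)], ?_⟩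
  rw [abs_mul, abs_neg, abs_of_nonneg r0]
  exact mul_le_of_le_one_left (abs_nonneg _) r1

theorem sim_large {t x : ℝ} (ht : |x| < t) : 0 < Fr t 0 x := by
  have t0 : 0 < t := (abs_nonneg x).trans_lt ht
  have hs : HasSum (fun m => cf t 0 m * x ^ m) (Fr t 0 x) := (adm_sumR (sum' t 0) x).hasSum
  have s0 := cf0_sign (t := t) 0 (by positivity)
  rcases le_or_gt x 0 with c | c
  · refine lt_of_lt_of_le (by simpa using s0) (le_hasSum hs 0 fun m _ => ?_)
    have := mul_nonneg (cf0_sign (t := t) m (by positivity)).le (pow_nonneg (neg_nonneg.2 c) m)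
    rwa [neg_pow x, mul_mul_mul_comm, mul_comm ((-1) ^ m * (-1) ^ m), ← mul_pow, neg_mul_neg,
      one_mul, one_pow, mul_one] at this
  · have xt : x < t := (le_abs_self x).trans_lt ht
    have r : ∀ m : ℕ, cf t 0 (m + 1) * x ^ (m + 1) =
        -(x / (((m : ℝ) + 1) * (t + m + 1))) * (cf t 0 m * x ^ m) := by
      intro m
      have := cf0_succ t m
      field_simp
      linear_combination (x * x ^ m) * this
    have k := alt_ratio 2 hs fun m _ => ⟨r m, by positivity, by
      rw [div_le_one (by positivity)]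
      nlinarith [(Nat.cast_nonneg m : (0 : ℝ) ≤ m)]⟩
    have s2 : 0 < cf t 0 2 * x ^ 2 :=
      mul_pos (by simpa using cf0_sign (t := t) 2 (by positivity)) (by positivity)
    have k2 := (mul_nonneg_iff_of_pos_left s2).1 k
    have r0 := r 0
    simp only [Finset.sum_range_succ, Finset.range_zero, Finset.sum_empty, zero_add] at k2
    simp only [zero_add, Nat.cast_zero, add_zero, one_mul] at r0
    rw [r0] at k2
    have q : x / (t + 1) < 1 := by rw [div_lt_one (by positivity)]; linarith
    simp only [pow_zero, one_mul, mul_one] at s0 k2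
    nlinarith [mul_pos s0 (sub_pos.2 q)]

theorem relT : REL := rel sum' gen1 gen3

theorem sim : SIM := by
  intro ν x hx e0 e1
  have d : ∀ t : ℝ, Dr t 0 x = -Fr (t + 1) 0 x := fun t => by
    simpa using (relT (t + 1) x).2.2.2.1
  have st : ∀ i : ℕ, Fr (ν + i) 0 x = 0 ∧ Fr (ν + i + 1) 0 x = 0 := by
    intro i
    induction i with
    | zero =>
      have a := ((relT ν x).1 0).2
      simp only [zero_add, e0, e1, d, mul_zero, sub_zero, mul_neg, neg_eq_zero, mul_eq_zero,
        OfNat.ofNat_ne_zero, hx, or_self, false_or] at a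
      simpa using ⟨e0, a⟩
    | succ i ih =>
      have a := (relT (ν + i + 1) x).2.2.1
      rw [add_sub_cancel_right, ih.1, ih.2, d] at a
      push_cast
      rw [← add_assoc]
      refine ⟨ih.2, ?_⟩
      have : x * Fr (ν + i + 1 + 1) 0 x = 0 := by linarith
      exact (mul_eq_zero.1 this).resolve_left hx
  obtain ⟨i, hi⟩ := exists_nat_gt (|x| - ν)
  exact (sim_large (t := ν + i) (x := x) (by linarith)).ne' (st i).1

theorem osc_log {f f' : ℝ → ℝ} {a c : ℝ} (ha : 0 < a) (hc : 0 < c)
    (h : ∀ x, a ≤ x → HasDerivAt f (f' x) x ∧ f' x ≤ -c / x) : ∃ x, a ≤ x ∧ f x < 0 := by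
  have hd : ∀ x, a ≤ x → HasDerivAt (fun t => f t + c * Real.log t) (f' x + c * x⁻¹) x :=
    fun x hx => (h x hx).1.add ((Real.hasDerivAt_log (ha.trans_le hx).ne').const_mul c)
  have m := antitoneOn_of_hasDerivWithinAt_nonpos (D := Ici a) (convex_Ici a)
    (f := fun t => f t + c * Real.log t) (f' := fun x => f' x + c * x⁻¹)
    (fun x hx => (hd x hx).continuousAt.continuousWithinAt)
    (fun x hx => (hd x (interior_subset hx)).hasDerivWithinAt)
    (fun x hx => by
      have := (h x (interior_subset hx)).2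
      rw [div_eq_mul_inv] at this
      linarith)
  set g := f a + c * Real.log a
  refine ⟨max a (Real.exp (|g| / c + 1)), le_max_left _ _, ?_⟩
  have k := m (mem_Ici.2 le_rfl) (mem_Ici.2 (le_max_left a (Real.exp (|g| / c + 1))))
    (le_max_left _ _)
  have l : |g| / c + 1 ≤ Real.log (max a (Real.exp (|g| / c + 1))) :=
    (Real.le_log_iff_exp_le (ha.trans_le (le_max_left _ _))).2 (le_max_right _ _)
  have l2 := mul_le_mul_of_nonneg_left l hc.le
  rw [mul_add, mul_div_cancel₀ _ hc.ne'] at l2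
  have := le_abs_self g
  simp only at k
  linarith

theorem osc_core {ν T : ℝ} {u v : ℝ → ℝ}
    (hu : ∀ x, 0 < x → HasDerivAt u (v x / (2 * x)) x)
    (hv : ∀ x, 0 < x → HasDerivAt v (-(4 * x - ν ^ 2) * u x / (2 * x)) x)
    (hs : ∀ x, 0 < x → u x = 0 → v x ≠ 0) : ∃ x, T < x ∧ 0 < x ∧ u x < 0 := by
  by_contra hc
  push Not at hc
  set X := max T (ν ^ 2 / 4 + 1) with hX
  have X1 : T ≤ X := le_max_left _ _
  have X2 : ν ^ 2 / 4 + 1 ≤ X := le_max_right _ _
  have X0 : 0 < X := by positivity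
  have u0 : ∀ x, X < x → 0 ≤ u x := fun x hx => hc x (by linarith) (by linarith)
  by_cases c : ∃ a, X < a ∧ v a < 0
  · obtain ⟨a, a1, a2⟩ := c
    have m := antitoneOn_of_hasDerivWithinAt_nonpos (D := Ici a) (convex_Ici a) (f := v)
      (fun x hx => (hv x (by linarith [mem_Ici.1 hx])).continuousAt.continuousWithinAt)
      (fun x hx => (hv x (by linarith [mem_Ici.1 (interior_subset hx)])).hasDerivWithinAt)
      (fun x hx => by
        have x1 := mem_Ici.1 (interior_subset hx)
        have := mul_nonneg (show 0 ≤ 4 * x - ν ^ 2 by linarith) (u0 x (by linarith))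
        exact div_nonpos_of_nonpos_of_nonneg (by linarith) (by linarith))
    obtain ⟨x, x1, x2⟩ := osc_log (f := u) (a := a) (c := -v a / 2) (by linarith) (by linarith)
      fun x hx => ⟨hu x (by linarith), by
        have := m (mem_Ici.2 le_rfl) (mem_Ici.2 hx) hx
        have x0 : 0 < x := by linarith
        rw [div_le_div_iff₀ (by linarith) x0]
        nlinarith⟩
    linarith [u0 x (by linarith)]
  · push Not at c
    obtain ⟨a, a1, a2⟩ : ∃ a, X < a ∧ 0 < u a := by
      rcases (u0 (X + 1) (by linarith)).lt_or_eq with d | d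
      · exact ⟨X + 1, by linarith, d⟩
      · have v1 := lt_of_le_of_ne (c (X + 1) (by linarith)) (hs _ (by linarith) d.symm).symm
        obtain ⟨a, b1, b2⟩ := ((aux_deriv (hu (X + 1) (by linarith)) d.symm
          (by positivity)).1.and self_mem_nhdsWithin).exists
        exact ⟨a, by linarith [show X + 1 < a from b2], b1⟩
    have m := monotoneOn_of_hasDerivWithinAt_nonneg (D := Ici a) (convex_Ici a) (f := u)
      (fun x hx => (hu x (by linarith [mem_Ici.1 hx])).continuousAt.continuousWithinAt)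
      (fun x hx => (hu x (by linarith [mem_Ici.1 (interior_subset hx)])).hasDerivWithinAt)
      (fun x hx => by
        have x1 := mem_Ici.1 (interior_subset hx)
        exact div_nonneg (c x (by linarith)) (by linarith))
    obtain ⟨x, x1, x2⟩ := osc_log (f := v) (a := a) (c := 2 * u a) (by linarith) (by linarith)
      fun x hx => ⟨hv x (by linarith), by
        have := m (mem_Ici.2 le_rfl) (mem_Ici.2 hx) hx
        have x0 : 0 < x := by linarith
        rw [div_le_div_iff₀ (by linarith) x0]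
        have k : 4 * u a ≤ (4 * x - ν ^ 2) * u x :=
          mul_le_mul (by linarith) this a2.le (by linarith)
        nlinarith⟩
    linarith [c x (by linarith)]

theorem osc : OSC := by
  intro ν T
  have key : ∀ σ : ℝ, σ ≠ 0 → ∃ x, T < x ∧ σ * Fr ν 0 x < 0 := by
    intro σ hσ
    obtain ⟨x, x1, x0, x2⟩ := osc_core (ν := ν) (T := T)
      (u := fun t => σ * (t ^ (ν / 2) * Fr ν 0 t)) (v := fun t => σ * (t ^ (ν / 2) * Fr ν 1 t))
      (fun x hx => by
        have a := (wd relT ν x hx).1 0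
        simp only [Nat.cast_zero, sub_zero, zero_add] at a
        exact (a.const_mul σ).congr_deriv (by ring))
      (fun x hx => ((wd relT ν x hx).2.1.const_mul σ).congr_deriv (by ring))
      (fun x hx e => by
        have p := (Real.rpow_pos_of_pos hx (ν / 2)).ne'
        exact mul_ne_zero hσ (mul_ne_zero p (sim ν x hx.ne' (by simpa [hσ, p] using e))))
    refine ⟨x, x1, ?_⟩
    have p := Real.rpow_pos_of_pos x0 (ν / 2)
    by_contra hc
    have := mul_nonneg p.le (not_lt.1 hc)
    linarith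
  obtain ⟨a, a1, a2⟩ := key (-1) (by norm_num)
  obtain ⟨b, b1, b2⟩ := key 1 one_ne_zero
  exact ⟨⟨a, a1, by linarith⟩, ⟨b, b1, by linarith⟩⟩

theorem posk : POSK := by
  intro k
  have S := sys_Fr relT (wd relT) sim (k : ℝ)
  have p0 : 0 < Fr (k : ℝ) 0 0 := by
    rw [(relT k 0).2.1 0]
    simpa using cf0_sign (t := k) 0 (by positivity)
  constructor
  · rcases Nat.eq_zero_or_pos k with c | c
    · subst c
      simpa using p0
    · have k0 : (0 : ℝ) < k := by exact_mod_cast c
      have p1 : 0 < Fr (k : ℝ) 1 0 := by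
        have := S.zero 0
        simp only [zero_add, Nat.cast_zero, sub_zero] at this
        rw [this]
        positivity
      refine aux_pos (S.cont 0) (a := 0) (b := (k : ℝ) ^ 2 / 4) (fun x hx e => ?_) p0 _
        ⟨by positivity, le_rfl⟩
      have x0 : 0 < x := lt_of_le_of_ne hx.1 fun hh => by rw [← hh] at e; linarith
      have e0 : ∀ᶠ t in 𝓝[>] (0 : ℝ), 0 < Fr (k : ℝ) 0 t :=
        mem_nhdsWithin_of_mem_nhds ((S.cont 0).continuousAt.eventually (lt_mem_nhds p0))
      have e1 : ∀ᶠ t in 𝓝[>] (0 : ℝ), 0 < Fr (k : ℝ) 1 t :=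
        mem_nhdsWithin_of_mem_nhds ((S.cont 1).continuousAt.eventually (lt_mem_nhds p1))
      obtain ⟨t, ⟨t1, t2⟩, t3⟩ := ((e0.and e1).and (Ioo_mem_nhdsGT x0)).exists
      have := rt_prod (wd relT) sim (k : ℝ) ⟨t3.1, t3.2.le.trans hx.2⟩ ⟨x0, hx.2⟩ t3.2
      simp only [e, mul_zero, zero_mul] at this
      have p := Real.rpow_pos_of_pos t3.1 ((k : ℝ) / 2)
      exact absurd this (not_lt.2 (by positivity))
  · intro x
    have hs : HasSum (fun m => cf (-(k : ℝ)) 0 m * x ^ m) (Fr (-(k : ℝ)) 0 x) :=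
      (adm_sumR (sum' _ 0) x).hasSum
    have h2 : HasSum (fun m => cf (k : ℝ) 0 m * x ^ m) (Fr (k : ℝ) 0 x) :=
      (adm_sumR (sum' _ 0) x).hasSum
    have h3 := (hasSum_nat_add_iff' k).2 hs
    rw [Finset.sum_eq_zero fun m hm => by
      obtain ⟨j, hj⟩ : ∃ j, k = m + 1 + j := ⟨k - (m + 1), by
        have := Finset.mem_range.1 hm; omega⟩
      have : -(k : ℝ) + m + 1 = -(j : ℝ) := by rw [hj]; push_cast; ring
      simp [cf, this, Real.Gamma_neg_nat_eq_zero], sub_zero] at h3
    refine h3.unique ?_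
    rw [show (fun m => cf (-(k : ℝ)) 0 (m + k) * x ^ (m + k)) =
      fun m => (-x) ^ k * (cf (k : ℝ) 0 m * x ^ m) from funext fun m => ?_]
    · exact h2.mul_left _
    · simp only [cf, Finset.range_zero, Finset.prod_empty, mul_one]
      rw [show -(k : ℝ) + ((m + k : ℕ) : ℝ) + 1 = m + 1 by push_cast; ring,
        show (k : ℝ) + m + 1 = ((m + k : ℕ) : ℝ) + 1 by push_cast; ring,
        Real.Gamma_nat_eq_factorial, Real.Gamma_nat_eq_factorial, neg_pow x, pow_add, pow_add]
      field_simp

theorem cont_term (m : ℕ) : Continuous fun p : ℝ × ℝ => cf p.1 0 m * p.2 ^ m := by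
  have g : Continuous fun t : ℝ => (Real.Gamma t)⁻¹ := by
    have := Complex.continuous_re.comp
      (Complex.differentiable_one_div_Gamma.continuous.comp Complex.continuous_ofReal)
    refine this.congr fun t => ?_
    simp only [Function.comp, Complex.Gamma_ofReal, ← Complex.ofReal_inv, Complex.ofReal_re]
  simp only [cf, Finset.range_zero, Finset.prod_empty, mul_one, div_eq_mul_inv, mul_inv]
  exact (continuous_const.mul (continuous_const.mul (g.comp (by fun_prop)))).mul (by fun_prop)

theorem cont : CONT := by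
  refine continuous_iff_continuousAt.2 fun p => ?_
  set A := ‖p‖ + 1 with hA
  obtain ⟨M, hM⟩ := exists_nat_ge (A + 1)
  have e : (fun q : ℝ × ℝ => Fr q.1 0 q.2) = fun q => ∑ m ∈ Finset.range M, cf q.1 0 m * q.2 ^ m +
      ∑' m, cf q.1 0 (m + M) * q.2 ^ (m + M) :=
    funext fun q => ((adm_sumR (sum' q.1 0) q.2).sum_add_tsum_nat_add M).symm
  rw [e]
  refine (continuous_finsetSum _ fun m _ => cont_term m).continuousAt.add ?_
  refine (continuousOn_tsum (s := Metric.ball (0 : ℝ × ℝ) A)
    (u := fun m => Real.exp A * ((Real.exp 2 * A) ^ (m + M) / (m + M).factorial))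
    (fun m => (cont_term (m + M)).continuousOn)
    ((summable_nat_add_iff M).2 ((Real.summable_pow_div_factorial _).mul_left _))
    fun m q hq => ?_).continuousAt (Metric.isOpen_ball.mem_nhds (by simp [hA]))
  have hq' := (mem_ball_zero_iff.1 hq).le
  have q1 : |q.1| ≤ A := (norm_fst_le q).trans hq'
  have q2 : |q.2| ≤ A := (norm_snd_le q).trans hq'
  have b := cf_bound 0 (m + M) q1 (by push_cast; linarith [(Nat.cast_nonneg m : (0 : ℝ) ≤ m)])
  rw [Real.norm_eq_abs, abs_mul, abs_pow]
  refine (mul_le_mul b (pow_le_pow_left₀ (abs_nonneg _) q2 _) (by positivity)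
    (by positivity)).trans_eq ?_
  simp only [Nat.factorial_zero, Nat.cast_one, one_mul, Nat.cast_zero, add_zero, mul_pow]
  ring

theorem spc : SPC := by
  intro k
  have c : Continuous fun ν : ℝ => (-1) ^ k * Fr ν 0 (ν ^ 2 / 4) :=
    continuous_const.mul (cont.comp (f := fun ν : ℝ => (ν, ν ^ 2 / 4)) (by fun_prop))
  have v : ∀ j : ℕ, 0 < (-1) ^ j * Fr (-(j : ℝ)) 0 ((-(j : ℝ)) ^ 2 / 4) := by
    intro j
    rw [(posk j).2, ← mul_assoc, ← mul_pow, neg_sq]
    refine mul_pos ?_ (posk j).1
    rcases Nat.eq_zero_or_pos j with d | d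
    · simp [d]
    · rw [neg_mul_neg, one_mul]
      positivity
  have v1 := v (k + 1)
  rw [show -((k + 1 : ℕ) : ℝ) = -(k : ℝ) - 1 by push_cast; ring, pow_succ] at v1
  obtain ⟨ν, h1, h2⟩ := intermediate_value_Ioo (a := -(k : ℝ) - 1) (b := -(k : ℝ)) (by linarith)
    c.continuousOn (show (0 : ℝ) ∈ Ioo _ _ from ⟨by linarith, v k⟩)
  exact ⟨ν, h1.1, h1.2, (mul_eq_zero.1 h2).resolve_left (by positivity)⟩

theorem neg_term (c x : ℝ) (m : ℕ) : c * (-x) ^ m = ((-1) ^ m * c) * x ^ m := by
  rw [neg_pow x]; ring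

theorem pinf : PINF := by
  constructor
  · intro ν T
    obtain ⟨M, hM⟩ := exists_nat_ge |ν|
    have sg : ∀ m, M + 1 ≤ m → 0 < (-1) ^ m * cf ν 0 m := fun m hm => cf0_sign m (by
      have : ((M + 1 : ℕ) : ℝ) ≤ m := by exact_mod_cast hm
      push_cast at this
      linarith [neg_abs_le ν])
    set e := (-1) ^ (M + 1) * cf ν 0 (M + 1) with he
    have e0 : 0 < e := sg _ le_rfl
    set B := ∑ m ∈ Finset.range (M + 1), |cf ν 0 m|
    set t := max (max (T + 1) 1) (B / e + 1)
    have t1 : T + 1 ≤ t := (le_max_left _ _).trans (le_max_left _ _)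
    have t2 : 1 ≤ t := (le_max_right _ _).trans (le_max_left _ _)
    have t3 : B / e + 1 ≤ t := le_max_right _ _
    refine ⟨t, by linarith, ?_⟩
    have hs : HasSum (fun m => cf ν 0 m * (-t) ^ m) (Fr ν 0 (-t)) := (adm_sumR (sum' ν 0) _).hasSum
    have l1 := sum_le_hasSum (Finset.range (M + 1 + 1)) (fun m hm => by
      rw [neg_term]
      exact (mul_pos (sg m (by simp at hm; omega)) (by positivity)).le) hs
    rw [Finset.sum_range_succ, neg_term, ← he] at l1
    have l2 : -(B * t ^ M) ≤ ∑ m ∈ Finset.range (M + 1), cf ν 0 m * (-t) ^ m := by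
      rw [Finset.sum_mul, ← Finset.sum_neg_distrib]
      refine Finset.sum_le_sum fun m hm => le_trans ?_ (neg_abs_le _)
      rw [abs_mul, abs_pow, abs_neg, abs_of_pos (by linarith : 0 < t), neg_le_neg_iff]
      exact mul_le_mul_of_nonneg_left
        (pow_le_pow_right₀ t2 (Nat.lt_succ_iff.1 (Finset.mem_range.1 hm))) (abs_nonneg _)
    have l3 : B < e * t := by
      have := mul_le_mul_of_nonneg_left t3 e0.le
      rw [mul_add, mul_div_cancel₀ _ e0.ne'] at this
      linarith
    have l4 := mul_pos (sub_pos.2 l3) (show 0 < t ^ M by positivity)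
    rw [pow_succ t M] at l1
    linarith
  · intro k
    induction k with
    | zero =>
      intro ν a _
      simpa using cf0_sign (t := ν) 0 (by simp at a ⊢; linarith)
    | succ k ih =>
      intro ν a b
      push_cast at a b
      have i := ih (ν + 1) (by linarith) (by linarith)
      have e := congrFun (gen3.2.2.2.1 (ν + 1)) 0
      rw [add_sub_cancel_right, mc] at e
      have := mul_pos i (show 0 < -(ν + 1) by linarith [(Nat.cast_nonneg k : (0 : ℝ) ≤ k)])
      rw [e, pow_succ]
      push_cast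
      linarith

theorem neg1_sign {n : ℕ} {ν : ℝ} (hn : 2 ≤ n) (a : (n : ℝ) - 3 < ν) (b : ν < (n : ℝ) - 2)
    (m : ℕ) : 0 < (-1) ^ m * cf ν n m := by
  have n2 : (2 : ℝ) ≤ n := by exact_mod_cast hn
  have g := Real.Gamma_pos_of_pos (s := ν + m + 1)
    (by linarith [(Nat.cast_nonneg m : (0 : ℝ) ≤ m)])
  have p : 0 < ∏ j ∈ Finset.range n, (ν + 2 * (m : ℝ) - (j : ℝ)) := by
    rcases Nat.eq_zero_or_pos m with c | c
    · obtain ⟨l, rfl⟩ : ∃ l, n = l + 1 + 1 := ⟨n - 2, by omega⟩
      subst c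
      rw [Finset.prod_range_succ, Finset.prod_range_succ, mul_assoc]
      push_cast at a b ⊢
      refine mul_pos (Finset.prod_pos fun j hj => ?_)
        (mul_pos_of_neg_of_neg (by linarith) (by linarith))
      have : ((j + 1 : ℕ) : ℝ) ≤ l := by exact_mod_cast Finset.mem_range.1 hj
      push_cast at this
      linarith
    · refine Finset.prod_pos fun j hj => ?_
      have h1 : ((j + 1 : ℕ) : ℝ) ≤ n := by exact_mod_cast Finset.mem_range.1 hj
      have h2 : (1 : ℝ) ≤ m := by exact_mod_cast c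
      push_cast at h1
      linarith
  rw [cf, ← mul_div_assoc, ← mul_assoc, ← mul_pow]
  simp only [mul_neg, mul_one, neg_neg, one_pow, one_mul]
  positivity

theorem neg1 : NEG1 := by
  intro n ν hn a b t ht
  have hs : HasSum (fun m => cf ν n m * (-t) ^ m) (Fr ν n (-t)) := (adm_sumR (sum' ν n) _).hasSum
  have p : ∀ m, 0 < cf ν n m * (-t) ^ m := fun m => by
    rw [neg_term]
    exact mul_pos (neg1_sign hn a b m) (by positivity)
  exact (p 0).trans_le (le_hasSum hs 0 fun m _ => (p m).le)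

end Pool.Agent.MP_cdfc49_an.BZ
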