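import Mathlib
import Pool.Agent.MP_cdfc49_an.BZ.Far
import Pool.Agent.MP_cdfc49_an.BZ.Ser2

set_option autoImplicit false

namespace Pool.Agent.MP_cdfc49_an.BZ

open Filter Topology Set Polynomial

theorem tr_ne {c : ℕ → ℝ} (h : c 0 ≠ 0) (N : ℕ) : tr c N ≠ 0 := by
  intro e
  have := (gen3.1 c N).2.2.1
  rw [e, eval_zero] at this
  exact h this.symm

theorem tr_lim {c : ℕ → ℝ} (h : Adm c) (x : ℝ) :
    Tendsto (fun N => (tr c N).eval x) atTop (𝓝 (Sr c x)) := by
  refine Metric.tendsto_nhds.2 fun ε hε => ?_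
  filter_upwards [gen4 c h |x| (ε / 2) (half_pos hε)] with N hN
  rw [Real.dist_eq]
  linarith [(hN x le_rfl).1]

theorem Sr_cont {c : ℕ → ℝ} (h : Adm c) : Continuous (Sr c) :=
  continuous_iff_continuousAt.2 fun x => ((gen1 c h).2.2.2.2.2.2.1 x).continuousAt

theorem sign_root {p : ℝ[X]} {x y : ℝ} (hxy : x < y) (h : p.eval x * p.eval y < 0) :
    ∃ z ∈ Ioo x y, p.eval z = 0 := by
  have px : p.eval x ≠ 0 := left_ne_zero_of_mul h.ne
  obtain ⟨z, z1, z2⟩ := intermediate_value_Ioo' hxy.le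
    (f := fun t => p.eval x * p.eval t) (continuous_const.mul p.continuous).continuousOn
    (show (0 : ℝ) ∈ Ioo _ _ from ⟨h, mul_self_pos.2 px⟩)
  exact ⟨z, z1, (mul_eq_zero.1 z2).resolve_left px⟩

theorem base : BASE := by
  intro α hα
  have ne : ∀ m, cf α 0 m ≠ 0 := fun m => right_ne_zero_of_mul
    (cf0_sign (t := α) m (by linarith [(Nat.cast_nonneg m : (0 : ℝ) ≤ m)])).ne'
  have ad := sum' α 0
  have dg : ∀ N, (tr (cf α 0) N).natDegree = N := fun N => (gen3.1 _ N).2.2.2 (ne N)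
  have nz := tr_ne (ne 0)
  have up : ∀ N, zeroCount U0 (ev (tr (cf α 0) N)) + (pc (tr (cf α 0) N) : ℕ∞) ≤ (N : ℕ∞) :=
    fun N => by simpa [dg] using (zcp _ (nz N)).1
  refine ⟨ne, ad, ⟨0, le_rfl, Eventually.of_forall fun N w hw e => ?_⟩,
    Eventually.of_forall fun N => ⟨fun x _ e d => ?_, ?_⟩, fun M => ?_⟩
  · exfalso
    have l : (N : ℕ∞) ≤ (pc (tr (cf α 0) N) : ℕ∞) := by exact_mod_cast lag α N hα
    have : zeroCount U0 (ev (tr (cf α 0) N)) + (pc (tr (cf α 0) N) : ℕ∞) ≤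
        0 + (pc (tr (cf α 0) N) : ℕ∞) := by rw [zero_add]; exact (up N).trans l
    have z := nonpos_iff_eq_zero.1 ((ENat.add_le_add_iff_right (by simp)).1 this)
    exact (zc.2.1 U0 _ (gen3.2.1 _).1).1 z w hw e
  · have c1 : (tr (cf α 0) N).roots.card ≤ (tr (cf α 0) N).roots.toFinset.card :=
      (card_roots' _).trans ((dg N).le.trans ((lag α N hα).trans (Finset.card_filter_le _ _)))
    have nd := Multiset.toFinset_card_eq_card_iff_nodup.1
      (le_antisymm (Multiset.toFinset_card_le _) c1)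
    have := Multiset.nodup_iff_count_le_one.1 nd x
    rw [count_roots] at this
    exact absurd ((one_lt_rootMultiplicity_iff_isRoot (nz N)).2 ⟨e, d⟩) (not_lt.2 this)
  · have : (pc (tr (cf α 0) N) : ℕ∞) ≤ (N : ℕ∞) := le_add_self.trans (up N)
    exact le_antisymm (by exact_mod_cast this) (lag α N hα)
  · suffices h : ∃ R : ℝ, 0 ≤ R ∧ Fr α 0 R ≠ 0 ∧ ∀ᶠ N in atTop, M ≤ pcI (tr (cf α 0) N) R by
      obtain ⟨R, a, -, b⟩ := h
      exact ⟨R, a, b⟩
    induction M with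
    | zero => exact ⟨0, le_rfl, by rw [(relT α 0).2.1]; exact ne 0, by simp⟩
    | succ M ih =>
      obtain ⟨R, a, b, c⟩ := ih
      obtain ⟨x, x1, x2⟩ : ∃ x, R < x ∧ Fr α 0 R * Fr α 0 x < 0 := by
        rcases lt_or_gt_of_ne b with d | d
        · obtain ⟨x, x1, x2⟩ := (osc α R).1
          exact ⟨x, x1, mul_neg_of_neg_of_pos d x2⟩
        · obtain ⟨x, x1, x2⟩ := (osc α R).2
          exact ⟨x, x1, mul_neg_of_pos_of_neg d x2⟩
      refine ⟨x, by linarith, right_ne_zero_of_mul x2.ne, ?_⟩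
      filter_upwards [c, ((tr_lim ad R).mul (tr_lim ad x)).eventually (gt_mem_nhds x2)]
        with N c1 c2
      obtain ⟨z, z1, z2⟩ := sign_root x1 c2
      refine (Nat.succ_le_succ c1).trans (Finset.card_lt_card ⟨fun u hu => ?_, fun h => ?_⟩)
      · rw [mem_rt (nz N)] at hu ⊢
        exact ⟨hu.1, hu.2.1, hu.2.2.trans x1.le⟩
      · have := h ((mem_rt (nz N) _ z).2 ⟨z2, a.trans_lt z1.1, z1.2.le⟩)
        rw [mem_rt (nz N)] at this
        linarith [this.2.2, z1.1]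

theorem step_near {c g : ℕ → ℝ} (hc : Adm c) (hg : Adm g) (R : ℝ)
    (h : ∀ x ∈ Icc 0 R, Sr g x = 0 → Sr c x * Sr (dc g) x < 0) :
    ∀ᶠ N in atTop, ∀ x ∈ Icc 0 R, (tr g N).eval x = 0 →
      (tr c N).eval x * (derivative (tr g N)).eval x < 0 := by
  by_cases hR : 0 ≤ R
  swap
  · exact Eventually.of_forall fun N x hx => absurd (hx.1.trans hx.2) hR
  have c1 := Sr_cont hc
  have c2 := Sr_cont hg
  have c3 := Sr_cont (adm_dc hg)
  obtain ⟨u, u1, u2⟩ := (isCompact_Icc (a := 0) (b := R)).exists_isMinOn ⟨0, le_rfl, hR⟩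
    (f := fun x => max |Sr g x| (-(Sr c x * Sr (dc g) x)))
    (c2.abs.max (c1.mul c3).neg).continuousOn
  obtain ⟨B, hB⟩ := (isCompact_Icc (a := 0) (b := R)).exists_bound_of_continuousOn
    (f := fun x => |Sr c x| + |Sr (dc g) x| + 1) ((c1.abs.add c3.abs).add
      continuous_const).continuousOn
  set δ := max |Sr g u| (-(Sr c u * Sr (dc g) u)) with hδ
  have δ0 : 0 < δ := by
    by_cases e : Sr g u = 0
    · exact lt_max_of_lt_right (neg_pos.2 (h u u1 e))
    · exact lt_max_of_lt_left (abs_pos.2 e)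
  have B1 : ∀ x ∈ Icc 0 R, |Sr c x| + |Sr (dc g) x| + 1 ≤ B := fun x hx =>
    (le_abs_self _).trans (hB x hx)
  have B0 : 1 ≤ B := le_trans (by linarith [abs_nonneg (Sr c 0), abs_nonneg (Sr (dc g) 0)])
    (B1 0 ⟨le_rfl, hR⟩)
  set ε := min 1 (δ / (2 * B)) with hε
  have ε0 : 0 < ε := lt_min one_pos (by positivity)
  have ε1 : ε ≤ 1 := min_le_left _ _
  have ε2 : ε * B ≤ δ / 2 := by
    have := mul_le_mul_of_nonneg_right (min_le_right 1 (δ / (2 * B))) (show 0 ≤ B by linarith)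
    rwa [show δ / (2 * B) * B = δ / 2 by field_simp] at this
  filter_upwards [gen4 c hc R ε ε0, gen4 g hg R ε ε0] with N a b x hx e
  have xR : |x| ≤ R := by rw [abs_of_nonneg hx.1]; exact hx.2
  have a1 := (a x xR).1
  obtain ⟨b1, b2⟩ := b x xR
  rw [e, zero_sub, abs_neg] at b1
  have m : δ ≤ max |Sr g x| (-(Sr c x * Sr (dc g) x)) := u2 hx
  have m2 := (le_max_iff.1 m).resolve_left (by nlinarith)
  have k : |(tr c N).eval x * (derivative (tr g N)).eval x - Sr c x * Sr (dc g) x| ≤ ε * B := by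
    rw [show (tr c N).eval x * (derivative (tr g N)).eval x - Sr c x * Sr (dc g) x =
      ((tr c N).eval x - Sr c x) * Sr (dc g) x + Sr c x * ((derivative (tr g N)).eval x -
        Sr (dc g) x) + ((tr c N).eval x - Sr c x) * ((derivative (tr g N)).eval x -
        Sr (dc g) x) by ring]
    refine (abs_add_three _ _ _).trans ?_
    rw [abs_mul, abs_mul, abs_mul]
    have k1 := mul_le_mul_of_nonneg_right a1 (abs_nonneg (Sr (dc g) x))
    have k2 := mul_le_mul_of_nonneg_left b2 (abs_nonneg (Sr c x))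
    have k3 := mul_le_mul a1 (b2.trans ε1) (abs_nonneg _) ε0.le
    have k4 := mul_le_mul_of_nonneg_left (B1 x hx) ε0.le
    linarith
  linarith [(abs_le.1 k).2]

theorem step : STEP := by
  rintro c P b a ⟨i1, i2, ⟨R, R0, i3⟩, i4, i5⟩ hb ha hm h
  have ne : ∀ m, mc b a c m ≠ 0 := fun m => mul_ne_zero (hm m) (i1 m)
  have ad := adm_mc i2 b a
  have eq : ∀ N, tr (mc b a c) N = op b a (tr c N) := fun N => (gen3.1 c N).1 b a
  have nz : ∀ N, op b a (tr c N) ≠ 0 := fun N => eq N ▸ tr_ne (ne 0) N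
  have dg : ∀ N, (tr c N).natDegree = N := fun N => (gen3.1 _ N).2.2.2 (i1 N)
  obtain ⟨M, hM⟩ := exists_nat_gt ((16 * b * (P : ℝ) + 4 * |a|) / b)
  rw [div_lt_iff₀' hb] at hM
  obtain ⟨T, T0, i6⟩ := i5 M
  have fr : ∀ᶠ N in atTop, (∀ w ∈ U0, 2 * (R + T) < ‖w‖ → ev (op b a (tr c N)) w ≠ 0) ∧
      ∀ x : ℝ, 2 * (R + T) < x → (op b a (tr c N)).eval x = 0 →
        (tr c N).eval x * (derivative (op b a (tr c N))).eval x < 0 := by
    filter_upwards [i3, i4, i6] with N k1 k2 k3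
    exact far b a R T P M _ hb R0 T0 (tr_ne (i1 0) N) k2.1 (by rw [dg]; exact k2.2) k1 k3 hM
  have nr := step_near i2 ad (2 * (R + T)) fun x hx e => h x (lt_of_le_of_ne hx.1 fun d => by
    rw [← d, (gen1 _ ad).2.2.2.2.2.2.2.2.1] at e
    exact ne 0 e) e
  have big : ∀ᶠ N : ℕ in atTop, 0 < b * (N : ℝ) + a := by
    filter_upwards [tendsto_natCast_atTop_atTop.eventually_gt_atTop (-a / b)] with N hN
    rw [div_lt_iff₀' hb] at hN
    linarith
  refine ⟨ne, ad, ⟨2 * (R + T), by positivity, ?_⟩, ?_, fun K => ?_⟩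
  · filter_upwards [fr] with N k w hw e
    by_contra hc
    exact k.1 w hw (not_le.1 hc) (eq N ▸ e)
  · filter_upwards [fr, nr, big, i4] with N k1 k2 k3 k4
    rw [eq] at k2 ⊢
    have all : ∀ x : ℝ, 0 < x → (op b a (tr c N)).eval x = 0 →
        (tr c N).eval x * (derivative (op b a (tr c N))).eval x < 0 := fun x hx e =>
      (le_or_gt x (2 * (R + T))).elim (fun d => k2 x ⟨hx.le, d⟩ e) fun d => k1.2 x d e
    refine ⟨fun x hx e => right_ne_zero_of_mul (all x hx e).ne, ?_⟩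
    have u1 := cnt b a _ hb ha (by rw [(gen3.1 c N).2.2.1]; exact i1 0) (by rwa [dg]) all
    have u2 := (rol b a _ hb (nz N)).1
    have := k4.2
    omega
  · obtain ⟨Q, Q0, k⟩ := i5 (K + 1)
    refine ⟨Q, Q0, k.mono fun N hN => ?_⟩
    have := (rol b a _ hb (nz N)).2.2.2 Q
    rw [eq]
    omega

theorem U0_open : IsOpen U0 :=
  (isOpen_ne_fun Complex.continuous_im continuous_const).union
    (isOpen_lt Complex.continuous_re continuous_const)

theorem S_zero {c : ℕ → ℝ} (h : Adm c) (h0 : c 0 ≠ 0) : S c 0 ≠ 0 := by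
  have := S_real c 0
  rw [(gen1 c h).2.2.2.2.2.2.2.2.1, Complex.ofReal_zero] at this
  rw [this]
  exact_mod_cast h0

theorem up_lim {c : ℕ → ℝ} {d : ℕ} (h : Adm c) (h0 : c 0 ≠ 0)
    (hN : ∀ᶠ N in atTop, N ≤ pc (tr c N) + d) : zeroCount U0 (S c) ≤ (d : ℕ∞) := by
  refine hu U0 d atTop _ _ U0_open inferInstance (fun N => (gen3.2.1 _).1) (gen1 c h).2.2.1
    (gen2 c h).1 ⟨0, S_zero h h0⟩ (hN.mono fun N k => ?_)
  have a := (zcp _ (tr_ne h0 N)).1
  have b : ((tr c N).natDegree : ℕ∞) ≤ (d : ℕ∞) + (pc (tr c N) : ℕ∞) := by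
    have := (gen3.1 c N).2.1
    exact_mod_cast (show (tr c N).natDegree ≤ d + pc (tr c N) by omega)
  exact (ENat.add_le_add_iff_right (by simp)).1 (a.trans b)

theorem fin' : FIN := by
  rintro c P ⟨i1, i2, ⟨R, R0, i3⟩, i4, -⟩ hs
  refine le_antisymm (up_lim i2 (i1 0) (i4.mono fun N k => k.2.ge)) ?_
  have hd := (gen1 c i2).2.2.1
  obtain ⟨δ, δ0, k⟩ := na (fun N => ev (tr c N)) (S c) R (fun N => (gen3.2.1 _).1) hd
    (gen2 c i2).1 (fun N => (gen3.2.1 _).2.2) (S_zero i2 (i1 0)) fun x hx e => by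
      rw [(adm_deriv i2 x).deriv, S_real]
      rw [S_real] at e
      exact_mod_cast hs x hx (by exact_mod_cast e)
  set K : Set ℂ := Metric.closedBall 0 R ∩ ({w | δ ≤ |w.im|} ∪ {w | w.re ≤ -δ}) with hK
  have cp : IsCompact K := (isCompact_closedBall 0 R).inter_right
    ((isClosed_le continuous_const Complex.continuous_im.abs).union
      (isClosed_le Complex.continuous_re continuous_const))
  refine le_trans (hl K P atTop _ _ cp inferInstance (fun N => (gen3.2.1 _).1) hd (gen2 c i2).1 ?_)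
    (zc.2.2.1 K U0 _ hd fun z hz _ => ?_)
  · filter_upwards [i3, i4, k] with N k1 k2 k3
    refine le_trans ?_ (zc.2.2.1 U0 K _ (gen3.2.1 _).1 fun z hz e =>
      ⟨mem_closedBall_zero_iff.2 (k1 z hz e), k3 z hz (k1 z hz e) e⟩)
    have a := (zcp _ (tr_ne (i1 0) N)).2 (by rw [(gen3.1 c N).2.2.1]; exact i1 0) k2.1
    rw [(gen3.1 _ N).2.2.2 (i1 N)] at a
    have b : (P : ℕ∞) + (pc (tr c N) : ℕ∞) = (N : ℕ∞) := by
      have := k2.2
      exact_mod_cast (show P + pc (tr c N) = N by omega)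
    exact (ENat.add_le_add_iff_right (by simp)).1 (b.le.trans a)
  · rcases hz.2 with d | d
    · exact Or.inl (abs_pos.1 (δ0.trans_le d))
    · exact Or.inr (lt_of_le_of_lt d (by linarith))

theorem ni_add {ν : ℝ} (h : NI ν) : NI (ν + 1) := fun k e => h (k - 1) (by push_cast; linarith)

theorem tr_succ (ν : ℝ) (n N : ℕ) :
    tr (cf ν (n + 1)) N = op 2 (ν - (n : ℝ)) (tr (cf ν n) N) := by
  rw [gen3.2.2.1, (gen3.1 _ N).1]

theorem cf_down (ν : ℝ) : cf ν 0 = mc 1 (ν + 1) (cf (ν + 1) 0) := by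
  rw [← gen3.2.2.2.1, add_sub_cancel_right]

theorem rol_succ {ν : ℝ} (h : NI ν) (n N : ℕ) : op 2 (ν - (n : ℝ)) (tr (cf ν n) N) ≠ 0 :=
  tr_succ ν n N ▸ tr_ne (gen3.2.2.2.2.2 ν (n + 1) 0 h) N

theorem upp : UPP := by
  have b0 : ∀ (K : ℕ) (ν : ℝ), NI ν → -(K : ℝ) - 1 < ν → ∀ N, N ≤ pc (tr (cf ν 0) N) + K := by
    intro K
    induction K with
    | zero => intro ν _ h N; exact lag ν N (by simpa using h)
    | succ K ih =>
      intro ν hν h N
      push_cast at h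
      have a := ih (ν + 1) (ni_add hν) (by linarith) N
      have e : tr (cf ν 0) N = op 1 (ν + 1) (tr (cf (ν + 1) 0) N) := by
        rw [cf_down, (gen3.1 _ N).1]
      have b := (rol 1 (ν + 1) _ one_pos (e ▸ tr_ne (gen3.2.2.2.2.2 ν 0 0 hν) N)).1
      rw [e]
      omega
  intro ν n
  induction n with
  | zero => intro K hν h; exact b0 K ν hν (by simpa using h)
  | succ n ih =>
    intro K hν h N
    rw [tr_succ]
    rcases K with _ | K
    · push_cast at h
      have a := ih 0 hν (by push_cast; linarith) N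
      have b := (rol 2 _ _ two_pos (rol_succ hν n N)).2.1 (by linarith)
      omega
    · push_cast at h
      have a := ih K hν (by linarith) N
      have b := (rol 2 _ _ two_pos (rol_succ hν n N)).1
      omega

theorem upg : UPG := by
  rintro ν n K hν h ⟨i, j, w, g1, g2, g3, g4, g5, g6⟩
  obtain ⟨u, u1, u2⟩ := (isCompact_Icc (a := 0) (b := w)).exists_isMinOn ⟨0, le_rfl, g4.le⟩
    (f := fun x => |Fr ν i x|) (Sr_cont (sum' ν i)).abs.continuousOn
  have δ0 := abs_pos.2 (g5 u u1)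
  filter_upwards [gen4 _ (sum' ν i) w _ (half_pos δ0),
    ((tr_lim (sum' ν j) 0).mul (tr_lim (sum' ν j) w)).eventually (gt_mem_nhds g6)] with N a b
  have ni : ∀ x ∈ Ioc (0 : ℝ) w, (tr (cf ν i) N).eval x ≠ 0 := by
    intro x hx e
    have k := (a x (by rw [abs_of_pos hx.1]; exact hx.2)).1
    have m : |Fr ν i u| ≤ |Fr ν i x| := u2 ⟨hx.1.le, hx.2⟩
    rw [e, zero_sub, abs_neg] at k
    change |Fr ν i x| ≤ _ at k
    linarith
  obtain ⟨z, z1, z2⟩ := sign_root g4 b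
  have ex : ∃ l, i < l ∧ ∃ x ∈ Ioc (0 : ℝ) w, (tr (cf ν l) N).eval x = 0 :=
    ⟨j, g2, z, ⟨z1.1, z1.2.le⟩, z2⟩
  classical
  have l1 := Nat.find_spec ex
  have l2 : Nat.find ex ≤ j := Nat.find_min' ex ⟨g2, z, ⟨z1.1, z1.2.le⟩, z2⟩
  obtain ⟨l, hl⟩ : ∃ l, Nat.find ex = l + 1 := ⟨Nat.find ex - 1, by omega⟩
  have l3 := Nat.find_min ex (show l < Nat.find ex by omega)
  rw [hl] at l1 l2
  have nl : ∀ x ∈ Ioc (0 : ℝ) w, (tr (cf ν l) N).eval x ≠ 0 := by
    rcases (Nat.lt_succ_iff.1 l1.1).lt_or_eq with c | c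
    · exact fun x hx e => l3 ⟨c, x, hx, e⟩
    · exact c ▸ ni
  have s1 := (rol 2 _ _ two_pos (rol_succ hν l N)).2.2.1 w nl (tr_succ ν l N ▸ l1.2)
  rw [← tr_succ] at s1
  have s2 : ∀ t, pc (tr (cf ν (l + 1)) N) ≤ pc (tr (cf ν (l + 1 + t)) N) + t := by
    intro t
    induction t with
    | zero => simp
    | succ t ih =>
      have := (rol 2 _ _ two_pos (rol_succ hν (l + 1 + t) N)).1
      rw [← tr_succ] at this
      rw [show l + 1 + (t + 1) = l + 1 + t + 1 from rfl]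
      omega
  obtain ⟨t, rfl⟩ : ∃ t, n = l + 1 + t := ⟨n - (l + 1), by omega⟩
  have kk : l + 1 + t < i + K + 1 := by
    have : ((l + 1 + t : ℕ) : ℝ) < ((i + K + 1 : ℕ) : ℝ) := by
      push_cast at h ⊢
      linarith
    exact_mod_cast this
  obtain ⟨K', rfl⟩ : ∃ K', K = K' + (t + 1) := ⟨K - (t + 1), by omega⟩
  have s3 := upp ν l K' hν (by push_cast at h; linarith) N
  have := s2 t
  omega

theorem up : UP := by
  intro ν n K hν h
  have c0 := gen3.2.2.2.2.2 ν n 0 hν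
  refine ⟨up_lim (sum' ν n) c0 (Eventually.of_forall (upp ν n K hν h)), fun g => ?_⟩
  have k := upg ν n K hν h g
  rcases K with _ | K
  · obtain ⟨N, hN⟩ := k.exists
    have a : pc (tr (cf ν n) N) ≤ N := (Finset.card_filter_le _ _).trans
      ((Multiset.toFinset_card_le _).trans ((card_roots' _).trans (gen3.1 _ N).2.1))
    omega
  · refine (up_lim (d := K) (sum' ν n) c0 (k.mono fun N hN => by omega)).trans_lt ?_
    exact_mod_cast Nat.lt_succ_self K

theorem exa_dr {ν x : ℝ} (hx : 0 < x) (e : Fr ν 0 x = 0) : Dr ν 0 x ≠ 0 := by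
  intro d
  have := ((relT ν x).1 0).2
  rw [d, e] at this
  exact sim ν x hx.ne' e (by simpa using this.symm)

theorem exa : EXA := by
  have ni : ∀ (k : ℕ) (ν : ℝ), -(k : ℝ) - 1 < ν → ν < -(k : ℝ) → NI ν := by
    intro k ν a b j e
    rw [e] at a b
    have a' : -(k : ℤ) - 1 < j := by exact_mod_cast a
    have b' : j < -(k : ℤ) := by exact_mod_cast b
    omega
  have i0 : ∀ (k : ℕ) (ν : ℝ), -(k : ℝ) - 1 < ν → ν < -(k : ℝ) → Inv (cf ν 0) k := by
    intro k
    induction k with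
    | zero => intro ν a _; exact base ν (by simpa using a)
    | succ k ih =>
      intro ν a b
      have hn := ni _ ν a b
      push_cast at a b
      rw [cf_down]
      refine step _ k 1 (ν + 1) (ih (ν + 1) (by linarith) (by linarith)) one_pos
        (by linarith [(Nat.cast_nonneg k : (0 : ℝ) ≤ k)])
        (fun m e => hn (-m - 1) (by push_cast; linarith)) fun x hx e => ?_
      rw [← cf_down] at e ⊢
      have d : Dr ν 0 x = -Fr (ν + 1) 0 x := by simpa using (relT (ν + 1) x).2.2.2.1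
      have := mul_self_pos.2 (exa_dr hx e)
      change Fr (ν + 1) 0 x * Dr ν 0 x < 0
      rw [d] at this ⊢
      linarith
  intro k n ν hn a b e
  have hni := ni k ν a b
  have k0 : (0 : ℝ) ≤ k := Nat.cast_nonneg k
  obtain ⟨r1, r2⟩ := rt relT (wd relT) sim (rt0 relT (wd relT) sim) ν (by linarith) e
  have st : ∀ j P : ℕ, Inv (cf ν j) P →
      (∀ x : ℝ, 0 < x → Fr ν (j + 1) x = 0 → Fr ν j x * Dr ν (j + 1) x < 0) →
      Inv (cf ν (j + 1)) (P + 1) := by
    intro j P h r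
    rw [gen3.2.2.1]
    refine step _ P 2 _ h two_pos (by linarith [(Nat.cast_nonneg j : (0 : ℝ) ≤ j)])
      (fun m e => hni (j - 2 * m) (by push_cast; linarith)) ?_
    rw [← gen3.2.2.1]
    exact r
  have i1 := st 0 k (i0 k ν a b) r1
  interval_cases n
  · exact fin' _ _ (i0 k ν a b) fun x hx e => exa_dr hx e
  · exact fin' _ _ i1 fun x hx e => right_ne_zero_of_mul (r1 x hx e).ne
  · exact fin' _ _ (st 1 (k + 1) i1 r2) fun x hx e => right_ne_zero_of_mul (r2 x hx e).ne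

end Pool.Agent.MP_cdfc49_an.BZ
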