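import Mathlib
import Pool.Agent.MP_cdfc49_an.BZ.Ode

set_option autoImplicit false

namespace Pool.Agent.MP_cdfc49_an.BZ

open Filter Topology Set

/-- A first critical point before the first zero gives a gain (`ν < 0`). -/
theorem g34_crit {ν : ℝ} {φ : ℕ → ℝ → ℝ} {n : ℕ} (h : Sys ν φ) (hn : 2 ≤ n) (hν : ν < 0)
    (H : NoGain ν φ n) (h0 : 0 < φ 0 0) {z : ℝ} (hz : 0 < z) (hz1 : φ 1 z = 0)
    (hl : ∀ x ∈ Ico 0 z, φ 1 x < 0) (hp : 0 < φ 0 z) : False := by
  have s1 : φ 1 0 < 0 := hl 0 ⟨le_rfl, hz⟩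
  have s2 : 0 < φ 2 0 := by
    have := h.zero 1
    push_cast at this
    rw [this]
    exact mul_pos_of_neg_of_neg (by linarith) s1
  have a0 : ∀ x ∈ Icc (0 : ℝ) z, φ 0 x ≠ 0 := by
    intro x hx e
    have hx0 : 0 < x := lt_of_le_of_ne hx.1 (fun hh => by rw [← hh] at e; linarith)
    have := (h.neg_of (n := 0) hx0 hx.2 fun t ht => (hl t ⟨by linarith [ht.1], ht.2⟩).le).2 e.le
    linarith
  have a1 := aux_extend (h.cont 0) a0 hz.le
  have a2 : ∀ᶠ w in 𝓝[>] z, 0 < w := mem_nhdsWithin_of_mem_nhds (lt_mem_nhds hz)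
  rcases lt_trichotomy (φ 2 z) 0 with c | c | c
  · have := (h.down (n := 1) hz hz1 c).2
    obtain ⟨x, hx1, hx2⟩ := (this.and (Ioo_mem_nhdsLT hz)).exists
    linarith [hl x ⟨hx2.1.le, hx2.2⟩]
  · have e2 := h.two z
    have e3 := h.three z
    rw [hz1] at e2 e3
    have y0 : 4 * z - ν ^ 2 = 0 := by
      have : (4 * z - ν ^ 2) * φ 0 z = 0 := by linarith
      exact (mul_eq_zero.1 this).resolve_right hp.ne'
    have c3 : φ 3 z < 0 := by
      rw [e3, y0]
      have : 0 < ν ^ 2 * φ 0 z := mul_pos (by nlinarith) hp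
      linarith
    have := (h.down (n := 2) hz c c3).1
    obtain ⟨w, ⟨hw1, hw2⟩, hw3⟩ := ((this.and a1).and a2).exists
    have := H 0 2 w (by simpa using hν) (by norm_num) hn hw3 hw2
    nlinarith
  · have := (h.up (n := 1) hz hz1 c).1
    obtain ⟨w, ⟨hw1, hw2⟩, hw3⟩ := ((this.and a1).and a2).exists
    have := H 0 1 w (by simpa using hν) (by norm_num) (by omega) hw3 hw2
    nlinarith

theorem g3_core {ν : ℝ} {φ : ℕ → ℝ → ℝ} (h : Sys ν φ) (hν : ν < -1)
    (H : NoGain ν φ 3) (h0 : 0 < φ 0 0) : False := by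
  have s1 : φ 1 0 < 0 := by
    have := h.zero 0
    push_cast at this
    rw [this]
    exact mul_neg_of_neg_of_pos (by linarith) h0
  have s2 : 0 < φ 2 0 := by
    have := h.zero 1
    push_cast at this
    rw [this]
    exact mul_pos_of_neg_of_neg (by linarith) s1
  have s3 : φ 3 0 < 0 := by
    have := h.zero 2
    push_cast at this
    rw [this]
    exact mul_neg_of_neg_of_pos (by linarith) s2
  have hq : 1 < ν ^ 2 := by nlinarith
  have H13 : ∀ w, 0 < w → (∀ x ∈ Icc (0 : ℝ) w, φ 1 x ≠ 0) → φ 3 w ≤ 0 := by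
    intro w hw hx
    have := H 1 3 w (by push_cast; linarith) (by norm_num) le_rfl hw hx
    by_contra hc
    nlinarith [mul_pos (neg_pos.2 s3) (not_le.1 hc)]
  have hc1 : Continuous fun x => -φ 1 x := (h.cont 1).neg
  by_cases c : ∃ x ∈ Icc (0 : ℝ) (3 * ν ^ 2 / 4), -φ 1 x = 0
  · obtain ⟨z, z0, z1, z2, z3⟩ := aux_first hc1 (by linarith) c
    have z2' : φ 1 z = 0 := by linarith
    have z3' : ∀ x ∈ Ico 0 z, φ 1 x < 0 := fun x hx => by linarith [z3 x hx]
    have b1 : ∀ x ∈ Ioo 0 z, φ 3 x ≤ 0 := fun x hx =>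
      H13 x hx.1 fun t ht => (z3' t ⟨ht.1, ht.2.trans_lt hx.2⟩).ne
    have b2 : φ 3 z ≤ 0 := aux_closure (h.cont 3) z0 b1
    rcases lt_trichotomy (φ 0 z) 0 with d | d | d
    · have e3 := h.three z
      rw [z2'] at e3
      have y1 : 2 * ν ^ 2 ≤ 4 * z - ν ^ 2 := by
        by_contra hc
        nlinarith [mul_pos (sub_pos.2 (not_le.1 hc)) (neg_pos.2 d)]
      have k1 : ∀ᶠ x in 𝓝[<] z, φ 0 x < 0 :=
        mem_nhdsWithin_of_mem_nhds ((h.cont 0).continuousAt.eventually (gt_mem_nhds d))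
      have k2 : ∀ᶠ x in 𝓝[<] z, x ∈ Ioo ((2 + ν ^ 2) / 4) z := Ioo_mem_nhdsLT (by linarith)
      obtain ⟨x, hx1, hx2⟩ := (k1.and k2).exists
      have x0 : 0 < x := by linarith [hx2.1]
      have k3 := b1 x ⟨x0, hx2.2⟩
      have k4 := z3' x ⟨x0.le, hx2.2⟩
      rw [h.three x] at k3
      have k5 : 0 < (2 - (4 * x - ν ^ 2)) * φ 1 x :=
        mul_pos_of_neg_of_neg (by linarith [hx2.1]) k4
      have k6 : 0 < ((4 * x - ν ^ 2) - 2 * ν ^ 2) * φ 0 x :=
        mul_pos_of_neg_of_neg (by linarith [hx2.2]) hx1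
      linarith
    · exact h.sim z z0.ne' d z2'
    · exact g34_crit h (by norm_num) (by linarith) H h0 z0 z2' z3' d
  · push Not at c
    have b1 := aux_pos hc1 c (by linarith) (3 * ν ^ 2 / 4) ⟨by positivity, le_rfl⟩
    have b2 := H13 (3 * ν ^ 2 / 4) (by positivity) fun x hx e => c x hx (by simp [e])
    rw [h.three] at b2
    nlinarith [mul_pos (sub_pos.2 hq) b1]

theorem cf_zero_ne (h : REL) (h3 : GEN3) {ν : ℝ} (hν : NI ν) (n : ℕ) : Fr ν n 0 ≠ 0 := by
  rw [(h ν 0).2.1 n]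
  exact h3.2.2.2.2.2 ν n 0 hν

theorem g3 (h : REL) (hw : WD) (h3 : GEN3) (hs : SIM) : G3 := by
  intro ν hni hν
  by_contra hc
  have hσ := cf_zero_ne h h3 hni 0
  exact g3_core ((sys_Fr h hw hs ν).smul hσ) hν (noGain_of hσ hc) (mul_self_pos.2 hσ)

theorem g4_core {ν : ℝ} {φ : ℕ → ℝ → ℝ} (h : Sys ν φ) (hν : ν < 1) (hν0 : ν ≠ 0)
    (H : NoGain ν φ 4) (s1 : 0 < φ 1 0) (ho : ∃ x, 0 ≤ x ∧ φ 1 x = 0) : False := by
  have s0 : φ 1 0 = ν * φ 0 0 := by
    have := h.zero 0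
    push_cast at this
    rw [this, sub_zero]
  have s2 : φ 2 0 < 0 := by
    have := h.zero 1
    push_cast at this
    rw [this]
    exact mul_neg_of_neg_of_pos (by linarith) s1
  have s3 : 0 < φ 3 0 := by
    have := h.zero 2
    push_cast at this
    rw [this]
    exact mul_pos_of_neg_of_neg (by linarith) s2
  have s4 : φ 4 0 < 0 := by
    have := h.zero 3
    push_cast at this
    rw [this]
    exact mul_neg_of_neg_of_pos (by linarith) s3
  have hq : 0 < ν ^ 2 := by positivity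
  have H4 : ∀ i : ℕ, 1 ≤ i → i < 4 → ∀ w, 0 < w → (∀ x ∈ Icc (0 : ℝ) w, φ i x ≠ 0) →
      φ 4 w ≤ 0 := by
    intro i i1 i4 w hw hx
    have i1' : (1 : ℝ) ≤ i := by exact_mod_cast i1
    have := H i 4 w (by linarith) i4 le_rfl hw hx
    by_contra hc
    nlinarith [mul_pos (neg_pos.2 s4) (not_le.1 hc)]
  obtain ⟨x0, hx0, hx1⟩ := ho
  obtain ⟨z, z0, -, z2, z3⟩ := aux_first (h.cont 1) (b := x0) s1 ⟨x0, ⟨hx0, le_rfl⟩, hx1⟩
  have z4 : ∀ x ∈ Ioo 0 z, ∀ t ∈ Icc (0 : ℝ) x, φ 1 t ≠ 0 := fun x hx t ht =>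
    (z3 t ⟨ht.1, ht.2.trans_lt hx.2⟩).ne'
  have b2 : φ 2 z ≤ 0 := aux_closure (h.cont 2) z0 fun x hx => by
    have := H 1 2 x (by push_cast; linarith) (by norm_num) (by norm_num) hx.1 (z4 x hx)
    by_contra hc
    nlinarith [mul_pos (neg_pos.2 s2) (not_le.1 hc)]
  have b3 : ∀ x ∈ Ioo 0 z, 0 ≤ φ 3 x := fun x hx => by
    have := H 1 3 x (by push_cast; linarith) (by norm_num) (by norm_num) hx.1 (z4 x hx)
    exact (mul_nonneg_iff_of_pos_left s3).1 this
  have b4 : φ 4 z ≤ 0 := aux_closure (h.cont 4) z0 fun x hx =>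
    H4 1 le_rfl (by norm_num) x hx.1 (z4 x hx)
  rcases lt_trichotomy (φ 0 z) 0 with d | d | d
  · rcases lt_or_gt_of_ne hν0 with c | c
    · have p0 : φ 0 0 < 0 := by
        by_contra hc
        nlinarith [mul_nonneg (neg_pos.2 c).le (not_lt.1 hc)]
      refine g34_crit (h.smul (σ := -1) (by norm_num)) (n := 4) (by norm_num) c ?_ (by linarith)
        z0 (by simp [z2]) (fun x hx => by linarith [z3 x hx]) (by linarith)
      intro i j w k1 k2 k3 k4 k5
      have := H i j w k1 k2 k3 k4 fun x hx e => k5 x hx (by simp [e])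
      linarith
    · have p0 : 0 < φ 0 0 := (mul_pos_iff_of_pos_left c).1 (s0 ▸ s1)
      have k1 : ∀ᶠ x in 𝓝[>] (0 : ℝ), 0 < φ 0 x :=
        mem_nhdsWithin_of_mem_nhds ((h.cont 0).continuousAt.eventually (lt_mem_nhds p0))
      obtain ⟨x, k2, k3⟩ := (k1.and (Ioo_mem_nhdsGT z0)).exists
      have := (h.pos_of (n := 0) k3.1 k3.2.le
        fun t ht => (z3 t ⟨by linarith [ht.1, k3.1], ht.2⟩).le).1 k2
      linarith
  · exact h.sim z z0.ne' d z2
  · have e2 := h.two z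
    have e4 := h.four z
    rw [z2] at e2 e4
    have y0 : 0 ≤ 4 * z - ν ^ 2 := by
      by_contra hc
      nlinarith [mul_pos (neg_pos.2 (not_le.1 hc)) d]
    have y1 : (4 * z - ν ^ 2) ^ 2 - 3 * (4 * z - ν ^ 2) + 8 * ν ^ 2 ≤ 0 := by
      by_contra hc
      nlinarith [mul_pos (not_le.1 hc) d]
    have y2 : 0 < 4 * z - ν ^ 2 := by
      by_contra hc
      have : 4 * z - ν ^ 2 = 0 := le_antisymm (not_lt.1 hc) y0
      rw [this] at y1
      linarith
    have y3 : 4 * z - ν ^ 2 < 3 := by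
      by_contra hc
      nlinarith [mul_nonneg y0 (sub_nonneg.2 (not_lt.1 hc))]
    have c2 : φ 2 z < 0 := by nlinarith [mul_pos y2 d]
    have c3 : ∀ x ∈ Icc (0 : ℝ) z, φ 2 x < 0 := by
      intro x hx
      by_contra hc
      have x0 : 0 < x := lt_of_le_of_ne hx.1 (fun hh => by rw [← hh] at hc; exact hc s2)
      have := (h.pos_of (n := 2) x0 hx.2 fun t ht => b3 t ⟨x0.trans ht.1, ht.2⟩).2 (not_lt.1 hc)
      linarith
    have hc2 : Continuous fun x => -φ 2 x := (h.cont 2).neg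
    by_cases c : ∃ x ∈ Icc (0 : ℝ) ((3 + ν ^ 2) / 4), -φ 2 x = 0
    · obtain ⟨u, u0, u1, u2, u3⟩ := aux_first hc2 (by linarith) c
      have u2' : φ 2 u = 0 := by linarith
      have zu : z < u := by
        by_contra hc
        linarith [c3 u ⟨u0.le, not_lt.1 hc⟩]
      have k1 : φ 1 u < 0 := h.sneg_of (n := 1) z0 zu
        (fun t ht => by linarith [u3 t ⟨by linarith [ht.1], ht.2⟩]) z2.le
      have k4 : φ 4 u ≤ 0 := aux_closure (h.cont 4) u0 fun x hx =>
        H4 2 (by norm_num) (by norm_num) x hx.1 fun t ht e => by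
          have := u3 t ⟨ht.1, ht.2.trans_lt hx.2⟩
          linarith
      have f2 := h.two u
      have f4 := h.four u
      have f1 : φ 1 u = -(4 * u - ν ^ 2) * φ 0 u := by linarith
      have w0 : 0 < 4 * u - ν ^ 2 := by linarith
      have w3 : 4 * u - ν ^ 2 ≤ 3 := by linarith
      have k0 : 0 < φ 0 u := by
        by_contra hc
        nlinarith [mul_nonneg w0.le (neg_nonneg.2 (not_lt.1 hc))]
      rw [f1] at f4
      have : 0 < (-(4 * u - ν ^ 2) ^ 2 + (4 * ν ^ 2 + 3) * (4 * u - ν ^ 2) + 8 * ν ^ 2) := by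
        nlinarith [mul_nonneg w0.le (sub_nonneg.2 w3), mul_pos hq w0]
      nlinarith [mul_pos this k0]
    · push Not at c
      have k2 := aux_pos hc2 c (by linarith)
      have zu : z < (3 + ν ^ 2) / 4 := by linarith
      have k1 : φ 1 ((3 + ν ^ 2) / 4) < 0 := h.sneg_of (n := 1) z0 zu
        (fun t ht => by linarith [k2 t ⟨by linarith [ht.1], ht.2.le⟩]) z2.le
      have k3 := k2 ((3 + ν ^ 2) / 4) ⟨by positivity, le_rfl⟩
      have k4 := H4 2 (by norm_num) (by norm_num) ((3 + ν ^ 2) / 4) (by positivity)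
        fun x hx e => c x hx (by simp [e])
      rw [h.two] at k3
      rw [h.four] at k4
      have k0 : 0 < φ 0 ((3 + ν ^ 2) / 4) := by nlinarith
      nlinarith [mul_pos hq k0, mul_pos hq (neg_pos.2 k1)]

theorem g4_zero {ν : ℝ} (h : Sys ν (Fr ν)) (ho : OSC) : ∃ x, 0 ≤ x ∧ Fr ν 1 x = 0 := by
  by_contra hc
  push Not at hc
  obtain ⟨a, a0, a1⟩ := (ho ν 0).1
  obtain ⟨b, b0, b1⟩ := (ho ν a).2
  obtain ⟨c, c0, c1⟩ := (ho ν b).1
  rcases lt_or_gt_of_ne (hc 0 le_rfl) with s | s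
  · have k := aux_pos (h.cont 1).neg (a := 0) (b := c)
      (fun x hx e => hc x hx.1 (by simpa using e)) (by simpa using s)
    have := (h.neg_of (n := 0) (a0.trans b0) c0.le fun t ht => by
      have := k t ⟨by linarith [ht.1], ht.2.le⟩
      simp only [Pi.neg_apply] at this
      linarith).1 b1
    linarith
  · have k := aux_pos (h.cont 1) (a := 0) (b := c) (fun x hx => hc x hx.1) s
    have := (h.pos_of (n := 0) a0 b0.le fun t ht =>
      (k t ⟨by linarith [ht.1], by linarith [ht.2]⟩).le).1 a1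
    linarith

theorem g4 (h : REL) (hw : WD) (h3 : GEN3) (hs : SIM) (ho : OSC) : G4 := by
  intro ν hni hν
  by_contra hc
  have hσ := cf_zero_ne h h3 hni 1
  obtain ⟨x, x0, x1⟩ := g4_zero (sys_Fr h hw hs ν) ho
  exact g4_core ((sys_Fr h hw hs ν).smul hσ) hν (by simpa using hni 0) (noGain_of hσ hc)
    (mul_self_pos.2 hσ) ⟨x, x0, by simp [x1]⟩

end Pool.Agent.MP_cdfc49_an.BZ
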