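import Mathlib
import Pool.Agent.MP_cdfc49_an.BZ.Ser2
import Pool.Agent.MP_cdfc49_an.BZ.Cx

set_option autoImplicit false

namespace Pool.Agent.MP_cdfc49_an.BZ

open Filter Topology Set

/-- Minus the ratio of consecutive terms. -/
noncomputable def rr (ν : ℝ) (n : ℕ) (x : ℝ) (k : ℕ) : ℝ :=
  (ν + 2 * (k : ℝ) + 2) * (ν + 2 * (k : ℝ) + 1) * x / (((k : ℝ) + 1) * (ν + (k : ℝ) + 1) *
    (ν + 2 * (k : ℝ) + 2 - (n : ℝ)) * (ν + 2 * (k : ℝ) + 1 - (n : ℝ)))

theorem term_ratio {ν : ℝ} (h : NI ν) (n : ℕ) (x : ℝ) (k : ℕ) :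
    cf ν n (k + 1) * x ^ (k + 1) = -rr ν n x k * (cf ν n k * x ^ k) := by
  have a : ν + (k : ℝ) + 1 ≠ 0 := fun e => h (-k - 1) (by push_cast; linarith)
  have b : ν + 2 * (k : ℝ) + 2 - (n : ℝ) ≠ 0 := fun e => h (n - 2 * k - 2) (by push_cast; linarith)
  have c : ν + 2 * (k : ℝ) + 1 - (n : ℝ) ≠ 0 := fun e => h (n - 2 * k - 1) (by push_cast; linarith)
  have d : (k : ℝ) + 1 ≠ 0 := by positivity
  have := rat' ν n k
  rw [rr, ← neg_div, div_mul_eq_mul_div, eq_div_iff (mul_ne_zero (mul_ne_zero (mul_ne_zero d a) b) c)]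
  linear_combination (x ^ (k + 1)) * this

theorem gs_num {ν k x : ℝ} (hν : 0 < ν) (hk : 1 ≤ k) (hx : 0 ≤ x)
    (hw : x * ((ν + 3) * (ν + 4)) ≤ 3 * (ν + 2)) :
    (ν + 2 * k + 2) * (ν + 2 * k + 1) * x ≤ 3 * k ^ 2 * (ν + k + 1) := by
  obtain ⟨t, rfl⟩ : ∃ t, k = 1 + t := ⟨k - 1, by ring⟩
  have t0 : 0 ≤ t := by linarith
  have A : ν + 2 * (1 + t) + 2 ≤ (1 + t) * (ν + 4) := by nlinarith [mul_nonneg t0 hν.le]
  have B : (ν + 2 * (1 + t) + 1) * (ν + 2) ≤ (1 + t) * (ν + (1 + t) + 1) * (ν + 3) := by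
    have : (1 + t) * (ν + (1 + t) + 1) * (ν + 3) - (ν + 2 * (1 + t) + 1) * (ν + 2) =
        t * (ν ^ 2 + 4 * ν + 5) + t ^ 2 * (ν + 3) := by ring
    have : 0 ≤ t * (ν ^ 2 + 4 * ν + 5) + t ^ 2 * (ν + 3) := by positivity
    linarith
  have C := mul_le_mul_of_nonneg_right (mul_le_mul A B (by positivity) (by positivity)) hx
  have D := mul_le_mul_of_nonneg_left hw (show 0 ≤ (1 + t) ^ 2 * (ν + (1 + t) + 1) by positivity)
  refine le_of_mul_le_mul_right ?_ (show 0 < ν + 2 by positivity)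
  linarith

theorem gs_rr {ν x : ℝ} {n k : ℕ} (hν : 0 < ν) (hk : 1 ≤ k) (hx : 0 ≤ x)
    (hw : x * ((ν + 3) * (ν + 4)) ≤ 3 * (ν + 2)) {u : ℝ} (u0 : 0 < u)
    (hu : u ≤ ν + 2 * (k : ℝ) + 1 - (n : ℝ)) (h3 : 3 * (k : ℝ) ^ 2 ≤ (k + 1) * ((u + 1) * u)) :
    0 ≤ rr ν n x k ∧ rr ν n x k ≤ 1 := by
  have p1 : 0 < ν + 2 * (k : ℝ) + 1 - (n : ℝ) := u0.trans_le hu
  have p2 : 0 < ν + 2 * (k : ℝ) + 2 - (n : ℝ) := by linarith
  refine ⟨by unfold rr; positivity, ?_⟩
  rw [rr, div_le_one (by positivity)]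
  refine (gs_num hν (by exact_mod_cast hk) hx hw).trans ?_
  have a : (u + 1) * u ≤ (ν + 2 * (k : ℝ) + 2 - n) * (ν + 2 * (k : ℝ) + 1 - n) :=
    mul_le_mul (by linarith) hu u0.le p2.le
  have b := mul_le_mul_of_nonneg_right
    (h3.trans (mul_le_mul_of_nonneg_left a (by positivity))) (show 0 ≤ ν + k + 1 by positivity)
  linarith

theorem gs_poly {b l c : ℝ} (b0 : 0 < b) (b1 : b < 1) (hl : 27 / 20 ≤ l) (hc : c ≤ 189 / 40) :
    1 < l / ((1 + b) * (2 + b)) * (1 + 3 / (2 * b * (1 - b)) *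
      (1 - c / (3 * ((3 - b) * (2 - b))))) := by
  obtain ⟨t, ht⟩ : ∃ t, t = 1 - b := ⟨_, rfl⟩
  have t0 : 0 < t := by linarith
  have d3 : 0 < 3 - b := by linarith
  have d2 : 0 < 2 - b := by linarith
  have P : 0 < 27 / 20 * (2 * b * (1 - b) * ((3 - b) * (2 - b)) + 3 * ((3 - b) * (2 - b)) -
      189 / 40) - 2 * b * (1 - b) * ((3 - b) * (2 - b)) * ((1 + b) * (2 + b)) := by
    have : 27 / 20 * (2 * b * (1 - b) * ((3 - b) * (2 - b)) + 3 * ((3 - b) * (2 - b)) -
      189 / 40) - 2 * b * (1 - b) * ((3 - b) * (2 - b)) * ((1 + b) * (2 + b)) =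
      14337 / 800 * t ^ 6 + 31791 / 400 * b * t ^ 5 + 17747 / 160 * b ^ 2 * t ^ 4 +
      2141 / 40 * b ^ 3 * t ^ 3 + 1331 / 160 * b ^ 4 * t ^ 2 + 1551 / 400 * b ^ 5 * t +
      1377 / 800 * b ^ 6 := by rw [ht]; ring
    rw [this]
    positivity
  have e : l / ((1 + b) * (2 + b)) * (1 + 3 / (2 * b * (1 - b)) *
      (1 - c / (3 * ((3 - b) * (2 - b))))) =
      l * (2 * b * (1 - b) * ((3 - b) * (2 - b)) + 3 * ((3 - b) * (2 - b)) - c) /
        (2 * b * (1 - b) * ((3 - b) * (2 - b)) * ((1 + b) * (2 + b))) := by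
    have : 1 - b ≠ 0 := by linarith
    field_simp
    ring
  have q : 0 < 2 * b * (1 - b) * ((3 - b) * (2 - b)) := by rw [← ht]; positivity
  have D : 2 ≤ (3 - b) * (2 - b) := by nlinarith
  rw [e, lt_div_iff₀ (by positivity), one_mul]
  have := mul_le_mul hl (show 2 * b * (1 - b) * ((3 - b) * (2 - b)) + 3 * ((3 - b) * (2 - b)) -
    189 / 40 ≤ 2 * b * (1 - b) * ((3 - b) * (2 - b)) + 3 * ((3 - b) * (2 - b)) - c by linarith)
    (by linarith) (by linarith)
  linarith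

theorem gs : GS := by
  intro m ν hm h1 h2
  have m2 : (2 : ℝ) ≤ m := by exact_mod_cast hm
  have ν1 : 1 < ν := by linarith
  have ν0 : 0 < ν := by linarith
  have hni : NI ν := by
    intro k e
    rw [e] at h1 h2
    have a : (m : ℤ) - 1 < k := by exact_mod_cast h1
    have b : k < (m : ℤ) := by exact_mod_cast h2
    omega
  obtain ⟨b, hb⟩ : ∃ b, b = (m : ℝ) - ν := ⟨_, rfl⟩
  have b0 : 0 < b := by linarith
  have b1 : b < 1 := by linarith
  obtain ⟨w, hw⟩ : ∃ w, w = 3 * (ν + 2) / ((ν + 3) * (ν + 4)) := ⟨_, rfl⟩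
  have w0 : 0 < w := by rw [hw]; positivity
  have w1 : w * ((ν + 3) * (ν + 4)) = 3 * (ν + 2) := by rw [hw]; field_simp
  have c0 : ∀ n k, cf ν n k ≠ 0 := fun n k => gen3.2.2.2.2.2 ν n k hni
  refine ⟨m + 1, m + 3, w, by push_cast; linarith, by omega, le_rfl, w0, fun x hx e => ?_, ?_⟩
  · rcases hx.1.eq_or_lt with c | c
    · rw [← c, (relT ν 0).2.1] at e
      exact c0 _ 0 e
    have hs : HasSum (fun k => cf ν (m + 1) k * x ^ k) (Fr ν (m + 1) x) :=
      (adm_sumR (sum' ν _) x).hasSum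
    have xw : x * ((ν + 3) * (ν + 4)) ≤ 3 * (ν + 2) :=
      (mul_le_mul_of_nonneg_right hx.2 (by positivity)).trans w1.le
    have k := alt_ratio 1 hs fun k hk => ⟨term_ratio hni _ x k, by
      have k1 : (1 : ℝ) ≤ k := by exact_mod_cast hk
      exact gs_rr ν0 hk c.le xw (u := 2 * k - 1) (by linarith) (by push_cast; linarith)
        (by nlinarith [mul_nonneg (sub_nonneg.2 k1) (sq_nonneg (k : ℝ))])⟩
    have r0 : rr ν (m + 1) x 0 < 0 := by
      refine div_neg_of_pos_of_neg (by positivity) (mul_neg_of_pos_of_neg ?_ ?_)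
      · refine mul_pos (by positivity) ?_
        push_cast; linarith
      · push_cast; linarith
    have t := term_ratio hni (m + 1) x 0
    simp only [zero_add, Finset.range_one, Finset.sum_singleton, e, zero_sub, pow_zero,
      mul_one] at k t
    rw [t] at k
    linarith [mul_pos (neg_pos.2 r0) (mul_self_pos.2 (c0 (m + 1) 0))]
  · have hs : HasSum (fun k => cf ν (m + 3) k * w ^ k) (Fr ν (m + 3) w) :=
      (adm_sumR (sum' ν _) w).hasSum
    have k := alt_ratio 4 hs fun k hk => ⟨term_ratio hni _ w k, by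
      have k1 : (4 : ℝ) ≤ k := by exact_mod_cast hk
      exact gs_rr ν0 (by omega) w0.le w1.le (u := 2 * k - 3) (by linarith)
        (by push_cast; linarith)
        (by nlinarith [mul_nonneg (sub_nonneg.2 k1) (sq_nonneg (k : ℝ))])⟩
    have mb : (m : ℝ) = ν + b := by linarith
    have tb : 0 < 1 - b := by linarith
    have d3 : 0 < 3 - b := by linarith
    have d2 : 0 < 2 - b := by linarith
    have e0 : rr ν (m + 3) w 0 = (ν + 2) * w / ((1 + b) * (2 + b)) := by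
      simp only [rr]
      push_cast
      rw [mb, div_eq_div_iff (by
        rw [show (0 + 1) * (ν + 0 + 1) * (ν + 2 * 0 + 2 - (ν + b + 3)) *
          (ν + 2 * 0 + 1 - (ν + b + 3)) = (ν + 1) * ((1 + b) * (2 + b)) by ring]
        positivity) (by positivity)]
      ring
    have e1 : rr ν (m + 3) w 1 = -(3 / (2 * b * (1 - b))) := by
      simp only [rr]
      push_cast
      rw [mb, ← neg_div, div_eq_div_iff (by
        rw [show (1 + 1) * (ν + 1 + 1) * (ν + 2 * 1 + 2 - (ν + b + 3)) *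
          (ν + 2 * 1 + 1 - (ν + b + 3)) = -(2 * (ν + 2) * (1 - b) * b) by ring, neg_ne_zero]
        positivity) (by positivity)]
      linear_combination (2 * b * (1 - b)) * w1
    have e2 : rr ν (m + 3) w 2 =
        (ν + 6) * (ν + 5) * w / (ν + 3) / (3 * ((3 - b) * (2 - b))) := by
      simp only [rr]
      push_cast
      rw [mb, div_div]
      congr 1 <;> ring
    have e3 : 0 < rr ν (m + 3) w 3 := by
      refine div_pos (by positivity) (mul_pos (mul_pos (by positivity) ?_) ?_)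
      · push_cast; linarith
      · push_cast; linarith
    have l1 : 27 / 20 ≤ (ν + 2) * w := by
      rw [hw, ← mul_div_assoc, le_div_iff₀ (by positivity)]
      nlinarith
    have l2 : (ν + 6) * (ν + 5) * w / (ν + 3) ≤ 189 / 40 := by
      rw [hw, ← mul_div_assoc, div_div, div_le_iff₀ (by positivity)]
      nlinarith [mul_pos (sub_pos.2 ν1) (mul_pos ν0 ν0), mul_pos (sub_pos.2 ν1) ν0]
    have P := gs_poly b0 b1 l1 l2
    rw [← e0, ← e2, ← neg_neg (3 / (2 * b * (1 - b))), ← e1] at P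
    have p0 : 0 < rr ν (m + 3) w 0 := by rw [e0]; positivity
    have p1 : 0 < -rr ν (m + 3) w 1 := by rw [e1, neg_neg]; positivity
    have p2 : 0 < rr ν (m + 3) w 2 := by rw [e2]; positivity
    simp only [Finset.sum_range_succ, Finset.range_zero, Finset.sum_empty, zero_add] at k
    have t0 := term_ratio hni (m + 3) w 0
    have t1 := term_ratio hni (m + 3) w 1
    have t2 := term_ratio hni (m + 3) w 2
    have t3 := term_ratio hni (m + 3) w 3
    simp only [zero_add, Nat.reduceAdd] at t0 t1 t2 t3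
    rw [t3, t2, t1, t0, pow_zero, mul_one] at k
    rw [(relT ν 0).2.1]
    have cc := mul_self_pos.2 (c0 (m + 3) 0)
    generalize cf ν (m + 3) 0 = c at *
    generalize Fr ν (m + 3) w = s at *
    generalize rr ν (m + 3) w 0 = r0 at *
    generalize rr ν (m + 3) w 1 = r1 at *
    generalize rr ν (m + 3) w 2 = r2 at *
    generalize rr ν (m + 3) w 3 = r3 at *
    have q := mul_pos (mul_pos (mul_pos p0 p1) p2) e3
    have k2 : c * s ≤ c * c * (1 - r0 * (1 + -r1 * (1 - r2))) := by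
      by_contra hc
      have := mul_pos q (sub_pos.2 (not_le.1 hc))
      linarith
    linarith [mul_pos cc (sub_pos.2 P)]

theorem loc_core {c : ℕ → ℝ} (h : Adm c) {C ε : ℝ} (C0 : 0 < C) (p0 : 0 < c 0) (p2 : 0 < c 2)
    (h1 : |c 1| ≤ C * c 0) (h2 : c 0 ≤ ε * c 2) (h3 : ∀ k, |c (k + 3)| ≤ C * |c (k + 2)|)
    (hε : C ^ 2 * ε ≤ 1 / 400) : ∃ w : ℂ, w.im ≠ 0 ∧ S c w = 0 := by
  obtain ⟨η, η0, η2⟩ : ∃ η : ℝ, 0 < η ∧ c 2 * η ^ 2 = c 0 :=
    ⟨Real.sqrt (c 0 / c 2), by positivity, by rw [Real.sq_sqrt (by positivity)]; field_simp⟩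
  have Cη : C * η ≤ 1 / 20 := by
    have a : η ^ 2 ≤ ε := le_of_mul_le_mul_left (by linarith) p2
    refine (pow_le_pow_iff_left₀ (by positivity) (by norm_num) two_ne_zero).1 ?_
    nlinarith [mul_le_mul_of_nonneg_left a (sq_nonneg C)]
  have geo : ∀ k, |c (k + 2)| * (3 * η / 2) ^ k ≤ c 2 * (3 / 40) ^ k := by
    intro k
    induction k with
    | zero => simp [abs_of_pos p2]
    | succ k ih =>
      calc |c (k + 3)| * (3 * η / 2) ^ (k + 1)
          ≤ C * |c (k + 2)| * (3 * η / 2) ^ (k + 1) := by gcongr; exact h3 k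
        _ = (C * (3 * η / 2)) * (|c (k + 2)| * (3 * η / 2) ^ k) := by ring
        _ ≤ (3 / 40) * (c 2 * (3 / 40) ^ k) :=
          mul_le_mul (by linarith) ih (by positivity) (by norm_num)
        _ = _ := by ring
  have err : ∀ w : ℂ, ‖w‖ ≤ 3 * η / 2 → ‖S c w - (c 0 + c 2 * w ^ 2)‖ ≤ c 0 * (3 / 10) := by
    intro w hw
    have e : S c w - (c 0 + c 2 * w ^ 2) = c 1 * w + ∑' k, (c (k + 3) : ℂ) * w ^ (k + 3) := by
      rw [S, ← (adm_sumC h w).sum_add_tsum_nat_add 3]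
      simp only [Finset.sum_range_succ, Finset.range_zero, Finset.sum_empty]
      ring
    have t := tsum_of_norm_bounded (f := fun k => (c (k + 3) : ℂ) * w ^ (k + 3))
      ((hasSum_geometric_of_lt_one (r := 3 / 40) (by norm_num) (by norm_num)).mul_left
        (c 0 * (27 / 160))) fun k => by
      rw [norm_mul, norm_pow, Complex.norm_real, Real.norm_eq_abs]
      calc |c (k + 3)| * ‖w‖ ^ (k + 3) ≤ |c (k + 3)| * (3 * η / 2) ^ (k + 3) := by gcongr
        _ = (|c (k + 1 + 2)| * (3 * η / 2) ^ (k + 1)) * (3 * η / 2) ^ 2 := by ring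
        _ ≤ (c 2 * (3 / 40) ^ (k + 1)) * (3 * η / 2) ^ 2 := by gcongr ?_ * _; exact geo (k + 1)
        _ = _ := by rw [← η2]; ring
    have u : ‖(c 1 : ℂ) * w‖ ≤ c 0 * (3 / 40) := by
      rw [norm_mul, Complex.norm_real, Real.norm_eq_abs]
      refine (mul_le_mul h1 hw (norm_nonneg _) (by positivity)).trans ?_
      nlinarith
    rw [e]
    refine (norm_add_le _ _).trans ?_
    norm_num at t
    linarith
  have ni : ‖(η : ℂ) * Complex.I‖ = η := by simp [abs_of_pos η0]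
  have fac : ∀ w : ℂ, (c 0 : ℂ) + c 2 * w ^ 2 =
      c 2 * ((w - η * Complex.I) * (w + η * Complex.I)) := by
    intro w
    rw [← η2]
    push_cast
    linear_combination ((c 2 : ℂ) * (η : ℂ) ^ 2) * Complex.I_sq
  obtain ⟨z, z1, z2⟩ := mm (S c) (η * Complex.I) (η / 2) (gen1 c h).2.2.1 (half_pos η0)
    fun z hz => by
      rw [mem_sphere_iff_norm] at hz
      have a := err (η * Complex.I) (by rw [ni]; linarith)
      rw [fac, sub_self, zero_mul, mul_zero, sub_zero] at a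
      have b := err z (by linarith [norm_sub_norm_le z (η * Complex.I)])
      have d : 3 * η / 2 ≤ ‖z + η * Complex.I‖ := by
        have := norm_sub_le (z + η * Complex.I) (z - η * Complex.I)
        rw [show z + η * Complex.I - (z - η * Complex.I) = 2 * (η * Complex.I) by ring, norm_mul,
          ni, Complex.norm_ofNat] at this
        linarith
      have f : c 0 * (3 / 4) ≤ ‖(c 0 : ℂ) + c 2 * z ^ 2‖ := by
        rw [fac, norm_mul, norm_mul, hz, Complex.norm_real, Real.norm_of_nonneg p2.le, ← η2]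
        nlinarith [mul_le_mul_of_nonneg_left d (show 0 ≤ c 2 * (η / 2) by positivity)]
      have g := norm_sub_norm_le ((c 0 : ℂ) + c 2 * z ^ 2) (S c z)
      rw [norm_sub_rev] at b
      linarith
  refine ⟨z, fun e => ?_, z2⟩
  have := (Complex.abs_im_le_norm (z - η * Complex.I)).trans_lt (mem_ball_iff_norm.1 z1)
  simp [e, abs_of_pos η0] at this
  linarith

theorem loc : LOC := by
  intro n hn
  have n3 : (3 : ℝ) ≤ n := by exact_mod_cast hn
  obtain ⟨ε, hε⟩ : ∃ ε : ℝ, ε = 1 / (40 * n) ^ 2 := ⟨_, rfl⟩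
  have ε0 : 0 < ε := by rw [hε]; positivity
  have ε1 : ε ≤ 1 / 2 := by
    rw [hε]
    exact one_div_le_one_div_of_le (by norm_num) (by nlinarith)
  obtain ⟨ν, hν⟩ : ∃ ν : ℝ, ν = n - 3 + ε := ⟨_, rfl⟩
  have a1 : (n : ℝ) - 3 < ν := by linarith
  have a2 : ν < (n : ℝ) - 2 := by linarith
  have ν0 : 0 < ν := by linarith
  have hni : NI ν := by
    intro k e
    rw [e] at a1 a2
    have a : (n : ℤ) - 3 < k := by exact_mod_cast a1
    have b : k < (n : ℤ) - 2 := by exact_mod_cast a2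
    omega
  have t : ∀ k, cf ν n (k + 1) = -rr ν n 1 k * cf ν n k := fun k => by
    simpa using term_ratio hni n 1 k
  have s0 : 0 < cf ν n 0 := by simpa using neg1_sign (by omega) a1 a2 0
  have s2 : 0 < cf ν n 2 := by simpa using neg1_sign (by omega) a1 a2 2
  have nn : (n : ℝ) = ν + 3 - ε := by linarith
  have d1 : 0 < 1 - ε := by linarith
  have d2 : 0 < 2 - ε := by linarith
  have e0 : rr ν n 1 0 = (ν + 2) / ((1 - ε) * (2 - ε)) := by
    simp only [rr]
    push_cast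
    rw [nn, div_eq_div_iff (by
      rw [show (0 + 1) * (ν + 0 + 1) * (ν + 2 * 0 + 2 - (ν + 3 - ε)) *
        (ν + 2 * 0 + 1 - (ν + 3 - ε)) = (ν + 1) * ((1 - ε) * (2 - ε)) by ring]
      positivity) (by positivity)]
    ring
  have e1 : rr ν n 1 1 = (ν + 4) * (ν + 3) / (2 * (ν + 2) * (1 + ε) * ε) := by
    simp only [rr]
    push_cast
    rw [nn]
    congr 1 <;> ring
  have q0 : 1 ≤ rr ν n 1 0 := by
    rw [e0, le_div_iff₀ (by positivity)]
    nlinarith
  have q1 : rr ν n 1 0 ≤ 2 * n := by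
    rw [e0, div_le_iff₀ (by positivity)]
    have : 3 / 4 ≤ (1 - ε) * (2 - ε) := by nlinarith
    nlinarith
  have q2 : 1 ≤ ε * rr ν n 1 1 := by
    rw [e1, ← mul_div_assoc, le_div_iff₀ (by positivity)]
    have : 2 * (ν + 2) * (1 + ε) ≤ (ν + 4) * (ν + 3) := by nlinarith
    nlinarith
  refine ⟨ν, a1, a2, loc_core (sum' ν n) (C := 2 * n) (ε := ε) (by positivity) s0 s2 ?_ ?_
    (fun k => ?_) ?_⟩
  · rw [t 0, abs_mul, abs_neg, abs_of_pos s0, abs_of_nonneg (by linarith)]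
    gcongr
  · rw [t 1, t 0]
    have := mul_le_mul q2 q0 zero_le_one (by linarith)
    nlinarith
  · rw [t (k + 2), abs_mul, abs_neg]
    refine mul_le_mul_of_nonneg_right ?_ (abs_nonneg _)
    have k0 : (0 : ℝ) ≤ k := Nat.cast_nonneg k
    have e : rr ν n 1 (k + 2) = (ν + 2 * k + 6) * (ν + 2 * k + 5) /
        ((k + 3) * (ν + k + 3) * ((2 * k + 3 + ε) * (2 * k + 2 + ε))) := by
      simp only [rr]
      push_cast
      rw [nn]
      congr 1 <;> ring
    rw [e, abs_of_pos (by positivity), div_le_iff₀ (by positivity)]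
    have u1 : ν + 2 * k + 6 ≤ n * (k + 3) := by nlinarith
    have u2 : ν + 2 * k + 5 ≤ 2 * (ν + k + 3) := by linarith
    have u3 : 1 ≤ (2 * k + 3 + ε) * (2 * k + 2 + ε) := by nlinarith
    calc (ν + 2 * k + 6) * (ν + 2 * k + 5) ≤ n * (k + 3) * (2 * (ν + k + 3)) := by gcongr
      _ = 2 * n * ((k + 3) * (ν + k + 3) * 1) := by ring
      _ ≤ _ := by gcongr
  · rw [hε]
    field_simp
    norm_num

end Pool.Agent.MP_cdfc49_an.BZ
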