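import Mathlib
import Pool.Agent.MP_cdfc49_an.BZ.Spec

set_option autoImplicit false

namespace Pool.Agent.MP_cdfc49_an.BZ

open Polynomial Filter Topology

theorem G_eq (ν : ℝ) (n : ℕ) : G ν n = fun z => S (cf ν n) ((z / 2) ^ 2) := by
  funext z
  simp only [G, S, pow_mul]

theorem ni_of_mem {ν : ℝ} {a : ℤ} (h1 : (a : ℝ) - 1 < ν) (h2 : ν < (a : ℝ)) : NI ν := by
  intro k hk
  rw [hk] at h1 h2
  have e1 : a - 1 < k := by exact_mod_cast h1
  have e2 : k < a := by exact_mod_cast h2
  omega

theorem gain_mono {ν : ℝ} {n n' : ℕ} (h : Gain ν n) (hn : n ≤ n') : Gain ν n' := by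
  obtain ⟨i, j, w, h1, h2, h3, h4⟩ := h
  exact ⟨i, j, w, h1, h2, h3.trans hn, h4⟩

theorem two_mul_eq {a : ℕ∞} {s : ℕ} : 2 * a = ((4 * s : ℕ) : ℕ∞) ↔ a = ((2 * s : ℕ) : ℕ∞) := by
  induction a using ENat.recTopCoe with
  | top =>
    constructor
    · intro h
      have : (2 : ℕ∞) * ⊤ = ⊤ := by simp
      rw [this] at h
      exact absurd h.symm (ENat.natCast_ne_top _)
    · intro h
      exact absurd h.symm (ENat.natCast_ne_top _)
  | coe a =>
    have : (2 : ℕ∞) * (a : ℕ∞) = ((2 * a : ℕ) : ℕ∞) := by push_cast; rfl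
    rw [this, Nat.cast_inj, Nat.cast_inj]
    omega

theorem good_iff (hs : SUM) (h1 : GEN1) (ht : TR) (n s : ℕ) (ν : ℝ) :
    Good n s ν ↔ zeroCount U0 (S (cf ν n)) = ((2 * s : ℕ) : ℕ∞) ∧
      ∀ t : ℝ, 0 < t → Fr ν n (-t) ≠ 0 := by
  obtain ⟨-, -, hd, -, hr, -⟩ := h1 _ (hs ν n)
  have key : ∀ y : ℝ, G ν n ((y : ℂ) * Complex.I) = (Fr ν n (-(y ^ 2 / 4)) : ℂ) := by
    intro y
    rw [G_eq, Fr, ← hr]
    simp only
    congr 1
    push_cast
    rw [div_pow, mul_pow, Complex.I_sq]
    ring
  unfold Good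
  rw [G_eq, ht _ hd, two_mul_eq, ← G_eq]
  refine and_congr Iff.rfl ⟨fun h t htp => ?_, fun h y hy => ?_⟩
  · have := h (2 * Real.sqrt t) (by positivity)
    rw [key, show (2 * Real.sqrt t) ^ 2 / 4 = t by
      rw [mul_pow, Real.sq_sqrt htp.le]; ring] at this
    exact_mod_cast this
  · rw [key]
    exact_mod_cast h _ (by positivity)

theorem main (hs : SUM) (h1 : GEN1) (hz : ZC) (ht : TR) (hu : UP) (g3 : G3) (g4 : G4) (gs : GS)
    (hp : SPC) (he : EXA) (hn : NEG) (hn1 : NEG1) (hl : LOC) : MAIN := by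
  intro n s hs1
  constructor
  · rintro ⟨ν, a1, a2, hg⟩
    by_contra hc
    have hn3 : 3 ≤ n := by omega
    have hs2 : 2 ≤ s := by omega
    have hs2' : (2 : ℝ) ≤ s := by exact_mod_cast hs2
    have hni : NI ν := ni_of_mem (a := (n : ℤ) - 2 * s) (by push_cast; linarith)
      (by push_cast; linarith)
    have hgain : Gain ν n := by
      by_cases c1 : ν < -1
      · exact gain_mono (g3 ν hni c1) hn3
      · have hn4 : 4 ≤ n := by
          by_contra hh
          have : n = 3 := by omega
          subst this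
          push_cast at a2
          linarith
        by_cases c2 : ν < 1
        · exact gain_mono (g4 ν hni c2) hn4
        · have c3 : (1 : ℝ) < (n : ℝ) - 2 * s := by linarith
          have c4 : 2 * s + 1 < n := by
            have : ((2 * s + 1 : ℕ) : ℝ) < n := by push_cast; linarith
            exact_mod_cast this
          obtain ⟨m, hm⟩ : ∃ m, n = m + 2 * s := ⟨n - 2 * s, by omega⟩
          have hm' : (n : ℝ) = m + 2 * s := by rw [hm]; push_cast; ring
          exact gain_mono (gs m ν (by omega) (by linarith) (by linarith)) (by omega)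
    have := (hu ν n (2 * s) hni (by push_cast; linarith)).2 hgain
    rw [((good_iff hs h1 ht n s ν).1 hg).1] at this
    exact lt_irrefl _ this
  · intro h
    by_cases c : n ≤ 2
    · obtain ⟨k, hk⟩ : ∃ k, 2 * s = k + n := ⟨2 * s - n, by omega⟩
      have hk' : 2 * (s : ℝ) = k + n := by exact_mod_cast hk
      obtain ⟨ν, b1, b2, b3⟩ := hp k
      refine ⟨ν, by linarith, by linarith, (good_iff hs h1 ht n s ν).2 ⟨?_, fun t htp => ?_⟩⟩
      · rw [hk]
        exact he k n ν c b1 b2 b3
      · by_cases k0 : 1 ≤ k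
        · exact hn k n ν c k0 (by rw [← hk]; exact even_two_mul s) b1 b2 t htp
        · have k1 : k = 0 := by omega
          have n2 : n = 2 := by omega
          subst k1 n2
          exact (hn1 2 ν le_rfl (by push_cast at b1 ⊢; linarith) (by push_cast at b2 ⊢; linarith)
            t htp).ne'
    · have s1 : s = 1 := by omega
      subst s1
      obtain ⟨ν, b1, b2, w, b3, b4⟩ := hl n (by omega)
      have hni : NI ν := ni_of_mem (a := (n : ℤ) - 2) (by push_cast; linarith)
        (by push_cast; linarith)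
      refine ⟨ν, by push_cast; linarith, by push_cast; linarith,
        (good_iff hs h1 ht n 1 ν).2 ⟨?_, fun t htp => (hn1 n ν (by omega) b1 b2 t htp).ne'⟩⟩
      obtain ⟨-, -, hd, -, -, hcj, -⟩ := h1 _ (hs ν n)
      refine le_antisymm (hu ν n (2 * 1) hni (by push_cast; linarith)).1 ?_
      have := hz.2.2.2 U0 (S (cf ν n)) w (starRingEnd ℂ w) hd (Or.inl b3)
        (Or.inl (by simpa using b3))
        (fun hh => b3 (by have := congrArg Complex.im hh; simp at this; linarith)) b4
        (by rw [hcj, b4, map_zero])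
      exact_mod_cast this

end Pool.Agent.MP_cdfc49_an.BZ
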