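import Mathlib
import Pool.Agent.MP_cdfc49_an.BZ.Main
import Pool.Agent.MP_cdfc49_an.BZ.G34
import Pool.Agent.MP_cdfc49_an.BZ.Gs
import Pool.Agent.MP_cdfc49_an.BZ.Chain

set_option autoImplicit false

namespace Pool.Agent.MP_cdfc49_an.BZ

theorem final : MAIN :=
  main sum' gen1 zc tr' up (g3 relT (wd relT) gen3 sim) (g4 relT (wd relT) gen3 sim osc) gs spc exa
    (neg' relT (wd relT) sim pinf) neg1 loc

end Pool.Agent.MP_cdfc49_an.BZ
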