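import Mathlib
import Pool.Agent.MP_cdfc49_an.BZ.Fin

set_option autoImplicit false

namespace Pool.Agent.MP_cdfc49_an.BZ

open Filter Topology Set

theorem all_rec (n : ℕ) :
    ∀ ν x : ℝ, Fr ν (n + 1) x = Fr (ν - 1) n x - x * Fr (ν + 1) n x := by
  induction n with
  | zero =>
    intro ν x
    have a := ((relT ν x).1 0).2
    have b := (relT ν x).2.2.1
    have c := (relT (ν + 1) x).2.2.2.1
    rw [add_sub_cancel_right] at c
    push_cast at a
    linear_combination (-1 : ℝ) * a - b + x * c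
  | succ n ih =>
    intro ν x
    have d1 := (relT ν x).1 (n + 1)
    have d2 := (relT (ν - 1) x).1 n
    have d3 := (relT (ν + 1) x).1 n
    have e : Fr ν (n + 1) = fun t => Fr (ν - 1) n t - t * Fr (ν + 1) n t := funext (ih ν)
    have u := d1.1
    rw [e] at u
    have v : Dr ν (n + 1) x = Dr (ν - 1) n x - (1 * Fr (ν + 1) n x + x * Dr (ν + 1) n x) :=
      u.unique (d2.1.sub ((hasDerivAt_id x).mul d3.1))
    have a := d1.2
    push_cast at a
    linear_combination (-1 : ℝ) * a + 2 * x * v + d2.2 - x * d3.2 + (ν - n - 1) * ih ν x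

theorem all_cont (n : ℕ) : Continuous fun p : ℝ × ℝ => Fr p.1 n p.2 := by
  induction n with
  | zero => exact cont
  | succ n ih =>
    simp only [all_rec]
    exact (ih.comp ((continuous_fst.sub continuous_const).prodMk continuous_snd)).sub
      (continuous_snd.mul (ih.comp ((continuous_fst.add continuous_const).prodMk continuous_snd)))

theorem all_cont1 (n : ℕ) (w : ℝ) : Continuous fun ν : ℝ => Fr ν n w :=
  (all_cont n).comp (continuous_id.prodMk continuous_const)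

theorem all_neg (k : ℕ) (hk : 1 ≤ k) :
    ∃ ν : ℝ, -(k : ℝ) - 1 < ν ∧ ν < -(k : ℝ) ∧ Gain ν 1 := by
  have k1 : (1 : ℝ) ≤ k := by exact_mod_cast hk
  have p0 : 0 < Fr (k : ℝ) 1 0 := by
    have a := (sys_Fr relT (wd relT) sim (k : ℝ)).zero 0
    have b := cf0_sign (t := (k : ℝ)) 0 (by push_cast; linarith)
    rw [(relT (k : ℝ) 0).2.1 0] at a
    rw [a]
    simp only [pow_zero, one_mul] at b
    push_cast
    exact mul_pos (by linarith) b
  have e1 : ∀ᶠ w in 𝓝[>] (0 : ℝ), 0 < Fr (k : ℝ) 1 w := mem_nhdsWithin_of_mem_nhds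
    (((sys_Fr relT (wd relT) sim (k : ℝ)).cont 1).continuousAt.eventually (lt_mem_nhds p0))
  obtain ⟨w, w1, w2⟩ := (e1.and (Ioo_mem_nhdsGT (show (0 : ℝ) < 1 / 4 by norm_num))).exists
  have p1 : 0 < (-1) ^ k * Fr (-(k : ℝ)) 1 w := by
    obtain ⟨j, rfl⟩ : ∃ j, k = j + 1 := ⟨k - 1, by omega⟩
    have a := all_rec 0 (-((j + 1 : ℕ) : ℝ)) w
    have b := all_rec 0 ((j + 1 : ℕ) : ℝ) w
    have c := (posk (j + 2)).2 w
    have d := (posk j).2 w
    rw [show -((j + 1 : ℕ) : ℝ) - 1 = -((j + 2 : ℕ) : ℝ) by push_cast; ring,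
      show -((j + 1 : ℕ) : ℝ) + 1 = -(j : ℝ) by push_cast; ring, c, d] at a
    rw [show ((j + 1 : ℕ) : ℝ) - 1 = (j : ℝ) by push_cast; ring,
      show ((j + 1 : ℕ) : ℝ) + 1 = ((j + 2 : ℕ) : ℝ) by push_cast; ring] at b
    have e : Fr (-((j + 1 : ℕ) : ℝ)) 1 w = (-w) ^ (j + 1) * Fr ((j + 1 : ℕ) : ℝ) 1 w := by
      rw [zero_add] at a b
      rw [a, b]
      ring
    rw [e, ← mul_assoc, ← mul_pow, neg_mul_neg, one_mul]
    exact mul_pos (pow_pos w2.1 _) w1
  have e2 : ∀ᶠ ν in 𝓝[<] (-(k : ℝ)), 0 < (-1) ^ k * Fr ν 1 w := mem_nhdsWithin_of_mem_nhds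
    ((continuous_const.mul (all_cont1 1 w)).continuousAt.eventually (lt_mem_nhds p1))
  obtain ⟨ν, n1, n2⟩ :=
    (e2.and (Ioo_mem_nhdsLT (show -(k : ℝ) - 1 < -(k : ℝ) by linarith))).exists
  have S := sys_Fr relT (wd relT) sim ν
  have s0 : 0 < (-1) ^ k * Fr ν 0 0 := by
    rw [(relT ν 0).2.1 0]
    exact pinf.2 k ν n2.1 n2.2
  have s1 : (-1) ^ k * Fr ν 1 0 < 0 := by
    have a := S.zero 0
    push_cast at a
    rw [a]
    have := mul_pos s0 (show 0 < -ν by linarith [n2.2])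
    linarith
  obtain ⟨z, z1, z2⟩ := intermediate_value_Ioo w2.1.le
    (continuous_const.mul (S.cont 1)).continuousOn (show (0 : ℝ) ∈ Ioo _ _ from ⟨s1, n1⟩)
  have z3 : Fr ν 1 z = 0 := (mul_eq_zero.1 z2).resolve_left (by positivity)
  have q : w ≤ ν ^ 2 / 4 := by nlinarith [n2.2, w2.2]
  refine ⟨ν, n2.1, n2.2, 0, 1, w, by push_cast; linarith [n2.2], one_pos, le_rfl, w2.1,
    fun x hx e => ?_, ?_⟩
  · rcases hx.1.eq_or_lt with c | c
    · rw [← c] at e
      rw [e, mul_zero] at s0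
      exact lt_irrefl _ s0
    · have := (rt_prod (wd relT) sim ν).injOn ⟨c, hx.2.trans q⟩ ⟨z1.1, z1.2.le.trans q⟩
        (by simp only [e, z3, mul_zero, zero_mul])
      rw [this] at e
      exact sim ν z z1.1.ne' e z3
  · have a := mul_pos (neg_pos.2 s1) n1
    have b : ((-1 : ℝ) ^ k) * (-1) ^ k = 1 := by rw [← mul_pow]; simp
    have c : -((-1) ^ k * Fr ν 1 0) * ((-1) ^ k * Fr ν 1 w) =
        -(((-1 : ℝ) ^ k * (-1) ^ k) * (Fr ν 1 0 * Fr ν 1 w)) := by ring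
    rw [c, b] at a
    linarith

theorem all_prod (m l : ℕ) (h : l ≤ m) : 0 < ∏ j ∈ Finset.range l, ((m : ℝ) - (j : ℝ)) :=
  Finset.prod_pos fun j hj => by
    have : ((j + 1 : ℕ) : ℝ) ≤ m := by exact_mod_cast (Finset.mem_range.1 hj).trans_le h
    push_cast at this
    linarith

theorem all_one (m : ℕ) : ∃ ν : ℝ, (m : ℝ) - 1 < ν ∧ ν < (m : ℝ) ∧ Gain ν (m + 2) := by
  have m0 : (0 : ℝ) ≤ m := Nat.cast_nonneg m
  have z2 : ∀ ν : ℝ, Fr ν (m + 2) 0 = (ν - m - 1) * (ν - m) * Fr ν m 0 := by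
    intro ν
    have S := sys_Fr relT (wd relT) sim ν
    rw [S.zero (m + 1), S.zero m]
    push_cast
    ring
  have p0 : 0 < Fr (m : ℝ) m 0 := by
    rw [(relT (m : ℝ) 0).2.1 m, cf]
    have a := all_prod m m le_rfl
    have b := Real.Gamma_pos_of_pos (s := (m : ℝ) + 1) (by linarith)
    simp only [pow_zero, Nat.cast_zero, mul_zero, add_zero, one_mul, Nat.factorial_zero,
      Nat.cast_one]
    positivity
  have d0 : 0 < -Dr (m : ℝ) (m + 2) 0 := by
    have a := (gen1 _ (gen1 _ (sum' (m : ℝ) (m + 2))).1).2.2.2.2.2.2.2.2.1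
    have b := all_prod (m + 2) (m + 2) le_rfl
    have c := Real.Gamma_pos_of_pos (s := (m : ℝ) + 1 + 1) (by linarith)
    rw [Dr, a, dc, cf]
    push_cast at b ⊢
    simp only [zero_add, pow_one, mul_one, one_mul, Nat.factorial_one, Nat.cast_one, neg_mul,
      neg_div, neg_neg]
    positivity
  have e1 := (aux_deriv ((relT (m : ℝ) 0).1 (m + 2)).1.neg (by simp [z2]) d0).1
  have e2 := (all_cont m).continuousAt.eventually
    (lt_mem_nhds (show 0 < (fun p : ℝ × ℝ => Fr p.1 m p.2) ((m : ℝ), (0 : ℝ)) from p0))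
  rw [nhds_prod_eq, eventually_prod_iff] at e2
  obtain ⟨pa, ha, pb, hb, hab⟩ := e2
  obtain ⟨δ, hδ, hb2⟩ := Metric.eventually_nhds_iff.1 hb
  obtain ⟨w, w1, w2⟩ := (e1.and (Ioo_mem_nhdsGT hδ)).exists
  have w3 : Fr (m : ℝ) (m + 2) w < 0 := neg_pos.1 w1
  have e3 : ∀ᶠ ν in 𝓝[<] (m : ℝ), pa ν ∧ Fr ν (m + 2) w < 0 := mem_nhdsWithin_of_mem_nhds
    (ha.and ((all_cont1 (m + 2) w).continuousAt.eventually (gt_mem_nhds w3)))
  obtain ⟨ν, n1, n2⟩ :=
    (e3.and (Ioo_mem_nhdsLT (show (m : ℝ) - 1 < (m : ℝ) by linarith))).exists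
  have pos : ∀ x ∈ Icc (0 : ℝ) w, 0 < Fr ν m x := fun x hx => hab n1.1 (hb2 (by
    rw [Real.dist_eq, sub_zero, abs_of_nonneg hx.1]
    exact hx.2.trans_lt w2.2))
  refine ⟨ν, n2.1, n2.2, m, m + 2, w, n2.2, by omega, le_rfl, w2.1,
    fun x hx => (pos x hx).ne', mul_neg_of_pos_of_neg ?_ n1.2⟩
  rw [z2]
  exact mul_pos (mul_pos_of_neg_of_neg (by linarith [n2.2]) (by linarith [n2.2]))
    (pos 0 ⟨le_rfl, w2.1.le⟩)

theorem all_inv (k : ℕ) : ∀ ν : ℝ, -(k : ℝ) - 1 < ν → ν < -(k : ℝ) → Inv (cf ν 0) k := by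
  induction k with
  | zero => intro ν a _; exact base ν (by simpa using a)
  | succ k ih =>
    intro ν a b
    have hn : NI ν := ni_of_mem (a := -((k + 1 : ℕ) : ℤ)) (by exact_mod_cast a)
      (by exact_mod_cast b)
    push_cast at a b
    rw [cf_down]
    refine step _ k 1 (ν + 1) (ih (ν + 1) (by linarith) (by linarith)) one_pos
      (by linarith [(Nat.cast_nonneg k : (0 : ℝ) ≤ k)])
      (fun m e => hn (-m - 1) (by push_cast; linarith)) fun x hx e => ?_
    rw [← cf_down] at e ⊢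
    have d : Dr ν 0 x = -Fr (ν + 1) 0 x := by simpa using (relT (ν + 1) x).2.2.2.1
    have := mul_self_pos.2 (exa_dr hx e)
    change Fr (ν + 1) 0 x * Dr ν 0 x < 0
    rw [d] at this ⊢
    linarith

theorem all_bad {n s : ℕ} {ν : ℝ} (a : (n : ℝ) - 2 * (s : ℝ) - 1 < ν)
    (b : ν < (n : ℝ) - 2 * (s : ℝ)) (g : Gain ν n) : ¬ Good n s ν := by
  intro hg
  have hni : NI ν := ni_of_mem (a := (n : ℤ) - 2 * s) (by push_cast; linarith)
    (by push_cast; linarith)
  have := (up ν n (2 * s) hni (by push_cast; linarith)).2 g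
  rw [((good_iff sum' gen1 tr' n s ν).1 hg).1] at this
  exact lt_irrefl _ this

theorem final_all (n s : ℕ) (hs : 1 ≤ s) :
    (∀ ν : ℝ, (n : ℝ) - 2 * (s : ℝ) - 1 < ν → ν < (n : ℝ) - 2 * (s : ℝ) → Good n s ν) ↔
      n = 0 := by
  constructor
  · intro h
    by_contra hn
    have c := (final n s hs).1 ⟨(n : ℝ) - 2 * (s : ℝ) - 1 / 2, by linarith, by linarith,
      h _ (by linarith) (by linarith)⟩
    by_cases c1 : n < 2 * s
    · have n2 : n ≤ 2 := by omega
      obtain ⟨k, hk⟩ : ∃ k, 2 * s = k + n := ⟨2 * s - n, by omega⟩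
      have hk' : 2 * (s : ℝ) = k + n := by exact_mod_cast hk
      obtain ⟨ν, b1, b2, g⟩ := all_neg k (by omega)
      exact all_bad (by linarith) (by linarith) (gain_mono g (by omega))
        (h ν (by linarith) (by linarith))
    · have s1 : s = 1 := by omega
      subst s1
      obtain ⟨m, rfl⟩ : ∃ m, n = m + 2 := ⟨n - 2, by omega⟩
      obtain ⟨ν, b1, b2, g⟩ := all_one m
      exact all_bad (by push_cast; linarith) (by push_cast; linarith) g
        (h ν (by push_cast; linarith) (by push_cast; linarith))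
  · rintro rfl ν a b
    have a' : -((2 * s : ℕ) : ℝ) - 1 < ν := by push_cast at a ⊢; linarith
    have b' : ν < -((2 * s : ℕ) : ℝ) := by push_cast at b ⊢; linarith
    exact (good_iff sum' gen1 tr' 0 s ν).2
      ⟨fin' _ _ (all_inv (2 * s) ν a' b') fun x hx e => exa_dr hx e,
        neg' relT (wd relT) sim pinf (2 * s) 0 ν (by omega) (by omega) (even_two_mul s) a' b'⟩

end Pool.Agent.MP_cdfc49_an.BZ
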