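import Mathlib
import Pool.Agent.MP_cdfc49_an.BZ.Chain

set_option autoImplicit false

namespace Pool.Agent.MP_cdfc49_an.BZ

open Filter Topology Set Polynomial

theorem farB (b a R T : ℝ) (P M : ℕ) (p : ℝ[X]) (hb : 0 < b) (hR : 0 ≤ R) (hT : 0 ≤ T)
    (hp : p ≠ 0) (hs : ∀ x : ℝ, 2 * (R + T) < x → p.eval x = 0 → (derivative p).eval x ≠ 0)
    (hP : p.natDegree ≤ pc p + P) (hU : ∀ w ∈ U0, ev p w = 0 → ‖w‖ ≤ R) (hM : M ≤ pcI p T)
    (hbig : 16 * b * (P : ℝ) + 4 * |a| < b * (M : ℝ)) :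
    (∀ w ∈ U0, 2 * (R + T) < ‖w‖ → ev (op b a p) w ≠ 0) ∧
    (∀ x : ℝ, 2 * (R + T) < x → (op b a p).eval x = 0 →
      p.eval x * (derivative (op b a p)).eval x < 0) := by
  classical
  set S2 : ℂ → Prop := fun ρ => ρ.im = 0 ∧ 0 < ρ.re with hS2
  set S1 : ℂ → Prop := fun ρ => ρ.im = 0 ∧ 0 < ρ.re ∧ ρ.re ≤ T with hS1
  have c1 : (M : ℝ) ≤ ((cr p).filter S1).card := by
    exact_mod_cast hM.trans (cr_le hp _ S1 fun x hx => by simpa [hS1] using hx)
  have c2 : (((cr p).filter fun ρ => ¬ S2 ρ).card : ℝ) ≤ P := by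
    have t : ((cr p).filter S2).card + ((cr p).filter fun w => ¬ S2 w).card = p.natDegree := by
      rw [← Multiset.card_add, Multiset.filter_add_not, cr_card]
    have := cr_le hp (fun x => 0 < x) S2 fun x hx => by simpa [hS2] using hx
    have u : pc p ≤ ((cr p).filter S2).card := this
    exact_mod_cast (show ((cr p).filter fun w => ¬ S2 w).card ≤ P by omega)
  have oth : ∀ ρ ∈ cr p, ¬ S2 ρ → ‖ρ‖ ≤ R := by
    intro ρ h1 h2
    by_cases c : ρ ∈ U0
    · exact hU ρ c ((cr_mem hp ρ).1 h1)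
    · simp only [U0, mem_ofPred_eq, not_or, not_not, not_lt] at c
      have : ρ = 0 := Complex.ext (le_antisymm (not_lt.1 fun d => h2 ⟨c.1, d⟩) c.2) c.1
      simpa [this] using hR
  have bP : 0 ≤ b * P := by positivity
  have a0 := abs_nonneg a
  have a1 := neg_abs_le a
  have inv2 : ∀ w ρ : ℂ, 2 * (R + T) < ‖w‖ → ‖ρ‖ ≤ R → ‖w‖ * ‖(w - ρ)⁻¹‖ ≤ 2 := by
    intro w ρ h1 h2
    have := norm_sub_norm_le w ρ
    rw [norm_inv, ← div_eq_mul_inv, div_le_iff₀ (by linarith)]
    linarith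
  have D : ∀ w : ℂ, 2 * (R + T) < ‖w‖ → w ∉ cr p → 0 < b * (((‖w‖ ^ 2 : ℝ) : ℂ) *
      ((cr p).map fun ρ => (w - ρ)⁻¹ * (starRingEnd ℂ w - ρ)⁻¹).sum).re + a := by
    intro w h1 h2
    have := far_sum S1 S2
      (fun ρ => ((‖w‖ ^ 2 : ℝ) : ℂ) * ((w - ρ)⁻¹ * (starRingEnd ℂ w - ρ)⁻¹)) (4 / 9) 4 (cr p)
      fun ρ hρ => by
        have k : ρ.im = 0 → (((‖w‖ ^ 2 : ℝ) : ℂ) * ((w - ρ)⁻¹ * (starRingEnd ℂ w - ρ)⁻¹)).re =
            ‖w‖ ^ 2 / ‖w - ρ‖ ^ 2 := by
          intro i
          rw [← Complex.conj_eq_iff_im] at i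
          rw [show starRingEnd ℂ w - ρ = starRingEnd ℂ (w - ρ) by rw [map_sub, i], ← mul_inv,
            Complex.mul_conj, Complex.normSq_eq_norm_sq, ← Complex.ofReal_inv,
            ← Complex.ofReal_mul, Complex.ofReal_re, div_eq_mul_inv]
        refine ⟨fun s => ⟨⟨s.1, s.2.1⟩, ?_⟩, fun s => by rw [k s.1]; positivity, fun s => ?_⟩
        · have n0 : 0 < ‖w - ρ‖ := norm_pos_iff.2 (sub_ne_zero.2 fun e => h2 (e ▸ hρ))
          have n1 : ‖ρ‖ ≤ T := by
            rw [← Complex.abs_re_eq_norm.2 s.1, abs_of_pos s.2.1]; exact s.2.2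
          have n2 := norm_sub_le w ρ
          rw [k s.1, le_div_iff₀ (by positivity)]
          nlinarith
        · refine le_trans ?_ (neg_abs_le _)
          refine neg_le_neg ((Complex.abs_re_le_norm _).trans ?_)
          have k1 := inv2 w ρ h1 (oth ρ hρ s)
          have k2 := inv2 (starRingEnd ℂ w) ρ (by simpa using h1) (oth ρ hρ s)
          rw [Complex.norm_conj] at k2
          rw [norm_mul, norm_mul, Complex.norm_real, Real.norm_of_nonneg (by positivity)]
          have := mul_le_mul k1 k2 (by positivity) (by norm_num)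
          linarith
    rw [Multiset.sum_map_mul_left] at this
    nlinarith [mul_le_mul_of_nonneg_left this hb.le, mul_le_mul_of_nonneg_left c1 hb.le,
      mul_le_mul_of_nonneg_left c2 hb.le]
  have L : ∀ w : ℂ, w ∉ cr p →
      ev (derivative p) w = ev p w * ((cr p).map fun ρ => (w - ρ)⁻¹).sum ∧
      ev (derivative (derivative p)) w = ev p w * (((cr p).map fun ρ => (w - ρ)⁻¹).sum ^ 2 -
        ((cr p).map fun ρ => (w - ρ)⁻¹ * (w - ρ)⁻¹).sum) := by
    intro w hw
    have := far_log (p.map (algebraMap ℝ ℂ)).leadingCoeff w (cr p) hw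
    rw [← cr_fac] at this
    simpa only [ev_map, ← derivative_map] using this
  have Z : ∀ w : ℂ, w ∉ cr p → ev (op b a p) w = 0 →
      b * (w * ((cr p).map fun ρ => (w - ρ)⁻¹).sum) + a = 0 := by
    intro w hw e
    have e2 : ev (op b a p) w = b * (w * ev (derivative p) w) + a * ev p w := by simp [ev, op]
    rw [e2, (L w hw).1] at e
    refine (mul_eq_zero.1 (show ev p w * _ = 0 by linear_combination e)).resolve_left ?_
    exact fun c => hw ((cr_mem hp w).2 c)
  constructor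
  · intro w w1 w2 e
    have nm : w ∉ cr p := fun c => by linarith [hU w w1 ((cr_mem hp w).1 c)]
    by_cases c : w.im = 0
    · have x0 : w.re < 0 := w1.resolve_left (not_not.2 c)
      have nw : ‖w‖ = -w.re := by rw [← Complex.abs_re_eq_norm.2 c, abs_of_neg x0]
      have := far_sum S1 S2 (fun ρ => w * (w - ρ)⁻¹) (2 / 3) 2 (cr p) fun ρ hρ => by
        have k : ρ.im = 0 → (w * (w - ρ)⁻¹).re = -w.re / (-w.re + ρ.re) := by
          intro i
          have e1 : w = (w.re : ℂ) := Complex.ext (by simp) (by simp [c])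
          have e2 : ρ = (ρ.re : ℂ) := Complex.ext (by simp) (by simp [i])
          rw [show w * (w - ρ)⁻¹ = ((w.re * (w.re - ρ.re)⁻¹ : ℝ) : ℂ) by
            push_cast; rw [← e1, ← e2], Complex.ofReal_re,
            show -w.re + ρ.re = -(w.re - ρ.re) by ring, neg_div_neg_eq, div_eq_mul_inv]
        refine ⟨fun s => ⟨⟨s.1, s.2.1⟩, ?_⟩, fun s => ?_, fun s => ?_⟩
        · rw [k s.1, le_div_iff₀ (by linarith [s.2.1])]
          linarith [s.2.2]
        · rw [k s.1]
          exact div_nonneg (by linarith) (by linarith [s.2])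
        · refine le_trans ?_ (neg_abs_le _)
          refine neg_le_neg ((Complex.abs_re_le_norm _).trans ?_)
          rw [norm_mul]
          exact inv2 w ρ w2 (oth ρ hρ s)
      rw [Multiset.sum_map_mul_left] at this
      have z := congrArg Complex.re (Z w nm e)
      rw [Complex.add_re, Complex.re_ofReal_mul, Complex.ofReal_re, Complex.zero_re] at z
      nlinarith [mul_le_mul_of_nonneg_left this hb.le, mul_le_mul_of_nonneg_left c1 hb.le,
        mul_le_mul_of_nonneg_left c2 hb.le]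
    · have nm2 : starRingEnd ℂ w ∉ cr p := fun d => nm (by
        rw [cr_mem hp] at d ⊢
        rwa [(gen3.2.1 p).2.2, map_eq_zero] at d)
      have z1 := Z w nm e
      have z2 := Z _ nm2 (by rw [(gen3.2.1 _).2.2, e, map_zero])
      have df := far_diff w _ (cr p) nm nm2
      have ne : starRingEnd ℂ w - w ≠ 0 := fun d => c (Complex.conj_eq_iff_im.1 (sub_eq_zero.1 d))
      have nn : ((‖w‖ ^ 2 : ℝ) : ℂ) = w * starRingEnd ℂ w := by
        rw [Complex.mul_conj, Complex.normSq_eq_norm_sq]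
      have z : (b : ℂ) * (((‖w‖ ^ 2 : ℝ) : ℂ) *
          ((cr p).map fun ρ => (w - ρ)⁻¹ * (starRingEnd ℂ w - ρ)⁻¹).sum) + a = 0 := by
        refine (mul_eq_zero.1 ?_).resolve_left ne
        rw [nn]
        linear_combination starRingEnd ℂ w * z1 - w * z2 - b * w * starRingEnd ℂ w * df
      have z' := congrArg Complex.re z
      rw [Complex.add_re, Complex.re_ofReal_mul, Complex.ofReal_re, Complex.zero_re] at z'
      linarith [D w w2 nm]
  · intro x x1 e
    have x0 : 0 < x := by linarith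
    have px : p.eval x ≠ 0 := by
      intro c
      rw [op_eval, c, mul_zero, add_zero] at e
      exact mul_ne_zero hb.ne' (mul_ne_zero x0.ne' (hs x x1 c)) e
    have nm : (x : ℂ) ∉ cr p := by
      rw [cr_mem hp, ev_real, Complex.ofReal_eq_zero]; exact px
    have nx : ‖(x : ℂ)‖ = x := by rw [Complex.norm_real, Real.norm_of_nonneg x0.le]
    have d := D x (by rwa [nx]) nm
    rw [Complex.conj_ofReal, nx] at d
    have z := Z x nm (by rw [ev_real, e, Complex.ofReal_zero])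
    obtain ⟨l1, l2⟩ := L x nm
    have e2 : ev (derivative (op b a p)) x = b * (ev (derivative p) x +
        x * ev (derivative (derivative p)) x) + a * ev (derivative p) x := by simp [ev, op]
    have k : (x : ℂ) * (ev p x * ev (derivative (op b a p)) x) = -(ev p x) ^ 2 *
        (b * (((x ^ 2 : ℝ) : ℂ) * 
          ((cr p).map fun ρ : ℂ => ((x : ℂ) - ρ)⁻¹ * ((x : ℂ) - ρ)⁻¹).sum) + a) := by
      rw [e2, l1, l2]
      push_cast
      linear_combination (ev p x ^ 2 * (1 + x * ((cr p).map fun ρ => ((x : ℂ) - ρ)⁻¹).sum)) * z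
    rw [ev_real, ev_real] at k
    have k2 := congrArg Complex.re k
    rw [← Complex.ofReal_mul, ← Complex.ofReal_mul, Complex.ofReal_re, ← Complex.ofReal_pow,
      ← Complex.ofReal_neg, Complex.re_ofReal_mul, Complex.add_re, Complex.re_ofReal_mul,
      Complex.ofReal_re] at k2
    have k3 := mul_pos (show 0 < p.eval x ^ 2 by positivity) d
    by_contra hc
    have := mul_nonneg x0.le (not_lt.1 hc)
    linarith

theorem step_nearB {c g : ℕ → ℝ} (hc : Adm c) (hg : Adm g) {β : ℝ} (hβ : 0 ≤ β) (R : ℝ)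
    (h : ∀ x ∈ Icc β R, Sr g x = 0 → Sr c x * Sr (dc g) x < 0) :
    ∀ᶠ N in atTop, ∀ x ∈ Icc β R, (tr g N).eval x = 0 →
      (tr c N).eval x * (derivative (tr g N)).eval x < 0 := by
  by_cases hR : β ≤ R
  swap
  · exact Eventually.of_forall fun N x hx => absurd (hx.1.trans hx.2) hR
  have c1 := Sr_cont hc
  have c2 := Sr_cont hg
  have c3 := Sr_cont (adm_dc hg)
  obtain ⟨u, u1, u2⟩ := (isCompact_Icc (a := β) (b := R)).exists_isMinOn ⟨β, le_rfl, hR⟩
    (f := fun x => max |Sr g x| (-(Sr c x * Sr (dc g) x)))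
    (c2.abs.max (c1.mul c3).neg).continuousOn
  obtain ⟨B, hB⟩ := (isCompact_Icc (a := β) (b := R)).exists_bound_of_continuousOn
    (f := fun x => |Sr c x| + |Sr (dc g) x| + 1) ((c1.abs.add c3.abs).add
      continuous_const).continuousOn
  set δ := max |Sr g u| (-(Sr c u * Sr (dc g) u)) with hδ
  have δ0 : 0 < δ := by
    by_cases e : Sr g u = 0
    · exact lt_max_of_lt_right (neg_pos.2 (h u u1 e))
    · exact lt_max_of_lt_left (abs_pos.2 e)
  have B1 : ∀ x ∈ Icc β R, |Sr c x| + |Sr (dc g) x| + 1 ≤ B := fun x hx =>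
    (le_abs_self _).trans (hB x hx)
  have B0 : 1 ≤ B := le_trans (by linarith [abs_nonneg (Sr c β), abs_nonneg (Sr (dc g) β)])
    (B1 β ⟨le_rfl, hR⟩)
  set ε := min 1 (δ / (2 * B)) with hε
  have ε0 : 0 < ε := lt_min one_pos (by positivity)
  have ε1 : ε ≤ 1 := min_le_left _ _
  have ε2 : ε * B ≤ δ / 2 := by
    have := mul_le_mul_of_nonneg_right (min_le_right 1 (δ / (2 * B))) (show 0 ≤ B by linarith)
    rwa [show δ / (2 * B) * B = δ / 2 by field_simp] at this
  filter_upwards [gen4 c hc R ε ε0, gen4 g hg R ε ε0] with N a b x hx e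
  have xR : |x| ≤ R := by rw [abs_of_nonneg (hβ.trans hx.1)]; exact hx.2
  have a1 := (a x xR).1
  obtain ⟨b1, b2⟩ := b x xR
  rw [e, zero_sub, abs_neg] at b1
  have m : δ ≤ max |Sr g x| (-(Sr c x * Sr (dc g) x)) := u2 hx
  have m2 := (le_max_iff.1 m).resolve_left (by nlinarith)
  have k : |(tr c N).eval x * (derivative (tr g N)).eval x - Sr c x * Sr (dc g) x| ≤ ε * B := by
    rw [show (tr c N).eval x * (derivative (tr g N)).eval x - Sr c x * Sr (dc g) x =
      ((tr c N).eval x - Sr c x) * Sr (dc g) x + Sr c x * ((derivative (tr g N)).eval x -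
        Sr (dc g) x) + ((tr c N).eval x - Sr c x) * ((derivative (tr g N)).eval x -
        Sr (dc g) x) by ring]
    refine (abs_add_three _ _ _).trans ?_
    rw [abs_mul, abs_mul, abs_mul]
    have k1 := mul_le_mul_of_nonneg_right a1 (abs_nonneg (Sr (dc g) x))
    have k2 := mul_le_mul_of_nonneg_left b2 (abs_nonneg (Sr c x))
    have k3 := mul_le_mul a1 (b2.trans ε1) (abs_nonneg _) ε0.le
    have k4 := mul_le_mul_of_nonneg_left (B1 x hx) ε0.le
    linarith
  linarith [(abs_le.1 k).2]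

/-- Number of distinct roots beyond `β`. -/
noncomputable def pb (p : ℝ[X]) (β : ℝ) : ℕ := (p.roots.toFinset.filter fun x => β < x).card

/-- The plane without the ray `[β, ∞)`. -/
def UB (β : ℝ) : Set ℂ := {w : ℂ | w.im ≠ 0 ∨ w.re < β}

theorem pb_le {p : ℝ[X]} {β : ℝ} (hβ : 0 ≤ β) : pb p β ≤ pc p :=
  Finset.card_le_card fun x hx => by
    rw [Finset.mem_filter] at hx ⊢
    exact ⟨hx.1, hβ.trans_lt hx.2⟩

theorem pb_insert (p : ℝ[X]) (β : ℝ) :
    (insert β (p.roots.toFinset.filter fun x => β < x)).card = pb p β + 1 :=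
  Finset.card_insert_of_notMem (by simp)

theorem rolB {b a β : ℝ} {p : ℝ[X]} (hb : 0 < b) (hβ : 0 < β) (hr : op b a p ≠ 0) :
    pb p β ≤ pb (op b a p) β + 1 ∧
    (0 < p.eval β * (op b a p).eval β → pb p β ≤ pb (op b a p) β) := by
  have hp := op_ne hr
  refine ⟨?_, fun h => ?_⟩
  · refine Finset.card_le_of_interleaved fun x hx y hy hxy _ => ?_
    rw [mem_rt hp] at hx hy
    obtain ⟨z, z1, -, z3⟩ := rol_step (a := a) hb hxy hy.1 (Or.inl ⟨hβ.trans hx.2, hx.1⟩)
    exact ⟨z, (mem_rt hr _ z).2 ⟨z1, hx.2.trans z3.1⟩, z3⟩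
  · rw [← Nat.add_le_add_iff_right (n := 1), ← pb_insert]
    refine Finset.card_le_of_interleaved fun x hx y hy hxy _ => ?_
    rw [Finset.mem_insert, mem_rt hp] at hx hy
    have x0 : β ≤ x := hx.elim (fun h => h.ge) fun h => h.2.le
    have hy' := hy.resolve_left (x0.trans_lt hxy).ne'
    rcases hx with c | c
    · subst c
      by_contra hc
      have nz : ∀ t ∈ Ioo x y, (op b a p).eval t ≠ 0 := fun t ht e =>
        hc ⟨t, (mem_rt hr _ t).2 ⟨e, ht.1⟩, ht⟩
      obtain ⟨u, u1, u2⟩ := exists_hasDerivAt_eq_slope (fun t : ℝ => t ^ (a / b) * p.eval t)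
        (fun t => t ^ (a / b) / (b * t) * (op b a p).eval t) hxy
        (fun t ht => (rol_deriv a p hb (hβ.trans_le ht.1)).continuousAt.continuousWithinAt)
        fun t ht => rol_deriv a p hb (hβ.trans ht.1)
      have k := aux_pos (f := fun t => p.eval x * (op b a p).eval t)
        (continuous_const.mul (op b a p).continuous) (a := x) (b := u)
        (fun t ht => mul_ne_zero (left_ne_zero_of_mul h.ne') (ht.1.eq_or_lt.elim
          (fun e => e ▸ right_ne_zero_of_mul h.ne') fun e => nz t ⟨e, ht.2.trans_lt u1.2⟩)) h u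
        ⟨u1.1.le, le_rfl⟩
      have u0 : 0 < u := hβ.trans u1.1
      have k1 := Real.rpow_pos_of_pos u0 (a / b)
      have k2 := Real.rpow_pos_of_pos hβ (a / b)
      have k3 := mul_pos (mul_pos (show 0 < u ^ (a / b) / (b * u) by positivity) k)
        (sub_pos.2 hxy)
      have k4 := mul_pos k2 (mul_self_pos.2 (left_ne_zero_of_mul h.ne'))
      rw [hy'.1, eq_div_iff (sub_pos.2 hxy).ne'] at u2
      have k5 := congrArg (p.eval x * ·) u2
      linarith
    · obtain ⟨z, z1, -, z3⟩ := rol_step (a := a) hb hxy hy'.1 (Or.inl ⟨hβ.trans c.2, c.1⟩)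
      exact ⟨z, (mem_rt hr _ z).2 ⟨z1, c.2.trans z3.1⟩, z3⟩

theorem cntB {b a β : ℝ} {p : ℝ[X]} (hp : p ≠ 0) (d0 : 0 < p.natDegree)
    (hd : 0 < b * (p.natDegree : ℝ) + a)
    (h : ∀ x : ℝ, β < x → (op b a p).eval x = 0 →
      p.eval x * (derivative (op b a p)).eval x < 0) :
    pb (op b a p) β ≤ pb p β ∧
    (p.eval β * (op b a p).eval β < 0 → pb (op b a p) β + 1 ≤ pb p β) := by
  set r := op b a p with hr
  have lc : r.coeff p.natDegree = (b * p.natDegree + a) * p.leadingCoeff := op_coeff _ _ _ _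
  have l0 := leadingCoeff_ne_zero.2 hp
  have hr0 : r ≠ 0 := by
    intro e
    rw [e, coeff_zero] at lc
    exact mul_ne_zero hd.ne' l0 lc.symm
  have dg : r.natDegree = p.natDegree := le_antisymm
    (natDegree_le_iff_coeff_eq_zero.2 fun m hm => by
      rw [hr, op_coeff, coeff_eq_zero_of_natDegree_lt hm, mul_zero])
    (le_natDegree_of_ne_zero (lc ▸ mul_ne_zero hd.ne' l0))
  have t := (p * r).tendsto_atTop_of_leadingCoeff_nonneg
    (natDegree_pos_iff_degree_pos.1 (by rw [natDegree_mul hp hr0]; omega)) (by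
      rw [leadingCoeff_mul, show r.leadingCoeff = r.coeff p.natDegree by rw [← dg]; rfl, lc]
      nlinarith [mul_self_nonneg p.leadingCoeff])
  have key : ∀ s : Finset ℝ,
      (∀ x ∈ s, (x = β ∧ p.eval β * r.eval β < 0) ∨ (r.eval x = 0 ∧ β < x)) →
      (∀ x, r.eval x = 0 → β < x → x ∈ s) → s.card ≤ pb p β := by
    intro s s1 s2
    obtain ⟨M, hM⟩ := s.finite_toSet.bddAbove
    obtain ⟨B, B1, B2⟩ := ((t.eventually_gt_atTop 0).and (eventually_gt_atTop M)).exists
    rw [eval_mul] at B1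
    have Bs : ∀ x ∈ s, x < B := fun x hx => (hM hx).trans_lt B2
    rw [← Nat.add_le_add_iff_right (n := 1),
      ← Finset.card_insert_of_notMem fun c => lt_irrefl _ (Bs B c)]
    refine Finset.card_le_of_interleaved fun x hx y hy hxy hz => ?_
    have xs := s1 x ((Finset.mem_insert.1 hx).resolve_left fun e => by
      rcases Finset.mem_insert.1 hy with c | c
      · linarith
      · linarith [Bs y c])
    have x0 : β ≤ x := xs.elim (fun h => h.1.ge) fun h => h.2.le
    have nz : ∀ u ∈ Ioo x y, r.eval u ≠ 0 := fun u hu e =>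
      hz u (Finset.mem_insert_of_mem (s2 u e (x0.trans_lt hu.1))) hu
    have same : ∀ u ∈ Ioo x y, ∀ v ∈ Ioo x y, 0 < r.eval u * r.eval v := by
      have k : ∀ u ∈ Ioo x y, ∀ v ∈ Ioo x y, u ≤ v → 0 < r.eval u * r.eval v :=
        fun u hu v hv huv => aux_pos (f := fun t => r.eval u * r.eval t)
          (continuous_const.mul r.continuous) (a := u) (b := v)
          (fun t ht => mul_ne_zero (nz u hu) (nz t ⟨hu.1.trans_le ht.1, ht.2.trans_lt hv.2⟩))
          (mul_self_pos.2 (nz u hu)) v ⟨huv, le_rfl⟩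
      intro u hu v hv
      rcases le_total u v with c | c
      · exact k u hu v hv c
      · rw [mul_comm]; exact k v hv u hu c
    have dv : ∀ z, r.eval z = 0 → p.eval z * (derivative r).eval z < 0 →
        (∀ᶠ u in 𝓝[>] z, 0 < -p.eval z * r.eval u) ∧ ∀ᶠ u in 𝓝[<] z, -p.eval z * r.eval u < 0 :=
      fun z e k => aux_deriv ((r.hasDerivAt z).const_mul (-p.eval z)) (by simp [e]) (by linarith)
    obtain ⟨u, u1, u2⟩ : ∃ u, 0 < -p.eval x * r.eval u ∧ u ∈ Ioo x y := by
      refine (Eventually.and ?_ (Ioo_mem_nhdsGT hxy)).exists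
      rcases xs with c | c
      · refine mem_nhdsWithin_of_mem_nhds
          ((continuous_const.mul r.continuous).continuousAt.eventually (lt_mem_nhds ?_))
        change 0 < -p.eval x * r.eval x
        rw [c.1]
        linarith [c.2]
      · exact (dv x c.1 (h x c.2 c.1)).1
    obtain ⟨v, v1, v2⟩ : ∃ v, -p.eval y * r.eval v < 0 ∧ v ∈ Ioo x y := by
      refine (Eventually.and ?_ (Ioo_mem_nhdsLT hxy)).exists
      rcases Finset.mem_insert.1 hy with c | c
      · refine mem_nhdsWithin_of_mem_nhds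
          ((continuous_const.mul r.continuous).continuousAt.eventually (gt_mem_nhds ?_))
        change -p.eval y * r.eval y < 0
        rw [c]
        linarith
      · have c' := (s1 y c).resolve_left fun e => (x0.trans_lt hxy).ne' e.1
        exact (dv y c'.1 (h y c'.2 c'.1)).2
    have pxy : p.eval x * p.eval y < 0 := by
      by_contra hc
      have k1 := mul_nonneg (not_lt.1 hc) (same u u2 v v2).le
      have k2 := mul_pos u1 (neg_pos.2 v1)
      linarith
    obtain ⟨z, z1, z2⟩ := sign_root hxy pxy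
    exact ⟨z, (mem_rt hp _ z).2 ⟨z2, x0.trans_lt z1.1⟩, z1⟩
  refine ⟨key _ (fun x hx => Or.inr ((mem_rt hr0 _ x).1 hx))
    fun x e hx => (mem_rt hr0 _ x).2 ⟨e, hx⟩, fun c => ?_⟩
  rw [← pb_insert]
  exact key _ (fun x hx => (Finset.mem_insert.1 hx).imp (fun e => ⟨e, c⟩) (mem_rt hr0 _ x).1)
    fun x e hx => Finset.mem_insert_of_mem ((mem_rt hr0 _ x).2 ⟨e, hx⟩)

theorem zcpB {p : ℝ[X]} (hp : p ≠ 0) (β : ℝ) :
    zeroCount (UB β) (ev p) + (pb p β : ℕ∞) ≤ (p.natDegree : ℕ∞) ∧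
    (p.eval β ≠ 0 → (∀ x : ℝ, β < x → p.eval x = 0 → (derivative p).eval x ≠ 0) →
      (p.natDegree : ℕ∞) ≤ zeroCount (UB β) (ev p) + (pb p β : ℕ∞)) := by
  classical
  have e : zeroCount (UB β) (ev p) = (((cr p).filter (· ∈ UB β)).card : ℕ∞) := by
    rw [← zcp_prod (UB β)
      (leadingCoeff_ne_zero.2 (Polynomial.map_ne_zero (f := algebraMap ℝ ℂ) hp)), ← cr_fac]
    exact congrArg _ (funext (ev_map p))
  have t : ((cr p).filter (· ∈ UB β)).card + ((cr p).filter fun w => ¬ w ∈ UB β).card =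
      p.natDegree := by rw [← Multiset.card_add, Multiset.filter_add_not, cr_card]
  rw [e, ← t]
  refine ⟨?_, fun p0 hs => ?_⟩
  · have := cr_le hp (fun x => β < x) (fun w => ¬ w ∈ UB β) fun x hx => by simp [UB, hx.le]
    exact_mod_cast Nat.add_le_add_left this _
  · have re : ∀ w ∈ (cr p).filter fun w => ¬ w ∈ UB β, ((w.re : ℝ) : ℂ) = w ∧ p.eval w.re = 0 ∧
        β < w.re := by
      intro w hw
      rw [Multiset.mem_filter, cr_mem hp] at hw
      obtain ⟨a, b⟩ := hw
      simp only [UB, mem_ofPred_eq, not_or, not_not, not_lt] at b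
      have c : ((w.re : ℝ) : ℂ) = w := Complex.ext (by simp) (by simp [b.1])
      rw [← c, ev_real, Complex.ofReal_eq_zero] at a
      exact ⟨c, a, lt_of_le_of_ne b.2 fun d => p0 (by rwa [← d] at a)⟩
    have nd : ((cr p).filter fun w => ¬ w ∈ UB β).Nodup := by
      refine Multiset.nodup_iff_count_le_one.2 fun w => ?_
      by_cases c : w ∈ (cr p).filter fun w => ¬ w ∈ UB β
      · obtain ⟨a, b, d⟩ := re w c
        refine (Multiset.count_le_of_le w (Multiset.filter_le _ _)).trans ?_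
        rw [cr, count_roots]
        by_contra hc
        have := ((one_lt_rootMultiplicity_iff_isRoot (Polynomial.map_ne_zero hp)).1
          (not_le.1 hc)).2
        rw [derivative_map, IsRoot.def, ← ev_map, ← a, ev_real, Complex.ofReal_eq_zero] at this
        exact hs _ d b this
      · rw [Multiset.count_eq_zero_of_notMem c]; exact zero_le_one
    have : ((cr p).filter fun w => ¬ w ∈ UB β).card ≤ pb p β := by
      rw [← Multiset.toFinset_card_of_nodup nd]
      refine Finset.card_le_card_of_injOn Complex.re (fun w hw => ?_) fun w hw u hu h => ?_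
      · rw [Finset.mem_coe, Multiset.mem_toFinset] at hw
        exact Finset.mem_coe.2 ((mem_rt hp _ _).2 (re w hw).2)
      · rw [Finset.mem_coe, Multiset.mem_toFinset] at hw hu
        rw [← (re w hw).1, ← (re u hu).1, h]
    exact_mod_cast Nat.add_le_add_left this _

/-- The invariant of the exact count beyond `β`, along a filter. -/
def InvB (l : Filter ℕ) (β : ℝ) (c : ℕ → ℝ) (P : ℕ) : Prop :=
  (∀ m, c m ≠ 0) ∧ Adm c ∧
  (∃ R : ℝ, 0 ≤ R ∧ ∀ᶠ N in l, ∀ w ∈ U0, ev (tr c N) w = 0 → ‖w‖ ≤ R) ∧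
  (∀ᶠ N in l, (∀ x : ℝ, β < x → (tr c N).eval x = 0 → (derivative (tr c N)).eval x ≠ 0) ∧
    pb (tr c N) β + P = N) ∧
  (∀ M : ℕ, ∃ R : ℝ, 0 ≤ R ∧ ∀ᶠ N in l, M ≤ pcI (tr c N) R)

theorem pcI_mono (p : ℝ[X]) {R T : ℝ} (h : R ≤ T) : pcI p R ≤ pcI p T :=
  Finset.card_le_card fun x hx => by
    rw [Finset.mem_filter] at hx ⊢
    exact ⟨hx.1, hx.2.1, hx.2.2.trans h⟩

theorem stepB {l : Filter ℕ} (hl : l ≤ atTop) {β : ℝ} (hβ : 0 < β) {c : ℕ → ℝ} {P : ℕ} {b a : ℝ}
    (hi : InvB l β c P) (hb : 0 < b) (hm : ∀ m : ℕ, b * (m : ℝ) + a ≠ 0)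
    (h0 : Sr c β * Sr (mc b a c) β ≠ 0)
    (h : ∀ x : ℝ, β ≤ x → Sr (mc b a c) x = 0 → Sr c x * Sr (dc (mc b a c)) x < 0) :
    InvB l β (mc b a c) (P + if Sr c β * Sr (mc b a c) β < 0 then 1 else 0) := by
  obtain ⟨i1, i2, ⟨R, R0, i3⟩, i4, i5⟩ := hi
  have ne : ∀ m, mc b a c m ≠ 0 := fun m => mul_ne_zero (hm m) (i1 m)
  have ad := adm_mc i2 b a
  have eq : ∀ N, tr (mc b a c) N = op b a (tr c N) := fun N => (gen3.1 c N).1 b a
  have nz : ∀ N, op b a (tr c N) ≠ 0 := fun N => eq N ▸ tr_ne (ne 0) N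
  have dg : ∀ N, (tr c N).natDegree = N := fun N => (gen3.1 _ N).2.2.2 (i1 N)
  obtain ⟨M, hM⟩ := exists_nat_gt ((16 * b * (P : ℝ) + 4 * |a|) / b)
  rw [div_lt_iff₀' hb] at hM
  obtain ⟨T', T0', i6⟩ := i5 M
  set T := T' + β with hT
  have T0 : 0 ≤ T := by linarith
  have fr : ∀ᶠ N in l, (∀ w ∈ U0, 2 * (R + T) < ‖w‖ → ev (op b a (tr c N)) w ≠ 0) ∧
      ∀ x : ℝ, 2 * (R + T) < x → (op b a (tr c N)).eval x = 0 →
        (tr c N).eval x * (derivative (op b a (tr c N))).eval x < 0 := by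
    filter_upwards [i3, i4, i6] with N k1 k2 k3
    refine farB b a R T P M _ hb R0 T0 (tr_ne (i1 0) N) (fun x hx => k2.1 x (by linarith)) ?_ k1
      (k3.trans (pcI_mono _ (by linarith))) hM
    have := pb_le (p := tr c N) hβ.le
    rw [dg]
    omega
  have nr := (step_nearB i2 ad hβ.le (2 * (R + T)) fun x hx e => h x hx.1 e).filter_mono hl
  have big : ∀ᶠ N : ℕ in l, 0 < b * (N : ℝ) + a ∧ 0 < N := by
    refine Eventually.filter_mono hl ?_
    filter_upwards [tendsto_natCast_atTop_atTop.eventually_gt_atTop (-a / b),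
      eventually_gt_atTop 0] with N hN h1
    rw [div_lt_iff₀' hb] at hN
    exact ⟨by linarith, h1⟩
  have lim := ((tr_lim i2 β).mul (tr_lim ad β)).mono_left hl
  have sg : ∀ᶠ N in l, (Sr c β * Sr (mc b a c) β < 0 →
      (tr c N).eval β * (tr (mc b a c) N).eval β < 0) ∧ (¬ Sr c β * Sr (mc b a c) β < 0 →
      0 < (tr c N).eval β * (tr (mc b a c) N).eval β) := by
    rcases lt_or_gt_of_ne h0 with d | d
    · exact (lim.eventually (gt_mem_nhds d)).mono fun N k => ⟨fun _ => k, fun e => absurd d e⟩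
    · exact (lim.eventually (lt_mem_nhds d)).mono fun N k =>
        ⟨fun e => absurd d e.not_gt, fun _ => k⟩
  refine ⟨ne, ad, ⟨2 * (R + T), by positivity, ?_⟩, ?_, fun K => ?_⟩
  · filter_upwards [fr] with N k w hw e
    by_contra hc
    exact k.1 w hw (not_le.1 hc) (eq N ▸ e)
  · filter_upwards [fr, nr, big, i4, sg] with N k1 k2 k3 k4 k5
    rw [eq] at k2 k5 ⊢
    have all : ∀ x : ℝ, β < x → (op b a (tr c N)).eval x = 0 →
        (tr c N).eval x * (derivative (op b a (tr c N))).eval x < 0 := fun x hx e =>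
      (le_or_gt x (2 * (R + T))).elim (fun d => k2 x ⟨hx.le, d⟩ e) fun d => k1.2 x d e
    refine ⟨fun x hx e => right_ne_zero_of_mul (all x hx e).ne, ?_⟩
    obtain ⟨u1, u2⟩ := cntB (tr_ne (i1 0) N) (by rw [dg]; exact k3.2) (by rw [dg]; exact k3.1) all
    obtain ⟨u3, u4⟩ := rolB hb hβ (nz N)
    have := k4.2
    split_ifs with d
    · have := u2 (k5.1 d)
      omega
    · have := u4 (k5.2 d)
      omega
  · obtain ⟨Q, Q0, k⟩ := i5 (K + 1)
    refine ⟨Q, Q0, k.mono fun N hN => ?_⟩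
    have := (rol b a _ hb (nz N)).2.2.2 Q
    rw [eq]
    omega

theorem UB_open (β : ℝ) : IsOpen (UB β) :=
  (isOpen_ne_fun Complex.continuous_im continuous_const).union
    (isOpen_lt Complex.continuous_re continuous_const)

theorem lowB {l : Filter ℕ} [l.NeBot] (hl' : l ≤ atTop) {β R : ℝ} (hβ : 0 < β) {c : ℕ → ℝ}
    {P : ℕ} (i1 : ∀ m, c m ≠ 0) (i2 : Adm c)
    (i3 : ∀ᶠ N in l, ∀ w ∈ U0, ev (tr c N) w = 0 → ‖w‖ ≤ R)
    (i4 : ∀ᶠ N in l, (∀ x : ℝ, β < x → (tr c N).eval x = 0 →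
      (derivative (tr c N)).eval x ≠ 0) ∧ pb (tr c N) β + P ≤ N)
    (h0 : Sr c β ≠ 0) (hs : ∀ x : ℝ, β < x → Sr c x = 0 → Sr (dc c) x ≠ 0) :
    (P : ℕ∞) ≤ zeroCount (UB β) (S c) := by
  have hd := (gen1 c i2).2.2.1
  have cv := (gen2 c i2).1
  set R' := max R β with hR'
  obtain ⟨δ, δ0, k⟩ := na (fun N w => ev (tr c N) (w + β)) (fun w => S c (w + β)) (R' + β)
    (fun N => (gen3.2.1 _).1.comp (differentiable_id.add_const _))
    (hd.comp (differentiable_id.add_const _))
    (fun T ε hε => (cv (T + β) ε hε).mono fun N hN w hw => hN _ ((norm_add_le _ _).trans (by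
      rw [Complex.norm_real, Real.norm_of_nonneg hβ.le]; linarith)))
    (fun N w => by rw [← (gen3.2.1 _).2.2, map_add, Complex.conj_ofReal])
    (by rw [zero_add, S_real]; exact_mod_cast h0) fun x hx e => by
      rw [deriv_comp_add_const, (adm_deriv i2 _).deriv, ← Complex.ofReal_add, S_real]
      rw [← Complex.ofReal_add, S_real] at e
      exact_mod_cast hs (x + β) (by linarith) (by exact_mod_cast e)
  set K : Set ℂ := Metric.closedBall 0 R' ∩ ({w | δ ≤ |w.im|} ∪ {w | w.re ≤ β - δ}) with hK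
  have cp : IsCompact K := (isCompact_closedBall 0 R').inter_right
    ((isClosed_le continuous_const Complex.continuous_im.abs).union
      (isClosed_le Complex.continuous_re continuous_const))
  refine le_trans (hl K P l _ _ cp inferInstance (fun N => (gen3.2.1 _).1) hd
    (fun T ε hε => (cv T ε hε).filter_mono hl') ?_) (zc.2.2.1 K (UB β) _ hd fun z hz _ => ?_)
  · filter_upwards [i3, i4, k.filter_mono hl',
      ((tr_lim i2 β).eventually_ne h0).filter_mono hl'] with N k1 k2 k3 k4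
    refine le_trans ?_ (zc.2.2.1 (UB β) K _ (gen3.2.1 _).1 fun z hz e => ?_)
    · have a := (zcpB (tr_ne (i1 0) N) β).2 k4 k2.1
      rw [(gen3.1 _ N).2.2.2 (i1 N)] at a
      have b : (P : ℕ∞) + (pb (tr c N) β : ℕ∞) ≤ (N : ℕ∞) := by
        have := k2.2
        exact_mod_cast (show P + pb (tr c N) β ≤ N by omega)
      exact (ENat.add_le_add_iff_right (by simp)).1 (b.trans a)
    · have n1 : ‖z‖ ≤ R' := by
        by_cases d : z ∈ U0
        · exact (k1 z d e).trans (le_max_left _ _)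
        · simp only [U0, mem_ofPred_eq, not_or, not_not, not_lt] at d
          rw [← Complex.abs_re_eq_norm.2 d.1, abs_of_nonneg d.2]
          exact (hz.resolve_left (not_not.2 d.1)).le.trans (le_max_right _ _)
      have := k3 (z - β) (hz.imp (fun d => by simpa using d) fun d => by simpa using d)
        ((norm_sub_le _ _).trans (by
          rw [Complex.norm_real, Real.norm_of_nonneg hβ.le]; linarith)) (by simpa using e)
      refine ⟨mem_closedBall_zero_iff.2 n1, this.imp (fun d => by simpa using d) fun d => ?_⟩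
      simp only [Complex.sub_re, Complex.ofReal_re] at d
      change z.re ≤ β - δ
      linarith
  · rcases hz.2 with d | d
    · exact Or.inl (abs_pos.1 (δ0.trans_le d))
    · exact Or.inr (lt_of_le_of_lt d (by linarith))

theorem finB {l : Filter ℕ} [l.NeBot] (hl' : l ≤ atTop) {β : ℝ} (hβ : 0 < β) {c : ℕ → ℝ}
    {P : ℕ} (hi : InvB l β c P) (h0 : Sr c β ≠ 0)
    (hs : ∀ x : ℝ, β < x → Sr c x = 0 → Sr (dc c) x ≠ 0) :
    zeroCount (UB β) (S c) = (P : ℕ∞) := by
  obtain ⟨i1, i2, ⟨R, -, i3⟩, i4, -⟩ := hi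
  refine le_antisymm ?_ (lowB hl' hβ i1 i2 i3 (i4.mono fun N k => ⟨k.1, k.2.le⟩) h0 hs)
  refine hu (UB β) P l _ _ (UB_open β) inferInstance (fun N => (gen3.2.1 _).1) (gen1 c i2).2.2.1
    (fun T ε hε => ((gen2 c i2).1 T ε hε).filter_mono hl') ⟨0, S_zero i2 (i1 0)⟩
    (i4.mono fun N k => ?_)
  have a := (zcpB (tr_ne (i1 0) N) β).1
  have b : ((tr c N).natDegree : ℕ∞) ≤ (P : ℕ∞) + (pb (tr c N) β : ℕ∞) := by
    have := (gen3.1 c N).2.1
    have := k.2
    exact_mod_cast (show (tr c N).natDegree ≤ P + pb (tr c N) β by omega)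
  exact (ENat.add_le_add_iff_right (by simp)).1 (a.trans b)

theorem baseB {β : ℝ} (hβ : 0 < β) {c : ℕ → ℝ} {k : ℕ} (hi : Inv c k) (h0 : Sr c β ≠ 0)
    (hs : ∀ x : ℝ, β < x → Sr c x = 0 → Sr (dc c) x ≠ 0)
    (hf : zeroCount (UB β) (S c) ≠ ⊤) :
    ∃ (l : Filter ℕ) (P : ℕ), l.NeBot ∧ l ≤ atTop ∧ InvB l β c P := by
  obtain ⟨i1, i2, ⟨R, R0, i3⟩, i4, i5⟩ := hi
  have i6 : ∀ᶠ N in atTop, (∀ x : ℝ, β < x → (tr c N).eval x = 0 →
      (derivative (tr c N)).eval x ≠ 0) ∧ pb (tr c N) β ≤ N := i4.mono fun N h =>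
    ⟨fun x hx => h.1 x (hβ.trans hx), by have := pb_le (p := tr c N) hβ.le; omega⟩
  obtain ⟨P, hP⟩ : ∃ P : ℕ, ∃ᶠ N in atTop, pb (tr c N) β + P = N := by
    by_contra hc
    simp only [not_exists, not_frequently] at hc
    obtain ⟨q, hq⟩ := ENat.ne_top_iff_exists.1 hf
    have := lowB (P := q + 1) le_rfl hβ i1 i2 i3 (by
      filter_upwards [i6, (eventually_all_finset (Finset.range (q + 1))).2 fun j _ => hc j]
        with N a b
      refine ⟨a.1, ?_⟩
      by_contra hd
      exact b (N - pb (tr c N) β) (Finset.mem_range.2 (by omega)) (by omega)) h0 hs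
    rw [← hq] at this
    exact absurd (show q + 1 ≤ q by exact_mod_cast this) (by omega)
  refine ⟨atTop ⊓ 𝓟 {N | pb (tr c N) β + P = N}, P, frequently_iff_neBot.1 hP, inf_le_left, i1, i2,
    ⟨R, R0, i3.filter_mono inf_le_left⟩, ?_, fun M => ?_⟩
  · filter_upwards [i6.filter_mono inf_le_left,
      mem_inf_of_right (mem_principal_self {N | pb (tr c N) β + P = N})] with N a b
    exact ⟨a.1, b⟩
  · obtain ⟨T, a, b⟩ := i5 M
    exact ⟨T, a, b.filter_mono inf_le_left⟩

end Pool.Agent.MP_cdfc49_an.BZ
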