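import Mathlib
import Pool.Agent.MP_cdfc49_an.BZ.T1

set_option autoImplicit false

namespace Pool.Agent.MP_cdfc49_an.BZ

open Filter Topology Set

/-- The real segment `(0, β)` in the plane. -/
def IB (β : ℝ) : Set ℂ := {w : ℂ | w.im = 0 ∧ 0 < w.re ∧ w.re < β}

/-- The zeros in `(0, β)`. -/
def ZR (c : ℕ → ℝ) (β : ℝ) : Set ℝ := {x : ℝ | 0 < x ∧ x < β ∧ Sr c x = 0}

theorem zc_split {f : ℂ → ℂ} (hf : Differentiable ℂ f) (h0 : f 0 ≠ 0) {β : ℝ} (hβ : 0 < β) :
    zeroCount (UB β) f = zeroCount U0 f + zeroCount (IB β) f := by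
  have e : zeroCount (UB β) f = zeroCount (U0 ∪ IB β) f := by
    refine le_antisymm (zc.2.2.1 _ _ f hf fun z hz e => ?_) (zc.2.2.1 _ _ f hf fun z hz _ => ?_)
    · by_cases c : z ∈ U0
      · exact Or.inl c
      · simp only [U0, mem_ofPred_eq, not_or, not_not, not_lt] at c
        refine Or.inr ⟨c.1, lt_of_le_of_ne c.2 fun d => h0 ?_, hz.resolve_left (not_not.2 c.1)⟩
        rwa [show z = 0 from Complex.ext d.symm c.1] at e
    · rcases hz with (c | c) | c
      · exact Or.inl c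
      · exact Or.inr (c.trans hβ)
      · exact Or.inr c.2.2
  rw [e, zeroCount, zeroCount, zeroCount, ← encard_union_eq]
  · congr 1
    ext p
    simp only [mem_ofPred_eq, mem_union, or_and_right]
  · rw [disjoint_left]
    rintro p ⟨a | a, -⟩ ⟨b, -⟩
    · exact a b.1
    · exact lt_asymm a b.2.1

theorem zr_fin {c : ℕ → ℝ} (h : Adm c) (h0 : c 0 ≠ 0) (β : ℝ) : (ZR c β).Finite := by
  have a : AnalyticOnNhd ℂ (S c) (Metric.closedBall 0 |β|) :=
    fun z _ => (gen1 c h).2.2.1.analyticAt z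
  have m : (0 : ℂ) ∈ Metric.closedBall (0 : ℂ) |β| := Metric.mem_closedBall_self (abs_nonneg β)
  have f := (isCompact_closedBall (0 : ℂ) |β|).finite_sdiff_of_mem_codiscreteWithin
    (a.preimage_zero_mem_codiscreteWithin (S_zero h h0) m
      ⟨⟨0, m⟩, (convex_closedBall _ _).isPreconnected⟩)
  refine (f.preimage Complex.ofReal_injective.injOn).subset fun x hx => ⟨?_, ?_⟩
  · rw [mem_closedBall_zero_iff, Complex.norm_real, Real.norm_of_nonneg hx.1.le]
    exact hx.2.1.le.trans (le_abs_self β)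
  · simp [S_real, hx.2.2]

theorem S_mc {c : ℕ → ℝ} (h : Adm c) (b a : ℝ) :
    S (mc b a c) = (fun w : ℂ => (b : ℂ) * w) * deriv (S c) + (fun _ => (a : ℂ)) * S c := by
  funext w
  have h1 : HasSum (fun m : ℕ => (m : ℂ) * c m * w ^ m) (w * S (dc c) w) := by
    rw [← hasSum_nat_add_iff' 1]
    simp only [Finset.range_one, Finset.sum_singleton, Nat.cast_zero, zero_mul, sub_zero]
    have := (adm_sumC (adm_dc h) w).hasSum.mul_left w
    rw [show (fun m : ℕ => ((m + 1 : ℕ) : ℂ) * c (m + 1) * w ^ (m + 1)) =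
      fun m : ℕ => w * ((dc c m : ℂ) * w ^ m) from funext fun m => by rw [dc]; push_cast; ring]
    exact this
  have h0 : HasSum (fun m : ℕ => (c m : ℂ) * w ^ m) (S c w) := (adm_sumC h w).hasSum
  have h2 := (h1.mul_left (b : ℂ)).add (h0.mul_left (a : ℂ))
  simp only [Pi.add_apply, Pi.mul_apply]
  rw [(adm_deriv h w).deriv, mul_assoc, ← h2.tsum_eq, S]
  refine tsum_congr fun m => ?_
  rw [mc]
  push_cast
  ring

theorem ord_mc {c : ℕ → ℝ} (h : Adm c) (b a : ℝ) (z : ℂ) (k : ℕ)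
    (hk : ((k + 1 : ℕ) : ℕ∞) < analyticOrderAt (S c) z) :
    (k : ℕ∞) < analyticOrderAt (S (mc b a c)) z := by
  have hd := (gen1 c h).2.2.1
  have an := hd.analyticAt z
  have e := (zc_mem hd z).1 (lt_of_le_of_lt (by simp) hk)
  have k1 := (analyticOrderAt_deriv_ge_iff an e (n := k + 1)).2
    ((ENat.add_one_le_iff (ENat.natCast_ne_top _)).2 hk)
  rw [← ENat.add_one_le_iff (ENat.natCast_ne_top _), S_mc h]
  refine le_trans (le_min ?_ ?_) le_analyticOrderAt_add
  · rw [analyticOrderAt_mul (by fun_prop) an.deriv]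
    exact le_trans (by exact_mod_cast k1) le_add_self
  · rw [analyticOrderAt_mul analyticAt_const an]
    exact le_trans (by exact_mod_cast hk.le) le_add_self

theorem ib_real {β : ℝ} {z : ℂ} (h : z ∈ IB β) : ((z.re : ℝ) : ℂ) = z :=
  Complex.ext (by simp) (by simp [h.1])

theorem ib_inj : Function.Injective fun x : ℝ => (((x : ℂ), 0) : ℂ × ℕ) :=
  fun _ _ h => Complex.ofReal_injective (congrArg Prod.fst h)

theorem ib_mem {c : ℕ → ℝ} (h : Adm c) {β x : ℝ} (hx : x ∈ ZR c β) :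
    (x : ℂ) ∈ IB β ∧ ((0 : ℕ) : ℕ∞) < analyticOrderAt (S c) x :=
  ⟨⟨by simp, by simpa using hx.1, by simpa using hx.2.1⟩,
    (zc_mem (gen1 c h).2.2.1 _).2 (by rw [S_real, hx.2.2, Complex.ofReal_zero])⟩

theorem ib_zr {c : ℕ → ℝ} {β : ℝ} {z : ℂ} (h : z ∈ IB β) (e : S c z = 0) : z.re ∈ ZR c β := by
  rw [← ib_real h, S_real, Complex.ofReal_eq_zero] at e
  exact ⟨h.2.1, h.2.2, e⟩

theorem rolM {ν : ℝ} (hν : NI ν) (n : ℕ) (β : ℝ) :
    zeroCount (IB β) (S (cf ν n)) ≤ zeroCount (IB β) (S (cf ν (n + 1))) + 1 := by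
  classical
  have f1 := zr_fin (sum' ν n) (gen3.2.2.2.2.2 ν n 0 hν) β
  have f2 := zr_fin (sum' ν (n + 1)) (gen3.2.2.2.2.2 ν (n + 1) 0 hν) β
  have hd := (gen1 _ (sum' ν n)).2.2.1
  have k : f1.toFinset.card ≤ (f2.toFinset \ f1.toFinset).card + 1 := by
    refine Finset.card_le_sdiff_of_interleaved fun x hx y hy hxy _ => ?_
    rw [Finite.mem_toFinset] at hx hy
    obtain ⟨z, z1, z2⟩ := exists_hasDerivAt_eq_zero hxy
      (f := fun t : ℝ => t ^ ((ν - (n : ℝ)) / 2) * Fr ν n t)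
      (fun t ht => ((wd relT ν t (hx.1.trans_le ht.1)).1 n).continuousAt.continuousWithinAt)
      (by simp only [Fr, hx.2.2, hy.2.2, mul_zero])
      fun t ht => (wd relT ν t (hx.1.trans ht.1)).1 n
    have z0 : 0 < z := hx.1.trans z1.1
    have := Real.rpow_pos_of_pos z0 ((ν - (n : ℝ)) / 2)
    refine ⟨z, f2.mem_toFinset.2 ⟨z0, z1.2.trans hy.2.1, ?_⟩, z1⟩
    exact (mul_eq_zero.1 ((div_eq_zero_iff.1 z2).resolve_right (by positivity))).resolve_left
      this.ne'
  set A1 : Set (ℂ × ℕ) := {p | (p.1 ∈ IB β ∧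
    (p.2 : ℕ∞) < analyticOrderAt (S (cf ν (n + 1))) p.1) ∧ S (cf ν n) p.1 = 0} with hA1
  have s1 : zeroCount (IB β) (S (cf ν n)) ≤ (f1.toFinset.card : ℕ∞) + A1.encard := by
    refine le_trans (encard_le_encard (t := (fun x : ℝ => (((x : ℂ), 0) : ℂ × ℕ)) '' f1.toFinset ∪
      (fun p : ℂ × ℕ => (p.1, p.2 + 1)) '' A1) ?_) ((encard_union_le _ _).trans (add_le_add
        ((encard_image_le _ _).trans (encard_coe_eq_coe_finsetCard _).le) (encard_image_le _ _)))
    rintro ⟨z, i⟩ ⟨a, b⟩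
    have e := (zc_mem hd z).1 (lt_of_le_of_lt (by simp) b)
    rcases i with _ | i
    · exact Or.inl ⟨z.re, by simpa using ib_zr a e, by simp only [ib_real a]⟩
    · refine Or.inr ⟨(z, i), ⟨⟨a, ?_⟩, e⟩, rfl⟩
      rw [gen3.2.2.1]
      exact ord_mc (sum' ν n) _ _ z i b
  have s2 : ((f2.toFinset \ f1.toFinset).card : ℕ∞) + A1.encard ≤
      zeroCount (IB β) (S (cf ν (n + 1))) := by
    rw [← encard_coe_eq_coe_finsetCard, ← ib_inj.encard_image, ← encard_union_eq]
    · refine encard_le_encard ?_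
      rintro p (⟨x, hx, rfl⟩ | hp)
      · exact ib_mem (sum' ν (n + 1)) (f2.mem_toFinset.1 (Finset.mem_sdiff.1 hx).1)
      · exact hp.1
    · rw [disjoint_left]
      rintro p ⟨x, hx, rfl⟩ hp
      exact (Finset.mem_sdiff.1 hx).2 (f1.mem_toFinset.2 (by simpa using ib_zr hp.1.1 hp.2))
  refine s1.trans (le_trans ?_ (add_le_add_left s2 1))
  rw [add_right_comm]
  exact add_le_add_left (by exact_mod_cast k) _

theorem window {ν : ℝ} (hν : NI ν) (β : ℝ) (d : ℕ) : ∀ n : ℕ,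
    (∀ x, 0 < x → x < β → Fr ν (n + d) x ≠ 0) → zeroCount (IB β) (S (cf ν n)) ≤ (d : ℕ∞) := by
  induction d with
  | zero =>
    intro n h
    exact ((zc.2.1 _ _ (gen1 _ (sum' ν n)).2.2.1).2 fun z hz e =>
      h z.re hz.2.1 hz.2.2 (ib_zr hz e).2.2).le
  | succ d ih =>
    intro n h
    refine (rolM hν n β).trans ?_
    rw [Nat.cast_succ]
    exact add_le_add_left (ih (n + 1) (by rwa [show n + 1 + d = n + (d + 1) by omega])) 1

theorem zc_simple {c : ℕ → ℝ} (h : Adm c) (β : ℝ)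
    (hs : ∀ x : ℝ, 0 < x → Sr c x = 0 → Sr (dc c) x ≠ 0) :
    zeroCount (IB β) (S c) = (ZR c β).encard := by
  have hd := (gen1 c h).2.2.1
  rw [← ib_inj.encard_image, zeroCount]
  congr 1
  ext ⟨z, i⟩
  constructor
  · rintro ⟨a, b⟩
    dsimp only at a b
    have e := (zc_mem hd z).1 (lt_of_le_of_lt (by simp) b)
    have m := ib_zr a e
    rw [(hd.analyticAt z).analyticOrderAt_eq_one_of_zero_deriv_ne_zero e (by
      rw [(adm_deriv h z).deriv, ← ib_real a, S_real]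
      exact_mod_cast hs _ m.1 m.2.2)] at b
    have : i = 0 := by simpa using b
    exact ⟨z.re, m, by simp only [ib_real a, this]⟩
  · rintro ⟨x, hx, e⟩
    rw [← e]
    exact ib_mem h hx

theorem ph_sign {φ : ℝ} (h : Real.sin φ ≠ 0) : 0 < (-1 : ℝ) ^ ⌊φ / Real.pi⌋ * Real.sin φ := by
  have p := Real.pi_pos
  have a := Int.floor_le (φ / Real.pi)
  have b := Int.lt_floor_add_one (φ / Real.pi)
  rw [le_div_iff₀ p] at a
  rw [div_lt_iff₀ p] at b
  set m := ⌊φ / Real.pi⌋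
  have e := Real.sin_add_int_mul_pi (φ - m * Real.pi) m
  rw [sub_add_cancel] at e
  have s := Real.sin_nonneg_of_nonneg_of_le_pi (x := φ - m * Real.pi) (by linarith) (by linarith)
  have u : ((-1 : ℝ) ^ m) * (-1) ^ m = 1 := by rw [← mul_zpow]; simp
  rw [e] at h ⊢
  rw [← mul_assoc, u, one_mul]
  exact lt_of_le_of_ne s (right_ne_zero_of_mul h).symm

theorem ph_floor {φ ψ : ℝ} (h1 : φ < ψ) (h2 : ψ < φ + Real.pi) (a : Real.sin φ ≠ 0)
    (b : Real.sin ψ ≠ 0) :
    ⌊ψ / Real.pi⌋ = ⌊φ / Real.pi⌋ + if Real.sin φ * Real.sin ψ < 0 then 1 else 0 := by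
  have p := Real.pi_pos
  have c1 : ⌊φ / Real.pi⌋ ≤ ⌊ψ / Real.pi⌋ := Int.floor_le_floor (by gcongr)
  have c2 : ⌊ψ / Real.pi⌋ ≤ ⌊φ / Real.pi⌋ + 1 := by
    rw [← Int.floor_add_one]
    refine Int.floor_le_floor ?_
    rw [div_add_one p.ne']
    gcongr
  have k := mul_pos (ph_sign a) (ph_sign b)
  have u : ((-1 : ℝ) ^ ⌊φ / Real.pi⌋) * (-1) ^ ⌊φ / Real.pi⌋ = 1 := by rw [← mul_zpow]; simp
  rcases c1.eq_or_lt with c | c
  · rw [← c, mul_mul_mul_comm, u, one_mul] at k
    rw [if_neg k.le.not_gt, add_zero, c]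
  · have e : ⌊ψ / Real.pi⌋ = ⌊φ / Real.pi⌋ + 1 := by omega
    rw [e, zpow_add_one₀ (by norm_num), mul_mul_mul_comm, ← mul_assoc, ← mul_assoc, u] at k
    rw [if_pos (by linarith), e]

theorem ph_im (ρ φ : ℝ) : ((ρ : ℂ) * Complex.exp (φ * Complex.I)).im = ρ * Real.sin φ := by
  rw [Complex.im_ofReal_mul, Complex.exp_ofReal_mul_I_im]

theorem ph_disc {z : ℕ → ℂ} {η : ℝ} (h2 : η ≤ 1 / 2) (n : ℕ)
    (h : ∀ j < n, ‖z (j + 1) - Complex.I * z j‖ ≤ η * ‖z j‖) (hz : ∀ j ≤ n, (z j).im ≠ 0) :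
    |((∑ j ∈ Finset.range n, if (z j).im * (z (j + 1)).im < 0 then 1 else 0 : ℕ) : ℝ) - n / 2| ≤
      η * n + 1 := by
  have p := Real.pi_gt_three
  have key : ∀ m ≤ n, ∃ ρ φ : ℝ, 0 < ρ ∧ z m = ρ * Complex.exp (φ * Complex.I) ∧
      ((∑ j ∈ Finset.range m, if (z j).im * (z (j + 1)).im < 0 then 1 else 0 : ℕ) : ℤ) =
        ⌊φ / Real.pi⌋ - ⌊(z 0).arg / Real.pi⌋ ∧
      |φ - (z 0).arg - m * (Real.pi / 2)| ≤ 3 / 2 * η * m := by
    intro m
    induction m with
    | zero =>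
      intro hm
      exact ⟨‖z 0‖, (z 0).arg, norm_pos_iff.2 fun e => hz 0 hm (by simp [e]),
        (Complex.norm_mul_exp_arg_mul_I _).symm, by simp, by simp⟩
    | succ m ih =>
      intro hm
      obtain ⟨ρ, φ, a1, a2, a3, a4⟩ := ih (by omega)
      have n0 : z m ≠ 0 := fun e => hz m (by omega) (by simp [e])
      have n1 : Complex.I * z m ≠ 0 := mul_ne_zero Complex.I_ne_zero n0
      set u := (z (m + 1) - Complex.I * z m) / (Complex.I * z m) with hu
      have u1 : ‖u‖ ≤ η := by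
        rw [hu, norm_div, norm_mul, Complex.norm_I, one_mul, div_le_iff₀ (norm_pos_iff.2 n0)]
        exact h m (by omega)
      have u2 := ((Complex.abs_im_le_norm _).trans
        (Complex.norm_log_one_add_half_le_self (u1.trans h2))).trans
        (mul_le_mul_of_nonneg_left u1 (by norm_num))
      have u3 : 1 + u ≠ 0 := by
        intro e
        rw [show u = -1 by linear_combination e] at u1
        norm_num at u1
        linarith
      set L := Complex.log (1 + u) with hL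
      have e : z (m + 1) = ((ρ * Real.exp L.re : ℝ) : ℂ) *
          Complex.exp ((φ + Real.pi / 2 + L.im : ℝ) * Complex.I) := by
        have e1 : z (m + 1) = Complex.I * z m * (1 + u) := by rw [hu]; field_simp; ring
        rw [e1, ← Complex.exp_log u3, ← hL, a2]
        conv_lhs => rw [← Complex.re_add_im L, ← Complex.exp_pi_div_two_mul_I]
        push_cast
        simp only [add_mul, Complex.exp_add, Complex.exp_pi_div_two_mul_I]
        ring
      have r0 : 0 < ρ * Real.exp L.re := by positivity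
      obtain ⟨b1, b2⟩ := abs_le.1 u2
      have i1 := ph_im ρ φ
      have i2 := ph_im (ρ * Real.exp L.re) (φ + Real.pi / 2 + L.im)
      rw [← a2] at i1
      rw [← e] at i2
      refine ⟨_, _, r0, e, ?_, ?_⟩
      · rw [Finset.sum_range_succ, Nat.cast_add, a3, ph_floor (φ := φ)
          (ψ := φ + Real.pi / 2 + L.im) (by linarith) (by linarith)
          (right_ne_zero_of_mul (i1 ▸ hz m (by omega))) (right_ne_zero_of_mul (i2 ▸ hz _ hm)),
          i1, i2, mul_mul_mul_comm]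
        have mn : ∀ t : ℝ, ρ * (ρ * Real.exp L.re) * t < 0 ↔ t < 0 := fun t =>
          ⟨fun k => neg_of_mul_neg_right k (mul_pos a1 r0).le,
            fun k => mul_neg_of_pos_of_neg (mul_pos a1 r0) k⟩
        simp only [mn]
        split_ifs <;> simp <;> ring
      · obtain ⟨c1, c2⟩ := abs_le.1 a4
        push_cast
        rw [abs_le]
        constructor <;> linarith
  obtain ⟨ρ, φ, -, -, a3, a4⟩ := key n le_rfl
  have a5 := congrArg (Int.cast : ℤ → ℝ) a3
  rw [Int.cast_natCast, Int.cast_sub] at a5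
  have k : |φ / Real.pi - (z 0).arg / Real.pi - n / 2| ≤ η * n := by
    rw [show φ / Real.pi - (z 0).arg / Real.pi - n / 2 =
      (φ - (z 0).arg - n * (Real.pi / 2)) / Real.pi by field_simp, abs_div,
      abs_of_pos Real.pi_pos, div_le_iff₀ Real.pi_pos]
    have := (abs_nonneg _).trans a4
    nlinarith
  obtain ⟨c1, c2⟩ := abs_le.1 k
  rw [a5, abs_le]
  constructor <;> linarith [Int.floor_le (φ / Real.pi), Int.lt_floor_add_one (φ / Real.pi),
    Int.floor_le ((z 0).arg / Real.pi), Int.lt_floor_add_one ((z 0).arg / Real.pi)]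

theorem ph_cont {E0 E1 : ℝ → ℂ} {η X0 X x : ℝ} (h2 : η ≤ 1 / 2) (hX : X0 < X) (hx : X ≤ x)
    (hd : ∀ t, X0 < t → HasDerivAt E0 (E1 t) t) (hc : ∀ t, X0 < t → ContinuousAt E1 t)
    (h0 : ∀ t, X0 < t → E0 t ≠ 0)
    (h : ∀ t, X0 < t → ‖E1 t - Complex.I * E0 t‖ ≤ η * ‖E0 t‖) :
    ∃ m : ℕ, {t ∈ Icc X x | (E0 t).im = 0}.encard = m ∧
      |(m : ℝ) - (x - X) / Real.pi| ≤ η * (x - X) + 1 := by
  have p := Real.pi_gt_three
  have p0 := Real.pi_pos
  have cq : ContinuousOn (fun t => E1 t / E0 t) (Ioi X0) := fun t ht =>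
    ((hc t ht).div (hd t ht).continuousAt (h0 t ht)).continuousWithinAt
  set L : ℝ → ℂ := fun t => ∫ s in X..t, E1 s / E0 s with hL
  have dL : ∀ t, X0 < t → HasDerivAt L (E1 t / E0 t) t := fun t ht =>
    intervalIntegral.integral_hasDerivAt_right
      ((cq.mono fun s hs => lt_of_lt_of_le (lt_min hX ht) hs.1).intervalIntegrable)
      (cq.stronglyMeasurableAtFilter isOpen_Ioi t ht) (cq.continuousAt (Ioi_mem_nhds ht))
  have dP : ∀ t, X0 < t → HasDerivAt (fun t => E0 t * Complex.exp (-L t)) 0 t := fun t ht =>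
    ((hd t ht).mul (dL t ht).neg.cexp).congr_deriv (by have := h0 t ht; field_simp; ring)
  set θ : ℝ → ℝ := fun t => (E0 X).arg + (L t).im with hθ
  have im : ∀ t ∈ Icc X x, ((E0 t).im = 0 ↔ Real.sin (θ t) = 0) := by
    intro t ht
    have e := constant_of_has_deriv_right_zero (a := X) (b := x)
      (fun s hs => (dP s (hX.trans_le hs.1)).continuousAt.continuousWithinAt)
      (fun s hs => (dP s (hX.trans_le hs.1)).hasDerivWithinAt) t ht
    have e0 : L X = 0 := by simp [hL]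
    simp only [e0, neg_zero, Complex.exp_zero, mul_one] at e
    have e2 : E0 t = ((‖E0 X‖ * Real.exp (L t).re : ℝ) : ℂ) * Complex.exp (θ t * Complex.I) := by
      have e3 : E0 t = E0 X * Complex.exp (L t) := by
        rw [← e, mul_assoc, ← Complex.exp_add]; simp
      rw [e3]
      conv_lhs => rw [← Complex.norm_mul_exp_arg_mul_I (E0 X), ← Complex.re_add_im (L t)]
      simp only [hθ]
      push_cast
      simp only [add_mul, Complex.exp_add]
      ring
    have := norm_pos_iff.2 (h0 X hX)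
    rw [e2, ph_im, mul_eq_zero, or_iff_right (by positivity)]
  have dθ : ∀ t, X0 < t → HasDerivAt θ (E1 t / E0 t).im t := fun t ht =>
    (Complex.imCLM.hasFDerivAt.comp_hasDerivAt t (dL t ht)).const_add _
  have bd : ∀ t, X0 < t → |(E1 t / E0 t).im - 1| ≤ η := by
    intro t ht
    have n := h0 t ht
    rw [show (E1 t / E0 t).im - 1 = ((E1 t - Complex.I * E0 t) / E0 t).im by
      rw [sub_div, mul_div_cancel_right₀ _ n]; simp]
    refine (Complex.abs_im_le_norm _).trans ?_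
    rw [norm_div, div_le_iff₀ (norm_pos_iff.2 n)]
    exact h t ht
  have cθ : ContinuousOn θ (Icc X x) := fun s hs =>
    (dθ s (hX.trans_le hs.1)).continuousAt.continuousWithinAt
  have mv : ∀ u v, X ≤ u → u < v → |θ v - θ u - (v - u)| ≤ η * (v - u) := by
    intro u v hu huv
    obtain ⟨s, s1, s2⟩ := exists_hasDerivAt_eq_slope θ _ huv
      (fun s hs => (dθ s ((hX.trans_le hu).trans_le hs.1)).continuousAt.continuousWithinAt)
      fun s hs => dθ s ((hX.trans_le hu).trans hs.1)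
    rw [eq_div_iff (sub_pos.2 huv).ne'] at s2
    rw [← s2, ← sub_one_mul, abs_mul, abs_of_pos (sub_pos.2 huv)]
    exact mul_le_mul_of_nonneg_right (bd s ((hX.trans_le hu).trans s1.1)) (sub_pos.2 huv).le
  have sm : StrictMonoOn θ (Icc X x) := fun u hu v _ huv => by
    have := (abs_le.1 (mv u v hu.1 huv)).1
    nlinarith
  have zi : ∀ t, Real.sin (θ t) = 0 → (⌊θ t / Real.pi⌋ : ℝ) * Real.pi = θ t := by
    intro t e
    obtain ⟨k, hk⟩ := Real.sin_eq_zero_iff.1 e
    rw [← hk, mul_div_cancel_right₀ _ p0.ne', Int.floor_intCast]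
  have img : (fun t => ⌊θ t / Real.pi⌋) '' {t ∈ Icc X x | (E0 t).im = 0} =
      (Finset.Icc ⌈θ X / Real.pi⌉ ⌊θ x / Real.pi⌋ : Finset ℤ) := by
    ext k
    simp only [mem_image, mem_ofPred_eq, Finset.coe_Icc, mem_Icc, Int.ceil_le, Int.le_floor,
      div_le_iff₀ p0, le_div_iff₀ p0]
    constructor
    · rintro ⟨t, ⟨t1, t2⟩, rfl⟩
      rw [zi t ((im t t1).1 t2)]
      exact ⟨sm.monotoneOn ⟨le_rfl, hx⟩ t1 t1.1, sm.monotoneOn t1 ⟨hx, le_rfl⟩ t1.2⟩
    · intro hk
      obtain ⟨t, t1, t2⟩ := intermediate_value_Icc hx cθ hk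
      exact ⟨t, ⟨t1, (im t t1).2 (by rw [t2, Real.sin_int_mul_pi])⟩, by
        rw [t2, mul_div_cancel_right₀ _ p0.ne', Int.floor_intCast]⟩
  have inj : InjOn (fun t => ⌊θ t / Real.pi⌋) {t ∈ Icc X x | (E0 t).im = 0} := by
    intro u hu v hv e
    refine sm.injOn hu.1 hv.1 ?_
    rw [← zi u ((im u hu.1).1 hu.2), ← zi v ((im v hv.1).1 hv.2)]
    exact congrArg (fun k : ℤ => (k : ℝ) * Real.pi) e
  refine ⟨_, by rw [← inj.encard_image, img, encard_coe_eq_coe_finsetCard], ?_⟩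
  have m1 : |θ x - θ X - (x - X)| ≤ η * (x - X) := by
    rcases hx.eq_or_lt with c | c
    · simp [c]
    · exact mv X x le_rfl c
  have m2 : θ X / Real.pi ≤ θ x / Real.pi := by
    gcongr
    exact sm.monotoneOn ⟨le_rfl, hx⟩ ⟨hx, le_rfl⟩ hx
  have f1 := Int.floor_le (θ x / Real.pi)
  have f2 := Int.lt_floor_add_one (θ x / Real.pi)
  have f3 := Int.le_ceil (θ X / Real.pi)
  have f4 := Int.ceil_lt_add_one (θ X / Real.pi)
  have nn : ⌈θ X / Real.pi⌉ ≤ ⌊θ x / Real.pi⌋ + 1 := by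
    rw [Int.ceil_le]; push_cast; linarith
  have cd := congrArg (Int.cast : ℤ → ℝ) (Int.card_Icc_of_le _ _ nn)
  push_cast at cd
  have k : |θ x / Real.pi - θ X / Real.pi - (x - X) / Real.pi| ≤ η * (x - X) := by
    rw [← sub_div, ← sub_div, abs_div, abs_of_pos p0, div_le_iff₀ p0]
    have := (abs_nonneg _).trans m1
    nlinarith
  obtain ⟨c1, c2⟩ := abs_le.1 k
  rw [cd, abs_le]
  constructor <;> linarith

end Pool.Agent.MP_cdfc49_an.BZ
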