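import Mathlib
import Pool.Agent.MP_cdfc49_an.BZ.All

set_option autoImplicit false

namespace Pool.Agent.MP_cdfc49_an.BZ

open Filter Topology Set MeasureTheory Complex
open scoped Real

/-- Direction of the segment through the saddle point. -/
noncomputable def om : ℂ := 1 / 4 + I

/-- The segment through the saddle point. -/
noncomputable def Tp (r : ℝ) : ℂ := (π / 2 : ℝ) * I + r * om

noncomputable def fB (ν : ℝ) (j : ℕ) (x r : ℝ) : ℂ :=
  sinh (Tp r) ^ j * exp (x * sinh (Tp r) - ν * Tp r) * om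

noncomputable def HB' (ν : ℝ) (j : ℕ) (x : ℝ) : ℂ := ∫ r in (-(π / 2))..(π / 2), fB ν j x r

noncomputable def fA (ν : ℝ) (j : ℕ) (x r : ℝ) : ℝ :=
  Real.sinh r ^ j * Real.exp (-(x * Real.sinh r) - ν * r)

noncomputable def HA (ν : ℝ) (j : ℕ) (x : ℝ) : ℝ := ∫ r in Ioi (π / 8), fA ν j x r

/-- A Hankel type integral; its imaginary part is a multiple of the derivative of `J_ν`. -/
noncomputable def HE (ν : ℝ) (j : ℕ) (x : ℝ) : ℂ :=
  HB' ν j x + (-1) ^ j * exp (-(ν * π * I)) * HA ν j x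

theorem om_norm : 1 ≤ ‖om‖ ∧ ‖om‖ ≤ 5 / 4 := by
  constructor
  · simpa [om] using abs_im_le_norm om
  · refine (norm_add_le _ _).trans ?_
    simp
    norm_num

theorem sinh_Tp (r : ℝ) : sinh (Tp r) = I * cosh (r * om) := by
  rw [Tp, sinh_add, sinh_mul_I, cosh_mul_I, ← ofReal_sin, ← ofReal_cos, Real.sin_pi_div_two,
    Real.cos_pi_div_two]
  simp

theorem cosh_om (r : ℝ) : cosh (r * om) = ((Real.cosh (r / 4) * Real.cos r : ℝ) : ℂ) +
    ((Real.sinh (r / 4) * Real.sin r : ℝ) : ℂ) * I := by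
  rw [show (r : ℂ) * om = ((r / 4 : ℝ) : ℂ) + r * I by rw [om]; push_cast; ring, cosh_add,
    sinh_mul_I, cosh_mul_I]
  push_cast
  ring

theorem seg_real {r : ℝ} (h0 : 0 ≤ r) (h : r ≤ π / 2) :
    Real.sinh (r / 4) ≤ Real.sin r ∧ r ^ 2 / 7 ≤ Real.sinh (r / 4) * Real.sin r := by
  have p := Real.pi_lt_d2
  have p0 := Real.pi_pos
  have s1 : 2 / π * r ≤ Real.sin r := Real.mul_le_sin h0 h
  have s2 : 4 / 7 * r ≤ Real.sin r := by
    refine le_trans (mul_le_mul_of_nonneg_right ?_ h0) s1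
    rw [le_div_iff₀ p0]
    linarith
  have s3 : r / 4 ≤ Real.sinh (r / 4) := Real.self_le_sinh_iff.2 (by linarith)
  have s4 := (abs_le.1 (Real.abs_exp_sub_one_le (x := r / 4) (by
    rw [abs_of_nonneg (by linarith)]; linarith))).2
  rw [abs_of_nonneg (by linarith)] at s4
  have s5 := Real.add_one_le_exp (-(r / 4))
  refine ⟨by rw [Real.sinh_eq]; linarith, ?_⟩
  have := mul_le_mul s3 s2 (by linarith) (by linarith)
  linarith

theorem seg_bd {r : ℝ} (h : |r| ≤ π / 2) :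
    ‖cosh (r * om)‖ ≤ 1 ∧ (I * cosh (r * om)).re ≤ -(r ^ 2 / 7) := by
  obtain ⟨a, b⟩ := seg_real (abs_nonneg r) h
  have a0 : 0 ≤ Real.sinh (|r| / 4) := Real.sinh_nonneg_iff.2 (by positivity)
  have a1 := pow_le_pow_left₀ a0 a 2
  have e : Real.sinh (|r| / 4) ^ 2 = Real.sinh (r / 4) ^ 2 ∧ Real.sin |r| ^ 2 = Real.sin r ^ 2 ∧
      Real.sinh (|r| / 4) * Real.sin |r| = Real.sinh (r / 4) * Real.sin r := by
    rcases abs_choice r with c | c <;> simp [c, neg_div]
  rw [e.1, e.2.1] at a1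
  rw [e.2.2, sq_abs] at b
  rw [cosh_om]
  constructor
  · rw [← sq_le_one_iff₀ (norm_nonneg _), ← normSq_eq_norm_sq, normSq_add_mul_I]
    nlinarith [Real.cosh_sq (r / 4), Real.sin_sq_add_cos_sq r]
  · simp only [mul_re, I_re, I_im, add_im, ofReal_im, mul_im, ofReal_re]
    linarith

theorem seg_nu (ν : ℝ) {r : ℝ} (h : |r| ≤ π / 2) : (-(ν * (r * om)) : ℂ).re ≤ |ν| := by
  have p := Real.pi_lt_d2
  have e : (-(ν * (r * om)) : ℂ).re = -(ν * r) / 4 := by simp [om]; ring
  have := neg_le_abs (ν * r)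
  rw [abs_mul] at this
  rw [e]
  nlinarith [abs_nonneg ν]

theorem fB_norm (ν : ℝ) (j : ℕ) {x r : ℝ} (hx : 0 ≤ x) (h : |r| ≤ π / 2) :
    ‖fB ν j x r‖ ≤ 2 * Real.exp |ν| * Real.exp (-(x * r ^ 2 / 7)) := by
  obtain ⟨a, b⟩ := seg_bd h
  have c := seg_nu ν h
  have e : (x * sinh (Tp r) - ν * Tp r).re =
      x * (I * cosh (r * om)).re + (-(ν * (r * om)) : ℂ).re := by
    rw [sinh_Tp, Tp, sub_re, re_ofReal_mul, neg_re, mul_add, add_re]
    simp only [mul_re, ofReal_re, ofReal_im, I_re, I_im, mul_im]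
    ring
  have k1 : ‖sinh (Tp r)‖ ^ j ≤ 1 := pow_le_one₀ (norm_nonneg _) (by
    rw [sinh_Tp, norm_mul, norm_I, one_mul]; exact a)
  have k2 : Real.exp (x * sinh (Tp r) - ν * Tp r).re ≤
      Real.exp |ν| * Real.exp (-(x * r ^ 2 / 7)) := by
    rw [← Real.exp_add, e]
    exact Real.exp_le_exp.2 (by linarith [mul_le_mul_of_nonneg_left b hx])
  rw [fB, norm_mul, norm_mul, norm_pow, norm_exp]
  calc _ ≤ 1 * (Real.exp |ν| * Real.exp (-(x * r ^ 2 / 7))) * 2 := by
        gcongr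
        linarith [om_norm.2]
    _ = _ := by ring

theorem fB_norm' (ν : ℝ) (j : ℕ) {x r : ℝ} (hx : 0 ≤ x) (h : |r| ≤ π / 2) :
    ‖fB ν j x r‖ ≤ 2 * Real.exp |ν| :=
  (fB_norm ν j hx h).trans (mul_le_of_le_one_right (by positivity)
    (Real.exp_le_one_iff.2 (neg_nonpos.2 (by positivity))))

theorem fB_cont (ν : ℝ) (j : ℕ) (x : ℝ) : Continuous (fB ν j x) := by
  unfold fB Tp
  fun_prop

theorem seg_mem {r : ℝ} (h : r ∈ uIoc (-(π / 2)) (π / 2)) : |r| ≤ π / 2 := by
  rw [uIoc_of_le (by linarith [Real.pi_pos])] at h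
  exact abs_le.2 ⟨h.1.le, h.2⟩

theorem HB_norm (ν : ℝ) (j : ℕ) {x : ℝ} (hx : 0 ≤ x) : ‖HB' ν j x‖ ≤ 8 * Real.exp |ν| := by
  refine (intervalIntegral.norm_integral_le_of_norm_le_const
    fun r hr => fB_norm' ν j hx (seg_mem hr)).trans ?_
  rw [sub_neg_eq_add, add_halves, abs_of_pos Real.pi_pos]
  nlinarith [Real.pi_lt_four, Real.exp_pos |ν|]

theorem dB (ν : ℝ) (j : ℕ) {x : ℝ} (hx : 0 < x) : HasDerivAt (HB' ν j) (HB' ν (j + 1) x) x := by
  refine (intervalIntegral.hasDerivAt_integral_of_dominated_loc_of_deriv_le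
    (F := fun y r => fB ν j y r) (F' := fun y r => fB ν (j + 1) y r)
    (bound := fun _ => 2 * Real.exp |ν|) (Ioi_mem_nhds hx)
    (Eventually.of_forall fun y => (fB_cont ν j y).aestronglyMeasurable)
    ((fB_cont ν j x).intervalIntegrable _ _) (fB_cont ν _ x).aestronglyMeasurable
    (Eventually.of_forall fun r hr y hy => fB_norm' ν _ (le_of_lt hy) (seg_mem hr))
    intervalIntegrable_const (Eventually.of_forall fun r _ y _ => ?_)).2
  have := ((((hasDerivAt_id y).ofReal_comp.mul_const (sinh (Tp r))).sub_const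
    (ν * Tp r)).cexp.const_mul (sinh (Tp r) ^ j)).mul_const om
  refine this.congr_deriv ?_
  simp only [fB, id]
  push_cast
  ring

theorem fA_pos (ν : ℝ) (j : ℕ) (x : ℝ) {r : ℝ} (h : 0 ≤ r) : 0 ≤ fA ν j x r :=
  mul_nonneg (pow_nonneg (Real.sinh_nonneg_iff.2 h) _) (Real.exp_pos _).le

theorem fA_cont (ν : ℝ) (j : ℕ) (x : ℝ) : Continuous (fA ν j x) := by
  unfold fA
  fun_prop

theorem fA_le (ν : ℝ) (j : ℕ) {x r : ℝ} (hx : 0 < x) (h : 0 ≤ r) :
    fA ν j x r ≤ Real.exp ((j + |ν| + 1) ^ 2 / x) * Real.exp (-r) := by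
  have s0 := Real.sinh_nonneg_iff.2 h
  have s1 : Real.sinh r ≤ Real.exp r := by
    rw [Real.sinh_eq]; linarith [Real.exp_pos r, Real.exp_pos (-r)]
  have s2 : r ^ 2 / 4 ≤ Real.sinh r := by
    have := Real.quadratic_le_exp_of_nonneg h
    have := Real.exp_le_one_iff.2 (neg_nonpos.2 h)
    rw [Real.sinh_eq]; linarith
  have k : (j + |ν| + 1) * r ≤ (j + |ν| + 1) ^ 2 / x + x * (r ^ 2 / 4) := by
    rw [div_add' _ _ _ hx.ne', le_div_iff₀ hx]
    nlinarith [sq_nonneg ((j + |ν| + 1) - x * r / 2)]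
  refine (mul_le_mul_of_nonneg_right (pow_le_pow_left₀ s0 s1 j) (Real.exp_pos _).le).trans ?_
  rw [← Real.exp_nat_mul, ← Real.exp_add, ← Real.exp_add]
  refine Real.exp_le_exp.2 ?_
  linarith [mul_le_mul_of_nonneg_left s2 hx.le, mul_le_mul_of_nonneg_right (neg_le_abs ν) h]

theorem ioi_pos {r : ℝ} (h : r ∈ Ioi (π / 8)) : 0 ≤ r :=
  le_trans (by positivity) (le_of_lt h)

theorem intA (ν : ℝ) (j : ℕ) {x : ℝ} (hx : 0 < x) : IntegrableOn (fA ν j x) (Ioi (π / 8)) := by
  refine Integrable.mono' ((integrableOn_exp_neg_Ioi (π / 8)).const_mul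
    (Real.exp ((j + |ν| + 1) ^ 2 / x))) (fA_cont ν j x).aestronglyMeasurable ?_
  filter_upwards [ae_restrict_mem measurableSet_Ioi] with r hr
  rw [Real.norm_of_nonneg (fA_pos ν j x (ioi_pos hr))]
  exact fA_le ν j hx (ioi_pos hr)

theorem HA_pos (ν : ℝ) (j : ℕ) (x : ℝ) : 0 ≤ HA ν j x :=
  setIntegral_nonneg measurableSet_Ioi fun _ hr => fA_pos ν j x (ioi_pos hr)

theorem dA (ν : ℝ) (j : ℕ) {x : ℝ} (hx : 0 < x) : HasDerivAt (HA ν j) (-HA ν (j + 1) x) x := by
  have := (hasDerivAt_integral_of_dominated_loc_of_deriv_le (μ := volume.restrict (Ioi (π / 8)))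
    (F := fun y r => fA ν j y r) (F' := fun y r => -fA ν (j + 1) y r)
    (bound := fA ν (j + 1) (x / 2)) (Ioi_mem_nhds (half_lt_self hx))
    (Eventually.of_forall fun y => (fA_cont ν j y).aestronglyMeasurable) (intA ν j hx)
    (fA_cont ν _ x).neg.aestronglyMeasurable ?_ (intA ν _ (half_pos hx))
    (Eventually.of_forall fun r y _ => ?_)).2
  · rwa [integral_neg] at this
  · filter_upwards [ae_restrict_mem measurableSet_Ioi] with r hr y hy
    have s0 := Real.sinh_nonneg_iff.2 (ioi_pos hr)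
    rw [norm_neg, Real.norm_of_nonneg (fA_pos ν _ y (ioi_pos hr))]
    exact mul_le_mul_of_nonneg_left (Real.exp_le_exp.2 (by
      linarith [mul_le_mul_of_nonneg_right (le_of_lt hy) s0])) (pow_nonneg s0 _)
  · have := ((((hasDerivAt_id y).mul_const (Real.sinh r)).neg.sub_const
      (ν * r)).exp.const_mul (Real.sinh r ^ j))
    refine this.congr_deriv ?_
    simp only [fA, id, Pi.neg_apply]
    ring

theorem dE (ν : ℝ) (j : ℕ) {x : ℝ} (hx : 0 < x) : HasDerivAt (HE ν j) (HE ν (j + 1) x) x := by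
  refine ((dB ν j hx).add ((dA ν j hx).ofReal_comp.const_mul
    ((-1) ^ j * exp (-(ν * π * I))))).congr_deriv ?_
  rw [HE]
  push_cast
  ring

theorem ph_shift (ν : ℝ) : exp (-((ν - 1 : ℝ) * π * I)) = -exp (-(ν * π * I)) ∧
    exp (-((ν + 1 : ℝ) * π * I)) = -exp (-(ν * π * I)) := by
  constructor
  · rw [show -((ν - 1 : ℝ) * π * I : ℂ) = -(ν * π * I) + π * I by push_cast; ring, exp_add,
      exp_pi_mul_I, mul_neg_one]
  · rw [show -((ν + 1 : ℝ) * π * I : ℂ) = -(ν * π * I) - π * I by push_cast; ring, exp_sub,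
      exp_pi_mul_I, div_neg, div_one]

theorem fB_shift (ν x r : ℝ) : fB (ν - 1) 0 x r = exp (Tp r) * fB ν 0 x r ∧
    fB (ν + 1) 0 x r = exp (-Tp r) * fB ν 0 x r := by
  simp only [fB, pow_zero, one_mul, ← mul_assoc, ← exp_add]
  push_cast
  constructor <;> congr 2 <;> ring

theorem fA_shift (ν x r : ℝ) : fA (ν - 1) 0 x r = Real.exp r * fA ν 0 x r ∧
    fA (ν + 1) 0 x r = Real.exp (-r) * fA ν 0 x r := by
  simp only [fA, pow_zero, one_mul, ← Real.exp_add]
  constructor <;> congr 1 <;> ring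

theorem id1 (ν : ℝ) {x : ℝ} (hx : 0 < x) : HE (ν - 1) 0 x - HE (ν + 1) 0 x = 2 * HE ν 1 x := by
  have b : HB' (ν - 1) 0 x - HB' (ν + 1) 0 x = 2 * HB' ν 1 x := by
    rw [HB', HB', HB', ← intervalIntegral.integral_sub ((fB_cont _ _ _).intervalIntegrable _ _)
      ((fB_cont _ _ _).intervalIntegrable _ _), ← intervalIntegral.integral_const_mul]
    refine intervalIntegral.integral_congr fun r _ => ?_
    simp only [(fB_shift ν x r).1, (fB_shift ν x r).2]
    simp only [fB, pow_zero, pow_one]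
    linear_combination (-(exp (x * sinh (Tp r) - ν * Tp r) * om)) * two_sinh (Tp r)
  have a : HA (ν - 1) 0 x - HA (ν + 1) 0 x = 2 * HA ν 1 x := by
    rw [HA, HA, HA, ← integral_sub (intA _ _ hx) (intA _ _ hx), ← integral_const_mul]
    refine integral_congr_ae (Eventually.of_forall fun r => ?_)
    simp only [(fA_shift ν x r).1, (fA_shift ν x r).2]
    simp only [fA, pow_zero, pow_one]
    linear_combination (-2 * Real.exp (-(x * Real.sinh r) - ν * r)) * Real.sinh_eq r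
  have a' := congrArg (fun t : ℝ => (t : ℂ)) a
  simp only [HE, (ph_shift ν).1, (ph_shift ν).2]
  push_cast at a'
  linear_combination b - exp (-(ν * π * I)) * a'

theorem id2 (ν : ℝ) {x : ℝ} (hx : 0 < x) :
    x * ((HE (ν - 1) 0 x).im + (HE (ν + 1) 0 x).im) = 2 * ν * (HE ν 0 x).im := by
  have i := fun μ => (fB_cont μ 0 x).intervalIntegrable (μ := volume) (-(π / 2)) (π / 2)
  have b : x * (HB' (ν - 1) 0 x + HB' (ν + 1) 0 x) - 2 * ν * HB' ν 0 x =
      2 * exp (x * sinh (Tp (π / 2)) - ν * Tp (π / 2)) -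
        2 * exp (x * sinh (Tp (-(π / 2))) - ν * Tp (-(π / 2))) := by
    rw [HB', HB', HB', ← intervalIntegral.integral_add (i _) (i _),
      ← intervalIntegral.integral_const_mul, ← intervalIntegral.integral_const_mul,
      ← intervalIntegral.integral_sub (((i _).add (i _)).const_mul _) ((i _).const_mul _)]
    refine intervalIntegral.integral_eq_sub_of_hasDerivAt
      (f := fun r => 2 * exp (x * sinh (Tp r) - ν * Tp r)) (fun r _ => ?_)
      ((((i _).add (i _)).const_mul _).sub ((i _).const_mul _))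
    have t : HasDerivAt Tp om r := by
      have := ((hasDerivAt_id r).ofReal_comp.mul_const om).const_add (((π / 2 : ℝ) : ℂ) * I)
      exact this.congr_deriv (by simp)
    have s : HasDerivAt (fun r => sinh (Tp r)) (cosh (Tp r) * om) r :=
      (Complex.hasDerivAt_sinh (Tp r)).comp r t
    refine (((s.const_mul (x : ℂ)).sub (t.const_mul (ν : ℂ))).cexp.const_mul 2).congr_deriv ?_
    simp only [(fB_shift ν x r).1, (fB_shift ν x r).2]
    simp only [fB, pow_zero, Pi.sub_apply]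
    linear_combination (x * exp (x * sinh (Tp r) - ν * Tp r) * om) * two_cosh (Tp r)
  have a : x * (HA (ν - 1) 0 x + HA (ν + 1) 0 x) + 2 * ν * HA ν 0 x = 2 * fA ν 0 x (π / 8) := by
    have ii : Integrable (fun r => x * (fA (ν - 1) 0 x r + fA (ν + 1) 0 x r))
        (volume.restrict (Ioi (π / 8))) :=
      ((intA (ν - 1) 0 hx).add (intA (ν + 1) 0 hx)).const_mul x
    have ij := (intA ν 0 hx).const_mul (2 * ν)
    have lim : Tendsto (fun r => -2 * fA ν 0 x r) atTop (𝓝 0) := by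
      have := (squeeze_zero' (eventually_ge_atTop 0 |>.mono fun r hr => fA_pos ν 0 x hr)
        (eventually_ge_atTop 0 |>.mono fun r hr => fA_le ν 0 hx hr)
        (by simpa using Real.tendsto_exp_neg_atTop_nhds_zero.const_mul _)).const_mul (-2)
      simpa using this
    have := integral_Ioi_of_hasDerivAt_of_tendsto (a := π / 8) (f := fun r => -2 * fA ν 0 x r)
      (f' := fun r => x * (fA (ν - 1) 0 x r + fA (ν + 1) 0 x r) + 2 * ν * fA ν 0 x r)
      (continuous_const.mul (fA_cont ν 0 x)).continuousWithinAt (fun r _ => by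
        have := (((((Real.hasDerivAt_sinh r).const_mul x).neg.sub
          ((hasDerivAt_id r).const_mul ν)).exp.const_mul (Real.sinh r ^ 0)).const_mul (-2))
        simp only [pow_zero, one_mul] at this
        simp only [(fA_shift ν x r).1, (fA_shift ν x r).2]
        simp only [fA, pow_zero, one_mul]
        refine this.congr_deriv ?_
        simp only [id, Pi.sub_apply, Pi.neg_apply]
        linear_combination (2 * x * Real.exp (-(x * Real.sinh r) - ν * r)) * Real.cosh_eq r)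
      (ii.add ij) lim
    rw [integral_add ii ij, integral_const_mul, integral_const_mul,
      integral_add (intA _ _ hx) (intA _ _ hx)] at this
    rw [HA, HA, HA]
    linarith
  have e1 : Tp (π / 2) = (π / 8 : ℝ) + π * I := by rw [Tp, om]; push_cast; ring
  have e2 : Tp (-(π / 2)) = (-(π / 8) : ℝ) := by rw [Tp, om]; push_cast; ring
  have e3 : exp (x * sinh (Tp (π / 2)) - ν * Tp (π / 2)) =
      exp (-(ν * π * I)) * fA ν 0 x (π / 8) := by
    rw [e1, sinh_add, sinh_mul_I, cosh_mul_I, Complex.sin_pi, Complex.cos_pi, fA, pow_zero,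
      one_mul, ofReal_exp, ← exp_add]
    congr 1
    push_cast
    ring
  have e4 : (exp (x * sinh (Tp (-(π / 2))) - ν * Tp (-(π / 2)))).im = 0 := by
    rw [e2, ← ofReal_sinh, ← ofReal_mul, ← ofReal_mul, ← ofReal_sub, ← ofReal_exp, ofReal_im]
  have a' := congrArg (fun t : ℝ => (t : ℂ)) a
  have k : x * (HE (ν - 1) 0 x + HE (ν + 1) 0 x) - ((2 * ν : ℝ) : ℂ) * HE ν 0 x =
      ((-2 : ℝ) : ℂ) * exp (x * sinh (Tp (-(π / 2))) - ν * Tp (-(π / 2))) := by
    simp only [HE, (ph_shift ν).1, (ph_shift ν).2]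
    rw [e3] at b
    simp only [ofReal_mul, ofReal_add, ofReal_ofNat, ofReal_neg] at a' ⊢
    linear_combination b - exp (-(ν * π * I)) * a'
  have k2 := congrArg Complex.im k
  rw [sub_im, im_ofReal_mul, im_ofReal_mul, im_ofReal_mul, add_im, e4] at k2
  linarith

end Pool.Agent.MP_cdfc49_an.BZ
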