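import Mathlib
import Pool.Agent.MP_cdfc49_an.BZ.T3

set_option autoImplicit false

namespace Pool.Agent.MP_cdfc49_an.BZ

open Filter Topology Set MeasureTheory
open scoped Real

/-- The derivatives of the Bessel function on the positive axis. -/
noncomputable def JJ (ν : ℝ) (j : ℕ) (x : ℝ) : ℝ :=
  (x / 2) ^ (ν - (j : ℝ)) * Fr ν j ((x / 2) ^ 2) / 2 ^ j

theorem dJ (ν : ℝ) (j : ℕ) {x : ℝ} (hx : 0 < x) : HasDerivAt (JJ ν j) (JJ ν (j + 1) x) x := by
  have h0 : 0 < x / 2 := half_pos hx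
  have a := (hasDerivAt_id x).div_const 2
  have b := (relT ν ((x / 2) ^ 2)).1 j
  have c : HasDerivAt (fun y : ℝ => Fr ν j ((y / 2) ^ 2))
      (Dr ν j ((x / 2) ^ 2) * (x / 2)) x :=
    (b.1.comp x (a.pow 2)).congr_deriv (by norm_num; left; ring)
  refine (((a.rpow_const (p := ν - (j : ℝ)) (Or.inl h0.ne')).mul c).div_const
    (2 ^ j)).congr_deriv ?_
  simp only [id, JJ]
  rw [show ν - ((j + 1 : ℕ) : ℝ) = ν - j - 1 by push_cast; ring,
    show (x / 2) ^ (ν - (j : ℝ)) = (x / 2) ^ (ν - j - 1) * (x / 2) by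
      rw [← Real.rpow_add_one h0.ne', sub_add_cancel], pow_succ (2 : ℝ) j]
  linear_combination ((x / 2) ^ (ν - j - 1) / (2 ^ j * 2)) * b.2

/-- The recurrences of cylinder functions. -/
def Cyl (u : ℝ → ℝ → ℝ) : Prop := ∀ ν x : ℝ, 0 < x →
  HasDerivAt (u ν) ((u (ν - 1) x - u (ν + 1) x) / 2) x ∧
    x * (u (ν - 1) x + u (ν + 1) x) = 2 * ν * u ν x

theorem cyl_E : Cyl fun ν x => (HE ν 0 x).im := by
  intro ν x hx
  refine ⟨(Complex.imCLM.hasFDerivAt.comp_hasDerivAt x (dE ν 0 hx)).congr_deriv ?_, id2 ν hx⟩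
  have := congrArg Complex.im (id1 ν hx)
  simp only [Complex.sub_im, Complex.mul_im, Complex.re_ofNat, Complex.im_ofNat] at this
  simp only [Complex.imCLM_apply, zero_add]
  linarith

theorem cyl_J : Cyl fun ν x => JJ ν 0 x := by
  intro ν x hx
  have h0 : 0 < x / 2 := half_pos hx
  have a := all_rec 0 ν ((x / 2) ^ 2)
  have b := (relT ν ((x / 2) ^ 2)).2.2.1
  have c := (relT (ν + 1) ((x / 2) ^ 2)).2.2.2.1
  rw [add_sub_cancel_right] at c
  have e1 : (x / 2) ^ ν = (x / 2) ^ (ν - 1) * (x / 2) := by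
    rw [← Real.rpow_add_one h0.ne', sub_add_cancel]
  have e2 : (x / 2) ^ (ν + 1) = (x / 2) ^ (ν - 1) * (x / 2) * (x / 2) := by
    rw [Real.rpow_add_one h0.ne', e1]
  refine ⟨(dJ ν 0 hx).congr_deriv ?_, ?_⟩
  · simp only [JJ, Nat.cast_zero, sub_zero, zero_add, Nat.cast_one, e2] at a ⊢
    linear_combination ((x / 2) ^ (ν - 1) / 2) * a
  · simp only [JJ, Nat.cast_zero, sub_zero, e2]
    rw [e1]
    linear_combination (x * (x / 2) ^ (ν - 1)) * b + (x * (x / 2) ^ (ν - 1) * (x / 2) ^ 2) * c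

theorem Cyl.sys {u : ℝ → ℝ → ℝ} (h : Cyl u) (ν : ℝ) {x : ℝ} (hx : 0 < x) :
    HasDerivAt (u ν) (u (ν - 1) x - ν / x * u ν x) x ∧
    HasDerivAt (u (ν - 1)) ((ν - 1) / x * u (ν - 1) x - u ν x) x := by
  obtain ⟨a, b⟩ := h ν x hx
  obtain ⟨c, d⟩ := h (ν - 1) x hx
  rw [sub_add_cancel] at c d
  refine ⟨a.congr_deriv ?_, c.congr_deriv ?_⟩
  · field_simp
    linarith
  · field_simp
    linarith

theorem const_Ioi {f : ℝ → ℝ} (h : ∀ x, 0 < x → HasDerivAt f 0 x) {a b : ℝ} (ha : 0 < a)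
    (hb : 0 < b) : f a = f b :=
  isOpen_Ioi.is_const_of_deriv_eq_zero isPreconnected_Ioi
    (fun x hx => (h x hx).differentiableAt.differentiableWithinAt) (fun x hx => (h x hx).deriv)
    ha hb

theorem E_bdd {μ : ℝ} (hμ : 0 < μ) : ∃ C, ∀ x, 0 < x → |(HE μ 0 x).im| ≤ C := by
  refine ⟨8 * Real.exp |μ| + ∫ r in Ioi (π / 8), Real.exp (-μ * r), fun x hx =>
    (Complex.abs_im_le_norm _).trans ((norm_add_le _ _).trans (add_le_add (HB_norm μ 0 hx.le) ?_))⟩
  rw [pow_zero, one_mul, norm_mul, Complex.norm_exp, Complex.norm_real,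
    Real.norm_of_nonneg (HA_pos _ _ _)]
  simp only [Complex.neg_re, Complex.mul_re, Complex.ofReal_re, Complex.ofReal_im, Complex.I_re,
    Complex.I_im, Complex.mul_im, mul_zero, zero_mul, add_zero, sub_zero, neg_zero, Real.exp_zero,
    one_mul]
  refine setIntegral_mono_on (intA μ 0 hx) (exp_neg_integrableOn_Ioi _ hμ) measurableSet_Ioi
    fun r hr => ?_
  rw [fA, pow_zero, one_mul]
  exact Real.exp_le_exp.2 (by
    linarith [mul_nonneg hx.le (Real.sinh_nonneg_iff.2 (ioi_pos hr))])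

theorem J_lim {μ : ℝ} (hμ : 0 < μ) : Tendsto (JJ μ 0) (𝓝[>] 0) (𝓝 0) := by
  have c : ContinuousAt (JJ μ 0) 0 := by
    unfold JJ
    refine (ContinuousAt.mul (ContinuousAt.rpow_const (by fun_prop) (Or.inr (by simpa using hμ.le)))
      (((sys_Fr relT (wd relT) sim μ).cont 0).continuousAt.comp (by fun_prop))).div_const _
  have := c.tendsto.mono_left (nhdsWithin_le_nhds (s := Ioi 0))
  rwa [show JJ μ 0 0 = 0 by simp [JJ, hμ.ne']] at this

theorem EJ_lim {μ μ' : ℝ} (h : 0 < μ) (h' : 0 < μ') :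
    Tendsto (fun x => (HE μ 0 x).im * JJ μ' 0 x) (𝓝[>] 0) (𝓝 0) := by
  obtain ⟨C, hC⟩ := E_bdd h
  refine squeeze_zero_norm' (a := fun x => C * |JJ μ' 0 x|) ?_
    (by simpa using (J_lim h').abs.const_mul C)
  filter_upwards [self_mem_nhdsWithin] with x hx
  rw [norm_mul]
  exact mul_le_mul_of_nonneg_right (hC x hx) (abs_nonneg _)

theorem JJ_zero {ν x : ℝ} {j : ℕ} (hx : 0 < x) : JJ ν j x = 0 ↔ Fr ν j ((x / 2) ^ 2) = 0 := by
  have := Real.rpow_pos_of_pos (half_pos hx) (ν - (j : ℝ))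
  rw [JJ, div_eq_zero_iff, mul_eq_zero, or_iff_left (by positivity), or_iff_right this.ne']

theorem ident_top {ν : ℝ} (hν : 1 < ν) : ∃ c : ℝ, ∀ x, 0 < x →
    (HE ν 0 x).im = c * JJ ν 0 x ∧ (HE (ν - 1) 0 x).im = c * JJ (ν - 1) 0 x := by
  set p : ℝ → ℝ := fun x => (HE ν 0 x).im with hp
  set q : ℝ → ℝ := fun x => (HE (ν - 1) 0 x).im with hq
  set P : ℝ → ℝ := fun x => JJ ν 0 x with hP
  set Q : ℝ → ℝ := fun x => JJ (ν - 1) 0 x with hQ
  have d1 : ∀ x, 0 < x → HasDerivAt p (q x - ν / x * p x) x ∧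
      HasDerivAt q ((ν - 1) / x * q x - p x) x := fun x hx => cyl_E.sys ν hx
  have d2 : ∀ x, 0 < x → HasDerivAt P (Q x - ν / x * P x) x ∧
      HasDerivAt Q ((ν - 1) / x * Q x - P x) x := fun x hx => cyl_J.sys ν hx
  have W : ∀ x, 0 < x → p x * Q x = q x * P x := by
    intro x hx
    have k : ∀ y, 0 < y → HasDerivAt (fun y => y * (p y * Q y - q y * P y)) 0 y := fun y hy =>
      ((hasDerivAt_id y).mul (((d1 y hy).1.mul (d2 y hy).2).sub
        ((d1 y hy).2.mul (d2 y hy).1))).congr_deriv (by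
          simp only [id, Pi.sub_apply, Pi.mul_apply]; field_simp; ring)
    have l : Tendsto (fun y => y * (p y * Q y - q y * P y)) (𝓝[>] 0) (𝓝 (0 * (0 - 0))) :=
      (tendsto_id.mono_left nhdsWithin_le_nhds).mul ((EJ_lim (by linarith) (by linarith)).sub
        (EJ_lim (by linarith) (by linarith)))
    have := tendsto_nhds_unique l (tendsto_const_nhds.congr' (by
      filter_upwards [self_mem_nhdsWithin] with y hy using const_Ioi k hx hy))
    rw [zero_mul] at this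
    exact sub_eq_zero.1 ((mul_eq_zero.1 this.symm).resolve_left hx.ne')
  have N : ∀ x, 0 < x → P x ^ 2 + Q x ^ 2 ≠ 0 := by
    intro x hx e
    have e1 : P x = 0 := by nlinarith [sq_nonneg (P x), sq_nonneg (Q x)]
    have e2 : Q x = 0 := by nlinarith [sq_nonneg (P x), sq_nonneg (Q x)]
    have a := (dJ ν 0 hx).unique (d2 x hx).1
    rw [e1, e2, mul_zero, sub_zero] at a
    exact sim ν _ (by positivity) ((JJ_zero hx).1 e1) ((JJ_zero hx).1 a)
  set c : ℝ → ℝ := fun x => (p x * P x + q x * Q x) / (P x ^ 2 + Q x ^ 2) with hc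
  have r : ∀ x, 0 < x → p x = c x * P x ∧ q x = c x * Q x := by
    intro x hx
    have n := N x hx
    simp only [hc]
    constructor
    · field_simp
      linear_combination Q x * W x hx
    · field_simp
      linear_combination (-P x) * W x hx
  have dc : ∀ x, 0 < x → HasDerivAt c 0 x := by
    intro x hx
    have a : DifferentiableAt ℝ c x :=
      (((d1 x hx).1.differentiableAt.mul (d2 x hx).1.differentiableAt).add
        ((d1 x hx).2.differentiableAt.mul (d2 x hx).2.differentiableAt)).div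
        (((d2 x hx).1.differentiableAt.pow 2).add ((d2 x hx).2.differentiableAt.pow 2)) (N x hx)
    have b1 := (d1 x hx).1.unique ((a.hasDerivAt.mul (d2 x hx).1).congr_of_eventuallyEq
      (mem_of_superset (Ioi_mem_nhds hx) fun y hy => (r y hy).1))
    have b2 := (d1 x hx).2.unique ((a.hasDerivAt.mul (d2 x hx).2).congr_of_eventuallyEq
      (mem_of_superset (Ioi_mem_nhds hx) fun y hy => (r y hy).2))
    rw [(r x hx).1, (r x hx).2] at b1 b2
    refine a.hasDerivAt.congr_deriv ((mul_eq_zero.1 ?_).resolve_right (N x hx))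
    linear_combination (-P x) * b1 - Q x * b2
  refine ⟨c 1, fun x hx => ?_⟩
  rw [const_Ioi dc one_pos hx]
  exact r x hx

theorem ident_all (ν : ℝ) : ∃ c : ℝ, ∀ (j : ℕ) (x : ℝ), 0 < x → (HE ν j x).im = c * JJ ν j x := by
  have key : ∀ (m : ℕ) (μ : ℝ), 1 < μ + m → ∃ c : ℝ, ∀ x, 0 < x →
      (HE μ 0 x).im = c * JJ μ 0 x ∧ (HE (μ - 1) 0 x).im = c * JJ (μ - 1) 0 x := by
    intro m
    induction m with
    | zero => intro μ h; exact ident_top (by simpa using h)
    | succ m ih =>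
      intro μ h
      obtain ⟨c, hc⟩ := ih (μ + 1) (by push_cast at h; linarith)
      refine ⟨c, fun x hx => ?_⟩
      obtain ⟨a, b⟩ := hc x hx
      rw [add_sub_cancel_right] at b
      refine ⟨b, mul_left_cancel₀ hx.ne' ?_⟩
      have e1 := (cyl_E μ x hx).2
      have e2 := (cyl_J μ x hx).2
      simp only at e1 e2
      linear_combination e1 - c * e2 - x * a + 2 * μ * b
  obtain ⟨m, hm⟩ := exists_nat_gt (1 - ν)
  obtain ⟨c, hc⟩ := key m ν (by linarith)
  refine ⟨c, fun j => ?_⟩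
  induction j with
  | zero => exact fun x hx => (hc x hx).1
  | succ j ih =>
    intro x hx
    exact (Complex.imCLM.hasFDerivAt.comp_hasDerivAt x (dE ν j hx)).unique
      (((dJ ν j hx).const_mul c).congr_of_eventuallyEq
        (mem_of_superset (Ioi_mem_nhds hx) fun y hy => ih y hy))

end Pool.Agent.MP_cdfc49_an.BZ
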