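import Mathlib
import Pool.Agent.MP_cdfc49_an.BZ.T3

set_option autoImplicit false

namespace Pool.Agent.MP_cdfc49_an.BZ

open Filter Topology Set MeasureTheory Complex
open scoped Real

theorem exp_lip {A B : ℂ} {m : ℝ} (hA : A.re ≤ m) (hB : B.re ≤ m) :
    ‖exp A - exp B‖ ≤ Real.exp m * ‖A - B‖ :=
  (convex_halfSpace_re_le m).norm_image_sub_le_of_norm_hasDerivWithin_le
    (fun z _ => (Complex.hasDerivAt_exp z).hasDerivWithinAt)
    (fun z hz => by rw [norm_exp]; exact Real.exp_le_exp.2 hz) hB hA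

theorem pow_lip {p q : ℂ} (hp : ‖p‖ ≤ 1) (hq : ‖q‖ ≤ 1) (j : ℕ) :
    ‖p ^ j - q ^ j‖ ≤ j * ‖p - q‖ := by
  induction j with
  | zero => simp
  | succ j ih =>
    rw [show p ^ (j + 1) - q ^ (j + 1) = p * (p ^ j - q ^ j) + q ^ j * (p - q) by ring]
    refine (norm_add_le _ _).trans ?_
    rw [norm_mul, norm_mul, norm_pow]
    have a := mul_le_of_le_one_left (norm_nonneg (p ^ j - q ^ j)) hp
    have b := mul_le_of_le_one_left (norm_nonneg (p - q)) (pow_le_one₀ (norm_nonneg q) hq (n := j))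
    push_cast
    linarith

theorem exp_nine {t : ℝ} (h : t ≤ 2) : Real.exp t ≤ 9 := by
  have a := Real.exp_one_lt_d9
  have b := Real.exp_pos 1
  have c : Real.exp 2 = Real.exp 1 * Real.exp 1 := by rw [← Real.exp_add]; norm_num
  exact (Real.exp_le_exp.2 h).trans (by nlinarith)

theorem om_sq (r : ℝ) : ((r : ℂ) * om) ^ 2 / 2 = ((-(15 / 32) * r ^ 2 : ℝ) : ℂ) +
    ((r ^ 2 / 4 : ℝ) : ℂ) * I := by
  rw [om]
  push_cast
  linear_combination ((r : ℂ) ^ 2 / 2) * I_sq

theorem seg_taylor {r : ℝ} (h : |r| ≤ π / 2) :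
    ‖cosh (r * om) - 1 - (r * om) ^ 2 / 2‖ ≤ 27 * r ^ 4 ∧
    ‖cosh (r * om) - exp ((r * om) ^ 2 / 2)‖ ≤ 36 * r ^ 4 ∧
    ‖cosh (r * om) - 1‖ ≤ 70 * r ^ 2 ∧ ‖(r : ℂ) * om‖ ≤ 2 * |r| := by
  have p := Real.pi_lt_d2
  set w : ℂ := r * om with hw
  have r0 := abs_nonneg r
  have n1 : ‖w‖ ≤ 5 / 4 * |r| := by
    rw [hw, norm_mul, norm_real, Real.norm_eq_abs, mul_comm]
    exact mul_le_mul_of_nonneg_right om_norm.2 r0
  have n2 : ‖w‖ ≤ 2 := by linarith
  have n3 : ‖w‖ ^ 2 ≤ 25 / 16 * r ^ 2 := by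
    have := pow_le_pow_left₀ (norm_nonneg w) n1 2
    rw [mul_pow, sq_abs] at this
    linarith
  have n4 : ‖w‖ ^ 4 ≤ 3 * r ^ 4 := by
    have := pow_le_pow_left₀ (by positivity) n3 2
    have : 0 ≤ r ^ 4 := by positivity
    nlinarith
  have r2 : r ^ 2 ≤ 5 / 2 := by
    rw [← sq_abs]
    nlinarith
  have w4 : 0 ≤ ‖w‖ ^ 4 := by positivity
  have a1 := norm_exp_sub_sum_le_norm_mul_exp w 4
  have a2 := norm_exp_sub_sum_le_norm_mul_exp (-w) 4
  have a3 := norm_exp_sub_sum_le_norm_mul_exp (w ^ 2 / 2) 2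
  have e1 := mul_le_mul_of_nonneg_left (exp_nine n2) w4
  have nw : ‖w ^ 2 / 2‖ = ‖w‖ ^ 2 / 2 := by simp
  have e2 := mul_le_mul_of_nonneg_left (exp_nine (t := ‖w‖ ^ 2 / 2) (by linarith)) w4
  rw [norm_neg] at a2
  rw [nw] at a3
  have c1 : ‖cosh w - 1 - w ^ 2 / 2‖ ≤ 27 * r ^ 4 := by
    have e : 2 * (cosh w - 1 - w ^ 2 / 2) =
        (exp w - ∑ m ∈ Finset.range 4, w ^ m / m.factorial) +
          (exp (-w) - ∑ m ∈ Finset.range 4, (-w) ^ m / m.factorial) := by
      simp only [Finset.sum_range_succ, Finset.sum_range_zero, Nat.factorial]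
      push_cast
      linear_combination two_cosh w
    have := norm_add_le (exp w - ∑ m ∈ Finset.range 4, w ^ m / m.factorial)
      (exp (-w) - ∑ m ∈ Finset.range 4, (-w) ^ m / m.factorial)
    rw [← e, norm_mul, Complex.norm_ofNat] at this
    linarith
  have c2 : ‖exp (w ^ 2 / 2) - 1 - w ^ 2 / 2‖ ≤ 9 * r ^ 4 := by
    have e : exp (w ^ 2 / 2) - 1 - w ^ 2 / 2 =
        exp (w ^ 2 / 2) - ∑ m ∈ Finset.range 2, (w ^ 2 / 2) ^ m / m.factorial := by
      simp only [Finset.sum_range_succ, Finset.sum_range_zero, Nat.factorial]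
      push_cast
      ring
    rw [e]
    nlinarith
  refine ⟨c1, ?_, ?_, by linarith⟩
  · have := norm_sub_le (cosh w - 1 - w ^ 2 / 2) (exp (w ^ 2 / 2) - 1 - w ^ 2 / 2)
    rw [show cosh w - 1 - w ^ 2 / 2 - (exp (w ^ 2 / 2) - 1 - w ^ 2 / 2) =
      cosh w - exp (w ^ 2 / 2) by ring] at this
    linarith
  · have := norm_add_le (cosh w - 1 - w ^ 2 / 2) (w ^ 2 / 2)
    rw [sub_add_cancel, nw] at this
    nlinarith [sq_nonneg r]

theorem gauss_abs {x : ℝ} (hx : 1 ≤ x) (r : ℝ) :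
    |r| ≤ 14 / √x * Real.exp (x * r ^ 2 / 14) ∧
    x * r ^ 4 ≤ 392 / √x * Real.exp (x * r ^ 2 / 14) := by
  have s1 : 1 ≤ √x := Real.one_le_sqrt.2 hx
  have s2 : √x ^ 2 = x := Real.sq_sqrt (by linarith)
  have y0 : 0 ≤ x * r ^ 2 / 14 := by positivity
  have a := Real.quadratic_le_exp_of_nonneg y0
  rw [div_mul_eq_mul_div, div_mul_eq_mul_div, le_div_iff₀ (by linarith), le_div_iff₀ (by linarith)]
  constructor
  · have := sq_nonneg (|r| * √x - 1)
    have e : (|r| * √x) ^ 2 = x * r ^ 2 := by rw [mul_pow, sq_abs, s2, mul_comm]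
    nlinarith [sq_nonneg (x * r ^ 2 / 14)]
  · have : x * r ^ 4 * √x ≤ x * r ^ 4 * x :=
      mul_le_mul_of_nonneg_left (by nlinarith) (by positivity)
    nlinarith

theorem seg_main (ν : ℝ) {j : ℕ} {x r : ℝ} (hx : 0 ≤ x) (hj : (j : ℝ) ≤ 3 * x) (h : |r| ≤ π / 2) :
    ‖cosh (r * om) ^ j * exp (x * I * (cosh (r * om) - 1)) * exp (-(ν * (r * om))) -
      exp ((r * om) ^ 2 / 2) ^ j * exp (x * I * ((r * om) ^ 2 / 2))‖ ≤
      Real.exp (-(x * r ^ 2 / 7)) * (2 * Real.exp |ν| * |ν| * |r| + 135 * (x * r ^ 4)) := by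
  obtain ⟨a1, a2⟩ := seg_bd h
  obtain ⟨t1, t2, -, t4⟩ := seg_taylor h
  have n := seg_nu ν h
  have o := om_sq r
  set w : ℂ := r * om
  set m := Real.exp (-(x * r ^ 2 / 7)) with hm
  have m0 : 0 < m := Real.exp_pos _
  have q1 : ‖exp (w ^ 2 / 2)‖ ≤ 1 := by
    rw [norm_exp, o]
    refine Real.exp_le_one_iff.2 ?_
    simp only [add_re, ofReal_re, mul_re, I_re, I_im, ofReal_im]
    nlinarith [sq_nonneg r]
  have A1 : (x * I * (cosh w - 1)).re ≤ -(x * r ^ 2 / 7) := by
    rw [mul_assoc, re_ofReal_mul, mul_sub, sub_re, mul_one, I_re]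
    linarith [mul_le_mul_of_nonneg_left a2 hx]
  have A2 : (x * I * (w ^ 2 / 2)).re ≤ -(x * r ^ 2 / 7) := by
    rw [mul_assoc, re_ofReal_mul, o]
    simp only [add_re, add_im, ofReal_re, mul_re, mul_im, I_re, I_im, ofReal_im]
    nlinarith [mul_nonneg hx (sq_nonneg r)]
  have g2 : ‖exp (x * I * (cosh w - 1))‖ ≤ m := by rw [norm_exp]; exact Real.exp_le_exp.2 A1
  have d1 := (pow_lip a1 q1 j).trans (mul_le_mul hj t2 (norm_nonneg _) (by positivity))
  have d2 : ‖exp (x * I * (cosh w - 1)) - exp (x * I * (w ^ 2 / 2))‖ ≤ m * (x * (27 * r ^ 4)) := by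
    refine (exp_lip A1 A2).trans (mul_le_mul_of_nonneg_left ?_ m0.le)
    rw [← mul_sub, norm_mul, norm_mul, norm_I, mul_one, norm_real, Real.norm_of_nonneg hx]
    exact mul_le_mul_of_nonneg_left t1 hx
  have d3 : ‖exp (-(ν * w)) - 1‖ ≤ Real.exp |ν| * (|ν| * (2 * |r|)) := by
    have := exp_lip (B := 0) n (by simp)
    rw [exp_zero, sub_zero, norm_neg, norm_mul, norm_real, Real.norm_eq_abs] at this
    exact this.trans (by gcongr)
  rw [show cosh w ^ j * exp (x * I * (cosh w - 1)) * exp (-(ν * w)) -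
      exp (w ^ 2 / 2) ^ j * exp (x * I * (w ^ 2 / 2)) =
      cosh w ^ j * exp (x * I * (cosh w - 1)) * (exp (-(ν * w)) - 1) +
        (cosh w ^ j - exp (w ^ 2 / 2) ^ j) * exp (x * I * (cosh w - 1)) +
        exp (w ^ 2 / 2) ^ j * (exp (x * I * (cosh w - 1)) - exp (x * I * (w ^ 2 / 2))) by ring]
  refine (norm_add₃_le).trans ?_
  simp only [norm_mul, norm_pow]
  have k1 : ‖cosh w‖ ^ j * ‖exp (x * I * (cosh w - 1))‖ * ‖exp (-(ν * w)) - 1‖ ≤
      1 * m * (Real.exp |ν| * (|ν| * (2 * |r|))) := by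
    gcongr
    exact pow_le_one₀ (norm_nonneg _) a1
  have k2 := mul_le_mul d1 g2 (norm_nonneg _) (by positivity)
  have k3 := mul_le_mul (pow_le_one₀ (norm_nonneg _) q1 (n := j)) d2 (norm_nonneg _) zero_le_one
  linarith

theorem B_low (ν : ℝ) : ∃ C : ℝ, 0 ≤ C ∧ ∀ (j : ℕ) (x : ℝ), 1 ≤ x → (j : ℝ) ≤ 3 * x →
    1 / (2 * √x) - C / x ≤ ‖HB' ν j x‖ := by
  set D := 2 * (28 * Real.exp |ν| * |ν| + 135 * 392) with hD
  have D0 : 28 ≤ D := by
    have : 0 ≤ 28 * Real.exp |ν| * |ν| := by positivity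
    linarith
  refine ⟨7 * D, by linarith, fun j x hx hj => ?_⟩
  have x0 : 0 < x := by linarith
  have s0 : 0 < √x := Real.sqrt_pos.2 x0
  have p := Real.pi_gt_three
  set β : ℂ := -((j + x * I) * (om ^ 2 / 2)) with hβ
  set k0 : ℂ := I ^ j * exp (x * I - ν * ((π / 2 : ℝ) * I)) * om with hk
  have kn : ‖k0‖ = ‖om‖ := by
    rw [hk, norm_mul, norm_mul, norm_pow, norm_I, norm_exp]
    simp
  have o := om_sq 1
  rw [ofReal_one, one_mul] at o
  have br : β.re = 15 / 32 * j + x / 4 := by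
    rw [hβ, o]
    simp only [neg_re, add_re, add_im, ofReal_re, mul_re, mul_im, I_re, I_im, ofReal_im,
      natCast_re, natCast_im]
    ring
  have j0 : (0 : ℝ) ≤ j := Nat.cast_nonneg j
  have b0 : 0 < β.re := by rw [br]; positivity
  have bn : ‖β‖ ≤ 4 * x := by
    have a : ‖(j + x * I : ℂ)‖ ≤ 4 * x := (norm_add_le _ _).trans (by
      rw [norm_mul, norm_I, norm_real, Complex.norm_natCast, Real.norm_of_nonneg x0.le]
      linarith)
    have b : ‖om ^ 2 / 2‖ ≤ 1 := by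
      rw [norm_div, norm_pow, Complex.norm_ofNat]
      nlinarith [om_norm.1, om_norm.2]
    rw [hβ, norm_neg, norm_mul]
    exact (mul_le_mul a b (norm_nonneg _) (by positivity)).trans (mul_one _).le
  have gl : 1 / (2 * √x) ≤ ‖∫ r : ℝ, exp (-β * r ^ 2)‖ := by
    refine (sq_le_sq₀ (by positivity) (norm_nonneg _)).1 ?_
    have n0 : 0 < ‖β‖ := b0.trans_le ((le_abs_self _).trans (abs_re_le_norm β))
    rw [← norm_pow, integral_gaussian_sq_complex b0, norm_div, norm_real,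
      Real.norm_of_nonneg Real.pi_pos.le, div_pow, mul_pow, Real.sq_sqrt x0.le,
      div_le_div_iff₀ (by positivity) n0]
    nlinarith
  have pt : ∀ r : ℝ, ‖(Ioc (-(π / 2)) (π / 2)).indicator (fB ν j x) r - k0 * exp (-β * r ^ 2)‖ ≤
      D / √x * Real.exp (-(x / 14) * r ^ 2) := by
    intro r
    obtain ⟨g1, g2⟩ := gauss_abs hx r
    have ee : Real.exp (-(x * r ^ 2 / 7)) * Real.exp (x * r ^ 2 / 14) =
        Real.exp (-(x / 14) * r ^ 2) := by rw [← Real.exp_add]; congr 1; ring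
    have m0 := Real.exp_pos (-(x * r ^ 2 / 7))
    have on : ‖k0‖ ≤ 2 := by rw [kn]; linarith [om_norm.2]
    by_cases c : |r| ≤ π / 2 ∧ r ≠ -(π / 2)
    · have e1 : fB ν j x r = k0 * (cosh (r * om) ^ j * exp (x * I * (cosh (r * om) - 1)) *
          exp (-(ν * (r * om)))) := by
        rw [fB, sinh_Tp, Tp, hk, show x * (I * cosh (r * om)) - ν * ((π / 2 : ℝ) * I + r * om) =
          (x * I - ν * ((π / 2 : ℝ) * I)) + x * I * (cosh (r * om) - 1) + -(ν * (r * om)) by ring,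
          exp_add, exp_add]
        ring
      have e2 : exp (-β * r ^ 2) =
          exp ((r * om) ^ 2 / 2) ^ j * exp (x * I * ((r * om) ^ 2 / 2)) := by
        rw [← exp_nat_mul, ← exp_add, hβ]
        congr 1
        ring
      rw [indicator_of_mem (show r ∈ Ioc (-(π / 2)) (π / 2) from
        ⟨lt_of_le_of_ne (abs_le.1 c.1).1 c.2.symm, (abs_le.1 c.1).2⟩), e1, e2,
        ← mul_sub, norm_mul]
      refine (mul_le_mul on (seg_main ν x0.le hj c.1) (norm_nonneg _) zero_le_two).trans ?_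
      have k1 := mul_le_mul_of_nonneg_left g1
        (show 0 ≤ 2 * Real.exp |ν| * |ν| by positivity)
      have k2 := mul_le_mul_of_nonneg_left (add_le_add k1
        (mul_le_mul_of_nonneg_left g2 (show (0 : ℝ) ≤ 135 by norm_num))) m0.le
      rw [← ee, hD]
      refine (mul_le_mul_of_nonneg_left k2 zero_le_two).trans (le_of_eq ?_)
      ring
    · have r1 : 1 ≤ |r| := by
        by_contra hc
        refine c ⟨by linarith, fun e => hc ?_⟩
        rw [e, abs_neg, abs_of_pos (by linarith)]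
        linarith
      rw [indicator_of_notMem fun hr => c ⟨abs_le.2 ⟨hr.1.le, hr.2⟩, hr.1.ne'⟩, zero_sub, norm_neg,
        norm_mul, norm_exp]
      have k1 : Real.exp (-β * r ^ 2).re ≤ Real.exp (-(x * r ^ 2 / 7)) := by
        rw [← ofReal_pow, re_mul_ofReal, neg_re, br]
        exact Real.exp_le_exp.2
          (by nlinarith [mul_nonneg j0 (sq_nonneg r), mul_nonneg x0.le (sq_nonneg r)])
      have k2 := mul_le_mul_of_nonneg_left (r1.trans g1) m0.le
      have k3 : 28 / √x * Real.exp (-(x / 14) * r ^ 2) ≤ D / √x * Real.exp (-(x / 14) * r ^ 2) := by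
        gcongr
      refine (mul_le_mul on k1 (Real.exp_pos _).le zero_le_two).trans (le_trans ?_ k3)
      rw [← ee]
      refine (mul_le_mul_of_nonneg_left ((mul_one _).ge.trans k2) zero_le_two).trans (le_of_eq ?_)
      ring
  have i1 : Integrable ((Ioc (-(π / 2)) (π / 2)).indicator (fB ν j x)) :=
    (integrable_indicator_iff measurableSet_Ioc).2 (fB_cont ν j x).integrableOn_Ioc
  have i2 := (integrable_cexp_neg_mul_sq b0).const_mul k0
  have k := norm_integral_le_of_norm_le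
    ((integrable_exp_neg_mul_sq (show 0 < x / 14 by positivity)).const_mul (D / √x))
    (Eventually.of_forall pt)
  rw [integral_sub i1 i2, integral_indicator measurableSet_Ioc, integral_const_mul,
    integral_const_mul, integral_gaussian,
    ← intervalIntegral.integral_of_le (by linarith)] at k
  have k2 : √(π / (x / 14)) ≤ 7 / √x := by
    rw [Real.sqrt_le_left (by positivity), div_pow, Real.sq_sqrt x0.le,
      div_le_div_iff₀ (by positivity) x0]
    nlinarith [Real.pi_lt_d2]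
  have k3 : D / √x * √(π / (x / 14)) ≤ 7 * D / x := by
    refine (mul_le_mul_of_nonneg_left k2 (by positivity)).trans (le_of_eq ?_)
    rw [div_mul_div_comm, Real.mul_self_sqrt x0.le, mul_comm]
  have k4 := norm_sub_norm_le (k0 * ∫ r : ℝ, exp (-β * r ^ 2)) (HB' ν j x)
  rw [norm_sub_rev, norm_mul, kn] at k4
  have k5 := mul_le_mul om_norm.1 gl (by positivity) (norm_nonneg _)
  rw [HB'] at k4 ⊢
  linarith

theorem B_step (ν : ℝ) (j : ℕ) {x : ℝ} (hx : 0 < x) :
    ‖HB' ν (j + 1) x - I * HB' ν j x‖ ≤ 4000 * Real.exp |ν| / x := by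
  rw [HB', HB', ← intervalIntegral.integral_const_mul, ← intervalIntegral.integral_sub
    ((fB_cont _ _ _).intervalIntegrable _ _) (((fB_cont _ _ _).intervalIntegrable _ _).const_mul _)]
  refine (intervalIntegral.norm_integral_le_of_norm_le_const (C := 1000 * Real.exp |ν| / x)
    fun r hr => ?_).trans ?_
  · have h := seg_mem hr
    have e : fB ν (j + 1) x r - I * fB ν j x r = fB ν j x r * (I * (cosh (r * om) - 1)) := by
      simp only [fB, pow_succ]
      linear_combination (sinh (Tp r) ^ j * exp (x * sinh (Tp r) - ν * Tp r) * om) * sinh_Tp r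
    rw [e, norm_mul, norm_mul, norm_I, one_mul]
    refine (mul_le_mul (fB_norm ν j hx.le h) (seg_taylor h).2.2.1 (norm_nonneg _)
      (by positivity)).trans ?_
    have a := Real.add_one_le_exp (x * r ^ 2 / 7)
    have b : Real.exp (-(x * r ^ 2 / 7)) * Real.exp (x * r ^ 2 / 7) = 1 := by
      rw [← Real.exp_add]; simp
    have c := mul_le_mul_of_nonneg_left a (Real.exp_pos (-(x * r ^ 2 / 7))).le
    have d := Real.exp_pos (-(x * r ^ 2 / 7))
    rw [le_div_iff₀ hx]
    have k : Real.exp (-(x * r ^ 2 / 7)) * (x * r ^ 2) ≤ 7 := by linarith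
    nlinarith [mul_le_mul_of_nonneg_left k (Real.exp_pos |ν|).le, Real.exp_pos |ν|]
  · rw [sub_neg_eq_add, add_halves, abs_of_pos Real.pi_pos]
    refine (mul_le_mul_of_nonneg_left Real.pi_lt_four.le (by positivity)).trans (le_of_eq ?_)
    ring

theorem A_up (ν : ℝ) {κ x : ℝ} {j : ℕ} (hκ : 0 < κ) (hx : 2 * (|ν| + 1) ≤ κ * x)
    (hj : (j : ℝ) ≤ Real.exp 1 * (1 - κ) * x) : HA ν j x ≤ 6 / κ / x := by
  have kx : 0 < κ * x := lt_of_lt_of_le (by positivity) hx
  have x0 : 0 < x := (mul_pos_iff_of_pos_left hκ).1 kx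
  have e0 := Real.exp_pos 1
  have m := setIntegral_mono_on (intA ν j x0)
    ((integrableOn_exp_neg_Ioi (π / 8)).const_mul (6 / κ / x)) measurableSet_Ioi fun r hr => by
      have r0 := ioi_pos hr
      have r1 : 1 / 3 ≤ r := le_trans (by linarith [Real.pi_gt_three]) (le_of_lt hr)
      have s0 := Real.sinh_nonneg_iff.2 r0
      have s1 := Real.self_le_sinh_iff.2 r0
      have s2 : Real.sinh r ≤ Real.exp (Real.sinh r / Real.exp 1) := by
        have := Real.add_one_le_exp (Real.sinh r / Real.exp 1 - 1)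
        rwa [sub_add_cancel, Real.exp_sub, div_le_div_iff_of_pos_right e0] at this
      have s3 : j * (Real.sinh r / Real.exp 1) ≤ (1 - κ) * x * Real.sinh r := by
        rw [← mul_div_assoc, div_le_iff₀ e0]
        linarith [mul_le_mul_of_nonneg_right hj s0]
      have s4 : Real.exp (-(κ * x / 6)) ≤ 6 / κ / x := by
        rw [Real.exp_neg, div_div, ← inv_div (κ * x) 6]
        exact inv_anti₀ (by positivity) (by linarith [Real.add_one_le_exp (κ * x / 6)])
      refine le_trans ?_ (mul_le_mul_of_nonneg_right s4 (Real.exp_pos (-r)).le)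
      refine (mul_le_mul_of_nonneg_right (pow_le_pow_left₀ s0 s2 j) (Real.exp_pos _).le).trans ?_
      rw [← Real.exp_nat_mul, ← Real.exp_add, ← Real.exp_add]
      refine Real.exp_le_exp.2 ?_
      linarith [mul_le_mul_of_nonneg_left s1 kx.le, mul_le_mul_of_nonneg_right (neg_le_abs ν) r0,
        mul_le_mul_of_nonneg_right hx r0, mul_le_mul_of_nonneg_left r1 kx.le]
  rw [integral_const_mul, integral_exp_neg_Ioi] at m
  exact m.trans (mul_le_of_le_one_right (by positivity)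
    (Real.exp_le_one_iff.2 (neg_nonpos.2 (by positivity))))

theorem A_norm (ν : ℝ) (j : ℕ) (x : ℝ) :
    ‖(-1) ^ j * exp (-(ν * π * I)) * (HA ν j x : ℂ)‖ = HA ν j x := by
  rw [norm_mul, norm_mul, norm_pow, norm_exp, norm_real, Real.norm_of_nonneg (HA_pos _ _ _)]
  simp

theorem E_far (ν : ℝ) {η κ : ℝ} (hη : 0 < η) (hκ : 0 < κ) : ∃ X : ℝ, 0 < X ∧
    ∀ (x : ℝ) (j : ℕ), X ≤ x → (j : ℝ) + 1 ≤ Real.exp 1 * (1 - κ) * x →
      HE ν j x ≠ 0 ∧ ‖HE ν (j + 1) x - I * HE ν j x‖ ≤ η * ‖HE ν j x‖ := by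
  obtain ⟨C, C0, hC⟩ := B_low ν
  set D := C + 6 / κ with hD
  set D' := 4000 * Real.exp |ν| + 2 * (6 / κ) with hD'
  have D0 : 0 < D := by positivity
  have D1 : 0 < D' := by positivity
  set s := 2 * (D' / η + D) + 1 with hs
  have s1 : 1 ≤ s := by
    have : 0 < D' / η := by positivity
    linarith
  refine ⟨max (s ^ 2) (2 * (|ν| + 1) / κ), lt_max_of_lt_left (by positivity),
    fun x j hx hj => ?_⟩
  have x1 : s ≤ √x := Real.le_sqrt_of_sq_le ((le_max_left _ _).trans hx)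
  have x2 : 1 ≤ x := le_trans (by nlinarith) ((le_max_left _ _).trans hx)
  have x0 : 0 < x := by linarith
  have x3 : 2 * (|ν| + 1) ≤ κ * x := by
    have := (le_max_right _ _).trans hx
    rwa [div_le_iff₀' hκ] at this
  have e3 : Real.exp 1 * (1 - κ) * x ≤ 3 * x := by
    refine mul_le_mul_of_nonneg_right ?_ x0.le
    nlinarith [Real.exp_one_lt_d9, Real.exp_pos 1]
  have a1 := A_up ν (j := j) hκ x3 (by linarith)
  have a2 := A_up ν (j := j + 1) hκ x3 (by push_cast; linarith)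
  have b1 := hC j x x2 (by linarith)
  have b2 := B_step ν j x0
  have l1 : 1 / (2 * √x) - D / x ≤ ‖HE ν j x‖ := by
    have := norm_sub_le (HE ν j x) ((-1) ^ j * exp (-(ν * π * I)) * (HA ν j x : ℂ))
    rw [A_norm, HE, add_sub_cancel_right, ← HE] at this
    rw [hD, add_div]
    linarith
  have l2 : ‖HE ν (j + 1) x - I * HE ν j x‖ ≤ D' / x := by
    rw [show HE ν (j + 1) x - I * HE ν j x = (HB' ν (j + 1) x - I * HB' ν j x) +
      (-1) ^ (j + 1) * exp (-(ν * π * I)) * (HA ν (j + 1) x : ℂ) +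
      -I * ((-1) ^ j * exp (-(ν * π * I)) * (HA ν j x : ℂ)) by simp only [HE]; ring]
    refine norm_add₃_le.trans ?_
    rw [norm_mul (-I), A_norm, A_norm, norm_neg, norm_I, hD', add_div, mul_div_assoc 2]
    linarith
  have l3 : (D' / η + D) / x < 1 / (2 * √x) := by
    rw [div_lt_div_iff₀ x0 (by positivity)]
    nlinarith [Real.mul_self_sqrt x0.le]
  rw [add_div] at l3
  have l4 : 0 < D' / η / x := by positivity
  refine ⟨norm_pos_iff.1 (by linarith), l2.trans ?_⟩
  rw [show D' / x = η * (D' / η / x) by field_simp]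
  exact mul_le_mul_of_nonneg_left (by linarith) hη.le

theorem A_low (ν : ℝ) {κ : ℝ} (hκ : 0 < κ) : ∃ a : ℝ, 0 < a ∧ ∀ (n : ℕ) (x : ℝ), 0 < x →
    Real.exp 1 * (1 + κ) * x ≤ n → a * n ≤ HA ν n x := by
  have e0 := Real.exp_pos 1
  set r1 := Real.arsinh (Real.exp 1) with h1
  set r2 := Real.arsinh (Real.exp 1 * (1 + κ / 2)) with h2
  have r12 : r1 < r2 := Real.arsinh_lt_arsinh.2 (by nlinarith)
  have r0 : π / 8 ≤ r1 := by
    rw [← Real.sinh_le_sinh, h1, Real.sinh_arsinh, Real.sinh_eq]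
    linarith [Real.exp_pos (-(π / 8)), Real.exp_pos (π / 8),
      Real.exp_le_exp.2 (show π / 8 ≤ 1 by linarith [Real.pi_lt_four])]
  set b := κ / (2 * (1 + κ)) with hb
  have b0 : 0 < b := by positivity
  refine ⟨b * Real.exp (-(|ν| * r2)) * (r2 - r1), by
    have := sub_pos.2 r12
    positivity, fun n x hx hn => ?_⟩
  have sub : Ioc r1 r2 ⊆ Ioi (π / 8) := fun r hr => r0.trans_lt hr.1
  have m1 : ∫ r in Ioc r1 r2, fA ν n x r ≤ HA ν n x := setIntegral_mono_set (intA ν n hx)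
    (by filter_upwards [ae_restrict_mem measurableSet_Ioi] with r hr using
      fA_pos ν n x (ioi_pos hr)) sub.eventuallyLE
  have m2 := setIntegral_mono_on (μ := volume) (s := Ioc r1 r2)
    (f := fun _ => b * n * Real.exp (-(|ν| * r2))) (continuous_const.integrableOn_Ioc)
    ((intA ν n hx).mono_set sub) measurableSet_Ioc fun r hr => by
      have p0 := ioi_pos (sub hr)
      have s1 : Real.exp 1 ≤ Real.sinh r := by
        rw [← Real.sinh_arsinh (Real.exp 1)]; exact Real.sinh_le_sinh.2 hr.1.le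
      have s2 : Real.sinh r ≤ Real.exp 1 * (1 + κ / 2) := by
        rw [← Real.sinh_arsinh (Real.exp 1 * (1 + κ / 2))]; exact Real.sinh_le_sinh.2 hr.2
      have s3 : x * Real.sinh r ≤ n - b * n := by
        have k : (1 + κ) * (x * Real.sinh r) ≤ (1 + κ) * (n - b * n) := by
          have e : (1 + κ) * (n - b * n) = (1 + κ / 2) * n := by rw [hb]; field_simp; ring
          have := mul_le_mul_of_nonneg_left s2 (show 0 ≤ (1 + κ) * x by positivity)
          have := mul_le_mul_of_nonneg_left hn (show 0 ≤ 1 + κ / 2 by positivity)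
          rw [e]
          linarith
        exact le_of_mul_le_mul_left k (by positivity)
      have s4 : ν * r ≤ |ν| * r2 := mul_le_mul (le_abs_self ν) hr.2 p0 (abs_nonneg ν)
      refine le_trans (mul_le_mul_of_nonneg_right (show b * n ≤ Real.exp (b * n) by
        linarith [Real.add_one_le_exp (b * n)]) (Real.exp_pos _).le) (le_trans ?_
        (mul_le_mul_of_nonneg_right (pow_le_pow_left₀ e0.le s1 n) (Real.exp_pos _).le))
      rw [← Real.exp_nat_mul, ← Real.exp_add, ← Real.exp_add]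
      exact Real.exp_le_exp.2 (by linarith)
  rw [setIntegral_const, Real.volume_real_Ioc_of_le r12.le, smul_eq_mul] at m2
  linarith

theorem E_near {ν κ : ℝ} (hν : NI ν) (hκ : 0 < κ) : ∀ᶠ n : ℕ in atTop, ∀ x : ℝ, 0 < x →
    Real.exp 1 * (1 + κ) * x ≤ n → (HE ν n x).im ≠ 0 := by
  obtain ⟨a, a0, ha⟩ := A_low ν hκ
  have s0 : 0 < |Real.sin (ν * π)| := abs_pos.2 fun e => by
    obtain ⟨k, hk⟩ := Real.sin_eq_zero_iff.1 e
    exact hν k (mul_right_cancel₀ Real.pi_pos.ne' hk).symm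
  filter_upwards [tendsto_natCast_atTop_atTop.eventually_gt_atTop
    (8 * Real.exp |ν| / (|Real.sin (ν * π)| * a))] with n hn x hx h e
  rw [div_lt_iff₀' (by positivity)] at hn
  have b := (abs_im_le_norm _).trans (HB_norm ν n hx.le)
  have c : ((-1) ^ n * exp (-(ν * π * I)) * (HA ν n x : ℂ)).im =
      (-1) ^ n * -Real.sin (ν * π) * HA ν n x := by
    rw [im_mul_ofReal, show ((-1 : ℂ)) ^ n = (((-1 : ℝ) ^ n : ℝ) : ℂ) by push_cast; rfl,
      im_ofReal_mul, show -(ν * π * I : ℂ) = ((-(ν * π) : ℝ) : ℂ) * I by push_cast; ring,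
      exp_ofReal_mul_I_im, Real.sin_neg]
  rw [HE, add_im, c] at e
  rw [eq_neg_of_add_eq_zero_left e, abs_neg, abs_mul, abs_mul, abs_neg, abs_pow, abs_neg, abs_one,
    one_pow, one_mul, abs_of_nonneg (HA_pos _ _ _)] at b
  linarith [mul_le_mul_of_nonneg_left (ha n x hx h) s0.le]

end Pool.Agent.MP_cdfc49_an.BZ
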