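import Mathlib
import Pool.Agent.MP_cdfc49_an.BZ.T2
import Pool.Agent.MP_cdfc49_an.BZ.T4
import Pool.Agent.MP_cdfc49_an.BZ.T5

set_option autoImplicit false

namespace Pool.Agent.MP_cdfc49_an.BZ

open Filter Topology Set
open scoped Real

theorem turan {z0 z1 z2 : ℂ} {η : ℝ} (h : η ≤ 1 / 2) (h0 : z0 ≠ 0) (h1 : z1 ≠ 0)
    (a : ‖z1 - Complex.I * z0‖ ≤ η * ‖z0‖) (b : ‖z2 - Complex.I * z1‖ ≤ η * ‖z1‖)
    (e : z1.im = 0) : z0.im * z2.im < 0 := by
  have n0 := norm_pos_iff.2 h0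
  have n1 := norm_pos_iff.2 h1
  have b1 := ((Complex.abs_im_le_norm _).trans b).trans (mul_le_mul_of_nonneg_right h n1.le)
  have r1 := Complex.abs_re_eq_norm.2 e
  have a1 := pow_le_pow_left₀ (norm_nonneg _) (a.trans (mul_le_mul_of_nonneg_right h n0.le)) 2
  have p0 : 0 < ‖z0‖ ^ 2 := by positivity
  rw [mul_pow] at a1
  simp only [← Complex.normSq_eq_norm_sq, Complex.normSq_apply, Complex.sub_re, Complex.sub_im,
    Complex.mul_re, Complex.mul_im, Complex.I_re, Complex.I_im, e] at a1 p0 b1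
  rw [← r1] at b1 n1
  obtain ⟨b2, b3⟩ := abs_le.1 b1
  have k1 : z1.re * z0.im < 0 := by
    by_contra hc
    nlinarith [not_lt.1 hc, mul_self_nonneg z1.re]
  have k2 : 0 < z1.re * z2.im := by
    rcases abs_cases z1.re with c | c
    · exact mul_pos (by linarith) (by linarith)
    · exact mul_pos_of_neg_of_neg (by linarith) (by linarith)
  by_contra hc
  have k3 := mul_nonneg (not_lt.1 hc) (mul_self_nonneg z1.re)
  have k4 := mul_pos (neg_pos.2 k1) k2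
  linarith

theorem EF (ν : ℝ) {x : ℝ} (hx : 0 < x) :
    (∀ j, (HE ν j x).im = 0 ↔ Fr ν j ((x / 2) ^ 2) = 0) ∧
    ∀ i j, (HE ν i x).im * (HE ν j x).im < 0 ↔ Fr ν i ((x / 2) ^ 2) * Fr ν j ((x / 2) ^ 2) < 0 := by
  obtain ⟨c, hc⟩ := ident_all ν
  have c0 : c ≠ 0 := by
    rintro rfl
    obtain ⟨X, X0, hX⟩ := E_far ν (η := 1 / 2) (κ := 1 / 2) (by norm_num) (by norm_num)
    obtain ⟨a, b⟩ := hX (X + 1) 0 (by linarith) (by
      have := Real.exp_one_gt_d9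
      push_cast
      nlinarith)
    have e0 := hc 0 (X + 1) (by linarith)
    have e1 := hc (0 + 1) (X + 1) (by linarith)
    rw [zero_mul] at e0 e1
    have k := (Complex.abs_im_le_norm _).trans b
    simp only [Complex.sub_im, Complex.mul_im, Complex.I_re, Complex.I_im, e1, zero_mul, one_mul,
      zero_add, zero_sub, abs_neg] at k
    rw [Complex.abs_re_eq_norm.2 e0] at k
    linarith [norm_pos_iff.2 a]
  refine ⟨fun j => by rw [hc j x hx, mul_eq_zero, or_iff_right c0, JJ_zero hx], fun i j => ?_⟩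
  have p1 := Real.rpow_pos_of_pos (half_pos hx) (ν - (i : ℝ))
  have p2 := Real.rpow_pos_of_pos (half_pos hx) (ν - (j : ℝ))
  have p : 0 < c ^ 2 * (x / 2) ^ (ν - (i : ℝ)) * (x / 2) ^ (ν - (j : ℝ)) / (2 ^ i * 2 ^ j) := by
    positivity
  rw [hc i x hx, hc j x hx, show c * JJ ν i x * (c * JJ ν j x) =
    c ^ 2 * (x / 2) ^ (ν - (i : ℝ)) * (x / 2) ^ (ν - (j : ℝ)) / (2 ^ i * 2 ^ j) *
      (Fr ν i ((x / 2) ^ 2) * Fr ν j ((x / 2) ^ 2)) by simp only [JJ]; ring]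
  exact ⟨fun k => neg_of_mul_neg_right k p.le, fun k => mul_neg_of_pos_of_neg p k⟩

theorem tc_inv {ν : ℝ} (hν : NI ν) : ∃ k : ℕ, Inv (cf ν 0) k := by
  by_cases c : -1 < ν
  · exact ⟨0, base ν c⟩
  · have a := Nat.floor_le (show 0 ≤ -ν by linarith)
    have b := Nat.lt_floor_add_one (-ν)
    exact ⟨⌊-ν⌋₊, all_inv _ ν (by linarith) (lt_of_le_of_ne (by linarith) fun e =>
      hν (-(⌊-ν⌋₊ : ℕ)) (by push_cast; exact e))⟩

theorem tc_dr {ν w : ℝ} {j : ℕ} (hw : 0 < w) (e : Fr ν (j + 1) w = 0)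
    (h : Fr ν j w * Fr ν (j + 2) w < 0) : Fr ν j w * Dr ν (j + 1) w < 0 := by
  have := ((relT ν w).1 (j + 1)).2
  rw [e, mul_zero, sub_zero] at this
  rw [← this] at h
  by_contra hc
  have := mul_nonneg hw.le (not_lt.1 hc)
  linarith

theorem tc_chain {ν β : ℝ} (hν : NI ν) (hβ : 0 < β) {l : Filter ℕ} (hl : l ≤ atTop) {P : ℕ}
    (hi : InvB l β (cf ν 0) P) (n : ℕ) (h0 : ∀ j ≤ n, Fr ν j β ≠ 0)
    (h : ∀ j < n, ∀ w, β ≤ w → Fr ν (j + 1) w = 0 → Fr ν j w * Fr ν (j + 2) w < 0) :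
    InvB l β (cf ν n)
      (P + ∑ j ∈ Finset.range n, if Fr ν j β * Fr ν (j + 1) β < 0 then 1 else 0) := by
  induction n with
  | zero => simpa using hi
  | succ n ih =>
    have := stepB hl hβ (b := 2) (a := ν - (n : ℝ))
      (ih (fun j hj => h0 j (by omega)) fun j hj => h j (by omega)) two_pos
      (fun m e => hν (n - 2 * m) (by push_cast; linarith))
      (by rw [← gen3.2.2.1]; exact mul_ne_zero (h0 n (by omega)) (h0 _ le_rfl))
      (by
        rw [← gen3.2.2.1]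
        exact fun w hw e => tc_dr (hβ.trans_le hw) e (h n (by omega) w hw e))
    rw [← gen3.2.2.1] at this
    rw [Finset.sum_range_succ, ← add_assoc]
    exact this

theorem tc_sq {w : ℝ} (hw : 0 ≤ w) : (2 * √w / 2) ^ 2 = w := by
  rw [mul_div_cancel_left₀ _ two_ne_zero, Real.sq_sqrt hw]

theorem tc_zero {ν X x : ℝ} {m q : ℕ} (hX : 0 < X) (hx : X ≤ x) (h0 : Fr ν 0 ((x / 2) ^ 2) ≠ 0)
    (hm : {t ∈ Icc X x | (HE ν 0 t).im = 0}.encard = m)
    (hq : (ZR (cf ν 0) ((X / 2) ^ 2)).encard = q) :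
    ∃ z : ℕ, (ZR (cf ν 0) ((x / 2) ^ 2)).encard = z ∧ m ≤ z ∧ z ≤ m + q := by
  have a : (m : ℕ∞) ≤ (ZR (cf ν 0) ((x / 2) ^ 2)).encard := by
    rw [← hm]
    refine encard_le_encard_of_injOn (f := fun t => (t / 2) ^ 2) (fun t ht => ?_)
      fun u hu v hv e => ?_
    · have t0 := hX.trans_le ht.1.1
      have e := ((EF ν t0).1 0).1 ht.2
      have : t < x := lt_of_le_of_ne ht.1.2 fun d => h0 (d ▸ e)
      exact ⟨by positivity, by simp only; gcongr, e⟩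
    · have := (pow_left_inj₀ (by linarith [hu.1.1]) (by linarith [hv.1.1]) two_ne_zero).1 e
      linarith
  have b : (ZR (cf ν 0) ((x / 2) ^ 2)).encard ≤ ((m + q : ℕ) : ℕ∞) := by
    rw [Nat.cast_add, ← hm, ← hq]
    refine le_trans (encard_le_encard (t := (fun t => (t / 2) ^ 2) ''
      {t ∈ Icc X x | (HE ν 0 t).im = 0} ∪ ZR (cf ν 0) ((X / 2) ^ 2)) fun w hw => ?_)
      ((encard_union_le _ _).trans (add_le_add_left (encard_image_le _ _) _))
    by_cases c : w < (X / 2) ^ 2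
    · exact Or.inr ⟨hw.1, c, hw.2.2⟩
    · have c1 := Real.le_sqrt_of_sq_le (not_lt.1 c)
      have c2 := (Real.sqrt_le_left (show 0 ≤ x / 2 by linarith)).2 hw.2.1.le
      refine Or.inl ⟨2 * √w, ⟨⟨by linarith, by linarith⟩, ((EF ν (by linarith)).1 0).2 ?_⟩,
        tc_sq hw.1.le⟩
      rw [tc_sq hw.1.le]
      exact hw.2.2
  obtain ⟨z, hz⟩ := ENat.ne_top_iff_exists.1 (ne_top_of_le_ne_top (ENat.natCast_ne_top _) b)
  rw [← hz] at a b ⊢
  exact ⟨z, rfl, by exact_mod_cast a, by exact_mod_cast b⟩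

theorem tc_main {ν δ : ℝ} (hν : NI ν) (hδ : 0 < δ) (h2 : δ ≤ 1 / 2) : ∃ C : ℝ, ∀ᶠ n : ℕ in atTop,
    ∃ q : ℕ, zeroCount U0 (S (cf ν n)) = q ∧
      |(q : ℝ) - n * (1 / 2 + 1 / (Real.exp 1 * π))| ≤ 10 * δ * n + C := by
  obtain ⟨X1, X0, hX⟩ := E_far ν hδ hδ
  obtain ⟨n0, hn0⟩ := eventually_atTop.1 (E_near hν hδ)
  obtain ⟨k, hk⟩ := tc_inv hν
  have c0 := fun j => gen3.2.2.2.2.2 ν j 0 hν
  have zk := fin' _ _ hk fun x hx e => exa_dr hx e
  have e1 := Real.exp_one_gt_d9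
  have e2 := Real.exp_one_lt_d9
  have p1 := Real.pi_gt_three
  set E := Real.exp 1 with hE
  have e3 : 1 ≤ E * (1 - δ) := by nlinarith
  have e4 : E * (1 + δ) ≤ 9 / 2 := by nlinarith
  set X := X1 + 2 with hXd
  obtain ⟨q0, hq0⟩ := ENat.ne_top_iff_exists.1
    (zr_fin (sum' ν 0) (c0 0) ((X / 2) ^ 2)).encard_lt_top.ne
  refine ⟨k + q0 + X + 20, ?_⟩
  filter_upwards [eventually_ge_atTop n0, eventually_ge_atTop 1,
    tendsto_natCast_atTop_atTop.eventually_ge_atTop (3 * X)] with n n1 n2 n3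
  have nn : (0 : ℝ) ≤ n := Nat.cast_nonneg n
  set x0 := ((n : ℝ) + 1) / (E * (1 - δ)) with hx0
  have x1 : E * (1 - δ) * x0 = n + 1 := mul_div_cancel₀ _ (by linarith)
  have x2 : 0 < x0 := by positivity
  set y := (n : ℝ) / E with hy
  have y1 : E * y = n := by rw [hy]; field_simp
  have y0 : 0 ≤ y := by positivity
  have x3 : y ≤ x0 := by
    by_contra hc
    linarith [mul_pos (show 0 < E by linarith) (sub_pos.2 (not_le.1 hc)),
      mul_pos (mul_pos (show 0 < E by linarith) hδ) x2]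
  have x4 : x0 ≤ y + δ * n + 1 := by
    have : E * (1 - δ) * (x0 - y) = 1 + δ * n := by linear_combination x1 - (1 - δ) * y1
    linarith [mul_le_mul_of_nonneg_right e3 (sub_nonneg.2 x3)]
  have y2 : X ≤ y := by linarith [mul_le_mul_of_nonneg_right e2.le y0]
  have y3 : y ≤ n / 2 := by linarith [mul_le_mul_of_nonneg_right e1.le y0]
  have y4 : ∀ t, X1 + 1 < t → ((0 : ℕ) : ℝ) + 1 ≤ E * (1 - δ) * t := fun t ht => by
    push_cast
    linarith [mul_le_mul_of_nonneg_right e3 (show 0 ≤ t by linarith)]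
  obtain ⟨β, b1, b2⟩ := (Ioo_infinite (show (x0 / 2) ^ 2 < ((x0 + 1) / 2) ^ 2 by
    gcongr; linarith)).exists_notMem_finite ((finite_Iic n).biUnion fun j _ =>
      zr_fin (sum' ν j) (c0 j) (((x0 + 1) / 2) ^ 2))
  have β0 : 0 < β := lt_trans (by positivity) b1.1
  have fb : ∀ j ≤ n, Fr ν j β ≠ 0 := fun j hj e => b2 (mem_biUnion hj ⟨β0, b1.2, e⟩)
  have s1 := Real.le_sqrt_of_sq_le b1.1.le
  have s2 := (Real.sqrt_le_left (show 0 ≤ (x0 + 1) / 2 by linarith)).2 b1.2.le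
  set x := 2 * √β with hx
  have xβ : (x / 2) ^ 2 = β := tc_sq β0.le
  have x5 : x0 ≤ x := by linarith
  have x6 : x ≤ x0 + 1 := by linarith
  have far : ∀ t, x ≤ t → ∀ j ≤ n, HE ν j t ≠ 0 ∧
      ‖HE ν (j + 1) t - Complex.I * HE ν j t‖ ≤ δ * ‖HE ν j t‖ := fun t ht j hj =>
    hX t j (by linarith) (by
      have : (j : ℝ) ≤ n := by exact_mod_cast hj
      linarith [mul_le_mul_of_nonneg_left (x5.trans ht) (zero_le_one.trans e3)])
  have tu : ∀ j < n, ∀ w, β ≤ w → Fr ν (j + 1) w = 0 → Fr ν j w * Fr ν (j + 2) w < 0 := by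
    intro j hj w hw e
    have t1 : x ≤ 2 * √w := by linarith [Real.sqrt_le_sqrt hw]
    obtain ⟨a, b⟩ := EF ν (x := 2 * √w) (by linarith)
    rw [tc_sq (β0.le.trans hw)] at a b
    exact (b j (j + 2)).1 (turan h2 (far _ t1 j hj.le).1 (far _ t1 (j + 1) hj).1
      (far _ t1 j hj.le).2 (far _ t1 (j + 1) hj).2 ((a _).2 e))
  obtain ⟨m, m1, m2⟩ := ph_cont (E0 := HE ν 0) (E1 := HE ν 1) (X0 := X1 + 1) (X := X) (x := x) h2
    (by linarith) (by linarith) (fun t ht => dE ν 0 (by linarith))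
    (fun t ht => (dE ν 1 (by linarith)).continuousAt)
    (fun t ht => (hX t 0 (by linarith) (y4 t ht)).1)
    fun t ht => (hX t 0 (by linarith) (y4 t ht)).2
  obtain ⟨z, z1, z2, z3⟩ := tc_zero (by linarith) (by linarith) (xβ ▸ fb 0 (by omega)) m1 hq0.symm
  rw [xβ] at z1
  have sp := fun j => zc_split (gen1 _ (sum' ν j)).2.2.1 (S_zero (sum' ν j) (c0 j)) β0
  have u0 : zeroCount (UB β) (S (cf ν 0)) = ((k + z : ℕ) : ℕ∞) := by
    rw [sp, zk, zc_simple (sum' ν 0) β fun x hx e => exa_dr hx e, z1, Nat.cast_add]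
  have sm : ∀ w : ℝ, β < w → Sr (cf ν 0) w = 0 → Sr (dc (cf ν 0)) w ≠ 0 :=
    fun w hw e => exa_dr (β0.trans hw) e
  obtain ⟨l, P, l1, l2, l3⟩ := baseB β0 hk (fb 0 (by omega)) sm (u0 ▸ ENat.natCast_ne_top _)
  have hP : P = k + z := by
    have := finB l2 β0 l3 (fb 0 (by omega)) sm
    rw [u0] at this
    exact_mod_cast this.symm
  have un := finB l2 β0 (tc_chain hν β0 l2 l3 n fb tu) (fb n le_rfl) fun w hw e => by
    obtain ⟨j, rfl⟩ : ∃ j, n = j + 1 := ⟨n - 1, by omega⟩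
    exact right_ne_zero_of_mul (tc_dr (β0.trans hw) e (tu j (by omega) w hw.le e)).ne
  obtain ⟨f1, f2⟩ := EF ν (x := x) (by linarith)
  rw [xβ] at f1 f2
  have v := ph_disc (z := fun j => HE ν j x) h2 n (fun j hj => (far x le_rfl j hj.le).2)
    fun j hj e => fb j hj ((f1 j).1 e)
  simp only [f2] at v
  set V : ℕ := ∑ j ∈ Finset.range n, if Fr ν j β * Fr ν (j + 1) β < 0 then 1 else 0
  have d1 := Nat.le_ceil (6 * δ * n + 9)
  have d2 := Nat.ceil_lt_add_one (show 0 ≤ 6 * δ * n + 9 by positivity)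
  set d := ⌈6 * δ * n + 9⌉₊
  have dn : 0 ≤ δ * n := by positivity
  have w1 := window hν β d n fun w w0 hw e => by
    have t0 : 0 < 2 * √w := by positivity
    have t1 : 2 * √w ≤ x := by linarith [Real.sqrt_le_sqrt hw.le]
    refine hn0 (n + d) (by omega) _ t0 ?_ (((EF ν t0).1 _).2 (by rwa [tc_sq w0.le]))
    have a1 : E * (1 + δ) * (2 * √w) ≤ E * (1 + δ) * (y + (δ * n + 2)) :=
      mul_le_mul_of_nonneg_left (by linarith) (by positivity)
    have a2 : E * (1 + δ) * (δ * n + 2) ≤ 9 / 2 * (δ * n + 2) :=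
      mul_le_mul_of_nonneg_right e4 (by positivity)
    have a3 : E * (1 + δ) * y = n + δ * n := by linear_combination (1 + δ) * y1
    push_cast
    linarith
  rw [sp] at un
  obtain ⟨q, hq⟩ := ENat.ne_top_iff_exists.1
    (ne_top_of_le_ne_top (ENat.natCast_ne_top _) (le_self_add.trans un.le))
  obtain ⟨W, hW⟩ := ENat.ne_top_iff_exists.1 (ne_top_of_le_ne_top (ENat.natCast_ne_top _) w1)
  rw [← hW] at w1
  rw [← hq, ← hW] at un
  have r1 : (q : ℝ) + W = k + z + V := by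
    have : q + W = P + V := by exact_mod_cast un
    rw [hP] at this
    exact_mod_cast this
  have r2 : (W : ℝ) ≤ d := by exact_mod_cast w1
  have r3 : (m : ℝ) ≤ z := by exact_mod_cast z2
  have r4 : (z : ℝ) ≤ m + q0 := by exact_mod_cast z3
  have r5 : (0 : ℝ) ≤ W := Nat.cast_nonneg W
  have r6 : (0 : ℝ) ≤ k := Nat.cast_nonneg k
  have r7 : (0 : ℝ) ≤ q0 := Nat.cast_nonneg q0
  refine ⟨q, hq.symm, ?_⟩
  have g1 : (n : ℝ) * (1 / 2 + 1 / (E * π)) = n / 2 + y / π := by rw [hy]; field_simp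
  have g2 : |(x - X) / π - y / π| ≤ δ * n + 2 + X := by
    rw [← sub_div, abs_div, abs_of_pos Real.pi_pos]
    refine (div_le_self (abs_nonneg _) (by linarith)).trans (abs_le.2 ⟨?_, ?_⟩) <;> linarith
  have g3 : δ * (x - X) ≤ δ * n + 1 := by
    have := mul_le_mul_of_nonneg_right h2 nn
    have : δ * (x - X) ≤ δ * (n + 2) := mul_le_mul_of_nonneg_left (by linarith) hδ.le
    linarith
  obtain ⟨v1, v2⟩ := abs_le.1 v
  obtain ⟨g4, g5⟩ := abs_le.1 g2
  obtain ⟨m3, m4⟩ := abs_le.1 m2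
  rw [g1, abs_le]
  constructor <;> linarith

theorem final_count {ν : ℝ} (hν : NI ν) : ∃ N : ℕ → ℕ,
    (∀ n, zeroCount {z : ℂ | z.im ≠ 0} (G ν n) = (N n : ℕ∞)) ∧
    Tendsto (fun n : ℕ => (N n : ℝ) / n) atTop (𝓝 (1 + 2 / (Real.exp 1 * π))) := by
  have fin : ∀ n, ∃ q : ℕ, (q : ℕ∞) = zeroCount U0 (S (cf ν n)) := by
    intro n
    obtain ⟨K, hK⟩ := exists_nat_gt ((n : ℝ) - 1 - ν)
    exact ENat.ne_top_iff_exists.1
      (ne_top_of_le_ne_top (ENat.natCast_ne_top _) (up ν n K hν (by linarith)).1)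
  choose q hq using fin
  refine ⟨fun n => 2 * q n, fun n => ?_, Metric.tendsto_nhds.2 fun ε hε => ?_⟩
  · rw [G_eq, tr' _ (gen1 _ (sum' ν n)).2.2.1, ← hq]
    push_cast
    rfl
  · obtain ⟨C, hC⟩ := tc_main hν (δ := min (ε / 40) (1 / 2)) (by positivity) (min_le_right _ _)
    filter_upwards [hC, tendsto_natCast_atTop_atTop.eventually_gt_atTop (4 * C / ε),
      eventually_gt_atTop 0] with n ⟨r, r1, r2⟩ n1 n2
    have n0 : (0 : ℝ) < n := by exact_mod_cast n2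
    have e : q n = r := by exact_mod_cast (hq n).trans r1
    rw [div_lt_iff₀' hε] at n1
    have k := mul_le_mul_of_nonneg_right (min_le_left (ε / 40) (1 / 2)) n0.le
    rw [Real.dist_eq, show ((2 * q n : ℕ) : ℝ) / n - (1 + 2 / (Real.exp 1 * π)) =
      2 * ((r : ℝ) - n * (1 / 2 + 1 / (Real.exp 1 * π))) / n by
        rw [e]; push_cast; field_simp, abs_div, abs_mul, abs_of_pos n0, abs_two, div_lt_iff₀ n0]
    linarith

end Pool.Agent.MP_cdfc49_an.BZ
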